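import Mathlib

/-!
# MP_a12917_nt, project GT: definitions

THEOREM (project GT, Gaussian law for the truncated divisor function in short intervals). Let
`S(x) = ∑_{a ≤ z} (#{n ∈ (x, x+H] : a ∣ n} - H/a)`, `z^ε ≤ H ≤ z^(1-ε)`. If `x` is uniform in
`[Y, 2Y)` with `log Y / log z → ∞`, then `S/σ → N(0,1)`; and the `m`-th moment is asymptotically
Gaussian as soon as `Y ≥ z^(2m+4)`.

Notation: `hs z = ∑_{a ≤ z} 1/a` (called `ℓ` in the docstrings), `ram q` the Ramanujan sum `c_q`,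
`wt z q = w_z(q) = ∑_{a ≤ z, q ∣ a} 1/a ≤ ℓ/q`, `ee ρ n = exp(2 π i ρ n)` (`ρ` rational),
`Fr q = {ρ ∈ [0,1) : den ρ = q}`, `nd ρ = ‖ρ‖` (distance to the nearest integer),
`EK K ρ = min(K, 1/(2‖ρ‖))`, `mean L f` the mean of `f` over `0 ≤ x < L`,
`Lm z = (z!)^z` a common multiple of everything, `Nm z p = ((p-1)!)^z` (coprime to the prime `p`).
-/

set_option autoImplicit false

noncomputable section

namespace Pool.Agent.MP_a12917_nt_GT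

open Finset

/-- mean of `f` over `0 ≤ x < L` -/
def mean (L : ℕ) (f : ℤ → ℝ) : ℝ := (∑ x ∈ range L, f (x : ℤ)) / L

/-- harmonic sum, called `ℓ` in the docstrings -/
def hs (z : ℕ) : ℝ := ∑ a ∈ Icc 1 z, 1 / (a : ℝ)

/-- number of elements of `Q` dividing `n` -/
def cnt (Q : Finset ℕ) (n : ℤ) : ℕ := (Q.filter fun a : ℕ => (a : ℤ) ∣ n).card

/-- number of multiples of `a` in `(x, x+H]` minus `H/a` -/
def Ua (a H : ℕ) (x : ℤ) : ℝ :=
  (∑ h ∈ Icc 1 H, if (a : ℤ) ∣ x + (h : ℤ) then (1 : ℝ) else 0) - (H : ℝ) / a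

/-- the remainder of the truncated divisor sum over `(x, x+H]` -/
def S (z H : ℕ) (x : ℤ) : ℝ := ∑ a ∈ Icc 1 z, Ua a H x

/-- the weight `w_z(q)` -/
def wt (z q : ℕ) : ℝ := ∑ a ∈ (Icc 1 z).filter (fun a => q ∣ a), 1 / (a : ℝ)

/-- Ramanujan sum `c_q(n)` -/
def ram (q : ℕ) (n : ℤ) : ℝ :=
  ∑ d ∈ q.divisors, if (d : ℤ) ∣ n then ((ArithmeticFunction.moebius (q / d) : ℤ) : ℝ) * d else 0

/-- `exp(2 π i ρ n)` -/
def ee (ρ : ℚ) (n : ℤ) : ℂ := Complex.exp (2 * Real.pi * Complex.I * ((ρ * n : ℚ) : ℂ))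

/-- the fractions in `[0,1)` with denominator `q` -/
def Fr (q : ℕ) : Finset ℚ := ((range q).filter fun r => Nat.Coprime r q).image fun r : ℕ => (r : ℚ) / (q : ℚ)

/-- distance to the nearest integer -/
def nd (ρ : ℚ) : ℝ := |((ρ - round ρ : ℚ) : ℝ)|

/-- `min(K, 1/(2‖ρ‖))` -/
def EK (K : ℝ) (ρ : ℚ) : ℝ := if 2 * K * nd ρ ≤ 1 then K else 1 / (2 * nd ρ)

/-- `min(1, 1/(2p‖ρ‖))` (for `ρ` not an integer) -/
def kap (p : ℕ) (ρ : ℚ) : ℝ := min 1 (1 / (2 * p * nd ρ))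

/-- allowed cofactors of the largest prime `p` -/
def Qp (y z p : ℕ) : Finset ℕ :=
  (Icc 1 (z / p)).filter fun q =>
    (∀ r ∈ q.primeFactors, r < p) ∧ (∀ r ∈ q.primeFactors, y < r → ¬ r ^ 2 ∣ q)

/-- the function `g_p` -/
def g (y z p : ℕ) (n : ℤ) : ℝ := ∑ q ∈ Qp y z p, wt (z / p) q * ram q n

/-- `g_p` without its constant term -/
def gt (y z p : ℕ) (n : ℤ) : ℝ := ∑ q ∈ (Qp y z p).filter (fun q => 2 ≤ q), wt (z / p) q * ram q n

/-- the martingale difference -/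
def D (p H : ℕ) (f : ℤ → ℝ) (x : ℤ) : ℝ :=
  ∑ h ∈ Icc 1 H, ((if (p : ℤ) ∣ x + (h : ℤ) then (1 : ℝ) else 0) - 1 / p) * f (x + (h : ℤ))

/-- sum over the residue class `b` mod `p` -/
def U (p H : ℕ) (f : ℤ → ℝ) (b : ℕ) (x : ℤ) : ℝ :=
  ∑ h ∈ (Icc 1 H).filter (fun h => h % p = b), f (x + (h : ℤ))

/-- mean of the `U` -/
def Ub (p H : ℕ) (f : ℤ → ℝ) (x : ℤ) : ℝ := (∑ h ∈ Icc 1 H, f (x + (h : ℤ))) / p

/-- conditional variance of `D` -/
def V (p H : ℕ) (f : ℤ → ℝ) (x : ℤ) : ℝ :=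
  (∑ b ∈ range p, (U p H f b x - Ub p H f x) ^ 2) / p

/-- the primes in `(y, z]` -/
def Pr (y z : ℕ) : Finset ℕ := (Ioc y z).filter Nat.Prime

/-- the martingale -/
def M (y z H t : ℕ) (x : ℤ) : ℝ := ∑ p ∈ (Pr y z).filter (fun p => p < t), D p H (g y z p) x

/-- the moduli that are dropped -/
def Bad (y z : ℕ) : Finset ℕ :=
  (Icc 2 z).filter fun q =>
    (∀ r ∈ q.primeFactors, r ≤ y) ∨ (∃ r ∈ q.primeFactors, y < r ∧ r ^ 2 ∣ q)

/-- the moduli of `M y z H t` -/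
def Good (y z t : ℕ) : Finset ℕ :=
  (Icc 2 z).filter fun q => q ∉ Bad y z ∧ ∀ r ∈ q.primeFactors, r < t

/-- the dropped part -/
def R (y z H : ℕ) (x : ℤ) : ℝ := ∑ q ∈ Bad y z, wt z q * ∑ h ∈ Icc 1 H, ram q (x + (h : ℤ))

/-- the `y`-smooth numbers up to `z` -/
def Sm (y z : ℕ) : Finset ℕ := (Icc 1 z).filter fun q => ∀ r ∈ q.primeFactors, r ≤ y

/-- modulus before the prime `p` -/
def Nm (z p : ℕ) : ℕ := ((p - 1).factorial) ^ z

/-- the big modulus -/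
def Lm (z : ℕ) : ℕ := (z.factorial) ^ z

/-- average over an interval of classes of a window sum with step `p` -/
def A1 (p β lam K : ℕ) (f : ℤ → ℝ) (x : ℤ) : ℝ :=
  (∑ b ∈ Ioc β (β + lam), ∑ j ∈ range K, f (x + (b : ℤ) + (p : ℤ) * (j : ℤ))) / p

/-- the same with squares -/
def A2 (p β lam K : ℕ) (f : ℤ → ℝ) (x : ℤ) : ℝ :=
  (∑ b ∈ Ioc β (β + lam), (∑ j ∈ range K, f (x + (b : ℤ) + (p : ℤ) * (j : ℤ))) ^ 2) / p

/-- fractions with denominator between 2 and z -/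
def RU (z : ℕ) : Finset ℚ := (Icc 2 z).biUnion Fr

/-- sums of two fractions mod 1 -/
def R2 (T : Finset ℚ) : Finset ℚ := (T ×ˢ T).image fun u => Int.fract (u.1 + u.2)

/-- coefficient of the square -/
def NN (T : Finset ℚ) (b : ℚ → ℝ) (σ : ℚ) : ℝ :=
  ∑ u ∈ (T ×ˢ T).filter (fun u => Int.fract (u.1 + u.2) = σ), b u.1 * b u.2

/-- majorant weight -/
def bw (z : ℕ) (K : ℝ) (ρ : ℚ) : ℝ := hs z / ρ.den * EK K ρ

/-- standard deviation -/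
def sd (L : ℕ) (f : ℤ → ℝ) : ℝ := Real.sqrt (mean L (fun x => (f x - mean L f) ^ 2))

/-- standard deviation of `V` -/
def sdV (y z H p : ℕ) : ℝ := sd (Lm z) (V p H (g y z p))

/-- the error at the prime `p` in the recursion for the `m`-th moment -/
def E1 (m y z H p : ℕ) : ℝ :=
  (m.choose 2 : ℝ) * Real.sqrt (mean (Lm z) (fun x => M y z H p x ^ (2 * (m - 2)))) * sdV y z H p +
    ∑ i ∈ Icc 3 m, (m.choose i : ℝ) *
      mean (Lm z) (fun x => |M y z H p x| ^ (m - i) * |D p H (g y z p) x| ^ i)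

/-- Gaussian moments -/
def gam : ℕ → ℝ
  | 0 => 1
  | 1 => 0
  | (m + 2) => (m + 1) * gam m

/-- `γ_m s^(m/2)` -/
def PP (m : ℕ) (s : ℝ) : ℝ := if Even m then gam m * s ^ (m / 2) else 0

/-- mean over `[Y, 2Y)` -/
def EY (Y : ℕ) (f : ℤ → ℝ) : ℝ := (∑ x ∈ Ico Y (2 * Y), f (x : ℤ)) / Y

end Pool.Agent.MP_a12917_nt_GT
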