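import Mathlib
import Pool.Agent.Lib.MP_a12917_nt_GT.Defs

/-!
# MP_a12917_nt, project GT: basic facts on `mean`, `ee`, `Fr` (all proved)
-/

set_option autoImplicit false

noncomputable section

namespace Pool.Agent.MP_a12917_nt_GT

open Finset

/-! ### mean -/

theorem mean_add (L : ℕ) (f h : ℤ → ℝ) :
    mean L (fun x => f x + h x) = mean L f + mean L h := by
  simp only [mean, sum_add_distrib, add_div]

theorem mean_sub (L : ℕ) (f h : ℤ → ℝ) :
    mean L (fun x => f x - h x) = mean L f - mean L h := by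
  simp only [mean, sum_sub_distrib, sub_div]

theorem mean_const_mul (L : ℕ) (c : ℝ) (f : ℤ → ℝ) :
    mean L (fun x => c * f x) = c * mean L f := by
  simp only [mean, ← mul_sum, mul_div_assoc]

theorem mean_div_const (L : ℕ) (c : ℝ) (f : ℤ → ℝ) :
    mean L (fun x => f x / c) = mean L f / c := by
  simp only [mean, ← sum_div]; ring

theorem mean_sum {ι : Type} (L : ℕ) (s : Finset ι) (f : ι → ℤ → ℝ) :
    mean L (fun x => ∑ i ∈ s, f i x) = ∑ i ∈ s, mean L (f i) := by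
  simp only [mean]
  rw [sum_comm, ← sum_div]

theorem mean_const (L : ℕ) (hL : 0 < L) (c : ℝ) : mean L (fun _ => c) = c := by
  have : (L : ℝ) ≠ 0 := by positivity
  simp only [mean, sum_const, card_range, nsmul_eq_mul]
  field_simp

theorem mean_nonneg (L : ℕ) (f : ℤ → ℝ) (hf : ∀ x, 0 ≤ f x) : 0 ≤ mean L f :=
  div_nonneg (sum_nonneg fun x _ => hf x) (Nat.cast_nonneg _)

theorem mean_mono (L : ℕ) (f h : ℤ → ℝ) (hfh : ∀ x, f x ≤ h x) : mean L f ≤ mean L h :=
  div_le_div_of_nonneg_right (sum_le_sum fun x _ => hfh x) (Nat.cast_nonneg _)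

theorem mean_congr (L : ℕ) (f h : ℤ → ℝ) (hfh : ∀ x, f x = h x) : mean L f = mean L h := by
  rw [show f = h from funext hfh]

theorem abs_mean_le (L : ℕ) (f : ℤ → ℝ) : |mean L f| ≤ mean L (fun x => |f x|) := by
  simp only [mean, abs_div, Nat.abs_cast]
  exact div_le_div_of_nonneg_right (abs_sum_le_sum_abs _ _) (Nat.cast_nonneg _)

/-- Cauchy-Schwarz -/
theorem mean_cs (L : ℕ) (f h : ℤ → ℝ) :
    mean L (fun x => f x * h x) ≤
      Real.sqrt (mean L (fun x => f x ^ 2)) * Real.sqrt (mean L (fun x => h x ^ 2)) := by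
  rcases Nat.eq_zero_or_pos L with h0 | h0
  · subst h0; simp [mean]
  have hL : (0 : ℝ) < L := by exact_mod_cast h0
  have key := sum_mul_sq_le_sq_mul_sq (range L) (fun x : ℕ => f x) (fun x : ℕ => h x)
  rw [← Real.sqrt_mul (mean_nonneg _ _ fun x => sq_nonneg _)]
  apply Real.le_sqrt_of_sq_le
  simp only [mean]
  rw [div_pow, div_mul_div_comm, ← sq]
  exact div_le_div_of_nonneg_right key (by positivity)

theorem mean_abs_cs (L : ℕ) (f h : ℤ → ℝ) :
    mean L (fun x => |f x| * |h x|) ≤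
      Real.sqrt (mean L (fun x => f x ^ 2)) * Real.sqrt (mean L (fun x => h x ^ 2)) := by
  have := mean_cs L (fun x => |f x|) (fun x => |h x|)
  simpa only [sq_abs] using this

theorem sq_mean_le (L : ℕ) (f : ℤ → ℝ) : (mean L f) ^ 2 ≤ mean L (fun x => f x ^ 2) := by
  rcases Nat.eq_zero_or_pos L with h0 | h0
  · subst h0; simp [mean]
  have h1 := mean_abs_cs L f (fun _ => 1)
  have h2 := abs_mean_le L f
  simp only [abs_one, mul_one, one_pow] at h1
  rw [mean_const L h0, Real.sqrt_one, mul_one] at h1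
  have h3 : |mean L f| ≤ Real.sqrt (mean L (fun x => f x ^ 2)) := h2.trans h1
  rw [← sq_abs]
  calc |mean L f| ^ 2 ≤ (Real.sqrt (mean L (fun x => f x ^ 2))) ^ 2 := by
        gcongr
    _ = _ := Real.sq_sqrt (mean_nonneg _ _ fun x => sq_nonneg _)

theorem per_mul (N k : ℕ) (f : ℤ → ℝ) (hf : ∀ x, f (x + (N : ℤ)) = f x) (x : ℤ) :
    f (x + ((N * k : ℕ) : ℤ)) = f x := by
  induction k with
  | zero => simp
  | succ k ih =>
    rw [← ih, ← hf (x + ((N * k : ℕ) : ℤ))]
    congr 1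
    push_cast; ring

theorem per_dvd (N L : ℕ) (h : N ∣ L) (f : ℤ → ℝ) (hf : ∀ x, f (x + (N : ℤ)) = f x) (x : ℤ) :
    f (x + (L : ℤ)) = f x := by
  obtain ⟨k, rfl⟩ := h
  exact per_mul N k f hf x

/-- the mean does not depend on the period -/
theorem mean_of_dvd (N L : ℕ) (h : N ∣ L) (hL : 0 < L) (f : ℤ → ℝ)
    (hf : ∀ x, f (x + (N : ℤ)) = f x) : mean L f = mean N f := by
  obtain ⟨k, rfl⟩ := h
  have hN : 0 < N := Nat.pos_of_mul_pos_right hL |> fun h => by
    rcases Nat.eq_zero_or_pos N with h0 | h0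
    · subst h0; simp at hL
    · exact h0
  have hk : 0 < k := by
    rcases Nat.eq_zero_or_pos k with h0 | h0
    · subst h0; simp at hL
    · exact h0
  have key : ∀ k : ℕ, ∑ x ∈ range (N * k), f (x : ℤ) = k * ∑ x ∈ range N, f (x : ℤ) := by
    intro k
    induction k with
    | zero => simp
    | succ k ih =>
      rw [Nat.mul_succ, sum_range_add, ih]
      have : ∀ x ∈ range N, f (((N * k + x : ℕ) : ℤ)) = f (x : ℤ) := by
        intro x _
        have := per_mul N k f hf (x : ℤ)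
        rw [← this]; congr 1; push_cast; ring
      rw [sum_congr rfl this]
      push_cast; ring
  simp only [mean]
  rw [key]
  have h1 : (N : ℝ) ≠ 0 := by positivity
  have h2 : (k : ℝ) ≠ 0 := by positivity
  push_cast
  field_simp

theorem mean_shift_one (L : ℕ) (f : ℤ → ℝ) (hf : ∀ x, f (x + (L : ℤ)) = f x) :
    mean L (fun x => f (x + 1)) = mean L f := by
  simp only [mean]
  congr 1
  have h1 := sum_range_succ (fun x : ℕ => f (x : ℤ)) L
  have h2 := sum_range_succ' (fun x : ℕ => f (x : ℤ)) L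
  have h3 : f ((L : ℕ) : ℤ) = f 0 := by simpa using hf 0
  rw [h1] at h2
  push_cast at h2
  rw [h3] at h2
  linarith

theorem mean_shift_nat (L : ℕ) (f : ℤ → ℝ) (hf : ∀ x, f (x + (L : ℤ)) = f x) (k : ℕ) :
    mean L (fun x => f (x + (k : ℤ))) = mean L f := by
  induction k with
  | zero => simp
  | succ k ih =>
    rw [← ih, ← mean_shift_one L (fun x => f (x + (k : ℤ)))
      (fun x => by rw [← hf (x + k)]; congr 1; ring)]
    apply mean_congr
    intro x
    congr 1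
    push_cast; ring

/-- shift invariance of the mean -/
theorem mean_shift (L : ℕ) (f : ℤ → ℝ) (hf : ∀ x, f (x + (L : ℤ)) = f x) (k : ℤ) :
    mean L (fun x => f (x + k)) = mean L f := by
  obtain ⟨n, rfl | rfl⟩ := Int.eq_nat_or_neg k
  · exact mean_shift_nat L f hf n
  · have := mean_shift_nat L (fun x => f (x + (-(n : ℤ))))
      (fun x => by rw [← hf (x + -(n : ℤ))]; congr 1; ring) n
    rw [← this]
    apply mean_congr
    intro x
    congr 1
    ring

/-! ### ee -/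

theorem ee_add_left (ρ σ : ℚ) (n : ℤ) : ee (ρ + σ) n = ee ρ n * ee σ n := by
  simp only [ee, ← Complex.exp_add]
  congr 1
  push_cast; ring

theorem ee_add_right (ρ : ℚ) (m n : ℤ) : ee ρ (m + n) = ee ρ m * ee ρ n := by
  simp only [ee, ← Complex.exp_add]
  congr 1
  push_cast; ring

theorem ee_zero_left (n : ℤ) : ee 0 n = 1 := by simp [ee]

theorem ee_zero_right (ρ : ℚ) : ee ρ 0 = 1 := by simp [ee]

theorem ee_mul_right (ρ : ℚ) (m n : ℤ) : ee ρ (m * n) = ee (m * ρ) n := by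
  simp only [ee]
  congr 2
  push_cast; ring

theorem ee_nat_mul (ρ : ℚ) (m : ℕ) (n : ℤ) : ee ρ ((m : ℤ) * n) = ee ρ n ^ m := by
  simp only [ee, ← Complex.exp_nat_mul]
  congr 1
  push_cast; ring

theorem norm_ee (ρ : ℚ) (n : ℤ) : ‖ee ρ n‖ = 1 := by
  simp only [ee]
  rw [show 2 * (Real.pi : ℂ) * Complex.I * ((ρ * n : ℚ) : ℂ)
    = ((2 * Real.pi * ((ρ * n : ℚ) : ℝ) : ℝ) : ℂ) * Complex.I by push_cast; ring]
  exact Complex.norm_exp_ofReal_mul_I _

theorem conj_ee (ρ : ℚ) (n : ℤ) : (starRingEnd ℂ) (ee ρ n) = ee (-ρ) n := by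
  have h2 : (starRingEnd ℂ) 2 = 2 := by
    have := Complex.conj_ofReal 2
    simpa using this
  have h3 : (starRingEnd ℂ) (((ρ * n : ℚ) : ℂ)) = ((ρ * n : ℚ) : ℂ) := by
    have := Complex.conj_ofReal ((ρ * n : ℚ) : ℝ)
    simpa using this
  simp only [ee, ← Complex.exp_conj, map_mul, Complex.conj_I, Complex.conj_ofReal, h2, h3]
  congr 1
  push_cast; ring

/-- `ee ρ n = 1` exactly if `ρ n` is an integer -/
theorem ee_eq_one_iff (ρ : ℚ) (n : ℤ) : ee ρ n = 1 ↔ ∃ k : ℤ, ρ * n = k := by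
  simp only [ee]
  rw [Complex.exp_eq_one_iff]
  constructor
  · rintro ⟨k, hk⟩
    refine ⟨k, ?_⟩
    have h1 : ((ρ * n : ℚ) : ℂ) = (k : ℂ) := by
      have h2 : (2 * (Real.pi : ℂ) * Complex.I) ≠ 0 := by
        simp [Real.pi_ne_zero]
      have : (2 * (Real.pi : ℂ) * Complex.I) * ((ρ * n : ℚ) : ℂ)
          = (2 * (Real.pi : ℂ) * Complex.I) * (k : ℂ) := by rw [hk]; ring
      exact mul_left_cancel₀ h2 this
    exact_mod_cast h1
  · rintro ⟨k, hk⟩
    refine ⟨k, ?_⟩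
    rw [hk]
    push_cast; ring

theorem ee_int (k n : ℤ) : ee (k : ℚ) n = 1 := by
  rw [ee_eq_one_iff]
  exact ⟨k * n, by push_cast; ring⟩

theorem ee_fract (ρ : ℚ) (n : ℤ) : ee (Int.fract ρ) n = ee ρ n := by
  have h : ρ = Int.fract ρ + (⌊ρ⌋ : ℚ) := by rw [Int.fract_add_floor]
  conv_rhs => rw [h]
  rw [ee_add_left, ee_int, mul_one]

theorem ee_per (ρ : ℚ) (q : ℕ) (h : ρ.den ∣ q) (n : ℤ) : ee ρ (n + (q : ℤ)) = ee ρ n := by
  rw [ee_add_right]
  have : ee ρ (q : ℤ) = 1 := by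
    rw [ee_eq_one_iff]
    obtain ⟨k, rfl⟩ := h
    refine ⟨ρ.num * k, ?_⟩
    have h1 := Rat.mul_den_eq_num ρ
    push_cast
    rw [← mul_assoc, h1]
  rw [this, mul_one]

/-! ### Fr -/

theorem mem_Fr (q : ℕ) (hq : 0 < q) (ρ : ℚ) : ρ ∈ Fr q ↔ 0 ≤ ρ ∧ ρ < 1 ∧ ρ.den = q := by
  simp only [Fr, mem_image, mem_filter, mem_range]
  constructor
  · rintro ⟨r, ⟨hr, hco⟩, rfl⟩
    have hq' : (0 : ℚ) < q := by exact_mod_cast hq
    refine ⟨by positivity, ?_, ?_⟩
    · rw [div_lt_one hq']; exact_mod_cast hr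
    · have := Rat.den_div_eq_of_coprime (a := (r : ℤ)) (b := (q : ℤ)) (by exact_mod_cast hq)
        (by simpa using hco)
      have h5 : ((r : ℚ) / (q : ℚ)) = (((r : ℤ) : ℚ) / ((q : ℤ) : ℚ)) := by push_cast; rfl
      rw [h5]
      exact_mod_cast this
  · rintro ⟨h0, h1, h2⟩
    refine ⟨ρ.num.toNat, ⟨?_, ?_⟩, ?_⟩
    · have hnum : 0 ≤ ρ.num := Rat.num_nonneg.mpr h0
      have h3 : ρ.num < ρ.den := Rat.num_lt_denom_iff.mpr h1
      rw [h2] at h3
      omega
    · have hnum : 0 ≤ ρ.num := Rat.num_nonneg.mpr h0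
      have := ρ.reduced
      rw [h2] at this
      have h4 : ρ.num.toNat = ρ.num.natAbs := by omega
      rw [h4]; exact this
    · have hnum : 0 ≤ ρ.num := Rat.num_nonneg.mpr h0
      have h4 : ((ρ.num.toNat : ℕ) : ℚ) = (ρ.num : ℚ) := by
        have : ((ρ.num.toNat : ℕ) : ℤ) = ρ.num := Int.toNat_of_nonneg hnum
        exact_mod_cast this
      rw [h4, ← h2]
      exact Rat.num_div_den ρ

theorem card_Fr_le (q : ℕ) : (Fr q).card ≤ q := by
  refine (card_image_le).trans ((card_filter_le _ _).trans ?_)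
  simp

theorem one_le_hs (z : ℕ) (hz : 1 ≤ z) : 1 ≤ hs z := by
  have h1 : (1 : ℕ) ∈ Icc 1 z := by simp [hz]
  have := single_le_sum (f := fun a : ℕ => 1 / (a : ℝ)) (fun i _ => by positivity) h1
  simpa [hs] using this

theorem hs_nonneg (z : ℕ) : 0 ≤ hs z := sum_nonneg fun i _ => by positivity

theorem hs_mono (z w : ℕ) (h : z ≤ w) : hs z ≤ hs w :=
  sum_le_sum_of_subset_of_nonneg (Icc_subset_Icc le_rfl h) fun i _ _ => by positivity

theorem Lm_pos (z : ℕ) : 0 < Lm z := Nat.pow_pos (Nat.factorial_pos z)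

theorem Nm_pos (z p : ℕ) : 0 < Nm z p := Nat.pow_pos (Nat.factorial_pos _)

end Pool.Agent.MP_a12917_nt_GT
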