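import Mathlib
import Pool.Agent.Lib.MP_a12917_nt_GT.Defs
import Pool.Agent.Lib.MP_a12917_nt_GT.Basic

/-!
# MP_a12917_nt, project GT, module NdFacts: distance to the nearest integer

(`ℓ = hs z`.)
Elementary: `nd ρ = |ρ - round ρ|`. `nd_le_half`: `abs_sub_round`. `nd_eq_zero`: `nd ρ = 0` iff
`ρ` is an
integer iff `den ρ = 1`. `nd_add_int`: `round (ρ + k) = round ρ + k`. `nd_fract`: `ρ = fract ρ +
⌊ρ⌋`.
`sin_ge`: `|sin(πρ)| = |sin(π(ρ - round ρ))| ≥ (2/π) π |ρ - round ρ|` by Jordan's inequality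
(`Real.mul_le_sin`-type lemma: `2/π x ≤ sin x` on `[0, π/2]`). `EK_mono`, `EK_nonneg` by cases.
`EK_fract` from `nd_fract`. For `EK_ge`: a number `t ≤ K` with `t ≤ 1/(2 nd ρ)` (in case `nd ρ ≠
0`) is
`≤ EK K ρ` (both cases of the definition; if `2 K nd ρ > 1` then `nd ρ > 0`). In `EK_mono`: if
`2K nd ≤ 1 < 2K' nd` then `K ≤ 1/(2 nd)`; if `2 K' nd ≤ 1` then `2 K nd ≤ 1` too.
-/

set_option autoImplicit false

noncomputable section

namespace Pool.Agent.MP_a12917_nt_GT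

open Finset

theorem nd_nonneg (ρ : ℚ) : 0 ≤ nd ρ := abs_nonneg _

theorem nd_le_half (ρ : ℚ) : nd ρ ≤ 1 / 2 := by
  have h1 := abs_sub_round ρ
  have h2 : nd ρ = ((|ρ - round ρ| : ℚ) : ℝ) := by
    unfold nd
    rw [Rat.cast_abs]
  rw [h2]
  have h3 : ((|ρ - round ρ| : ℚ) : ℝ) ≤ ((1 / 2 : ℚ) : ℝ) := by exact_mod_cast h1
  have h4 : ((1 / 2 : ℚ) : ℝ) = 1 / 2 := by norm_num
  rw [h4] at h3
  exact h3

theorem nd_eq_zero (ρ : ℚ) : nd ρ = 0 ↔ ρ.den = 1 := by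
  unfold nd
  rw [abs_eq_zero, Rat.cast_eq_zero, sub_eq_zero]
  constructor
  · intro h
    rw [h]
    exact Rat.den_intCast _
  · intro h
    rw [Rat.den_eq_one_iff] at h
    rw [← h, round_intCast]

theorem nd_add_int (ρ : ℚ) (k : ℤ) : nd (ρ + k) = nd ρ := by
  unfold nd
  rw [round_add_intCast]
  congr 2
  push_cast
  ring

theorem nd_fract (ρ : ℚ) : nd (Int.fract ρ) = nd ρ := by
  have h1 : Int.fract ρ = ρ + ((-⌊ρ⌋ : ℤ) : ℚ) := by
    unfold Int.fract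
    push_cast
    ring
  rw [h1, nd_add_int]

theorem sin_ge (ρ : ℚ) : 2 * nd ρ ≤ |Real.sin (Real.pi * (ρ : ℝ))| := by
  have h1 := nd_le_half ρ
  have hpi := Real.pi_pos
  have h2 : |Real.sin (Real.pi * (ρ : ℝ))| =
      |Real.sin (Real.pi * ((ρ - round ρ : ℚ) : ℝ))| := by
    have h3 : Real.pi * (ρ : ℝ) =
        Real.pi * ((ρ - round ρ : ℚ) : ℝ) + (round ρ : ℤ) * Real.pi := by
      push_cast
      ring
    rw [h3, Real.sin_add_int_mul_pi, abs_mul, abs_zpow, abs_neg, abs_one, one_zpow, one_mul]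
  rw [h2]
  have h4 : |Real.pi * ((ρ - round ρ : ℚ) : ℝ)| = Real.pi * nd ρ := by
    unfold nd
    rw [abs_mul, abs_of_pos hpi]
  have h5 := Real.mul_abs_le_abs_sin (x := Real.pi * ((ρ - round ρ : ℚ) : ℝ)) (by
    rw [h4]
    nlinarith)
  rw [h4] at h5
  have h6 : 2 / Real.pi * (Real.pi * nd ρ) = 2 * nd ρ := by
    field_simp
  rw [h6] at h5
  exact h5

theorem EK_nonneg (K : ℝ) (hK : 0 ≤ K) (ρ : ℚ) : 0 ≤ EK K ρ := by
  unfold EK
  split_ifs
  · exact hK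
  · have := nd_nonneg ρ
    positivity

theorem EK_mono (K K' : ℝ) (hK : 0 ≤ K) (h : K ≤ K') (ρ : ℚ) : EK K ρ ≤ EK K' ρ := by
  have _ := hK
  have hn := nd_nonneg ρ
  unfold EK
  split_ifs with h1 h2 h2
  · exact h
  · rw [not_le] at h2
    have h3 : 0 < nd ρ := by
      rcases hn.lt_or_eq with h4 | h4
      · exact h4
      · rw [← h4] at h2
        simp at h2
        linarith
    rw [le_div_iff₀ (by positivity)]
    linarith
  · exfalso
    apply h1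
    have h3 : 2 * K * nd ρ ≤ 2 * K' * nd ρ :=
      mul_le_mul_of_nonneg_right (by linarith) hn
    linarith
  · exact le_refl _

theorem EK_fract (K : ℝ) (ρ : ℚ) : EK K (Int.fract ρ) = EK K ρ := by
  unfold EK
  rw [nd_fract]

theorem EK_ge (K t : ℝ) (ρ : ℚ) (h1 : t ≤ K) (h2 : nd ρ ≠ 0 → t ≤ 1 / (2 * nd ρ)) :
    t ≤ EK K ρ := by
  unfold EK
  split_ifs with h3
  · exact h1
  · refine h2 fun h4 => h3 ?_
    rw [h4, mul_zero]
    exact zero_le_one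

end Pool.Agent.MP_a12917_nt_GT
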