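import Mathlib
import Pool.Agent.Lib.MP_a12917_nt_GT.Defs
import Pool.Agent.Lib.MP_a12917_nt_GT.Basic
import Pool.Agent.Lib.MP_a12917_nt_GT.NdFacts

/-!
# MP_a12917_nt, project GT, module FKb: bounds for geometric sums

(`ℓ = hs z`.)
`‖∑_{j<K} ee ρ (c + j)‖ = ‖∑_{j<K} r^j‖`, `r = ee ρ 1`, is `≤ K` (`norm_ee`), and
`= |sin(πKρ)|/|sin(πρ)| ≤ 1/|sin(πρ)| ≤ 1/(2 nd ρ)` if `ρ` is not an integer (geometric sum:
`‖r^K - 1‖ ≤ 2`, `‖r - 1‖ = 2|sin(πρ)| ≥ 4 nd ρ` by `sin_ge`). Then `EK_ge`. `fk_Icc`: shift the index.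
For `fk_step` use `ee ρ (p*j) = ee (p ρ) j` (`ee_mul_right`) and `fk_range` for the rational `p ρ`, then
`EK_fract`. `kap_bound`: the norm is `≤ lam/p ≤ 1`, and `≤ 1/(2 p nd ρ)` by the geometric sum (if
`nd ρ ≠ 0`; `hρ` excludes this case).
-/

set_option autoImplicit false

noncomputable section

namespace Pool.Agent.MP_a12917_nt_GT

open Finset

namespace FKb

theorem norm_le (K : ℕ) (ρ : ℚ) (f : ℕ → ℤ) : ‖∑ j ∈ range K, ee ρ (f j)‖ ≤ (K : ℝ) := by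
  refine (norm_sum_le _ _).trans ?_
  simp [norm_ee]

theorem sub_one (ρ : ℚ) : 4 * nd ρ ≤ ‖ee ρ 1 - 1‖ := by
  have h1 : ee ρ 1 = Complex.exp (Complex.I * ((2 * (Real.pi * (ρ : ℝ)) : ℝ) : ℂ)) := by
    unfold ee
    congr 1
    push_cast
    ring
  rw [h1, Complex.norm_exp_I_mul_ofReal_sub_one, Real.norm_eq_abs, abs_mul,
    abs_of_pos (zero_lt_two' ℝ), mul_div_cancel_left₀ _ (two_ne_zero' ℝ)]
  have h2 := sin_ge ρ
  linarith

theorem geo (K : ℕ) (ρ : ℚ) (c : ℤ) (h : nd ρ ≠ 0) :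
    ‖∑ j ∈ range K, ee ρ (c + (j : ℤ))‖ ≤ 1 / (2 * nd ρ) := by
  have hnd : 0 < nd ρ := lt_of_le_of_ne (nd_nonneg ρ) (Ne.symm h)
  have h1 : ∑ j ∈ range K, ee ρ (c + (j : ℤ)) = ee ρ c * ∑ j ∈ range K, ee ρ 1 ^ j := by
    rw [Finset.mul_sum]
    refine Finset.sum_congr rfl fun j _ => ?_
    rw [ee_add_right, ← ee_nat_mul, mul_one]
  have h2 : (∑ j ∈ range K, ee ρ 1 ^ j) * (ee ρ 1 - 1) = ee ρ 1 ^ K - 1 :=
    geom_sum_mul _ _
  have h3 : ‖ee ρ 1 ^ K - 1‖ ≤ 2 := by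
    refine (norm_sub_le _ _).trans ?_
    rw [norm_pow, norm_ee, one_pow, norm_one]
    norm_num
  have h4 : ‖∑ j ∈ range K, ee ρ 1 ^ j‖ * ‖ee ρ 1 - 1‖ ≤ 2 := by
    rw [← norm_mul, h2]
    exact h3
  rw [h1, norm_mul, norm_ee, one_mul, le_div_iff₀ (by positivity)]
  have h5 := sub_one ρ
  have h6 : ‖∑ j ∈ range K, ee ρ 1 ^ j‖ * (4 * nd ρ) ≤ 2 :=
    (mul_le_mul_of_nonneg_left h5 (norm_nonneg _)).trans h4
  linarith

end FKb

theorem fk_range (K : ℕ) (K' : ℝ) (hK : (K : ℝ) ≤ K') (ρ : ℚ) (c : ℤ) :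
    ‖∑ j ∈ range K, ee ρ (c + (j : ℤ))‖ ≤ EK K' ρ := by
  exact EK_ge K' _ ρ ((FKb.norm_le K ρ fun j => c + (j : ℤ)).trans hK) (FKb.geo K ρ c)

theorem fk_Icc (K : ℕ) (K' : ℝ) (hK : (K : ℝ) ≤ K') (ρ : ℚ) (c : ℤ) :
    ‖∑ h ∈ Icc 1 K, ee ρ (c + (h : ℤ))‖ ≤ EK K' ρ := by
  have h1 : ∑ h ∈ Icc 1 K, ee ρ (c + (h : ℤ)) = ∑ j ∈ range K, ee ρ (c + 1 + (j : ℤ)) := by
    refine Finset.sum_nbij' (fun h => h - 1) (fun j => j + 1) ?_ ?_ ?_ ?_ ?_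
    · intro h hh
      rw [Finset.mem_Icc] at hh
      rw [Finset.mem_range]
      omega
    · intro j hj
      rw [Finset.mem_range] at hj
      rw [Finset.mem_Icc]
      omega
    · intro h hh
      rw [Finset.mem_Icc] at hh
      omega
    · intro j _
      omega
    · intro h hh
      rw [Finset.mem_Icc] at hh
      congr 1
      have : ((h - 1 : ℕ) : ℤ) = (h : ℤ) - 1 := by omega
      rw [this]
      ring
  rw [h1]
  exact fk_range K K' hK ρ (c + 1)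

theorem fk_step (p K : ℕ) (K' : ℝ) (hK : (K : ℝ) ≤ K') (ρ : ℚ) (c : ℤ) :
    ‖∑ j ∈ range K, ee ρ (c + (p : ℤ) * (j : ℤ))‖ ≤ EK K' (Int.fract ((p : ℚ) * ρ)) := by
  have h1 : ∑ j ∈ range K, ee ρ (c + (p : ℤ) * (j : ℤ)) =
      ee ρ c * ∑ j ∈ range K, ee ((p : ℚ) * ρ) (0 + (j : ℤ)) := by
    rw [Finset.mul_sum]
    refine Finset.sum_congr rfl fun j _ => ?_
    rw [ee_add_right, ee_mul_right, zero_add, Int.cast_natCast]
  rw [h1, norm_mul, norm_ee, one_mul, EK_fract]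
  exact fk_range K K' hK _ 0

theorem kap_bound (p β lam : ℕ) (hp : 0 < p) (hlam : lam ≤ p) (ρ : ℚ) (hρ : ρ.den ≠ 1) :
    ‖(∑ b ∈ Ioc β (β + lam), ee ρ (b : ℤ)) / (p : ℂ)‖ ≤ kap p ρ := by
  have hp' : (0 : ℝ) < p := by exact_mod_cast hp
  have h1 : ∑ b ∈ Ioc β (β + lam), ee ρ (b : ℤ) =
      ∑ j ∈ range lam, ee ρ ((β : ℤ) + 1 + (j : ℤ)) := by
    refine Finset.sum_nbij' (fun h => h - (β + 1)) (fun j => β + 1 + j) ?_ ?_ ?_ ?_ ?_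
    · intro h hh
      rw [Finset.mem_Ioc] at hh
      rw [Finset.mem_range]
      omega
    · intro j hj
      rw [Finset.mem_range] at hj
      rw [Finset.mem_Ioc]
      omega
    · intro h hh
      rw [Finset.mem_Ioc] at hh
      omega
    · intro j _
      omega
    · intro h hh
      rw [Finset.mem_Ioc] at hh
      congr 1
      have : ((h - (β + 1) : ℕ) : ℤ) = (h : ℤ) - ((β : ℤ) + 1) := by omega
      rw [this]
      ring
  have hnd0 : nd ρ ≠ 0 := fun h => hρ ((nd_eq_zero ρ).1 h)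
  have hnd : 0 < nd ρ := lt_of_le_of_ne (nd_nonneg ρ) (Ne.symm hnd0)
  rw [h1, norm_div, Complex.norm_natCast]
  unfold kap
  refine le_min ?_ ?_
  · rw [div_le_one hp']
    refine (FKb.norm_le lam ρ fun j => (β : ℤ) + 1 + (j : ℤ)).trans ?_
    exact_mod_cast hlam
  · have h2 := FKb.geo lam ρ ((β : ℤ) + 1) hnd0
    rw [div_le_iff₀ hp']
    refine h2.trans (le_of_eq ?_)
    field_simp

end Pool.Agent.MP_a12917_nt_GT
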