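import Mathlib
import Pool.Agent.Lib.MP_a12917_nt_GT.Defs
import Pool.Agent.Lib.MP_a12917_nt_GT.Basic

/-!
# MP_a12917_nt, project GT, module SumEe: complete exponential sums

(`ℓ = hs z`.)
`ee ρ x = (ee ρ 1)^x` (`ee_nat_mul`), a geometric sum with ratio `r = ee ρ 1`, `r^L = ee ρ L = 1`
because `ρ L` is an integer (`ρ.den ∣ L`, see `ee_per`/`ee_eq_one_iff`). If `ρ.den ≠ 1` then
`r ≠ 1` (`ee_eq_one_iff`), so the sum is `(r^L - 1)/(r - 1) = 0`; if `ρ.den = 1` all terms are `1`.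
-/

set_option autoImplicit false

noncomputable section

namespace Pool.Agent.MP_a12917_nt_GT

open Finset

theorem sum_ee (ρ : ℚ) (L : ℕ) (hL : ρ.den ∣ L) :
    ∑ x ∈ range L, ee ρ (x : ℤ) = if ρ.den = 1 then (L : ℂ) else 0 := by
  have h1 : ∀ x : ℕ, ee ρ (x : ℤ) = ee ρ 1 ^ x := by
    intro x
    have h := ee_nat_mul ρ x 1
    rwa [mul_one] at h
  have h2 : ∑ x ∈ range L, ee ρ (x : ℤ) = ∑ x ∈ range L, ee ρ 1 ^ x :=
    sum_congr rfl fun x _ => h1 x
  rw [h2]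
  by_cases hd : ρ.den = 1
  · have h3 : ee ρ 1 = 1 := by
      rw [ee_eq_one_iff]
      refine ⟨ρ.num, ?_⟩
      rw [Int.cast_one, mul_one]
      exact (Rat.den_eq_one_iff ρ).1 hd |>.symm
    rw [if_pos hd, h3]
    simp
  · have h3 : ee ρ 1 ≠ 1 := by
      intro h
      obtain ⟨k, hk⟩ := (ee_eq_one_iff ρ 1).1 h
      rw [Int.cast_one, mul_one] at hk
      rw [hk] at hd
      exact hd (Rat.den_intCast k)
    have h4 : ee ρ 1 ^ L = 1 := by
      rw [← h1]
      have h5 := ee_per ρ L hL 0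
      rwa [zero_add, ee_zero_right] at h5
    rw [if_neg hd, geom_sum_eq h3, h4, sub_self, zero_div]

end Pool.Agent.MP_a12917_nt_GT
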