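import Mathlib
import Pool.Agent.Lib.MP_a12917_nt_GT.Defs
import Pool.Agent.Lib.MP_a12917_nt_GT.Basic
import Pool.Agent.Lib.MP_a12917_nt_GT.SumEe

/-!
# MP_a12917_nt, project GT, module Pars: Parseval

(`ℓ = hs z`.)
Expand `‖∑ a_ρ e(ρx)‖² = Re ∑_{ρ,σ} a_ρ conj(a_σ) ee (ρ - σ) x` (`conj_ee`, `ee_add_left`) and sum
over `x < L`: by `sum_ee` (the denominator of `ρ - σ` divides `L`) only the pairs with `ρ - σ` an
integer contribute, and `0 ≤ ρ, σ < 1` forces `ρ = σ`.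
-/

set_option autoImplicit false

noncomputable section

namespace Pool.Agent.MP_a12917_nt_GT

open Finset

private theorem Pars_den (ρ σ : ℚ) (L : ℕ) (h1 : ρ.den ∣ L) (h2 : σ.den ∣ L) :
    (ρ + -σ).den ∣ L := by
  refine (Rat.add_den_dvd_lcm ρ (-σ)).trans (Nat.lcm_dvd h1 ?_)
  rw [Rat.neg_den]
  exact h2

private theorem Pars_eq (ρ σ : ℚ) (h1 : 0 ≤ ρ ∧ ρ < 1) (h2 : 0 ≤ σ ∧ σ < 1) :
    (ρ + -σ).den = 1 ↔ ρ = σ := by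
  constructor
  · intro h
    have h3 : ((ρ + -σ).num : ℚ) = ρ + -σ := Rat.coe_int_num_of_den_eq_one h
    have h4 : ((ρ + -σ).num : ℚ) < 1 := by linarith [h1.2, h2.1]
    have h5 : (-1 : ℚ) < ((ρ + -σ).num : ℚ) := by linarith [h1.1, h2.2]
    have h6 : (ρ + -σ).num < 1 := by exact_mod_cast h4
    have h7 : -1 < (ρ + -σ).num := by exact_mod_cast h5
    have h8 : (ρ + -σ).num = 0 := by omega
    rw [h8] at h3
    push_cast at h3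
    linarith
  · rintro rfl
    rw [add_neg_cancel]
    rfl

theorem parseval (T : Finset ℚ) (hT : ∀ ρ ∈ T, 0 ≤ ρ ∧ ρ < 1) (L : ℕ) (hL0 : 0 < L)
    (hL : ∀ ρ ∈ T, ρ.den ∣ L) (a : ℚ → ℂ) :
    mean L (fun x => ‖∑ ρ ∈ T, a ρ * ee ρ x‖ ^ 2) = ∑ ρ ∈ T, ‖a ρ‖ ^ 2 := by
  have h1 : ∀ x : ℤ, ((‖∑ ρ ∈ T, a ρ * ee ρ x‖ ^ 2 : ℝ) : ℂ) =
      ∑ ρ ∈ T, ∑ σ ∈ T, a ρ * (starRingEnd ℂ) (a σ) * ee (ρ + -σ) x := by
    intro x
    rw [Complex.ofReal_pow, ← Complex.mul_conj', map_sum, Finset.sum_mul_sum]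
    refine Finset.sum_congr rfl fun ρ _ => Finset.sum_congr rfl fun σ _ => ?_
    rw [map_mul, conj_ee, ee_add_left]
    ring
  have h2 : ((∑ x ∈ range L, ‖∑ ρ ∈ T, a ρ * ee ρ (x : ℤ)‖ ^ 2 : ℝ) : ℂ) =
      ((L * ∑ ρ ∈ T, ‖a ρ‖ ^ 2 : ℝ) : ℂ) := by
    rw [Complex.ofReal_sum]
    simp only [h1]
    rw [Finset.sum_comm]
    push_cast
    rw [Finset.mul_sum]
    refine Finset.sum_congr rfl fun ρ hρ => ?_
    rw [Finset.sum_comm]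
    have h3 : ∀ σ ∈ T, ∑ x ∈ range L, a ρ * (starRingEnd ℂ) (a σ) * ee (ρ + -σ) (x : ℤ) =
        if ρ = σ then a ρ * (starRingEnd ℂ) (a σ) * L else 0 := by
      intro σ hσ
      rw [← Finset.mul_sum, sum_ee _ L (Pars_den ρ σ L (hL ρ hρ) (hL σ hσ))]
      by_cases h : ρ = σ
      · rw [if_pos ((Pars_eq ρ σ (hT ρ hρ) (hT σ hσ)).2 h), if_pos h]
      · rw [if_neg (fun h' => h ((Pars_eq ρ σ (hT ρ hρ) (hT σ hσ)).1 h')), if_neg h, mul_zero]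
    rw [Finset.sum_congr rfl h3, Finset.sum_ite_eq, if_pos hρ, Complex.mul_conj', mul_comm]
  have h4 : (∑ x ∈ range L, ‖∑ ρ ∈ T, a ρ * ee ρ (x : ℤ)‖ ^ 2 : ℝ) =
      L * ∑ ρ ∈ T, ‖a ρ‖ ^ 2 := by exact_mod_cast h2
  unfold mean
  rw [h4, mul_div_assoc, mul_div_left_comm, div_self (by positivity), mul_one]

end Pool.Agent.MP_a12917_nt_GT
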