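import Mathlib
import Pool.Agent.Lib.MP_a12917_nt_GT.Defs
import Pool.Agent.Lib.MP_a12917_nt_GT.Basic
import Pool.Agent.Lib.MP_a12917_nt_GT.Pars
import Pool.Agent.Lib.MP_a12917_nt_GT.FKb
import Pool.Agent.Lib.MP_a12917_nt_GT.NdFacts

/-!
# MP_a12917_nt, project GT, module A1n: square mean of A1

(`ℓ = hs z`.)
`A1 p β lam K f x = ∑_{ρ ∈ T} a ρ · F_ρ · G_ρ · ee ρ x` with `F_ρ = ∑_{j<K} ee ρ (p j)`,
`G_ρ = (1/p) ∑_{b ∈ Ioc β (β+lam)} ee ρ b` (`ee_add_right`). By `parseval` (the square of the real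
number is the square of the norm) the mean square is `∑ |a ρ|² ‖F_ρ‖² ‖G_ρ‖²`; `fk_step` (with `c = 0`)
and `kap_bound` (`0 < ρ < 1`, so `ρ.den ≠ 1`).
-/

set_option autoImplicit false

noncomputable section

namespace Pool.Agent.MP_a12917_nt_GT

open Finset

theorem A1_norm (p : ℕ) (hp : 0 < p) (T : Finset ℚ) (hT : ∀ ρ ∈ T, 0 < ρ ∧ ρ < 1)
    (L : ℕ) (hL0 : 0 < L) (hL : ∀ ρ ∈ T, ρ.den ∣ L) (a : ℚ → ℝ) (f : ℤ → ℝ)
    (hf : ∀ n, (f n : ℂ) = ∑ ρ ∈ T, (a ρ : ℂ) * ee ρ n) (β lam K : ℕ) (hlam : lam ≤ p)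
    (K' : ℝ) (hK : (K : ℝ) ≤ K') :
    mean L (fun x => A1 p β lam K f x ^ 2) ≤
      ∑ ρ ∈ T, (|a ρ| * EK K' (Int.fract ((p : ℚ) * ρ))) ^ 2 * kap p ρ ^ 2 := by
  let F : ℚ → ℂ := fun ρ => ∑ j ∈ range K, ee ρ (0 + (p : ℤ) * (j : ℤ))
  let G : ℚ → ℂ := fun ρ => (∑ b ∈ Ioc β (β + lam), ee ρ (b : ℤ)) / (p : ℂ)
  have h1 : ∀ x : ℤ, ((A1 p β lam K f x : ℝ) : ℂ) =
      ∑ ρ ∈ T, ((a ρ : ℂ) * (F ρ * G ρ)) * ee ρ x := by
    intro x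
    unfold A1
    push_cast
    simp only [hf]
    have h2 : ∑ b ∈ Ioc β (β + lam), ∑ j ∈ range K, ∑ ρ ∈ T,
        (a ρ : ℂ) * ee ρ (x + (b : ℤ) + (p : ℤ) * (j : ℤ)) =
        ∑ ρ ∈ T, ∑ b ∈ Ioc β (β + lam), ∑ j ∈ range K,
          (a ρ : ℂ) * ee ρ (x + (b : ℤ) + (p : ℤ) * (j : ℤ)) := by
      rw [Finset.sum_comm]
      rw [Finset.sum_congr rfl fun j _ => Finset.sum_comm, Finset.sum_comm]
      refine Finset.sum_congr rfl fun ρ _ => Finset.sum_comm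
    rw [h2, Finset.sum_div]
    refine Finset.sum_congr rfl fun ρ _ => ?_
    have h3 : ∑ b ∈ Ioc β (β + lam), ∑ j ∈ range K,
        (a ρ : ℂ) * ee ρ (x + (b : ℤ) + (p : ℤ) * (j : ℤ)) =
        (a ρ : ℂ) * ee ρ x * ((∑ b ∈ Ioc β (β + lam), ee ρ (b : ℤ)) *
          ∑ j ∈ range K, ee ρ (0 + (p : ℤ) * (j : ℤ))) := by
      rw [Finset.sum_mul_sum, Finset.mul_sum]
      refine Finset.sum_congr rfl fun b _ => ?_
      rw [Finset.mul_sum]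
      refine Finset.sum_congr rfl fun j _ => ?_
      rw [ee_add_right, ee_add_right, zero_add]
      ring
    rw [h3]
    simp only [F, G]
    ring
  have h4 : mean L (fun x => A1 p β lam K f x ^ 2) =
      mean L (fun x => ‖∑ ρ ∈ T, ((a ρ : ℂ) * (F ρ * G ρ)) * ee ρ x‖ ^ 2) := by
    refine mean_congr _ _ _ fun x => ?_
    rw [← h1, Complex.norm_real, Real.norm_eq_abs, sq_abs]
  rw [h4, parseval T (fun ρ hρ => ⟨(hT ρ hρ).1.le, (hT ρ hρ).2⟩) L hL0 hL]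
  refine Finset.sum_le_sum fun ρ hρ => ?_
  have h5 : ‖F ρ‖ ≤ EK K' (Int.fract ((p : ℚ) * ρ)) := fk_step p K K' hK ρ 0
  have hden : ρ.den ≠ 1 := by
    intro h
    have h6 : ((ρ.num : ℤ) : ℚ) = ρ := Rat.coe_int_num_of_den_eq_one h
    obtain ⟨h7, h8⟩ := hT ρ hρ
    rw [← h6] at h7 h8
    have h9 : 0 < ρ.num := by exact_mod_cast h7
    have h10 : ρ.num < 1 := by exact_mod_cast h8
    omega
  have h6 : ‖G ρ‖ ≤ kap p ρ := kap_bound p β lam hp hlam ρ hden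
  rw [norm_mul, norm_mul, Complex.norm_real, Real.norm_eq_abs, ← mul_assoc, mul_pow]
  have h7 : |a ρ| * ‖F ρ‖ ≤ |a ρ| * EK K' (Int.fract ((p : ℚ) * ρ)) :=
    mul_le_mul_of_nonneg_left h5 (abs_nonneg _)
  exact mul_le_mul (pow_le_pow_left₀ (by positivity) h7 2)
    (pow_le_pow_left₀ (norm_nonneg _) h6 2) (by positivity) (by positivity)

end Pool.Agent.MP_a12917_nt_GT
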