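import Mathlib
import Pool.Agent.Lib.MP_a12917_nt_GT.Defs
import Pool.Agent.Lib.MP_a12917_nt_GT.Basic

/-!
# MP_a12917_nt, project GT, module Dil: dilation of fractions by p

(`ℓ = hs z`.)
`fract_den`: `ρ = a/q` in lowest terms, `gcd(p,q) = 1`: `p ρ = pa/q` is in lowest terms, and
subtracting
the floor does not change the denominator (`Rat.sub_intCast_den`-type lemma, or
`Int.fract ρ = ρ - ⌊ρ⌋`). `fract_inj`: `p (ρ - σ)` is an integer `k`, and the denominator of `ρ -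
σ` divides
`ρ.den σ.den`, so it is coprime to `p`; by `fract_den`-type reasoning `den(p(ρ-σ)) = den(ρ - σ)`, so
`ρ - σ` is an integer and `|ρ - σ| < 1`. `fract_fract_add`: `fract(p ρ) + fract(p σ) ≡ p (ρ + σ) ≡
p fract(ρ+σ)` mod integers. `add_cop`: `(ρ+σ).den ∣ ρ.den σ.den`. `den_fract`: `(Int.fract ρ).den
= ρ.den`.
-/

set_option autoImplicit false

noncomputable section

namespace Pool.Agent.MP_a12917_nt_GT

open Finset

theorem Dil.den_mul (p : ℕ) (ρ : ℚ) (h : ρ.den.Coprime p) : ((p : ℚ) * ρ).den = ρ.den := by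
  have h1 : (((p : ℚ).num * ρ.num).natAbs).gcd ((p : ℚ).den * ρ.den) = 1 := by
    rw [Rat.num_natCast, Rat.den_natCast, one_mul, Int.natAbs_mul, Int.natAbs_natCast]
    exact Nat.Coprime.mul_left h.symm ρ.reduced
  rw [Rat.mul_den, h1, Nat.div_one, Rat.den_natCast, one_mul]

theorem den_fract (ρ : ℚ) : (Int.fract ρ).den = ρ.den := by
  have h1 : ∀ (x : ℚ) (k : ℤ), (x + k).den ∣ x.den := by
    intro x k
    have h2 := Rat.add_den_dvd x k
    rwa [Rat.den_intCast, mul_one] at h2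
  have h3 : Int.fract ρ = ρ + ((-⌊ρ⌋ : ℤ) : ℚ) := by
    unfold Int.fract
    push_cast
    ring
  have h4 : ρ = Int.fract ρ + ((⌊ρ⌋ : ℤ) : ℚ) := by
    unfold Int.fract
    ring
  apply Nat.dvd_antisymm
  · conv_lhs => rw [h3]
    exact h1 _ _
  · conv_lhs => rw [h4]
    exact h1 _ _

theorem fract_den (p : ℕ) (ρ : ℚ) (h : ρ.den.Coprime p) :
    (Int.fract ((p : ℚ) * ρ)).den = ρ.den := by
  rw [den_fract, Dil.den_mul p ρ h]

theorem fract_inj (p : ℕ) (ρ σ : ℚ) (h0 : 0 ≤ ρ) (h1 : ρ < 1) (h2 : 0 ≤ σ)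
    (h3 : σ < 1) (hρ : ρ.den.Coprime p) (hσ : σ.den.Coprime p)
    (h : Int.fract ((p : ℚ) * ρ) = Int.fract ((p : ℚ) * σ)) : ρ = σ := by
  obtain ⟨z, hz⟩ := Int.fract_eq_fract.1 h
  have h4 : (p : ℚ) * (ρ - σ) = z := by rw [← hz]; ring
  have h5 : (ρ - σ).den.Coprime p := by
    have h6 : (ρ - σ).den ∣ ρ.den * σ.den := by
      have h7 := Rat.add_den_dvd ρ (-σ)
      rwa [Rat.den_neg_eq_den, ← sub_eq_add_neg] at h7
    exact Nat.Coprime.coprime_dvd_left h6 (Nat.Coprime.mul_left hρ hσ)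
  have h6 := Dil.den_mul p (ρ - σ) h5
  rw [h4, Rat.den_intCast] at h6
  have h7 := (Rat.den_eq_one_iff (ρ - σ)).1 h6.symm
  have h8 : (ρ - σ).num = 0 := by
    have h9 : (((ρ - σ).num : ℤ) : ℚ) < 1 := by rw [h7]; linarith
    have h10 : (-1 : ℚ) < (((ρ - σ).num : ℤ) : ℚ) := by rw [h7]; linarith
    have h11 : (ρ - σ).num < 1 := by exact_mod_cast h9
    have h12 : -1 < (ρ - σ).num := by exact_mod_cast h10
    omega
  rw [h8, Int.cast_zero] at h7
  linarith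

theorem fract_fract_add (p : ℕ) (ρ σ : ℚ) :
    Int.fract (Int.fract ((p : ℚ) * ρ) + Int.fract ((p : ℚ) * σ)) =
      Int.fract ((p : ℚ) * Int.fract (ρ + σ)) := by
  rw [Int.fract_eq_fract]
  refine ⟨p * ⌊ρ + σ⌋ - ⌊(p : ℚ) * ρ⌋ - ⌊(p : ℚ) * σ⌋, ?_⟩
  unfold Int.fract
  push_cast
  ring

theorem add_cop (p : ℕ) (ρ σ : ℚ) (hρ : ρ.den.Coprime p) (hσ : σ.den.Coprime p) :
    (Int.fract (ρ + σ)).den.Coprime p := by
  rw [den_fract]
  exact Nat.Coprime.coprime_dvd_left (Rat.add_den_dvd ρ σ) (Nat.Coprime.mul_left hρ hσ)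

end Pool.Agent.MP_a12917_nt_GT
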