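import Mathlib
import Pool.Agent.Lib.MP_a12917_nt_GT.Defs
import Pool.Agent.Lib.MP_a12917_nt_GT.Basic
import Pool.Agent.Lib.MP_a12917_nt_GT.Pars
import Pool.Agent.Lib.MP_a12917_nt_GT.FKb
import Pool.Agent.Lib.MP_a12917_nt_GT.NdFacts
import Pool.Agent.Lib.MP_a12917_nt_GT.Dil

/-!
# MP_a12917_nt, project GT, module A2n: variance of A2

(`ℓ = hs z`.)
`B(x) := (∑_{j<K} f(x + p j))² = ∑_{(ρ,σ) ∈ T²} a_ρ a_σ F_ρ F_σ ee (ρ+σ) x = ∑_{τ ∈ R2 T} c_τ ee τ x` with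
`F_ρ = ∑_{j<K} ee ρ (p j)`, `c_τ = ∑_{(ρ,σ) : fract(ρ+σ) = τ} a_ρ a_σ F_ρ F_σ` (`ee_fract`). Hence
`A2 = ∑_{τ ∈ R2 T} c_τ G_τ ee τ x`, `G_τ = (1/p) ∑_{b ∈ Ioc β (β+lam)} ee τ b`. Its mean is the term
`τ = 0` (`sum_ee` or `parseval`-type argument: the mean of `ee τ` is `0` for `τ ∈ (0,1)`; the
denominators of the elements of `R2 T` divide `L` because `den(ρ+σ) ∣ lcm`), so `A2 - mean A2` is the sum over
`τ ∈ (R2 T).erase 0`, and `parseval`: the variance is `∑_{τ ≠ 0} ‖c_τ‖² ‖G_τ‖²`, `‖G_τ‖ ≤ kap p τ`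
(`kap_bound`). And `‖c_τ‖ ≤ ∑_{(ρ,σ)} b(fract(pρ)) b(fract(pσ))` (`fk_step`, `hTs`); the map
`(ρ,σ) ↦ (fract(pρ), fract(pσ))` is injective on `T²` (`fract_inj`), has values in `Ts²`, and
`fract(fract(pρ)+fract(pσ)) = fract(p τ)` (`fract_fract_add`): so `‖c_τ‖ ≤ NN Ts b (fract(pτ))`
(all terms of `NN` are nonnegative).
-/

set_option autoImplicit false

noncomputable section

namespace Pool.Agent.MP_a12917_nt_GT

open Finset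

namespace A2n

/-- the sum over the steps -/
def Fj (p K : ℕ) (ρ : ℚ) : ℂ := ∑ j ∈ range K, ee ρ ((p : ℤ) * (j : ℤ))

/-- the coefficient of the square -/
def cc (p K : ℕ) (T : Finset ℚ) (a : ℚ → ℝ) (τ : ℚ) : ℂ :=
  ∑ u ∈ (T ×ˢ T).filter (fun u => Int.fract (u.1 + u.2) = τ),
    ((a u.1 : ℂ) * Fj p K u.1) * ((a u.2 : ℂ) * Fj p K u.2)

/-- the coefficient of `A2` -/
def dd (p β lam K : ℕ) (T : Finset ℚ) (a : ℚ → ℝ) (τ : ℚ) : ℂ :=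
  cc p K T a τ * ((∑ b ∈ Ioc β (β + lam), ee τ (b : ℤ)) / (p : ℂ))

theorem sum_eq (T : Finset ℚ) (a : ℚ → ℝ) (f : ℤ → ℝ)
    (hf : ∀ n, (f n : ℂ) = ∑ ρ ∈ T, (a ρ : ℂ) * ee ρ n) (p K : ℕ) (y : ℤ) :
    ((∑ j ∈ range K, f (y + (p : ℤ) * (j : ℤ)) : ℝ) : ℂ) =
      ∑ ρ ∈ T, ((a ρ : ℂ) * Fj p K ρ) * ee ρ y := by
  rw [Complex.ofReal_sum]
  simp only [hf]
  rw [sum_comm]
  refine sum_congr rfl fun ρ _ => ?_
  unfold Fj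
  rw [mul_sum, sum_mul]
  refine sum_congr rfl fun j _ => ?_
  rw [ee_add_right]
  ring

theorem sq_eq (T : Finset ℚ) (a : ℚ → ℝ) (f : ℤ → ℝ)
    (hf : ∀ n, (f n : ℂ) = ∑ ρ ∈ T, (a ρ : ℂ) * ee ρ n) (p K : ℕ) (y : ℤ) :
    (((∑ j ∈ range K, f (y + (p : ℤ) * (j : ℤ))) ^ 2 : ℝ) : ℂ) =
      ∑ τ ∈ R2 T, cc p K T a τ * ee τ y := by
  rw [Complex.ofReal_pow, sum_eq T a f hf, sq, sum_mul_sum, ← sum_product']
  rw [← sum_fiberwise_of_maps_to (s := T ×ˢ T) (t := R2 T)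
    (g := fun u : ℚ × ℚ => Int.fract (u.1 + u.2)) (fun u hu => mem_image_of_mem _ hu)]
  refine sum_congr rfl fun τ _ => ?_
  unfold cc
  rw [sum_mul]
  refine sum_congr rfl fun u hu => ?_
  have h1 : ee τ y = ee u.1 y * ee u.2 y := by
    rw [← (mem_filter.1 hu).2, ee_fract, ee_add_left]
  rw [h1]
  ring

theorem A2_eq (T : Finset ℚ) (a : ℚ → ℝ) (f : ℤ → ℝ)
    (hf : ∀ n, (f n : ℂ) = ∑ ρ ∈ T, (a ρ : ℂ) * ee ρ n) (p β lam K : ℕ) (x : ℤ) :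
    ((A2 p β lam K f x : ℝ) : ℂ) = ∑ τ ∈ R2 T, dd p β lam K T a τ * ee τ x := by
  unfold A2
  rw [Complex.ofReal_div, Complex.ofReal_sum, Complex.ofReal_natCast]
  simp only [sq_eq T a f hf]
  rw [sum_comm, sum_div]
  refine sum_congr rfl fun τ _ => ?_
  unfold dd
  simp only [ee_add_right, ← mul_sum]
  ring

theorem mem_R2 {T : Finset ℚ} {τ : ℚ} (hτ : τ ∈ R2 T) :
    ∃ ρ ∈ T, ∃ σ ∈ T, Int.fract (ρ + σ) = τ := by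
  obtain ⟨u, hu, h1⟩ := mem_image.1 hτ
  exact ⟨u.1, (mem_product.1 hu).1, u.2, (mem_product.1 hu).2, h1⟩

theorem R2_range {T : Finset ℚ} {τ : ℚ} (hτ : τ ∈ R2 T) : 0 ≤ τ ∧ τ < 1 := by
  obtain ⟨ρ, _, σ, _, rfl⟩ := mem_R2 hτ
  exact ⟨Int.fract_nonneg _, Int.fract_lt_one _⟩

theorem R2_den {T : Finset ℚ} {L : ℕ} (hL : ∀ ρ ∈ T, ρ.den ∣ L) {τ : ℚ} (hτ : τ ∈ R2 T) :
    τ.den ∣ L := by
  obtain ⟨ρ, hρ, σ, hσ, rfl⟩ := mem_R2 hτ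
  rw [den_fract]
  exact (Rat.add_den_dvd_lcm ρ σ).trans (Nat.lcm_dvd (hL ρ hρ) (hL σ hσ))

theorem den_one {τ : ℚ} (h0 : 0 ≤ τ) (h1 : τ < 1) : τ.den = 1 ↔ τ = 0 := by
  constructor
  · intro h
    have h2 : ((τ.num : ℤ) : ℚ) = τ := (Rat.den_eq_one_iff τ).1 h
    rw [← h2] at h0 h1 ⊢
    have h3 : 0 ≤ τ.num := by exact_mod_cast h0
    have h4 : τ.num < 1 := by exact_mod_cast h1
    have h5 : τ.num = 0 := by omega
    rw [h5]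
    rfl
  · rintro rfl
    rfl

theorem mean_eq (T : Finset ℚ) (L : ℕ) (hL0 : 0 < L) (hL : ∀ ρ ∈ T, ρ.den ∣ L) (a : ℚ → ℝ)
    (f : ℤ → ℝ) (hf : ∀ n, (f n : ℂ) = ∑ ρ ∈ T, (a ρ : ℂ) * ee ρ n) (p β lam K : ℕ) :
    ((mean L (A2 p β lam K f) : ℝ) : ℂ) =
      ∑ τ ∈ R2 T, dd p β lam K T a τ * (if τ = 0 then 1 else 0) := by
  have hL' : (L : ℂ) ≠ 0 := by exact_mod_cast hL0.ne'
  unfold mean
  rw [Complex.ofReal_div, Complex.ofReal_sum, Complex.ofReal_natCast]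
  simp only [A2_eq T a f hf]
  rw [sum_comm, sum_div]
  refine sum_congr rfl fun τ hτ => ?_
  rw [← mul_sum, sum_ee τ L (R2_den hL hτ), mul_div_assoc]
  congr 1
  have h1 := den_one (R2_range hτ).1 (R2_range hτ).2
  by_cases h2 : τ = 0
  · rw [if_pos h2, if_pos (h1.2 h2), div_self hL']
  · rw [if_neg h2, if_neg (fun h3 => h2 (h1.1 h3)), zero_div]

theorem diff_eq (T : Finset ℚ) (L : ℕ) (hL0 : 0 < L) (hL : ∀ ρ ∈ T, ρ.den ∣ L) (a : ℚ → ℝ)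
    (f : ℤ → ℝ) (hf : ∀ n, (f n : ℂ) = ∑ ρ ∈ T, (a ρ : ℂ) * ee ρ n) (p β lam K : ℕ) (x : ℤ) :
    ((A2 p β lam K f x - mean L (A2 p β lam K f) : ℝ) : ℂ) =
      ∑ τ ∈ (R2 T).erase 0, dd p β lam K T a τ * ee τ x := by
  rw [Complex.ofReal_sub, A2_eq T a f hf, mean_eq T L hL0 hL a f hf, ← sum_sub_distrib]
  have h1 : ∀ τ ∈ R2 T, dd p β lam K T a τ * ee τ x -
      dd p β lam K T a τ * (if τ = 0 then 1 else 0) =
      if τ ≠ 0 then dd p β lam K T a τ * ee τ x else 0 := by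
    intro τ _
    by_cases h2 : τ = 0
    · rw [if_pos h2, if_neg (not_not.2 h2), h2, ee_zero_left]
      ring
    · rw [if_neg h2, if_pos h2]
      ring
  rw [sum_congr rfl h1, ← sum_filter]
  refine sum_congr ?_ fun _ _ => rfl
  ext τ
  rw [mem_filter, mem_erase, and_comm]

theorem cc_le (p : ℕ) (T : Finset ℚ)
    (hT : ∀ ρ ∈ T, 0 < ρ ∧ ρ < 1 ∧ ρ.den.Coprime p) (a : ℚ → ℝ) (K : ℕ)
    (K' : ℝ) (hK : (K : ℝ) ≤ K') (Ts : Finset ℚ) (b : ℚ → ℝ) (hb : ∀ σ, 0 ≤ b σ)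
    (hTs : ∀ ρ ∈ T, Int.fract ((p : ℚ) * ρ) ∈ Ts ∧
      |a ρ| * EK K' (Int.fract ((p : ℚ) * ρ)) ≤ b (Int.fract ((p : ℚ) * ρ))) (τ : ℚ) :
    ‖cc p K T a τ‖ ≤ NN Ts b (Int.fract ((p : ℚ) * τ)) := by
  have hF : ∀ ρ ∈ T, ‖(a ρ : ℂ) * Fj p K ρ‖ ≤ b (Int.fract ((p : ℚ) * ρ)) := by
    intro ρ hρ
    have h1 := fk_step p K K' hK ρ 0
    simp only [zero_add] at h1
    rw [norm_mul, Complex.norm_real, Real.norm_eq_abs]
    exact (mul_le_mul_of_nonneg_left h1 (abs_nonneg _)).trans (hTs ρ hρ).2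
  have hmem : ∀ u ∈ (T ×ˢ T).filter (fun u => Int.fract (u.1 + u.2) = τ),
      u.1 ∈ T ∧ u.2 ∈ T ∧ Int.fract (u.1 + u.2) = τ := by
    intro u hu
    obtain ⟨h1, h2⟩ := mem_filter.1 hu
    exact ⟨(mem_product.1 h1).1, (mem_product.1 h1).2, h2⟩
  have hinj : Set.InjOn
      (fun u : ℚ × ℚ => (Int.fract ((p : ℚ) * u.1), Int.fract ((p : ℚ) * u.2)))
      ((T ×ˢ T).filter (fun u => Int.fract (u.1 + u.2) = τ) : Finset (ℚ × ℚ)) := by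
    intro u hu v hv h
    obtain ⟨u1, u2, -⟩ := hmem u hu
    obtain ⟨v1, v2, -⟩ := hmem v hv
    have h1 : Int.fract ((p : ℚ) * u.1) = Int.fract ((p : ℚ) * v.1) := congrArg Prod.fst h
    have h2 : Int.fract ((p : ℚ) * u.2) = Int.fract ((p : ℚ) * v.2) := congrArg Prod.snd h
    refine Prod.ext ?_ ?_
    · exact fract_inj p _ _ (hT _ u1).1.le (hT _ u1).2.1 (hT _ v1).1.le (hT _ v1).2.1
        (hT _ u1).2.2 (hT _ v1).2.2 h1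
    · exact fract_inj p _ _ (hT _ u2).1.le (hT _ u2).2.1 (hT _ v2).1.le (hT _ v2).2.1
        (hT _ u2).2.2 (hT _ v2).2.2 h2
  calc ‖cc p K T a τ‖ ≤ ∑ u ∈ (T ×ˢ T).filter (fun u => Int.fract (u.1 + u.2) = τ),
        b (Int.fract ((p : ℚ) * u.1)) * b (Int.fract ((p : ℚ) * u.2)) := by
        refine (norm_sum_le _ _).trans (sum_le_sum fun u hu => ?_)
        obtain ⟨u1, u2, -⟩ := hmem u hu
        rw [norm_mul]
        exact mul_le_mul (hF _ u1) (hF _ u2) (norm_nonneg _) (hb _)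
    _ = ∑ v ∈ ((T ×ˢ T).filter (fun u => Int.fract (u.1 + u.2) = τ)).image
          (fun u : ℚ × ℚ => (Int.fract ((p : ℚ) * u.1), Int.fract ((p : ℚ) * u.2))),
          b v.1 * b v.2 := by
        rw [sum_image hinj]
    _ ≤ NN Ts b (Int.fract ((p : ℚ) * τ)) := by
        unfold NN
        refine sum_le_sum_of_subset_of_nonneg ?_ fun v _ _ => mul_nonneg (hb _) (hb _)
        intro v hv
        obtain ⟨u, hu, rfl⟩ := mem_image.1 hv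
        obtain ⟨u1, u2, u3⟩ := hmem u hu
        rw [mem_filter, mem_product]
        refine ⟨⟨(hTs _ u1).1, (hTs _ u2).1⟩, ?_⟩
        rw [← u3]
        exact fract_fract_add p u.1 u.2

end A2n

theorem A2_norm (p : ℕ) (hp : 0 < p) (T : Finset ℚ)
    (hT : ∀ ρ ∈ T, 0 < ρ ∧ ρ < 1 ∧ ρ.den.Coprime p)
    (L : ℕ) (hL0 : 0 < L) (hL : ∀ ρ ∈ T, ρ.den ∣ L) (a : ℚ → ℝ) (f : ℤ → ℝ)
    (hf : ∀ n, (f n : ℂ) = ∑ ρ ∈ T, (a ρ : ℂ) * ee ρ n) (β lam K : ℕ) (hlam : lam ≤ p)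
    (K' : ℝ) (hK : (K : ℝ) ≤ K') (Ts : Finset ℚ) (b : ℚ → ℝ) (hb : ∀ σ, 0 ≤ b σ)
    (hTs : ∀ ρ ∈ T, Int.fract ((p : ℚ) * ρ) ∈ Ts ∧
      |a ρ| * EK K' (Int.fract ((p : ℚ) * ρ)) ≤ b (Int.fract ((p : ℚ) * ρ))) :
    mean L (fun x => (A2 p β lam K f x - mean L (A2 p β lam K f)) ^ 2) ≤
      ∑ τ ∈ (R2 T).erase 0, NN Ts b (Int.fract ((p : ℚ) * τ)) ^ 2 * kap p τ ^ 2 := by
  have h1 : mean L (fun x => (A2 p β lam K f x - mean L (A2 p β lam K f)) ^ 2) =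
      mean L (fun x => ‖∑ τ ∈ (R2 T).erase 0, A2n.dd p β lam K T a τ * ee τ x‖ ^ 2) := by
    refine mean_congr _ _ _ fun x => ?_
    rw [← A2n.diff_eq T L hL0 hL a f hf, Complex.norm_real, Real.norm_eq_abs, sq_abs]
  rw [h1, parseval ((R2 T).erase 0) (fun τ hτ => A2n.R2_range (mem_erase.1 hτ).2) L hL0
    (fun τ hτ => A2n.R2_den hL (mem_erase.1 hτ).2)]
  refine sum_le_sum fun τ hτ => ?_
  obtain ⟨h2, h3⟩ := mem_erase.1 hτ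
  have h4 : τ.den ≠ 1 := fun h5 =>
    h2 ((A2n.den_one (A2n.R2_range h3).1 (A2n.R2_range h3).2).1 h5)
  rw [← mul_pow]
  refine pow_le_pow_left₀ (norm_nonneg _) ?_ 2
  unfold A2n.dd
  rw [norm_mul]
  have h5 := A2n.cc_le p T hT a K K' hK Ts b hb hTs τ
  exact mul_le_mul h5 (kap_bound p β lam hp hlam τ h4) (norm_nonneg _)
    ((norm_nonneg _).trans h5)

end Pool.Agent.MP_a12917_nt_GT
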