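import Mathlib
import Pool.Agent.Lib.MP_a12917_nt_GT.Defs
import Pool.Agent.Lib.MP_a12917_nt_GT.Basic

/-!
# MP_a12917_nt, project GT, module GamF: Gaussian moments: elementary facts

(`ℓ = hs z`.)
`gam_nonneg` by (two step) induction. `gam_step`: for even `m = 2k`, `C(m,2) γ_{m-2} = k γ_m` since
`γ_m = (m-1) γ_{m-2}`. `gam_odd`. `PP_step`: for `m` odd everything is `0` (`m-2` is odd). For `m = 2k`,
`k ≥ 1`: `C(m,2) v PP (m-2) s - (PP m (s+v) - PP m s) = γ_m (k v s^{k-1} - ((s+v)^k - s^k))`, zero for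
`k = 1`, and for `k ≥ 2`, `0 ≤ (s+v)^k - s^k - k v s^{k-1} = ∑_{j≥2} C(k,j) v^j s^{k-j} ≤ 2^k v² (s+v)^{k-2}
≤ 2^k v² b^{2(k-2)} = 2^k v² b^{m-4}` for `s + v ≤ b²`. In the statement the bound is
`gam m · 2^m · v² · b^{m-4}` with natural subtraction: for `m = 2` the left side is `0`.
-/

set_option autoImplicit false

noncomputable section

namespace Pool.Agent.MP_a12917_nt_GT

open Finset

theorem gam_nonneg (m : ℕ) : 0 ≤ gam m := by
  induction m using Nat.strong_induction_on with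
  | _ m ih =>
    match m, ih with
    | 0, _ => simp [gam]
    | 1, _ => simp [gam]
    | (k + 2), ih =>
      rw [gam]
      exact mul_nonneg (by positivity) (ih k (by omega))

theorem gam_odd (m : ℕ) (hm : ¬ Even m) : gam m = 0 := by
  induction m using Nat.strong_induction_on with
  | _ m ih =>
    match m, hm, ih with
    | 0, hm, _ => exact absurd (by decide) hm
    | 1, _, _ => simp [gam]
    | (k + 2), hm, ih =>
      have hk : ¬ Even k := by
        intro h
        apply hm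
        obtain ⟨r, hr⟩ := h
        exact ⟨r + 1, by omega⟩
      rw [gam, ih k (by omega) hk, mul_zero]

theorem pow_sec (i : ℕ) (s v : ℝ) (hs : 0 ≤ s) (hv : 0 ≤ v) :
    0 ≤ (s + v) ^ (i + 2) - s ^ (i + 2) - (i + 2) * v * s ^ (i + 1) ∧
    (s + v) ^ (i + 2) - s ^ (i + 2) - (i + 2) * v * s ^ (i + 1) ≤
      2 ^ (i + 2) * v ^ 2 * (s + v) ^ i := by
  induction i with
  | zero =>
    have h1 : (s + v) ^ (0 + 2) - s ^ (0 + 2) - ((0 : ℕ) + 2) * v * s ^ (0 + 1) = v ^ 2 := by
      push_cast; ring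
    rw [h1]
    constructor
    · positivity
    · have : 0 ≤ v ^ 2 := by positivity
      simp only [pow_zero, mul_one]
      norm_num
      linarith
  | succ i ih =>
    obtain ⟨ih1, ih2⟩ := ih
    have h1 : (s + v) ^ (i + 1 + 2) - s ^ (i + 1 + 2) - (((i + 1 : ℕ) : ℝ) + 2) * v * s ^ (i + 1 + 1)
        = (s + v) * ((s + v) ^ (i + 2) - s ^ (i + 2) - (i + 2) * v * s ^ (i + 1)) +
          (i + 2) * v ^ 2 * s ^ (i + 1) := by
      push_cast; ring
    rw [h1]
    have hsv : 0 ≤ s + v := by positivity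
    constructor
    · have := mul_nonneg hsv ih1
      positivity
    · have h2 := mul_le_mul_of_nonneg_left ih2 hsv
      have h3 : s ^ (i + 1) ≤ (s + v) ^ (i + 1) :=
        pow_le_pow_left₀ hs (by linarith) _
      have h4 : ((i : ℝ) + 2) ≤ 2 ^ (i + 2) := by
        have := Nat.lt_two_pow_self (n := i + 2)
        exact_mod_cast this.le
      have h5 : ((i : ℝ) + 2) * v ^ 2 * s ^ (i + 1) ≤ 2 ^ (i + 2) * v ^ 2 * (s + v) ^ (i + 1) := by
        have : 0 ≤ v ^ 2 := by positivity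
        have h6 : ((i : ℝ) + 2) * v ^ 2 ≤ 2 ^ (i + 2) * v ^ 2 :=
          mul_le_mul_of_nonneg_right h4 this
        exact mul_le_mul h6 h3 (by positivity) (by positivity)
      calc _ ≤ (s + v) * (2 ^ (i + 2) * v ^ 2 * (s + v) ^ i) +
            2 ^ (i + 2) * v ^ 2 * (s + v) ^ (i + 1) := add_le_add h2 h5
        _ = _ := by ring

theorem PP_step (m : ℕ) (hm : 2 ≤ m) (b s v : ℝ) (hb : 0 ≤ b) (hs : 0 ≤ s) (hv : 0 ≤ v)
    (hsv : s + v ≤ b ^ 2) :
    |(m.choose 2 : ℝ) * v * PP (m - 2) s - (PP m (s + v) - PP m s)| ≤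
      (if m < 4 then 0 else gam m * 2 ^ m * v ^ 2 * b ^ (m - 4)) := by
  have hg := gam_nonneg m
  have hR : 0 ≤ (if m < 4 then 0 else gam m * 2 ^ m * v ^ 2 * b ^ (m - 4)) := by
    split_ifs
    · exact le_rfl
    · positivity
  by_cases he : Even m
  · obtain ⟨k, hk⟩ := he
    obtain ⟨j, rfl⟩ : ∃ j, k = j + 1 := ⟨k - 1, by omega⟩
    obtain rfl : m = 2 * j + 2 := by omega
    have e1 : PP (2 * j + 2 - 2) s = gam (2 * j) * s ^ j := by
      unfold PP
      rw [Nat.add_sub_cancel, if_pos (even_two_mul j), Nat.mul_div_cancel_left j (by norm_num)]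
    have e2 : ∀ u : ℝ, PP (2 * j + 2) u = (2 * j + 1) * gam (2 * j) * u ^ (j + 1) := by
      intro u
      unfold PP
      have : Even (2 * j + 2) := ⟨j + 1, by ring⟩
      rw [if_pos this, show (2 * j + 2) / 2 = j + 1 by omega, gam]
      push_cast
      ring
    have e3 : (((2 * j + 2).choose 2 : ℕ) : ℝ) = (j + 1) * (2 * j + 1) := by
      rw [Nat.cast_choose_two]
      push_cast
      ring
    have e4 : gam (2 * j + 2) = (2 * j + 1) * gam (2 * j) := by
      rw [gam]; push_cast; ring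
    rw [e1, e2, e2, e3]
    have e5 : ((j : ℝ) + 1) * (2 * j + 1) * v * (gam (2 * j) * s ^ j) -
        ((2 * j + 1) * gam (2 * j) * (s + v) ^ (j + 1) - (2 * j + 1) * gam (2 * j) * s ^ (j + 1)) =
        - (((2 * j + 1) * gam (2 * j)) *
          ((s + v) ^ (j + 1) - s ^ (j + 1) - (j + 1) * v * s ^ j)) := by ring
    rw [e5, abs_neg]
    rcases Nat.eq_zero_or_pos j with h0 | h0
    · subst h0
      have : (s + v) ^ (0 + 1) - s ^ (0 + 1) - (((0 : ℕ) : ℝ) + 1) * v * s ^ 0 = 0 := by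
        push_cast; ring
      rw [this, mul_zero, abs_zero]
      exact hR
    · obtain ⟨i, rfl⟩ : ∃ i, j = i + 1 := ⟨j - 1, by omega⟩
      obtain ⟨h1, h2⟩ := pow_sec i s v hs hv
      have e6 : (s + v) ^ (i + 1 + 1) - s ^ (i + 1 + 1) - (((i + 1 : ℕ) : ℝ) + 1) * v * s ^ (i + 1) =
          (s + v) ^ (i + 2) - s ^ (i + 2) - (i + 2) * v * s ^ (i + 1) := by
        push_cast; ring
      rw [e6, ← e4, abs_mul, abs_of_nonneg hg, abs_of_nonneg h1, if_neg (by omega)]
      have h3 : (s + v) ^ i ≤ b ^ (2 * (i + 1) + 2 - 4) := by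
        rw [show 2 * (i + 1) + 2 - 4 = 2 * i by omega, pow_mul]
        exact pow_le_pow_left₀ (by positivity) hsv _
      have h4 : (2 : ℝ) ^ (i + 2) ≤ 2 ^ (2 * (i + 1) + 2) :=
        pow_le_pow_right₀ (by norm_num) (by omega)
      have h5 : (2 : ℝ) ^ (i + 2) * v ^ 2 * (s + v) ^ i ≤
          2 ^ (2 * (i + 1) + 2) * v ^ 2 * b ^ (2 * (i + 1) + 2 - 4) := by
        have : 0 ≤ v ^ 2 := by positivity
        exact mul_le_mul (mul_le_mul_of_nonneg_right h4 this) h3 (by positivity) (by positivity)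
      calc _ ≤ gam (2 * (i + 1) + 2) * (2 ^ (2 * (i + 1) + 2) * v ^ 2 *
            b ^ (2 * (i + 1) + 2 - 4)) := mul_le_mul_of_nonneg_left (h2.trans h5) hg
        _ = _ := by ring
  · have he2 : ¬ Even (m - 2) := by
      intro h
      apply he
      obtain ⟨r, hr⟩ := h
      exact ⟨r + 1, by omega⟩
    unfold PP
    rw [if_neg he, if_neg he, if_neg he2]
    simpa using hR

theorem gam_even_eq (k : ℕ) : gam (2 * k) = ((2 * k).factorial : ℝ) / (2 ^ k * k.factorial) := by
  induction k with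
  | zero => simp [gam]
  | succ k ih =>
    rw [show 2 * (k + 1) = 2 * k + 2 by ring, gam, ih, Nat.factorial_succ (2 * k + 1),
      Nat.factorial_succ (2 * k), Nat.factorial_succ k]
    have h1 : ((k.factorial : ℕ) : ℝ) ≠ 0 := by exact_mod_cast (Nat.factorial_pos k).ne'
    have h2 : ((k : ℝ) + 1) ≠ 0 := by positivity
    push_cast
    field_simp
    ring

end Pool.Agent.MP_a12917_nt_GT
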