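import Mathlib
import Pool.Agent.Lib.MP_a12917_nt_GT.Defs
import Pool.Agent.Lib.MP_a12917_nt_GT.Basic
import Pool.Agent.Lib.MP_a12917_nt_GT.GamF

/-!
# MP_a12917_nt, project GT, module AbsR: solution of the moment recursion

(`ℓ = hs z`.)
Strong induction on `m`. `m = 0`: `A 0 t = 1 = PP 0 s`; `m = 1`: both `0`; any `C`. Step `m ≥ 2`: let `C'` be the
constant for `m - 2` (its hypotheses are among the given ones), `s_t = ∑_{i<t} v_i ≤ b²`,
`G_t = A m t - PP m s_t`, `G_0 = 0` (`A m 0 = 0`, `PP m 0 = 0` for `m ≥ 1`). For `t < T`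
`G_{t+1} - G_t = [A m (t+1) - A m t - C(m,2) v_t A (m-2) t] + C(m,2) v_t (A (m-2) t - PP (m-2) s_t)
+ [C(m,2) v_t PP (m-2) s_t - (PP m s_{t+1} - PP m s_t)]`, absolute values `≤ e m t`,
`≤ C(m,2) v_t C' δ b^{m-2}`, `≤ gam m 2^m v_t² b^{m-4}` (0 if `m < 4`; `PP_step`), and
`v_t² ≤ δ b² v_t`. Sum: `|G_t| ≤ δ b^m + C(m,2) C' δ b^m + gam m 2^m δ b^m`.
-/

set_option autoImplicit false

noncomputable section

namespace Pool.Agent.MP_a12917_nt_GT

open Finset

theorem abs_rec (m : ℕ) : ∃ C : ℝ, 0 < C ∧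
    ∀ (T : ℕ) (A : ℕ → ℕ → ℝ) (v : ℕ → ℝ) (e : ℕ → ℕ → ℝ) (b δ : ℝ), 0 < b → 0 ≤ δ →
      (∀ t, A 0 t = 1) → (∀ t, A 1 t = 0) → (∀ j, 1 ≤ j → A j 0 = 0) →
      (∀ t, 0 ≤ v t ∧ v t ≤ δ * b ^ 2) → (∑ t ∈ range T, v t ≤ b ^ 2) →
      (∀ j, 2 ≤ j → j ≤ m → ∀ t, t < T →
        |A j (t + 1) - A j t - (j.choose 2 : ℝ) * v t * A (j - 2) t| ≤ e j t) →
      (∀ j, 2 ≤ j → j ≤ m → ∑ t ∈ range T, e j t ≤ δ * b ^ j) →
      ∀ t ≤ T, |A m t - PP m (∑ i ∈ range t, v i)| ≤ C * δ * b ^ m := by
  induction m using Nat.strong_induction_on with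
  | _ m ih =>
    match m, ih with
    | 0, _ =>
      refine ⟨1, one_pos, fun T A v e b δ hb hδ h0 h1 h2 h3 h4 h5 h6 t ht => ?_⟩
      rw [h0]
      simp only [PP, gam]
      simpa using hδ
    | 1, _ =>
      refine ⟨1, one_pos, fun T A v e b δ hb hδ h0 h1 h2 h3 h4 h5 h6 t ht => ?_⟩
      rw [h1]
      simp only [PP, gam]
      simp
      positivity
    | (m + 2), ih =>
      obtain ⟨C', hC', key⟩ := ih m (by omega)
      have hg := gam_nonneg (m + 2)
      refine ⟨1 + ((m + 2).choose 2 : ℝ) * C' + gam (m + 2) * 2 ^ (m + 2), by positivity,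
        fun T A v e b δ hb hδ h0 h1 h2 h3 h4 h5 h6 => ?_⟩
      have kk := key T A v e b δ hb hδ h0 h1 h2 h3 h4 (fun j hj hjm => h5 j hj (by omega))
        (fun j hj hjm => h6 j hj (by omega))
      have hst : ∀ t ≤ T, ∑ i ∈ range t, v i ≤ b ^ 2 := fun t ht =>
        (sum_le_sum_of_subset_of_nonneg (range_subset_range.2 ht)
          fun i _ _ => (h3 i).1).trans h4
      have hs0 : ∀ t, 0 ≤ ∑ i ∈ range t, v i := fun t => sum_nonneg fun i _ => (h3 i).1
      -- one step
      have step : ∀ t, t < T → |(A (m + 2) (t + 1) - PP (m + 2) (∑ i ∈ range (t + 1), v i)) -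
          (A (m + 2) t - PP (m + 2) (∑ i ∈ range t, v i))| ≤
          e (m + 2) t + (((m + 2).choose 2 : ℝ) * C' * δ * b ^ m +
            gam (m + 2) * 2 ^ (m + 2) * δ * b ^ m) * v t := by
        intro t ht
        have a1 := h5 (m + 2) (by omega) le_rfl t ht
        rw [show m + 2 - 2 = m by omega] at a1
        have a2 := kk t ht.le
        have a3 := PP_step (m + 2) (by omega) b (∑ i ∈ range t, v i) (v t) hb.le (hs0 t)
          (h3 t).1 (by rw [← sum_range_succ]; exact hst (t + 1) ht)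
        rw [show m + 2 - 2 = m by omega] at a3
        have a4 : |((m + 2).choose 2 : ℝ) * v t * (A m t - PP m (∑ i ∈ range t, v i))| ≤
            ((m + 2).choose 2 : ℝ) * v t * (C' * δ * b ^ m) := by
          rw [abs_mul, abs_of_nonneg (mul_nonneg (Nat.cast_nonneg _) (h3 t).1)]
          exact mul_le_mul_of_nonneg_left a2 (mul_nonneg (Nat.cast_nonneg _) (h3 t).1)
        have a5 : (if m + 2 < 4 then 0 else
            gam (m + 2) * 2 ^ (m + 2) * v t ^ 2 * b ^ (m + 2 - 4)) ≤
            gam (m + 2) * 2 ^ (m + 2) * δ * b ^ m * v t := by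
          have hv := (h3 t).1
          split_ifs with hm
          · positivity
          · obtain ⟨i, rfl⟩ : ∃ i, m = i + 2 := ⟨m - 2, by omega⟩
            rw [show i + 2 + 2 - 4 = i by omega]
            have b1 : v t ^ 2 ≤ δ * b ^ 2 * v t := by
              rw [sq]; exact mul_le_mul_of_nonneg_right (h3 t).2 hv
            calc gam (i + 2 + 2) * 2 ^ (i + 2 + 2) * v t ^ 2 * b ^ i
                ≤ gam (i + 2 + 2) * 2 ^ (i + 2 + 2) * (δ * b ^ 2 * v t) * b ^ i := by
                  apply mul_le_mul_of_nonneg_right _ (by positivity)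
                  exact mul_le_mul_of_nonneg_left b1 (by positivity)
              _ = _ := by ring
        have a6 := a3.trans a5
        rw [sum_range_succ]
        have a7 : (A (m + 2) (t + 1) - PP (m + 2) (∑ i ∈ range t, v i + v t)) -
            (A (m + 2) t - PP (m + 2) (∑ i ∈ range t, v i)) =
            (A (m + 2) (t + 1) - A (m + 2) t - ((m + 2).choose 2 : ℝ) * v t * A m t) +
            ((m + 2).choose 2 : ℝ) * v t * (A m t - PP m (∑ i ∈ range t, v i)) +
            (((m + 2).choose 2 : ℝ) * v t * PP m (∑ i ∈ range t, v i) -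
              (PP (m + 2) (∑ i ∈ range t, v i + v t) - PP (m + 2) (∑ i ∈ range t, v i))) := by
          ring
        rw [a7]
        refine (abs_add_three _ _ _).trans ?_
        linarith
      -- summation
      have tot : ∀ t ≤ T, |A (m + 2) t - PP (m + 2) (∑ i ∈ range t, v i)| ≤
          ∑ i ∈ range t, (e (m + 2) i + (((m + 2).choose 2 : ℝ) * C' * δ * b ^ m +
            gam (m + 2) * 2 ^ (m + 2) * δ * b ^ m) * v i) := by
        intro t
        induction t with
        | zero =>
          intro _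
          have : PP (m + 2) 0 = 0 := by
            unfold PP
            split_ifs
            · rw [zero_pow (by omega), mul_zero]
            · rfl
          simp [h2 (m + 2) (by omega), this]
        | succ t iht =>
          intro ht
          have b1 := iht (by omega)
          have b2 := step t (by omega)
          rw [sum_range_succ (fun i => e (m + 2) i + (((m + 2).choose 2 : ℝ) * C' * δ * b ^ m +
            gam (m + 2) * 2 ^ (m + 2) * δ * b ^ m) * v i)]
          have b3 := abs_add_le (A (m + 2) t - PP (m + 2) (∑ i ∈ range t, v i))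
            ((A (m + 2) (t + 1) - PP (m + 2) (∑ i ∈ range (t + 1), v i)) -
              (A (m + 2) t - PP (m + 2) (∑ i ∈ range t, v i)))
          rw [add_sub_cancel] at b3
          linarith
      intro t ht
      refine (tot t ht).trans ?_
      have c0 : ∑ i ∈ range t, (e (m + 2) i + (((m + 2).choose 2 : ℝ) * C' * δ * b ^ m +
            gam (m + 2) * 2 ^ (m + 2) * δ * b ^ m) * v i) ≤
          ∑ i ∈ range T, (e (m + 2) i + (((m + 2).choose 2 : ℝ) * C' * δ * b ^ m +
            gam (m + 2) * 2 ^ (m + 2) * δ * b ^ m) * v i) := by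
        apply sum_le_sum_of_subset_of_nonneg (range_subset_range.2 ht)
        intro i hi _
        exact (abs_nonneg _).trans (step i (mem_range.1 hi))
      refine c0.trans ?_
      rw [sum_add_distrib, ← mul_sum]
      have c1 := h6 (m + 2) (by omega) le_rfl
      have c2 : (((m + 2).choose 2 : ℝ) * C' * δ * b ^ m +
            gam (m + 2) * 2 ^ (m + 2) * δ * b ^ m) * ∑ i ∈ range T, v i ≤
          (((m + 2).choose 2 : ℝ) * C' * δ * b ^ m +
            gam (m + 2) * 2 ^ (m + 2) * δ * b ^ m) * b ^ 2 :=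
        mul_le_mul_of_nonneg_left h4 (by positivity)
      calc _ ≤ δ * b ^ (m + 2) + (((m + 2).choose 2 : ℝ) * C' * δ * b ^ m +
            gam (m + 2) * 2 ^ (m + 2) * δ * b ^ m) * b ^ 2 := add_le_add c1 c2
        _ = _ := by ring

end Pool.Agent.MP_a12917_nt_GT
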