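import Mathlib
import Pool.Agent.Lib.MP_a12917_nt_GT.Defs
import Pool.Agent.Lib.MP_a12917_nt_GT.Basic
import Pool.Agent.Lib.MP_a12917_nt_GT.NdFacts

/-!
# MP_a12917_nt, project GT, module Spc: sums of 1/distance over spaced fractions

(`ℓ = hs z`.)
`d(τ) = nd (τ + α)`. All `τ` in the sum have `δ ≤ d(τ) ≤ 1/2` (`hα`, `nd_le_half`). For an
integer `j ≥ 1` the `τ` with `jδ ≤ d(τ) < (j+1)δ`: `τ + α - round(τ+α)` is in `[jδ, (j+1)δ)` or in
`(-(j+1)δ, -jδ]`; two elements of the same of these two intervals of length `δ` have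
`nd (τ - τ') < δ` (half open intervals: `|difference| < δ`), so they are equal (`hs`). So at most
`2` elements for each `j`, each contributes `≤ 1/(jδ)`, and `j ≤ 1/(2δ)` : total
`≤ (2/δ) ∑_{1 ≤ j ≤ 1/δ} 1/j ≤ (2/δ)(1 + log(1/δ))`. (We only claim the constant `5`.)
-/

set_option autoImplicit false

noncomputable section

namespace Pool.Agent.MP_a12917_nt_GT

open Finset

namespace Spc

theorem nd_le_abs (ρ : ℚ) : nd ρ ≤ |(ρ : ℝ)| := by
  have h1 := round_le ρ 0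
  have h2 : nd ρ = ((|ρ - round ρ| : ℚ) : ℝ) := by
    unfold nd
    rw [Rat.cast_abs]
  have h3 : |(ρ : ℝ)| = ((|ρ - ((0 : ℤ) : ℚ)| : ℚ) : ℝ) := by
    rw [Rat.cast_abs]
    norm_num
  rw [h2, h3]
  exact_mod_cast h1

theorem close (τ τ' α : ℚ) (δ : ℝ)
    (h : |((τ + α - round (τ + α) : ℚ) : ℝ) - ((τ' + α - round (τ' + α) : ℚ) : ℝ)| < δ) :
    nd (τ - τ') < δ := by
  have h1 : τ - τ' = ((τ + α - round (τ + α)) - (τ' + α - round (τ' + α))) +
      ((round (τ + α) - round (τ' + α) : ℤ) : ℚ) := by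
    push_cast
    ring
  rw [h1, nd_add_int]
  refine lt_of_le_of_lt (nd_le_abs _) ?_
  rw [Rat.cast_sub]
  exact h

end Spc

theorem spc (T : Finset ℚ) (δ : ℝ) (hδ : 0 < δ) (hδ1 : δ ≤ 1)
    (hs : ∀ τ ∈ T, ∀ τ' ∈ T, τ ≠ τ' → δ ≤ nd (τ - τ')) (α : ℚ)
    (hα : ∀ τ ∈ T, nd (τ + α) ≠ 0 → δ ≤ nd (τ + α)) :
    ∑ τ ∈ T.filter (fun τ => nd (τ + α) ≠ 0), 1 / nd (τ + α) ≤
      5 / δ * (1 + Real.log (1 / δ)) := by
  obtain ⟨T', hT'⟩ : ∃ T', T' = T.filter (fun τ => nd (τ + α) ≠ 0) := ⟨_, rfl⟩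
  rw [← hT']
  obtain ⟨N, hN⟩ : ∃ N : ℕ, N = ⌊1 / (2 * δ)⌋₊ := ⟨_, rfl⟩
  obtain ⟨j, hj⟩ : ∃ j : ℚ → ℕ, ∀ τ, j τ = ⌊nd (τ + α) / δ⌋₊ := ⟨_, fun _ => rfl⟩
  obtain ⟨r, hr⟩ : ∃ r : ℚ → ℝ, ∀ τ, r τ = ((τ + α - round (τ + α) : ℚ) : ℝ) :=
    ⟨_, fun _ => rfl⟩
  have hnd : ∀ τ, nd (τ + α) = |r τ| := fun τ => by rw [hr]; rfl
  have hj1 : ∀ τ, (j τ : ℝ) * δ ≤ nd (τ + α) := by
    intro τ
    have h1 := Nat.floor_le (div_nonneg (nd_nonneg (τ + α)) hδ.le)
    rw [← hj, le_div_iff₀ hδ] at h1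
    exact h1
  have hj2 : ∀ τ, nd (τ + α) < ((j τ : ℝ) + 1) * δ := by
    intro τ
    have h1 := Nat.lt_floor_add_one (nd (τ + α) / δ)
    rw [← hj, div_lt_iff₀ hδ] at h1
    exact h1
  have hmem : ∀ τ ∈ T', τ ∈ T ∧ δ ≤ nd (τ + α) := by
    intro τ hτ
    rw [hT'] at hτ
    obtain ⟨h1, h2⟩ := mem_filter.1 hτ
    exact ⟨h1, hα τ h1 h2⟩
  have hj3 : ∀ τ ∈ T', 1 ≤ j τ := by
    intro τ hτ
    rw [hj]
    refine Nat.le_floor ?_
    rw [Nat.cast_one, le_div_iff₀ hδ, one_mul]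
    exact (hmem τ hτ).2
  have hj4 : ∀ τ, j τ ≤ N := by
    intro τ
    rw [hj, hN]
    refine Nat.floor_le_floor ?_
    rw [div_le_div_iff₀ hδ (by positivity)]
    have := nd_le_half (τ + α)
    nlinarith
  have hinj : Set.InjOn (fun τ => (j τ, decide (0 < r τ))) (T' : Set ℚ) := by
    intro τ hτ τ' hτ' hE
    have hE1 : j τ = j τ' := congrArg Prod.fst hE
    have hE2 : decide (0 < r τ) = decide (0 < r τ') := congrArg Prod.snd hE
    by_contra hne
    have h1 := hs τ (hmem τ hτ).1 τ' (hmem τ' hτ').1 hne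
    have h2 : |r τ - r τ'| < δ := by
      have a1 := hj1 τ
      have a2 := hj2 τ
      have b1 := hj1 τ'
      have b2 := hj2 τ'
      rw [hnd] at a1 a2 b1 b2
      rw [← hE1] at b1 b2
      by_cases h3 : 0 < r τ
      · have h4 : 0 < r τ' := by
          rw [decide_eq_true h3] at hE2
          exact of_decide_eq_true hE2.symm
        rw [abs_of_pos h3] at a1 a2
        rw [abs_of_pos h4] at b1 b2
        rw [abs_lt]
        constructor <;> nlinarith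
      · have h4 : ¬ 0 < r τ' := by
          rw [decide_eq_false h3] at hE2
          exact of_decide_eq_false hE2.symm
        rw [abs_of_nonpos (not_lt.1 h3)] at a1 a2
        rw [abs_of_nonpos (not_lt.1 h4)] at b1 b2
        rw [abs_lt]
        constructor <;> nlinarith
    rw [hr, hr] at h2
    have h5 := Spc.close τ τ' α δ h2
    linarith
  have hF : ∑ τ ∈ T', 1 / nd (τ + α) ≤
      ∑ τ ∈ T', (fun x : ℕ × Bool => 1 / ((x.1 : ℝ) * δ)) (j τ, decide (0 < r τ)) := by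
    refine sum_le_sum fun τ hτ => ?_
    refine one_div_le_one_div_of_le ?_ (hj1 τ)
    have h1 : (1 : ℝ) ≤ j τ := by exact_mod_cast hj3 τ hτ
    exact mul_pos (by linarith) hδ
  refine hF.trans ?_
  have hI := sum_image (f := fun x : ℕ × Bool => 1 / ((x.1 : ℝ) * δ)) hinj
  refine hI.symm.le.trans ?_
  have hsub : T'.image (fun τ => (j τ, decide (0 < r τ))) ⊆
      (Icc 1 N) ×ˢ (univ : Finset Bool) := by
    intro x hx
    obtain ⟨τ, hτ, rfl⟩ := mem_image.1 hx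
    exact mem_product.2 ⟨mem_Icc.2 ⟨hj3 τ hτ, hj4 τ⟩, mem_univ _⟩
  refine (sum_le_sum_of_subset_of_nonneg hsub fun x _ _ => by positivity).trans ?_
  rw [sum_product]
  have h1 : ∀ i ∈ Icc 1 N, ∑ _b : Bool, 1 / ((i : ℝ) * δ) = 2 / δ * (i : ℝ)⁻¹ := by
    intro i _
    rw [sum_const, card_univ, Fintype.card_bool, nsmul_eq_mul, one_div, mul_inv, div_eq_mul_inv]
    push_cast
    ring
  rw [sum_congr rfl h1, ← mul_sum]
  have hlog : 0 ≤ Real.log (1 / δ) := Real.log_nonneg (by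
    rw [le_div_iff₀ hδ]
    linarith)
  have hharm : ∑ i ∈ Icc 1 N, (i : ℝ)⁻¹ ≤ 1 + Real.log (1 / δ) := by
    rcases Nat.eq_zero_or_pos N with h0 | h0
    · rw [h0]
      simp only [Icc_eq_empty_of_lt, sum_empty, zero_lt_one]
      linarith
    · have h2 := harmonic_le_one_add_log N
      rw [harmonic_eq_sum_Icc] at h2
      push_cast at h2
      refine h2.trans ?_
      have h3 : (N : ℝ) ≤ 1 / δ := by
        have h4 : (N : ℝ) ≤ 1 / (2 * δ) := by
          rw [hN]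
          exact Nat.floor_le (by positivity)
        refine h4.trans (one_div_le_one_div_of_le hδ ?_)
        linarith
      have h5 : Real.log N ≤ Real.log (1 / δ) :=
        Real.log_le_log (by exact_mod_cast h0) h3
      linarith
  have h2 : (0 : ℝ) < 2 / δ := by positivity
  calc 2 / δ * ∑ i ∈ Icc 1 N, (i : ℝ)⁻¹ ≤ 2 / δ * (1 + Real.log (1 / δ)) :=
        mul_le_mul_of_nonneg_left hharm h2.le
    _ ≤ 5 / δ * (1 + Real.log (1 / δ)) := by
        refine mul_le_mul_of_nonneg_right ?_ (by linarith)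
        exact div_le_div_of_nonneg_right (by norm_num) hδ.le

end Pool.Agent.MP_a12917_nt_GT
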