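import Mathlib
import Pool.Agent.Lib.MP_a12917_nt_GT.Defs
import Pool.Agent.Lib.MP_a12917_nt_GT.Basic
import Pool.Agent.Lib.MP_a12917_nt_GT.NdFacts
import Pool.Agent.Lib.MP_a12917_nt_GT.FKb
import Pool.Agent.Lib.MP_a12917_nt_GT.SumEe
import Pool.Agent.Lib.MP_a12917_nt_GT.Pars
import Pool.Agent.Lib.MP_a12917_nt_GT.Spc

/-!
# MP_a12917_nt, project GT, module Bil: bilinear mean value estimate over an interval

(`ℓ = hs z`.)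
`f h = ∑_{τ ∈ T, σ ∈ T'} a_τ b_σ ee (τ+σ) x`. Over a full period only the pairs with `τ+σ` an integer
(`nd (τ+σ) = 0`, `nd_eq_zero`) contribute to the mean (`sum_ee`; `(τ+σ).den ∣ L`), and for these pairs the
contribution to `EY` is the same (`ee = 1`). For the other pairs
`‖(1/Y) ∑_{x ∈ [Y,2Y)} ee (τ+σ) x‖ ≤ 1/(2 Y nd(τ+σ))` (`fk_range` with `c = Y`, `K = Y`; `EK ≤ 1/(2 nd)` when
`nd ≠ 0`: by cases of the definition). So the difference is `≤ (1/(2Y)) ∑ |a_τ||b_σ|/nd(τ+σ)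
≤ (1/(2Y)) (∑_τ |a_τ|² ∑_σ 1/nd)^{1/2} (∑_σ |b_σ|² ∑_τ 1/nd)^{1/2} ≤ (B/(2Y)) (∑|a|²)^{1/2} (∑|b|²)^{1/2}`,
`B = (5/δ)(1 + log(1/δ))` (`spc`, twice), and `∑|a|² = mean f²`, `∑|b|² = mean h²` (`parseval`, `f`, `h` real).
-/

set_option autoImplicit false

noncomputable section

namespace Pool.Agent.MP_a12917_nt_GT

open Finset

namespace Bil

theorem schur (T T' : Finset ℚ) (A B : ℚ → ℝ) (w : ℚ → ℚ → ℝ) (hw : ∀ τ σ, 0 ≤ w τ σ) (C : ℝ)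
    (hC : 0 ≤ C) (h1 : ∀ τ ∈ T, ∑ σ ∈ T', w τ σ ≤ C) (h2 : ∀ σ ∈ T', ∑ τ ∈ T, w τ σ ≤ C) :
    ∑ τ ∈ T, ∑ σ ∈ T', A τ * B σ * w τ σ ≤
      C * (Real.sqrt (∑ τ ∈ T, A τ ^ 2) * Real.sqrt (∑ σ ∈ T', B σ ^ 2)) := by
  have e1 : ∑ τ ∈ T, ∑ σ ∈ T', A τ * B σ * w τ σ = ∑ u ∈ T ×ˢ T',
      (A u.1 * Real.sqrt (w u.1 u.2)) * (B u.2 * Real.sqrt (w u.1 u.2)) := by
    rw [sum_product]
    refine sum_congr rfl fun τ _ => sum_congr rfl fun σ _ => ?_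
    have := Real.mul_self_sqrt (hw τ σ)
    calc A τ * B σ * w τ σ = A τ * B σ * (Real.sqrt (w τ σ) * Real.sqrt (w τ σ)) := by rw [this]
      _ = _ := by ring
  have e2 : ∑ u ∈ T ×ˢ T', (A u.1 * Real.sqrt (w u.1 u.2)) ^ 2 ≤ C * ∑ τ ∈ T, A τ ^ 2 := by
    rw [sum_product, mul_sum]
    refine sum_le_sum fun τ hτ => ?_
    have h3 : ∑ σ ∈ T', (A τ * Real.sqrt (w τ σ)) ^ 2 = (∑ σ ∈ T', w τ σ) * A τ ^ 2 := by
      rw [sum_mul]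
      refine sum_congr rfl fun σ _ => ?_
      rw [mul_pow, Real.sq_sqrt (hw τ σ), mul_comm]
    dsimp only
    rw [h3]
    exact mul_le_mul_of_nonneg_right (h1 τ hτ) (sq_nonneg _)
  have e3 : ∑ u ∈ T ×ˢ T', (B u.2 * Real.sqrt (w u.1 u.2)) ^ 2 ≤ C * ∑ σ ∈ T', B σ ^ 2 := by
    rw [sum_product_right, mul_sum]
    refine sum_le_sum fun σ hσ => ?_
    have h3 : ∑ τ ∈ T, (B σ * Real.sqrt (w τ σ)) ^ 2 = (∑ τ ∈ T, w τ σ) * B σ ^ 2 := by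
      rw [sum_mul]
      refine sum_congr rfl fun τ _ => ?_
      rw [mul_pow, Real.sq_sqrt (hw τ σ), mul_comm]
    dsimp only
    rw [h3]
    exact mul_le_mul_of_nonneg_right (h2 σ hσ) (sq_nonneg _)
  rw [e1]
  refine (Real.sum_mul_le_sqrt_mul_sqrt _ _ _).trans ?_
  refine (mul_le_mul (Real.sqrt_le_sqrt e2) (Real.sqrt_le_sqrt e3) (Real.sqrt_nonneg _)
    (Real.sqrt_nonneg _)).trans (le_of_eq ?_)
  rw [Real.sqrt_mul hC, Real.sqrt_mul hC]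
  have := Real.mul_self_sqrt hC
  calc _ = (Real.sqrt C * Real.sqrt C) *
        (Real.sqrt (∑ τ ∈ T, A τ ^ 2) * Real.sqrt (∑ σ ∈ T', B σ ^ 2)) := by ring
    _ = _ := by rw [this]

theorem sumT (T : Finset ℚ) (δ : ℝ) (hδ : 0 < δ) (hδ1 : δ ≤ 1)
    (hs : ∀ τ ∈ T, ∀ τ' ∈ T, τ ≠ τ' → δ ≤ nd (τ - τ')) (α : ℚ)
    (hα : ∀ τ ∈ T, nd (τ + α) ≠ 0 → δ ≤ nd (τ + α)) :
    ∑ τ ∈ T, 1 / nd (τ + α) ≤ 5 / δ * (1 + Real.log (1 / δ)) := by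
  refine le_trans (le_of_eq ?_) (spc T δ hδ hδ1 hs α hα)
  rw [sum_filter]
  refine sum_congr rfl fun τ _ => ?_
  split_ifs with h
  · rfl
  · rw [not_not] at h
    rw [h, div_zero]

theorem diff (ρ : ℚ) (L : ℕ) (hL0 : 0 < L) (hL : ρ.den ∣ L) (Y : ℕ) (hY : 1 ≤ Y) :
    ‖(∑ x ∈ Ico Y (2 * Y), ee ρ (x : ℤ)) / (Y : ℂ) - (∑ x ∈ range L, ee ρ (x : ℤ)) / (L : ℂ)‖ ≤
      1 / (2 * Y) * (1 / nd ρ) := by
  have hY0 : (0 : ℝ) < Y := by exact_mod_cast hY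
  have hY1 : (Y : ℂ) ≠ 0 := by
    have : (Y : ℝ) ≠ 0 := hY0.ne'
    exact_mod_cast this
  have hL1 : (L : ℂ) ≠ 0 := by
    have : L ≠ 0 := hL0.ne'
    exact_mod_cast this
  have e1 : ∑ x ∈ Ico Y (2 * Y), ee ρ (x : ℤ) = ∑ j ∈ range Y, ee ρ ((Y : ℤ) + (j : ℤ)) := by
    rw [sum_Ico_eq_sum_range]
    have : 2 * Y - Y = Y := by omega
    rw [this]
    refine sum_congr rfl fun j _ => ?_
    push_cast
    rfl
  rw [e1, sum_ee ρ L hL]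
  by_cases hd : ρ.den = 1
  · rw [if_pos hd, div_self hL1]
    have h1 : ∀ n : ℤ, ee ρ n = 1 := by
      intro n
      rw [← (Rat.den_eq_one_iff ρ).1 hd]
      exact ee_int _ _
    have h2 : ∑ j ∈ range Y, ee ρ ((Y : ℤ) + (j : ℤ)) = (Y : ℂ) := by
      rw [sum_congr rfl fun j _ => h1 _]
      simp
    rw [h2, div_self hY1, sub_self, norm_zero]
    have := nd_nonneg ρ
    positivity
  · rw [if_neg hd, zero_div, sub_zero, norm_div, Complex.norm_natCast]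
    have h3 : nd ρ ≠ 0 := fun h => hd ((nd_eq_zero ρ).1 h)
    have h4 := FKb.geo Y ρ (Y : ℤ) h3
    have h5 : 0 < nd ρ := lt_of_le_of_ne (nd_nonneg ρ) (Ne.symm h3)
    rw [div_le_iff₀ hY0]
    refine h4.trans (le_of_eq ?_)
    field_simp

theorem expand (T T' : Finset ℚ) (a b : ℚ → ℂ) (f h : ℤ → ℝ)
    (hf : ∀ x, (f x : ℂ) = ∑ τ ∈ T, a τ * ee τ x)
    (hh : ∀ x, (h x : ℂ) = ∑ τ ∈ T', b τ * ee τ x) (s : Finset ℕ) :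
    ((∑ x ∈ s, f (x : ℤ) * h (x : ℤ) : ℝ) : ℂ) =
      ∑ τ ∈ T, ∑ σ ∈ T', a τ * b σ * ∑ x ∈ s, ee (τ + σ) (x : ℤ) := by
  have h1 : ∀ x : ℤ, ((f x * h x : ℝ) : ℂ) = ∑ τ ∈ T, ∑ σ ∈ T', a τ * b σ * ee (τ + σ) x := by
    intro x
    rw [Complex.ofReal_mul, hf, hh, sum_mul_sum]
    refine sum_congr rfl fun τ _ => sum_congr rfl fun σ _ => ?_
    rw [ee_add_left]
    ring
  rw [Complex.ofReal_sum, sum_congr rfl fun x _ => h1 _, sum_comm]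
  refine sum_congr rfl fun τ _ => ?_
  rw [sum_comm]
  refine sum_congr rfl fun σ _ => ?_
  rw [mul_sum]

theorem pars (T : Finset ℚ) (hT : ∀ τ ∈ T, 0 ≤ τ ∧ τ < 1) (L : ℕ) (hL0 : 0 < L)
    (hL : ∀ τ ∈ T, τ.den ∣ L) (a : ℚ → ℂ) (f : ℤ → ℝ)
    (hf : ∀ x, (f x : ℂ) = ∑ τ ∈ T, a τ * ee τ x) :
    mean L (fun x => f x ^ 2) = ∑ τ ∈ T, ‖a τ‖ ^ 2 := by
  rw [← parseval T hT L hL0 hL a]
  refine mean_congr _ _ _ fun x => ?_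
  rw [← hf, Complex.norm_real, Real.norm_eq_abs, sq_abs]

end Bil

theorem bil (T T' : Finset ℚ) (hT : ∀ τ ∈ T, 0 ≤ τ ∧ τ < 1) (hT' : ∀ τ ∈ T', 0 ≤ τ ∧ τ < 1)
    (L : ℕ) (hL0 : 0 < L) (hL : ∀ τ ∈ T, τ.den ∣ L) (hL' : ∀ τ ∈ T', τ.den ∣ L)
    (a b : ℚ → ℂ) (f h : ℤ → ℝ) (hf : ∀ x, (f x : ℂ) = ∑ τ ∈ T, a τ * ee τ x)
    (hh : ∀ x, (h x : ℂ) = ∑ τ ∈ T', b τ * ee τ x) (δ : ℝ) (hδ : 0 < δ) (hδ1 : δ ≤ 1)
    (hs : ∀ τ ∈ T, ∀ τ' ∈ T, τ ≠ τ' → δ ≤ nd (τ - τ'))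
    (hs' : ∀ τ ∈ T', ∀ τ' ∈ T', τ ≠ τ' → δ ≤ nd (τ - τ'))
    (hc : ∀ τ ∈ T, ∀ σ ∈ T', nd (τ + σ) ≠ 0 → δ ≤ nd (τ + σ)) (Y : ℕ) (hY : 1 ≤ Y) :
    |EY Y (fun x => f x * h x) - mean L (fun x => f x * h x)| ≤
      5 / (2 * δ * Y) * (1 + Real.log (1 / δ)) *
        (Real.sqrt (mean L (fun x => f x ^ 2)) * Real.sqrt (mean L (fun x => h x ^ 2))) := by
  obtain ⟨C, hC⟩ : ∃ C : ℝ, C = 5 / δ * (1 + Real.log (1 / δ)) := ⟨_, rfl⟩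
  have hlog : 0 ≤ Real.log (1 / δ) := Real.log_nonneg (by
    rw [le_div_iff₀ hδ]
    linarith)
  have hC0 : 0 ≤ C := by
    rw [hC]
    positivity
  have hY0 : (0 : ℝ) < Y := by exact_mod_cast hY
  have hden : ∀ τ ∈ T, ∀ σ ∈ T', (τ + σ).den ∣ L := fun τ hτ σ hσ =>
    (Rat.add_den_dvd_lcm τ σ).trans (Nat.lcm_dvd (hL τ hτ) (hL' σ hσ))
  have hE : ((EY Y (fun x => f x * h x) - mean L (fun x => f x * h x) : ℝ) : ℂ) =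
      ∑ τ ∈ T, ∑ σ ∈ T', a τ * b σ * ((∑ x ∈ Ico Y (2 * Y), ee (τ + σ) (x : ℤ)) / (Y : ℂ) -
        (∑ x ∈ range L, ee (τ + σ) (x : ℤ)) / (L : ℂ)) := by
    unfold EY mean
    rw [Complex.ofReal_sub, Complex.ofReal_div, Complex.ofReal_div,
      Bil.expand T T' a b f h hf hh, Bil.expand T T' a b f h hf hh, sum_div, sum_div,
      ← sum_sub_distrib]
    refine sum_congr rfl fun τ _ => ?_
    rw [sum_div, sum_div, ← sum_sub_distrib]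
    refine sum_congr rfl fun σ _ => ?_
    rw [Complex.ofReal_natCast, Complex.ofReal_natCast]
    ring
  have hB : |EY Y (fun x => f x * h x) - mean L (fun x => f x * h x)| ≤
      1 / (2 * Y) * ∑ τ ∈ T, ∑ σ ∈ T', ‖a τ‖ * ‖b σ‖ * (1 / nd (τ + σ)) := by
    rw [← Real.norm_eq_abs, ← Complex.norm_real, hE, mul_sum]
    refine (norm_sum_le _ _).trans (sum_le_sum fun τ hτ => ?_)
    rw [mul_sum]
    refine (norm_sum_le _ _).trans (sum_le_sum fun σ hσ => ?_)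
    rw [norm_mul, norm_mul]
    have h1 := Bil.diff (τ + σ) L hL0 (hden τ hτ σ hσ) Y hY
    calc ‖a τ‖ * ‖b σ‖ * _ ≤ ‖a τ‖ * ‖b σ‖ * (1 / (2 * Y) * (1 / nd (τ + σ))) :=
          mul_le_mul_of_nonneg_left h1 (by positivity)
      _ = _ := by ring
  have hS := Bil.schur T T' (fun τ => ‖a τ‖) (fun σ => ‖b σ‖) (fun τ σ => 1 / nd (τ + σ))
    (fun τ σ => by
      have := nd_nonneg (τ + σ)
      positivity) C hC0
    (fun τ hτ => by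
      rw [hC]
      have h1 := Bil.sumT T' δ hδ hδ1 hs' τ (fun σ hσ => by
        rw [add_comm σ τ]
        exact hc τ hτ σ hσ)
      refine le_trans (le_of_eq (sum_congr rfl fun σ _ => ?_)) h1
      rw [add_comm σ τ])
    (fun σ hσ => by
      rw [hC]
      exact Bil.sumT T δ hδ hδ1 hs σ (fun τ hτ => hc τ hτ σ hσ))
  rw [Bil.pars T hT L hL0 hL a f hf, Bil.pars T' hT' L hL0 hL' b h hh]
  refine hB.trans ((mul_le_mul_of_nonneg_left hS (by positivity)).trans (le_of_eq ?_))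
  rw [hC]
  field_simp

end Pool.Agent.MP_a12917_nt_GT
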