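import Mathlib
import Pool.Agent.Lib.MP_a12917_nt_GT.Defs
import Pool.Agent.Lib.MP_a12917_nt_GT.Basic
import Pool.Agent.Lib.MP_a12917_nt_GT.NdFacts

/-!
# MP_a12917_nt, project GT, module DLone: dilation estimate for one fraction

(`ℓ = hs z`.)
Let `δ = 1/√P`, `σ = a/q` in lowest terms, `q ≤ Dn`. Call `p ∈ 𝒫` bad if `nd (τ p) < δ`.
For `p` bad put `t = τ_p - round τ_p`, `|t| < δ`; `p t = σ + s` with an integer `s`
(`fract(p τ_p) = σ`), `|σ + s| = p |t| < 2P δ = 2√P`, so there are at most `4√P + 1` possible `s`. The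
denominator of `t` is that of `τ_p`, coprime to `p`; so `p t = (a + s q)/q` gives `p ∣ a + s q` (the
numerator of `p t` in lowest terms is divisible by `p`, and `(a + sq)/q` is in lowest terms too).
`a + s q ≠ 0` as `0 < σ < 1`. `|a + s q| = q |σ + s| ≤ 2√P Dn`. A nonzero integer `n`, `|n| ≤ X`, has at most
`log X / log 2` prime divisors. So the number of bad `p` is
`≤ (4√P+1) log(2√P Dn)/log 2 ≤ 5√P (1 + log(P Dn)/log 2) ≤ 8√P (1 + log(Dn P))` (`√P ≤ P`). Each bad `p`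
contributes `kap² ≤ 1`. Each good `p` contributes `kap² ≤ (1/(2 p δ))² ≤ (1/(2√P))² = 1/(4P)`, there are at
most `P` of them: `≤ 1/4`. Total `≤ 9√P (1 + log(Dn P))`.
-/

set_option autoImplicit false

noncomputable section

namespace Pool.Agent.MP_a12917_nt_GT

open Finset

namespace DLone

theorem card_primes (n : ℕ) (hn : n ≠ 0) (F : Finset ℕ) (hF : ∀ p ∈ F, p.Prime ∧ p ∣ n) :
    (F.card : ℝ) * Real.log 2 ≤ Real.log n := by
  have h1 : ∏ p ∈ F, p ∣ n :=
    Finset.prod_primes_dvd n (fun p hp => (hF p hp).1.prime) (fun p hp => (hF p hp).2)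
  have h2 : 2 ^ F.card ≤ ∏ p ∈ F, p := by
    rw [← Finset.prod_const]
    exact Finset.prod_le_prod (fun _ _ => by norm_num) (fun p hp => (hF p hp).1.two_le)
  have h3 : 2 ^ F.card ≤ n := h2.trans (Nat.le_of_dvd (Nat.pos_of_ne_zero hn) h1)
  have h4 : ((2 : ℝ) ^ F.card) ≤ n := by exact_mod_cast h3
  have h5 := Real.log_le_log (by positivity) h4
  rwa [Real.log_pow] at h5

theorem card_ints (σ X : ℝ) (hX : 0 ≤ X) :
    ∃ S : Finset ℤ, (∀ s : ℤ, |σ + s| < X → s ∈ S) ∧ (S.card : ℝ) ≤ 2 * X + 1 := by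
  refine ⟨Icc ⌈-X - σ⌉ ⌊X - σ⌋, fun s hs => ?_, ?_⟩
  · rw [abs_lt] at hs
    rw [mem_Icc]
    constructor
    · rw [Int.ceil_le]
      linarith
    · rw [Int.le_floor]
      linarith
  · rw [Int.card_Icc]
    have h1 : ((⌊X - σ⌋ : ℤ) : ℝ) ≤ X - σ := Int.floor_le _
    have h2 : -X - σ ≤ ((⌈-X - σ⌉ : ℤ) : ℝ) := Int.le_ceil _
    rcases le_or_gt 0 (⌊X - σ⌋ + 1 - ⌈-X - σ⌉) with h | h
    · have h3 : (((⌊X - σ⌋ + 1 - ⌈-X - σ⌉).toNat : ℕ) : ℝ) =
          ((⌊X - σ⌋ + 1 - ⌈-X - σ⌉ : ℤ) : ℝ) := by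
        exact_mod_cast congrArg (fun t : ℤ => (t : ℝ)) (Int.toNat_of_nonneg h)
      rw [h3]
      push_cast
      linarith
    · rw [Int.toNat_of_nonpos h.le]
      simp
      linarith

theorem key (p : ℕ) (σ τ : ℚ) (hcop : τ.den.Coprime p) (hfr : Int.fract ((p : ℚ) * τ) = σ) :
    ∃ s : ℤ, (p : ℚ) * (τ - round τ) = σ + s ∧ (p : ℤ) ∣ σ.num + s * σ.den := by
  have e1 : (p : ℚ) * τ = σ + ⌊(p : ℚ) * τ⌋ := by
    rw [← hfr]
    exact (Int.fract_add_floor _).symm
  refine ⟨⌊(p : ℚ) * τ⌋ - p * round τ, ?_, ?_⟩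
  · push_cast
    linear_combination e1
  · obtain ⟨f, hf⟩ : ∃ f : ℤ, f = ⌊(p : ℚ) * τ⌋ := ⟨_, rfl⟩
    rw [← hf] at e1 ⊢
    have e2 : ((p : ℤ) * τ.num * σ.den : ℤ) = (σ.num + f * σ.den) * τ.den := by
      have h1 := Rat.mul_den_eq_num τ
      have h2 := Rat.mul_den_eq_num σ
      have h3 : (((p : ℤ) * τ.num * σ.den : ℤ) : ℚ) =
          (((σ.num + f * σ.den) * τ.den : ℤ) : ℚ) := by
        push_cast
        rw [← h1, ← h2]
        linear_combination (τ.den : ℚ) * σ.den * e1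
      exact_mod_cast h3
    have h4 : (p : ℤ) ∣ (σ.num + f * σ.den) * τ.den := by
      rw [← e2, mul_assoc]
      exact dvd_mul_right _ _
    have h5 : IsCoprime (p : ℤ) (τ.den : ℤ) := Nat.isCoprime_iff_coprime.2 hcop.symm
    have h6 := h5.dvd_of_dvd_mul_right h4
    have h7 : σ.num + (f - p * round τ) * σ.den =
        (σ.num + f * σ.den) - p * (round τ * σ.den) := by ring
    rw [h7]
    exact dvd_sub h6 (dvd_mul_right _ _)

theorem kap_nonneg (p : ℕ) (ρ : ℚ) : 0 ≤ kap p ρ := by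
  unfold kap nd
  exact le_min zero_le_one (by positivity)

end DLone

theorem dl_one (P : ℕ) (hP : 1 ≤ P) (Dn : ℕ) (hD : 1 ≤ Dn) (σ : ℚ) (h0 : 0 < σ) (h1 : σ < 1)
    (hσ : σ.den ≤ Dn) (Ps : Finset ℕ) (hPs : Ps ⊆ (Ioc P (2 * P)).filter Nat.Prime)
    (τ : ℕ → ℚ) (hτ : ∀ p ∈ Ps, 0 < τ p ∧ τ p < 1 ∧ (τ p).den.Coprime p ∧
      Int.fract ((p : ℚ) * τ p) = σ) :
    ∑ p ∈ Ps, kap p (τ p) ^ 2 ≤ 9 * Real.sqrt P * (1 + Real.log ((Dn : ℝ) * P)) := by
  have hP0 : (0 : ℝ) < P := by exact_mod_cast hP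
  have hP1 : (1 : ℝ) ≤ P := by exact_mod_cast hP
  have hD1 : (1 : ℝ) ≤ Dn := by exact_mod_cast hD
  set r : ℝ := Real.sqrt P with hr
  have hr1 : 1 ≤ r := Real.one_le_sqrt.2 hP1
  have hrr : r * r = P := Real.mul_self_sqrt hP0.le
  have hr0 : 0 < r := by linarith
  set lg : ℝ := Real.log ((Dn : ℝ) * P) with hlg
  have hlg0 : 0 ≤ lg := Real.log_nonneg (by nlinarith)
  have hlog2 : (0 : ℝ) < Real.log 2 := Real.log_pos (by norm_num)
  have hPs' : ∀ p ∈ Ps, P < p ∧ p ≤ 2 * P ∧ p.Prime := by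
    intro p hp
    have h := hPs hp
    rw [mem_filter, mem_Ioc] at h
    exact ⟨h.1.1, h.1.2, h.2⟩
  -- the bad primes
  obtain ⟨S, hS, hScard⟩ := DLone.card_ints (σ : ℝ) (2 * r) (by positivity)
  choose! s hs using fun p (hp : p ∈ Ps) =>
    DLone.key p σ (τ p) (hτ p hp).2.2.1 (hτ p hp).2.2.2
  set Bd : Finset ℕ := Ps.filter (fun p => nd (τ p) < 1 / r) with hBd
  have habs : ∀ p ∈ Bd, |(σ : ℝ) + s p| < 2 * r := by
    intro p hp
    rw [hBd, mem_filter] at hp
    obtain ⟨hp1, hp2⟩ := hp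
    obtain ⟨h3, h4, -⟩ := hPs' p hp1
    have h5 : (σ : ℝ) + s p = (p : ℝ) * ((τ p - round (τ p) : ℚ) : ℝ) := by
      have := (hs p hp1).1
      have h6 := congrArg (fun t : ℚ => (t : ℝ)) this
      push_cast at h6 ⊢
      linarith
    have hp0 : (0 : ℝ) < p := by exact_mod_cast (by omega : 0 < p)
    rw [h5, abs_mul, abs_of_pos hp0]
    have h7 : (p : ℝ) ≤ 2 * P := by exact_mod_cast h4
    have h8 : (p : ℝ) * nd (τ p) < p * (1 / r) := mul_lt_mul_of_pos_left hp2 hp0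
    have h9 : (p : ℝ) * (1 / r) ≤ 2 * r := by
      rw [mul_one_div, div_le_iff₀ hr0]
      nlinarith
    exact h8.trans_le h9
  have hmaps : ∀ p ∈ Bd, s p ∈ S := fun p hp => hS _ (habs p hp)
  set y : ℝ := Real.log (2 * r * Dn) / Real.log 2 with hy
  have hy1 : 1 ≤ 2 * r * Dn := by nlinarith
  have hy0 : 0 ≤ y := div_nonneg (Real.log_nonneg hy1) hlog2.le
  have hfib : ∀ b ∈ S, (Bd.filter fun p => s p = b).card ≤ ⌊y⌋₊ := by
    intro b _
    refine Nat.le_floor ?_
    rcases (Bd.filter fun p => s p = b).eq_empty_or_nonempty with he | ⟨p0, hp0⟩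
    · rw [he, card_empty, Nat.cast_zero]
      exact hy0
    · rw [mem_filter] at hp0
      have hq0 : (0 : ℝ) < σ.den := by exact_mod_cast σ.den_pos
      have hnum : ((σ.num + b * σ.den : ℤ) : ℝ) = σ.den * ((σ : ℝ) + b) := by
        have h2 := Rat.mul_den_eq_num σ
        have h3 := congrArg (fun t : ℚ => (t : ℝ)) h2
        push_cast at h3 ⊢
        linarith
      have hne : σ.num + b * σ.den ≠ 0 := by
        intro h
        rw [h, Int.cast_zero] at hnum
        have h2 : (σ : ℝ) + b = 0 := by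
          rcases mul_eq_zero.1 hnum.symm with h3 | h3
          · exact absurd h3 hq0.ne'
          · exact h3
        have h3 : σ + b = 0 := by exact_mod_cast h2
        have h4 : (b : ℚ) < 0 := by linarith
        have h5 : (-1 : ℚ) < b := by linarith
        have h6 : b < 0 := by exact_mod_cast h4
        have h7 : -1 < b := by exact_mod_cast h5
        omega
      have hcard := DLone.card_primes (σ.num + b * σ.den).natAbs (Int.natAbs_ne_zero.2 hne)
        (Bd.filter fun p => s p = b) (by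
          intro p hp
          rw [mem_filter] at hp
          have hp1 : p ∈ Ps := (mem_filter.1 hp.1).1
          refine ⟨(hPs' p hp1).2.2, ?_⟩
          have h2 := (hs p hp1).2
          rw [hp.2] at h2
          exact Int.natCast_dvd.1 h2)
      have hle : (((σ.num + b * σ.den).natAbs : ℕ) : ℝ) ≤ 2 * r * Dn := by
        rw [Nat.cast_natAbs, Int.cast_abs, hnum, abs_mul, abs_of_pos hq0]
        have h2 := habs p0 hp0.1
        rw [hp0.2] at h2
        have h3 : (σ.den : ℝ) ≤ Dn := by exact_mod_cast hσ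
        calc (σ.den : ℝ) * |(σ : ℝ) + b| ≤ Dn * (2 * r) :=
              mul_le_mul h3 h2.le (abs_nonneg _) (by linarith)
          _ = 2 * r * Dn := by ring
      rw [hy, le_div_iff₀ hlog2]
      refine hcard.trans (Real.log_le_log ?_ hle)
      exact_mod_cast Int.natAbs_pos.2 hne
  have hBcard : (Bd.card : ℝ) ≤ 8 * r * (1 + lg) := by
    have h2 := card_le_mul_card_image_of_maps_to hmaps ⌊y⌋₊ hfib
    have h3 : (Bd.card : ℝ) ≤ (⌊y⌋₊ : ℝ) * S.card := by exact_mod_cast h2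
    have h4 : (⌊y⌋₊ : ℝ) ≤ y := Nat.floor_le hy0
    have h5 : y ≤ 8 / 5 * (1 + lg) := by
      rw [hy, div_le_iff₀ hlog2]
      have h6 : Real.log (2 * r * Dn) ≤ Real.log 2 + lg := by
        rw [hlg, ← Real.log_mul (by norm_num) (by positivity)]
        refine Real.log_le_log (by linarith) ?_
        have h7 : r ≤ P := by nlinarith
        nlinarith
      have h8 := Real.log_two_gt_d9
      nlinarith
    have h6 : (S.card : ℝ) ≤ 5 * r := by linarith
    calc (Bd.card : ℝ) ≤ (⌊y⌋₊ : ℝ) * S.card := h3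
      _ ≤ (8 / 5 * (1 + lg)) * (5 * r) :=
          mul_le_mul (h4.trans h5) h6 (Nat.cast_nonneg _) (by linarith)
      _ = 8 * r * (1 + lg) := by ring
  -- the sums
  rw [← sum_filter_add_sum_filter_not Ps (fun p => nd (τ p) < 1 / r), ← hBd]
  have hsum1 : ∑ p ∈ Bd, kap p (τ p) ^ 2 ≤ Bd.card := by
    have h2 : ∀ p ∈ Bd, kap p (τ p) ^ 2 ≤ 1 := by
      intro p _
      have h3 : kap p (τ p) ≤ 1 := min_le_left _ _
      exact pow_le_one₀ (DLone.kap_nonneg _ _) h3
    refine (sum_le_sum h2).trans ?_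
    rw [sum_const, nsmul_eq_mul, mul_one]
  have hsum2 : ∑ p ∈ Ps.filter (fun p => ¬ nd (τ p) < 1 / r), kap p (τ p) ^ 2 ≤ 1 / 4 := by
    have h2 : ∀ p ∈ Ps.filter (fun p => ¬ nd (τ p) < 1 / r), kap p (τ p) ^ 2 ≤ 1 / (4 * P) := by
      intro p hp
      rw [mem_filter, not_lt] at hp
      obtain ⟨hp1, hp2⟩ := hp
      have h3 : (P : ℝ) ≤ p := by exact_mod_cast (hPs' p hp1).1.le
      have h4 : 1 / (2 * p * nd (τ p)) ≤ 1 / (2 * r) := by
        refine one_div_le_one_div_of_le (by positivity) ?_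
        have h5 : (P : ℝ) * (1 / r) ≤ p * nd (τ p) :=
          mul_le_mul h3 hp2 (by positivity) (by linarith)
        have h6 : (P : ℝ) * (1 / r) = r := by
          rw [← hrr]
          field_simp
        rw [h6] at h5
        linarith
      have h5 : kap p (τ p) ≤ 1 / (2 * r) := (min_le_right _ _).trans h4
      calc kap p (τ p) ^ 2 ≤ (1 / (2 * r)) ^ 2 :=
            pow_le_pow_left₀ (DLone.kap_nonneg _ _) h5 2
        _ = 1 / (4 * P) := by
            rw [← hrr]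
            field_simp
            norm_num
    refine (sum_le_sum h2).trans ?_
    rw [sum_const, nsmul_eq_mul]
    have h3 : (Ps.filter (fun p => ¬ nd (τ p) < 1 / r)).card ≤ P := by
      refine (card_le_card ((filter_subset _ _).trans (hPs.trans (filter_subset _ _)))).trans ?_
      rw [Nat.card_Ioc]
      omega
    have h4 : ((Ps.filter (fun p => ¬ nd (τ p) < 1 / r)).card : ℝ) ≤ P := by exact_mod_cast h3
    calc ((Ps.filter (fun p => ¬ nd (τ p) < 1 / r)).card : ℝ) * (1 / (4 * P)) ≤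
        P * (1 / (4 * P)) := mul_le_mul_of_nonneg_right h4 (by positivity)
      _ = 1 / 4 := by field_simp
  nlinarith

end Pool.Agent.MP_a12917_nt_GT
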