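import Mathlib
import Pool.Agent.Lib.MP_a12917_nt_GT.Defs
import Pool.Agent.Lib.MP_a12917_nt_GT.Basic
import Pool.Agent.Lib.MP_a12917_nt_GT.DLone
import Pool.Agent.Lib.MP_a12917_nt_GT.Dil

/-!
# MP_a12917_nt, project GT, module DL: dilation large sieve

(`ℓ = hs z`.)
Interchange: the left side is `∑_{σ ∈ Ts} β(σ)² ∑_{p ∈ Ps} ∑_{τ ∈ T p, fract(pτ) = σ} kap p τ²`. For given
`p, σ` there is at most one such `τ` (`fract_inj`). Let `Ps_σ` be the set of the `p ∈ Ps` for which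
there is one and `τ_p` this element: the inner sum is `∑_{p ∈ Ps_σ} kap p (τ_p)²`, `dl_one`.
-/

set_option autoImplicit false

noncomputable section

namespace Pool.Agent.MP_a12917_nt_GT

open Finset

theorem dl (P : ℕ) (hP : 1 ≤ P) (Dn : ℕ) (hD : 1 ≤ Dn) (T : ℕ → Finset ℚ) (Ts : Finset ℚ)
    (hTs : ∀ σ ∈ Ts, 0 < σ ∧ σ < 1 ∧ σ.den ≤ Dn) (Ps : Finset ℕ)
    (hPs : Ps ⊆ (Ioc P (2 * P)).filter Nat.Prime)
    (hT : ∀ p ∈ Ps, ∀ τ ∈ T p, 0 < τ ∧ τ < 1 ∧ τ.den.Coprime p ∧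
      Int.fract ((p : ℚ) * τ) ∈ Ts) (β : ℚ → ℝ) :
    ∑ p ∈ Ps, ∑ τ ∈ T p, β (Int.fract ((p : ℚ) * τ)) ^ 2 * kap p τ ^ 2 ≤
      (∑ σ ∈ Ts, β σ ^ 2) * (9 * Real.sqrt P * (1 + Real.log ((Dn : ℝ) * P))) := by
  have h1 : ∑ p ∈ Ps, ∑ τ ∈ T p, β (Int.fract ((p : ℚ) * τ)) ^ 2 * kap p τ ^ 2 =
      ∑ p ∈ Ps, ∑ τ ∈ T p, ∑ σ ∈ Ts,
        if Int.fract ((p : ℚ) * τ) = σ then β σ ^ 2 * kap p τ ^ 2 else 0 := by
    refine sum_congr rfl fun p hp => sum_congr rfl fun τ hτ => ?_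
    rw [sum_ite_eq, if_pos (hT p hp τ hτ).2.2.2]
  have h2 : ∑ p ∈ Ps, ∑ τ ∈ T p, ∑ σ ∈ Ts,
        (if Int.fract ((p : ℚ) * τ) = σ then β σ ^ 2 * kap p τ ^ 2 else 0) =
      ∑ σ ∈ Ts, β σ ^ 2 * ∑ p ∈ Ps,
        ∑ τ ∈ (T p).filter (fun τ => Int.fract ((p : ℚ) * τ) = σ), kap p τ ^ 2 := by
    have h3 : ∀ p ∈ Ps, ∑ τ ∈ T p, ∑ σ ∈ Ts,
        (if Int.fract ((p : ℚ) * τ) = σ then β σ ^ 2 * kap p τ ^ 2 else 0) =
        ∑ σ ∈ Ts, ∑ τ ∈ T p,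
        (if Int.fract ((p : ℚ) * τ) = σ then β σ ^ 2 * kap p τ ^ 2 else 0) := fun p _ =>
      sum_comm
    rw [sum_congr rfl h3, sum_comm]
    refine sum_congr rfl fun σ _ => ?_
    rw [mul_sum]
    refine sum_congr rfl fun p _ => ?_
    rw [mul_sum, sum_filter]
  rw [h1, h2, sum_mul]
  refine sum_le_sum fun σ hσ => mul_le_mul_of_nonneg_left ?_ (sq_nonneg _)
  classical
  obtain ⟨t, ht⟩ : ∃ t : ℕ → ℚ, ∀ p, (∃ τ ∈ T p, Int.fract ((p : ℚ) * τ) = σ) →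
      t p ∈ T p ∧ Int.fract ((p : ℚ) * t p) = σ := by
    refine ⟨fun p => if h : ∃ τ ∈ T p, Int.fract ((p : ℚ) * τ) = σ then h.choose else 0,
      fun p hp => ?_⟩
    simp only [dif_pos hp]
    exact hp.choose_spec
  have h4 : ∀ p ∈ Ps, ∑ τ ∈ (T p).filter (fun τ => Int.fract ((p : ℚ) * τ) = σ), kap p τ ^ 2 =
      if ∃ τ ∈ T p, Int.fract ((p : ℚ) * τ) = σ then kap p (t p) ^ 2 else 0 := by
    intro p hp
    split_ifs with h5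
    · obtain ⟨h6, h7⟩ := ht p h5
      have h8 : (T p).filter (fun τ => Int.fract ((p : ℚ) * τ) = σ) = {t p} := by
        ext τ
        rw [mem_filter, mem_singleton]
        constructor
        · rintro ⟨h9, h10⟩
          obtain ⟨a1, a2, a3, -⟩ := hT p hp τ h9
          obtain ⟨b1, b2, b3, -⟩ := hT p hp (t p) h6
          exact fract_inj p τ (t p) a1.le a2 b1.le b2 a3 b3 (h10.trans h7.symm)
        · rintro rfl
          exact ⟨h6, h7⟩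
      rw [h8, sum_singleton]
    · refine sum_eq_zero fun τ hτ => ?_
      exact absurd ⟨τ, (mem_filter.1 hτ).1, (mem_filter.1 hτ).2⟩ h5
  rw [sum_congr rfl h4, ← sum_filter]
  obtain ⟨c1, c2, c3⟩ := hTs σ hσ
  refine dl_one P hP Dn hD σ c1 c2 c3 _ ((filter_subset _ _).trans hPs) t fun p hp => ?_
  obtain ⟨h5, h6⟩ := mem_filter.1 hp
  obtain ⟨h7, h8⟩ := ht p h6
  obtain ⟨a1, a2, a3, -⟩ := hT p h5 (t p) h7
  exact ⟨a1, a2, a3, h8⟩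

end Pool.Agent.MP_a12917_nt_GT
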