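import Mathlib
import Pool.Agent.Lib.MP_a12917_nt_GT.Defs
import Pool.Agent.Lib.MP_a12917_nt_GT.Basic

/-!
# MP_a12917_nt, project GT, module RamA: Ramanujan sums: first facts

(`ℓ = hs z`.)
`ram 1 n = 1` (`μ(1) = 1`). `ram_add`: `d ∣ q ∣ k`, so `d ∣ n + k ↔ d ∣ n`. `ram_sum`: Moebius
inversion: `∑_{q ∣ a} ∑_{d ∣ q, d ∣ n} μ(q/d) d = ∑_{d ∣ a, d ∣ n} d ∑_{e ∣ a/d} μ(e)` and the inner sum is
`1` if `a = d` and `0` otherwise (`ArithmeticFunction.sum_moebius...`/`coe_moebius_mul_coe_zeta`;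
alternatively `ArithmeticFunction.sum_eq_iff_sum_mul_moebius_eq` applied to
`f(q) = ram q n`, `g(a) = a 1_{a ∣ n}`).
-/

set_option autoImplicit false

noncomputable section

namespace Pool.Agent.MP_a12917_nt_GT

open Finset

theorem ram_one (n : ℤ) : ram 1 n = 1 := by
  simp [ram]

theorem ram_add (q : ℕ) (n k : ℤ) (h : (q : ℤ) ∣ k) : ram q (n + k) = ram q n := by
  unfold ram
  refine sum_congr rfl fun d hd => ?_
  have h1 : (d : ℤ) ∣ k := (Int.natCast_dvd_natCast.2 (Nat.dvd_of_mem_divisors hd)).trans h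
  have h2 : ((d : ℤ) ∣ n + k) ↔ (d : ℤ) ∣ n := dvd_add_left h1
  by_cases h3 : (d : ℤ) ∣ n
  · rw [if_pos h3, if_pos (h2.2 h3)]
  · rw [if_neg h3, if_neg fun h4 => h3 (h2.1 h4)]

theorem ram_sum (a : ℕ) (ha : 0 < a) (n : ℤ) :
    ∑ q ∈ a.divisors, ram q n = if (a : ℤ) ∣ n then (a : ℝ) else 0 := by
  have key := (ArithmeticFunction.sum_eq_iff_sum_mul_moebius_eq (R := ℝ)
    (f := fun q => ram q n) (g := fun b : ℕ => if (b : ℤ) ∣ n then (b : ℝ) else 0)).2 (by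
    intro q _
    rw [Nat.sum_divisorsAntidiagonal' (f := fun x y : ℕ =>
      ((ArithmeticFunction.moebius x : ℤ) : ℝ) * (if (y : ℤ) ∣ n then (y : ℝ) else 0))]
    unfold ram
    refine sum_congr rfl fun d _ => ?_
    rw [mul_ite, mul_zero])
  exact key a ha

end Pool.Agent.MP_a12917_nt_GT
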