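import Mathlib
import Pool.Agent.Lib.MP_a12917_nt_GT.Defs
import Pool.Agent.Lib.MP_a12917_nt_GT.Basic
import Pool.Agent.Lib.MP_a12917_nt_GT.RamA
import Pool.Agent.Lib.MP_a12917_nt_GT.SumEe

/-!
# MP_a12917_nt, project GT, module RamC: Ramanujan sums as exponential sums

(`ℓ = hs z`.)
Strong induction on `q`. For `a > 0` the fractions `r/a`, `0 ≤ r < a`, are the disjoint union of the
`Fr q`, `q ∣ a` (reduced form, `mem_Fr`), so
`∑_{q ∣ a} ∑_{ρ ∈ Fr q} ee ρ n = ∑_{r < a} ee (r/a) n = a 1_{a ∣ n}`: the last equality from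
`ee (r/a) n = ee (n/a) r` and `sum_ee` for the rational `n/a` (its denominator divides `a`, it is `1`
iff `a ∣ n`). By `ram_sum` the same identity holds for `ram`; subtract the terms with `q < a`.
-/

set_option autoImplicit false

noncomputable section

namespace Pool.Agent.MP_a12917_nt_GT

open Finset

namespace RamC

theorem den_dvd (a r : ℕ) (ha : 0 < a) : ((r : ℚ) / (a : ℚ)).den ∣ a := by
  have h := Rat.den_dvd (r : ℤ) (a : ℤ)
  have e : ((r : ℚ) / (a : ℚ)) = (((r : ℤ) : ℚ) / ((a : ℤ) : ℚ)) := by push_cast; rfl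
  rw [e, ← Rat.divInt_eq_div]
  exact_mod_cast h

theorem sum_all (a : ℕ) (ha : 0 < a) (n : ℤ) :
    ∑ r ∈ range a, ee ((r : ℚ) / (a : ℚ)) n = if (a : ℤ) ∣ n then (a : ℂ) else 0 := by
  have ha' : (a : ℚ) ≠ 0 := by positivity
  obtain ⟨ρ, hρ⟩ : ∃ ρ : ℚ, ρ = (n : ℚ) / (a : ℚ) := ⟨_, rfl⟩
  have h1 : ∀ r ∈ range a, ee ((r : ℚ) / (a : ℚ)) n = ee ρ (r : ℤ) := by
    intro r _
    unfold ee
    congr 2
    rw [hρ]
    push_cast
    ring
  rw [sum_congr rfl h1]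
  have h2 : ρ.den ∣ a := by
    have h := Rat.den_dvd n (a : ℤ)
    have e : ρ = ((n : ℚ) / ((a : ℤ) : ℚ)) := by
      rw [hρ]
      push_cast
      rfl
    rw [e, ← Rat.divInt_eq_div]
    exact_mod_cast h
  rw [sum_ee ρ a h2]
  have h3 : ρ.den = 1 ↔ (a : ℤ) ∣ n := by
    constructor
    · intro h
      have h4 : ((ρ.num : ℤ) : ℚ) = ρ := (Rat.den_eq_one_iff ρ).1 h
      rw [hρ, eq_div_iff ha'] at h4
      refine ⟨ρ.num, ?_⟩
      rw [← hρ] at h4
      have h5 : (ρ.num * (a : ℤ) : ℤ) = n := by exact_mod_cast h4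
      rw [← h5]
      ring
    · rintro ⟨c, rfl⟩
      rw [Rat.den_eq_one_iff]
      have h4 : ρ = (c : ℚ) := by
        rw [hρ]
        push_cast
        field_simp
      rw [h4]
      simp
  by_cases h4 : (a : ℤ) ∣ n
  · rw [if_pos h4, if_pos (h3.2 h4)]
  · rw [if_neg h4, if_neg fun h5 => h4 (h3.1 h5)]

theorem sum_Fr (a : ℕ) (ha : 0 < a) (n : ℤ) :
    ∑ q ∈ a.divisors, ∑ ρ ∈ Fr q, ee ρ n = if (a : ℤ) ∣ n then (a : ℂ) else 0 := by
  classical
  rw [← sum_all a ha n]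
  have ha' : (0 : ℚ) < a := by positivity
  have hmaps : ∀ r ∈ range a, ((r : ℚ) / (a : ℚ)).den ∈ a.divisors := fun r _ =>
    Nat.mem_divisors.2 ⟨den_dvd a r ha, ha.ne'⟩
  rw [← sum_fiberwise_of_maps_to hmaps]
  refine sum_congr rfl fun q hq => ?_
  have hq0 : 0 < q := Nat.pos_of_mem_divisors hq
  have hqa := Nat.dvd_of_mem_divisors hq
  symm
  refine sum_bij (fun r _ => (r : ℚ) / (a : ℚ)) (fun r hr => ?_) (fun r _ r' _ h => ?_)
    (fun ρ hρ => ?_) (fun _ _ => rfl)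
  · rw [mem_filter, mem_range] at hr
    rw [mem_Fr q hq0]
    refine ⟨by positivity, ?_, hr.2⟩
    rw [div_lt_one ha']
    exact_mod_cast hr.1
  · rw [div_left_inj' ha'.ne'] at h
    exact_mod_cast h
  · rw [mem_Fr q hq0] at hρ
    obtain ⟨h0, h1, h2⟩ := hρ
    obtain ⟨c, hc⟩ := hqa
    have hnum : 0 ≤ ρ.num := Rat.num_nonneg.mpr h0
    have hc0 : 0 < c := by
      rcases Nat.eq_zero_or_pos c with h | h
      · rw [h, mul_zero] at hc
        omega
      · exact h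
    have hlt : ρ.num < ρ.den := Rat.num_lt_denom_iff.mpr h1
    have hval : ((ρ.num.toNat * c : ℕ) : ℚ) / (a : ℚ) = ρ := by
      have h4 : ((ρ.num.toNat : ℕ) : ℚ) = (ρ.num : ℚ) := by
        have : ((ρ.num.toNat : ℕ) : ℤ) = ρ.num := Int.toNat_of_nonneg hnum
        exact_mod_cast this
      rw [hc]
      push_cast
      rw [h4]
      have hc' : (c : ℚ) ≠ 0 := by positivity
      rw [mul_div_mul_right _ _ hc', ← h2]
      exact Rat.num_div_den ρ
    refine ⟨ρ.num.toNat * c, ?_, hval⟩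
    rw [mem_filter, mem_range]
    refine ⟨?_, by rw [hval, h2]⟩
    rw [hc]
    refine Nat.mul_lt_mul_of_pos_right ?_ hc0
    rw [h2] at hlt
    omega

end RamC

theorem ram_ee (q : ℕ) (hq : 0 < q) (n : ℤ) : (ram q n : ℂ) = ∑ ρ ∈ Fr q, ee ρ n := by
  have h1 := (ArithmeticFunction.sum_eq_iff_sum_mul_moebius_eq (R := ℂ)
    (f := fun q => (ram q n : ℂ)) (g := fun b : ℕ => if (b : ℤ) ∣ n then (b : ℂ) else 0)).1 (by
    intro a ha
    have h := ram_sum a ha n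
    have h' := congrArg (fun t : ℝ => (t : ℂ)) h
    push_cast at h'
    rw [h']
    split_ifs <;> simp)
  have h2 := (ArithmeticFunction.sum_eq_iff_sum_mul_moebius_eq (R := ℂ)
    (f := fun q => ∑ ρ ∈ Fr q, ee ρ n)
    (g := fun b : ℕ => if (b : ℤ) ∣ n then (b : ℂ) else 0)).1 (fun a ha => RamC.sum_Fr a ha n)
  exact (h1 q hq).symm.trans (h2 q hq)

end Pool.Agent.MP_a12917_nt_GT
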