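import Mathlib
import Pool.Agent.Lib.MP_a12917_nt_GT.Defs
import Pool.Agent.Lib.MP_a12917_nt_GT.Basic

/-!
# MP_a12917_nt, project GT, module Wt: the weights

(`ℓ = hs z`.)
`wt_le`: `a = q b`, `∑_{b ≤ z/q} 1/(qb) = hs(z/q)/q ≤ hs z/q`. `wt_one`: `q = 1`. `wt_mul`:
`p q ∣ a`, `a = p b`, `b ≤ z/p`, `q ∣ b`. `wt_mono`: larger index set. `wt_zero`: no multiple of `q` in
`[1, z]` if `q > z`.
-/

set_option autoImplicit false

noncomputable section

namespace Pool.Agent.MP_a12917_nt_GT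

open Finset

theorem wt_nonneg (z q : ℕ) : 0 ≤ wt z q := by
  unfold wt
  exact sum_nonneg fun a _ => by positivity

/-- the weight of a product -/
theorem Wt.mul_aux (z p q : ℕ) (hp : 1 ≤ p) : wt z (p * q) = wt (z / p) q / p := by
  classical
  unfold wt
  have hset : (Icc 1 z).filter (fun a => p * q ∣ a) =
      ((Icc 1 (z / p)).filter (fun a => q ∣ a)).image (fun b => p * b) := by
    ext a
    rw [mem_filter, mem_image, mem_Icc]
    constructor
    · rintro ⟨⟨h1, h2⟩, h3⟩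
      obtain ⟨c, hc⟩ := h3
      refine ⟨q * c, ?_, by rw [hc, mul_assoc]⟩
      rw [mem_filter, mem_Icc]
      refine ⟨⟨?_, ?_⟩, Dvd.intro _ rfl⟩
      · by_contra h
        have h4 : q * c = 0 := by omega
        rw [mul_assoc, h4, mul_zero] at hc
        omega
      · rw [Nat.le_div_iff_mul_le hp]
        calc q * c * p = p * q * c := by ring
          _ = a := hc.symm
          _ ≤ z := h2
    · rintro ⟨b, hb, rfl⟩
      rw [mem_filter, mem_Icc] at hb
      obtain ⟨⟨h1, h2⟩, h3⟩ := hb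
      refine ⟨⟨Nat.mul_pos hp h1, ?_⟩, Nat.mul_dvd_mul_left p h3⟩
      rw [Nat.le_div_iff_mul_le hp] at h2
      rwa [mul_comm]
  rw [hset, sum_image (fun x _ y _ h => Nat.eq_of_mul_eq_mul_left hp h), sum_div]
  refine sum_congr rfl fun b hb => ?_
  have hp' : (p : ℝ) ≠ 0 := by positivity
  push_cast
  rw [div_div, mul_comm (b : ℝ)]

theorem wt_le (z q : ℕ) (hq : 1 ≤ q) : wt z q ≤ hs z / q := by
  have h1 := Wt.mul_aux z q 1 hq
  rw [mul_one] at h1
  rw [h1]
  have h2 : wt (z / q) 1 = hs (z / q) := by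
    unfold wt hs
    rw [filter_true_of_mem fun a _ => one_dvd a]
  rw [h2]
  exact div_le_div_of_nonneg_right (hs_mono _ _ (Nat.div_le_self z q)) (Nat.cast_nonneg _)

theorem wt_one (z : ℕ) : wt z 1 = hs z := by
  unfold wt hs
  rw [filter_true_of_mem fun a _ => one_dvd a]

theorem wt_mul (z p q : ℕ) (hp : 1 ≤ p) (hq : 1 ≤ q) : wt z (p * q) = wt (z / p) q / p :=
  Wt.mul_aux z p q hp

theorem wt_mono (z' z q : ℕ) (h : z' ≤ z) : wt z' q ≤ wt z q := by
  unfold wt
  exact sum_le_sum_of_subset_of_nonneg (filter_subset_filter _ (Icc_subset_Icc le_rfl h))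
    fun i _ _ => by positivity

theorem wt_zero (z q : ℕ) (h : z < q) : wt z q = 0 := by
  unfold wt
  refine sum_eq_zero fun a ha => ?_
  rw [mem_filter, mem_Icc] at ha
  have := Nat.le_of_dvd (by omega) ha.2
  omega

end Pool.Agent.MP_a12917_nt_GT
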