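import Mathlib
import Pool.Agent.Lib.MP_a12917_nt_GT.Defs
import Pool.Agent.Lib.MP_a12917_nt_GT.Basic
import Pool.Agent.Lib.MP_a12917_nt_GT.RamC
import Pool.Agent.Lib.MP_a12917_nt_GT.Wt
import Pool.Agent.Lib.MP_a12917_nt_GT.Dil
import Pool.Agent.Lib.MP_a12917_nt_GT.NdFacts

/-!
# MP_a12917_nt, project GT, module GtTP: gt and g as trigonometric polynomials

(`ℓ = hs z`.)
`Tp y z p := ⋃_{q ∈ Qp y z p, q ≥ 2} Fr q` (defined here). `gt` is the sum over `q` of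
`wt (z/p) q ∑_{ρ ∈ Fr q} ee ρ n` (`ram_ee`), the sets `Fr q` are disjoint and `ρ.den = q` on `Fr q`
(`mem_Fr`). `Tp_mem`: `ρ ∈ Fr q`, `q ≥ 2`: `ρ ≠ 0`; all primes of `q` are `< p`, so `q` is coprime
to the
prime `p`; `2 ≤ q ≤ z/p ≤ z`, `q ∣ z! ∣ Lm z`. `Tp_dil`: `fract(pρ)` has the same denominator
(`fract_den`) so
it is in `Fr q`, `q ∈ Icc 2 z`; `wt (z/p) q ≤ hs (z/p)/q ≤ hs z/q` (`wt_le`, `hs_mono`). `g_tp`:
the same with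
all `q ∈ Qp` (set `Tp0`). `cnt_tp`: `cnt_eq` and `ram_ee` with the set `⋃_{1 ≤ q ≤ z} Fr q`.
-/

set_option autoImplicit false

noncomputable section

namespace Pool.Agent.MP_a12917_nt_GT

open Finset

def Tp (y z p : ℕ) : Finset ℚ := ((Qp y z p).filter (fun q => 2 ≤ q)).biUnion Fr

def Tp0 (y z p : ℕ) : Finset ℚ := (Qp y z p).biUnion Fr

theorem GtTP.gen (w : ℕ) (Q : Finset ℕ) (hQ : ∀ q ∈ Q, 1 ≤ q) (n : ℤ) :
    ((∑ q ∈ Q, wt w q * ram q n : ℝ) : ℂ) =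
      ∑ ρ ∈ Q.biUnion Fr, ((wt w ρ.den : ℝ) : ℂ) * ee ρ n := by
  rw [sum_biUnion]
  · push_cast
    refine sum_congr rfl fun q hq => ?_
    rw [ram_ee q (hQ q hq) n, mul_sum]
    refine sum_congr rfl fun ρ hρ => ?_
    rw [((mem_Fr q (hQ q hq) ρ).1 hρ).2.2]
  · intro q hq q' hq' hne
    change Disjoint (Fr q) (Fr q')
    rw [disjoint_left]
    intro ρ h1 h2
    exact hne (((mem_Fr q (hQ q hq) ρ).1 h1).2.2.symm.trans ((mem_Fr q' (hQ q' hq') ρ).1 h2).2.2)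

theorem GtTP.one_le {y z p q : ℕ} (hq : q ∈ Qp y z p) : 1 ≤ q :=
  (mem_Icc.1 (mem_filter.1 hq).1).1

theorem gt_tp (y z p : ℕ) (n : ℤ) :
    (gt y z p n : ℂ) = ∑ ρ ∈ Tp y z p, ((wt (z / p) ρ.den : ℝ) : ℂ) * ee ρ n :=
  GtTP.gen (z / p) _ (fun _ hq => GtTP.one_le (mem_filter.1 hq).1) n

theorem g_tp (y z p : ℕ) (n : ℤ) :
    (g y z p n : ℂ) = ∑ ρ ∈ Tp0 y z p, ((wt (z / p) ρ.den : ℝ) : ℂ) * ee ρ n :=
  GtTP.gen (z / p) _ (fun _ hq => GtTP.one_le hq) n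

theorem GtTP.mem {y z p : ℕ} {ρ : ℚ} (hρ : ρ ∈ Tp y z p) :
    ρ.den ∈ Qp y z p ∧ 2 ≤ ρ.den ∧ 0 ≤ ρ ∧ ρ < 1 := by
  unfold Tp at hρ
  rw [mem_biUnion] at hρ
  obtain ⟨q, hq, hρq⟩ := hρ
  rw [mem_filter] at hq
  obtain ⟨h1, h2, h3⟩ := (mem_Fr q (by omega) ρ).1 hρq
  rw [h3]
  exact ⟨hq.1, hq.2, h1, h2⟩

theorem Tp_mem (y z p : ℕ) (hp : p.Prime) (ρ : ℚ) (hρ : ρ ∈ Tp y z p) :
    0 < ρ ∧ ρ < 1 ∧ ρ.den.Coprime p ∧ ρ.den ∣ Lm z ∧ 2 ≤ ρ.den ∧ ρ.den ≤ z := by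
  obtain ⟨h1, h2, h3, h4⟩ := GtTP.mem hρ
  unfold Qp at h1
  rw [mem_filter, mem_Icc] at h1
  obtain ⟨⟨h5, h6⟩, h7, -⟩ := h1
  have h8 : ρ.den ≤ z := h6.trans (Nat.div_le_self z p)
  refine ⟨?_, h4, ?_, ?_, h2, h8⟩
  · rcases h3.lt_or_eq with h | h
    · exact h
    · rw [← h, Rat.den_zero] at h2
      omega
  · rw [Nat.coprime_comm, hp.coprime_iff_not_dvd]
    intro hd
    exact lt_irrefl _ (h7 p (Nat.mem_primeFactors.2 ⟨hp, hd, by omega⟩))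
  · unfold Lm
    exact (Nat.dvd_factorial (by omega) h8).trans (dvd_pow_self _ (by omega))

theorem Tp_dil (y z p : ℕ) (hp : p.Prime) (ρ : ℚ) (hρ : ρ ∈ Tp y z p) (K' : ℝ) (hK : 0 ≤ K') :
    Int.fract ((p : ℚ) * ρ) ∈ RU z ∧
      |wt (z / p) ρ.den| * EK K' (Int.fract ((p : ℚ) * ρ)) ≤
        bw z K' (Int.fract ((p : ℚ) * ρ)) := by
  obtain ⟨-, -, h3, -, h5, h6⟩ := Tp_mem y z p hp ρ hρ
  have hden := fract_den p ρ h3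
  constructor
  · unfold RU
    rw [mem_biUnion]
    exact ⟨ρ.den, mem_Icc.2 ⟨h5, h6⟩,
      (mem_Fr _ (by omega) _).2 ⟨Int.fract_nonneg _, Int.fract_lt_one _, hden⟩⟩
  · unfold bw
    rw [hden]
    refine mul_le_mul_of_nonneg_right ?_ (EK_nonneg K' hK _)
    rw [abs_of_nonneg (wt_nonneg _ _)]
    refine (wt_le _ _ (by omega)).trans ?_
    exact div_le_div_of_nonneg_right (hs_mono _ _ (Nat.div_le_self z p)) (Nat.cast_nonneg _)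

end Pool.Agent.MP_a12917_nt_GT
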