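import Mathlib
import Pool.Agent.Lib.MP_a12917_nt_GT.Defs
import Pool.Agent.Lib.MP_a12917_nt_GT.Basic

/-!
# MP_a12917_nt, project GT, module CntMul: submultiplicativity of the divisor count

(`ℓ = hs z`.)
`Q` is a divisor closed set of positive integers. Claim: `cnt Q (a x) ≤ d(a) cnt Q x`. Map a
`q ∈ Q`, `q ∣ a x`, to the pair `(g, q/g)`, `g = gcd(q, a)`: `g ∣ a`; `q/g ∈ Q` (divisor closed), and
`q/g ∣ (a/g) x` with `gcd(q/g, a/g) = 1` gives `q/g ∣ x`. The map is injective (`q` is the product).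
-/

set_option autoImplicit false

noncomputable section

namespace Pool.Agent.MP_a12917_nt_GT

open Finset

theorem cnt_mul (Q : Finset ℕ) (h0 : ∀ q ∈ Q, 0 < q) (hQ : ∀ q ∈ Q, ∀ d : ℕ, d ∣ q → d ∈ Q)
    (a : ℕ) (ha : 0 < a) (x : ℤ) : cnt Q ((a : ℤ) * x) ≤ a.divisors.card * cnt Q x := by
  unfold cnt
  rw [← card_product]
  refine card_le_card_of_injOn (fun q => (Nat.gcd q a, q / Nat.gcd q a)) ?_ ?_
  · intro q hq
    rw [mem_coe, mem_filter] at hq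
    have hq0 := h0 q hq.1
    have hg : 0 < Nat.gcd q a := Nat.gcd_pos_of_pos_left a hq0
    rw [mem_coe, mem_product]
    refine ⟨Nat.mem_divisors.2 ⟨Nat.gcd_dvd_right q a, ha.ne'⟩, mem_filter.2 ⟨?_, ?_⟩⟩
    · exact hQ q hq.1 _ (Nat.div_dvd_of_dvd (Nat.gcd_dvd_left q a))
    · show ((q / Nat.gcd q a : ℕ) : ℤ) ∣ x
      have hcop : Nat.Coprime (q / Nat.gcd q a) (a / Nat.gcd q a) := Nat.coprime_div_gcd_div_gcd hg
      have h1 : q = Nat.gcd q a * (q / Nat.gcd q a) :=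
        (Nat.mul_div_cancel' (Nat.gcd_dvd_left q a)).symm
      have h2 : a = Nat.gcd q a * (a / Nat.gcd q a) :=
        (Nat.mul_div_cancel' (Nat.gcd_dvd_right q a)).symm
      have h3 : ((Nat.gcd q a : ℕ) : ℤ) * ((q / Nat.gcd q a : ℕ) : ℤ) ∣
          ((Nat.gcd q a : ℕ) : ℤ) * (((a / Nat.gcd q a : ℕ) : ℤ) * x) := by
        have e1 : ((Nat.gcd q a : ℕ) : ℤ) * ((q / Nat.gcd q a : ℕ) : ℤ) = (q : ℤ) := by
          rw [← Nat.cast_mul, ← h1]
        have e2 : ((Nat.gcd q a : ℕ) : ℤ) * (((a / Nat.gcd q a : ℕ) : ℤ) * x) = (a : ℤ) * x := by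
          rw [← mul_assoc, ← Nat.cast_mul, ← h2]
        rw [e1, e2]
        exact hq.2
      have h4 : ((q / Nat.gcd q a : ℕ) : ℤ) ∣ ((a / Nat.gcd q a : ℕ) : ℤ) * x :=
        (mul_dvd_mul_iff_left (by exact_mod_cast hg.ne')).1 h3
      exact (Nat.isCoprime_iff_coprime.2 hcop).dvd_of_dvd_mul_left h4
  · intro q _ q' _ h
    have h1 : Nat.gcd q a = Nat.gcd q' a := congrArg Prod.fst h
    have h2 : q / Nat.gcd q a = q' / Nat.gcd q' a := congrArg Prod.snd h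
    rw [← Nat.mul_div_cancel' (Nat.gcd_dvd_left q a), ← Nat.mul_div_cancel'
      (Nat.gcd_dvd_left q' a), h2, h1]

end Pool.Agent.MP_a12917_nt_GT
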