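import Mathlib
import Pool.Agent.Lib.MP_a12917_nt_GT.Defs
import Pool.Agent.Lib.MP_a12917_nt_GT.Basic
import Pool.Agent.Lib.MP_a12917_nt_GT.CntMul

/-!
# MP_a12917_nt, project GT, module CntMulM: mean of a power of the divisor count over multiples of a

(`ℓ = hs z`.)
`F(x) = 1_{a ∣ x} cnt(x)^m` is periodic mod `L` (`a ∣ L`, all `q ∈ Q` divide `L`), so
`mean L F = mean (a L) F` (`mean_of_dvd`) `= (1/(aL)) ∑_{x' < L} cnt(a x')^m` (the multiples of `a` in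
`[0, aL)` are `a x'`, `x' < L`) `≤ (1/a) mean L (d(a)^m cnt^m)` by `cnt_mul`.
-/

set_option autoImplicit false

noncomputable section

namespace Pool.Agent.MP_a12917_nt_GT

open Finset

theorem cnt_mul_mean (Q : Finset ℕ) (h0 : ∀ q ∈ Q, 0 < q)
    (hQ : ∀ q ∈ Q, ∀ d : ℕ, d ∣ q → d ∈ Q) (L : ℕ) (hL0 : 0 < L) (hL : ∀ q ∈ Q, q ∣ L)
    (a : ℕ) (ha : a ∣ L) (m : ℕ) :
    mean L (fun x => if (a : ℤ) ∣ x then (cnt Q x : ℝ) ^ m else 0) ≤
      (a.divisors.card : ℝ) ^ m / a * mean L (fun x => (cnt Q x : ℝ) ^ m) := by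
  have ha0 : 0 < a := Nat.pos_of_dvd_of_pos ha hL0
  have hcnt : ∀ x : ℤ, cnt Q (x + (L : ℤ)) = cnt Q x := by
    intro x
    unfold cnt
    congr 1
    refine filter_congr fun q hq => ?_
    have h1 : (q : ℤ) ∣ (L : ℤ) := Int.natCast_dvd_natCast.2 (hL q hq)
    exact dvd_add_left h1
  have hper : ∀ x : ℤ, (fun x : ℤ => if (a : ℤ) ∣ x then (cnt Q x : ℝ) ^ m else 0) (x + (L : ℤ)) =
      (fun x : ℤ => if (a : ℤ) ∣ x then (cnt Q x : ℝ) ^ m else 0) x := by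
    intro x
    have h1 : (a : ℤ) ∣ (L : ℤ) := Int.natCast_dvd_natCast.2 ha
    have h2 : (a : ℤ) ∣ x + (L : ℤ) ↔ (a : ℤ) ∣ x := dvd_add_left h1
    simp only [h2, hcnt]
  rw [← mean_of_dvd L (a * L) (Dvd.intro_left a rfl) (Nat.mul_pos ha0 hL0) _ hper]
  unfold mean
  have hsum : ∑ x ∈ range (a * L), (if (a : ℤ) ∣ (x : ℤ) then (cnt Q (x : ℤ) : ℝ) ^ m else 0) =
      ∑ x ∈ range L, (cnt Q ((a : ℤ) * (x : ℤ)) : ℝ) ^ m := by
    rw [← sum_filter]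
    have e : (range (a * L)).filter (fun x : ℕ => (a : ℤ) ∣ (x : ℤ)) =
        (range L).image (fun x => a * x) := by
      ext x
      rw [mem_filter, mem_image, mem_range, Int.natCast_dvd_natCast]
      constructor
      · rintro ⟨h1, x', rfl⟩
        exact ⟨x', mem_range.2 (lt_of_mul_lt_mul_left h1 (Nat.zero_le a)), rfl⟩
      · rintro ⟨x', h1, rfl⟩
        exact ⟨Nat.mul_lt_mul_of_pos_left (mem_range.1 h1) ha0, Dvd.intro _ rfl⟩
    rw [e, sum_image fun x _ y _ h => Nat.eq_of_mul_eq_mul_left ha0 h]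
    refine sum_congr rfl fun x _ => ?_
    rw [Nat.cast_mul]
  have hle : ∑ x ∈ range L, (cnt Q ((a : ℤ) * (x : ℤ)) : ℝ) ^ m ≤
      (a.divisors.card : ℝ) ^ m * ∑ x ∈ range L, (cnt Q (x : ℤ) : ℝ) ^ m := by
    rw [mul_sum]
    refine sum_le_sum fun x _ => ?_
    rw [← mul_pow]
    refine pow_le_pow_left₀ (Nat.cast_nonneg _) ?_ m
    exact_mod_cast cnt_mul Q h0 hQ a ha0 x
  have haR : (0 : ℝ) < a := by exact_mod_cast ha0
  have hLR : (0 : ℝ) < L := by exact_mod_cast hL0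
  rw [hsum, Nat.cast_mul]
  calc (∑ x ∈ range L, (cnt Q ((a : ℤ) * (x : ℤ)) : ℝ) ^ m) / ((a : ℝ) * L)
      ≤ ((a.divisors.card : ℝ) ^ m * ∑ x ∈ range L, (cnt Q (x : ℤ) : ℝ) ^ m) / ((a : ℝ) * L) :=
        div_le_div_of_nonneg_right hle (by positivity)
    _ = (a.divisors.card : ℝ) ^ m / a * ((∑ x ∈ range L, (cnt Q (x : ℤ) : ℝ) ^ m) / L) := by
        field_simp

end Pool.Agent.MP_a12917_nt_GT
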