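import Mathlib
import Pool.Agent.Lib.MP_a12917_nt_GT.Defs
import Pool.Agent.Lib.MP_a12917_nt_GT.Basic

/-!
# MP_a12917_nt, project GT, module DivSum: sums of powers of the divisor function over a divisor closed set

(`ℓ = hs z`.)
Induction on `j`; `j = 0` is an equality. Step: `d(bc) ≤ d(b) d(c)`, and
`d(a)^{j+1} = d(a)^j ∑_{bc=a} 1 ≤ ∑_{bc=a} d(b)^j d(c)^j`. So
`∑_{a ∈ Q} d(a)^{j+1}/a ≤ ∑_{a ∈ Q} ∑_{bc=a} (d(b)^j/b)(d(c)^j/c) ≤ (∑_{b ∈ Q} d(b)^j/b)²`
(divisor closed: `b, c ∈ Q`, the map `(a, (b,c)) ↦ (b,c)` is injective), then the induction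
hypothesis and `(t^{2^j})² = t^{2^{j+1}}`. (`d(bc) ≤ d(b)d(c)`: the map `(d1,d2) ↦ d1 d2` from
`divisors b × divisors c` onto `divisors (bc)`, see e.g. `Nat.divisors_mul`.)
-/

set_option autoImplicit false

noncomputable section

namespace Pool.Agent.MP_a12917_nt_GT

open Finset

namespace DivSum

theorem card_mul (b c : ℕ) : (b * c).divisors.card ≤ b.divisors.card * c.divisors.card := by
  rw [Nat.divisors_mul]
  exact Finset.card_mul_le

theorem key (Q : Finset ℕ) (h0 : ∀ q ∈ Q, 0 < q) (hQ : ∀ q ∈ Q, ∀ d : ℕ, d ∣ q → d ∈ Q)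
    (G : ℕ → ℝ) (hG : ∀ n, 0 ≤ G n) :
    ∑ a ∈ Q, ∑ b ∈ a.divisors, G b * G (a / b) ≤ (∑ b ∈ Q, G b) ^ 2 := by
  classical
  rw [sum_sigma', sq, sum_mul_sum, ← sum_product']
  have hinj : Set.InjOn (fun x : (_ : ℕ) × ℕ => (x.2, x.1 / x.2))
      (Q.sigma fun a => a.divisors : Finset ((_ : ℕ) × ℕ)) := by
    rintro ⟨a, b⟩ hx ⟨a', b'⟩ hx' h
    have hx1 := mem_sigma.1 (mem_coe.1 hx)
    have hx2 := mem_sigma.1 (mem_coe.1 hx')
    have h1 : b = b' := congrArg Prod.fst h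
    have h2 : a / b = a' / b' := congrArg Prod.snd h
    have h3 : b ∣ a := Nat.dvd_of_mem_divisors hx1.2
    have h4 : b' ∣ a' := Nat.dvd_of_mem_divisors hx2.2
    subst h1
    have h5 : a = a' := by
      rw [← Nat.mul_div_cancel' h3, ← Nat.mul_div_cancel' h4, h2]
    subst h5
    rfl
  have h1 : ∑ x ∈ Q.sigma fun a => a.divisors, G x.2 * G (x.1 / x.2) =
      ∑ y ∈ (Q.sigma fun a => a.divisors).image (fun x : (_ : ℕ) × ℕ => (x.2, x.1 / x.2)),
        G y.1 * G y.2 := by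
    rw [sum_image hinj]
  rw [h1]
  refine sum_le_sum_of_subset_of_nonneg ?_ fun y _ _ => mul_nonneg (hG _) (hG _)
  intro y hy
  obtain ⟨⟨a, b⟩, hx, rfl⟩ := mem_image.1 hy
  have hx1 := mem_sigma.1 hx
  have h3 : b ∣ a := Nat.dvd_of_mem_divisors hx1.2
  exact mem_product.2 ⟨hQ a hx1.1 b h3, hQ a hx1.1 (a / b) (Nat.div_dvd_of_dvd h3)⟩

end DivSum

theorem div_sum (Q : Finset ℕ) (h0 : ∀ q ∈ Q, 0 < q) (hQ : ∀ q ∈ Q, ∀ d : ℕ, d ∣ q → d ∈ Q)
    (j : ℕ) : ∑ a ∈ Q, (a.divisors.card : ℝ) ^ j / a ≤ (∑ a ∈ Q, 1 / (a : ℝ)) ^ (2 ^ j) := by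
  induction j with
  | zero =>
    rw [pow_zero, pow_one]
    exact le_of_eq (sum_congr rfl fun a _ => by rw [pow_zero])
  | succ j ih =>
    have hG : ∀ n : ℕ, (0 : ℝ) ≤ (n.divisors.card : ℝ) ^ j / n := fun n => by positivity
    have h1 : ∑ a ∈ Q, (a.divisors.card : ℝ) ^ (j + 1) / a ≤
        ∑ a ∈ Q, ∑ b ∈ a.divisors, ((b.divisors.card : ℝ) ^ j / b) *
          (((a / b).divisors.card : ℝ) ^ j / ((a / b : ℕ) : ℝ)) := by
      refine sum_le_sum fun a ha => ?_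
      have h2 : (a.divisors.card : ℝ) ^ (j + 1) / a =
          ∑ _b ∈ a.divisors, (a.divisors.card : ℝ) ^ j / a := by
        rw [sum_const, nsmul_eq_mul, pow_succ]
        ring
      rw [h2]
      refine sum_le_sum fun b hb => ?_
      have h3 : b ∣ a := Nat.dvd_of_mem_divisors hb
      obtain ⟨c, rfl⟩ := h3
      have hbc := h0 _ ha
      have hb0 : 0 < b := Nat.pos_of_ne_zero fun h => by
        subst h
        simp at hbc
      have hc0 : 0 < c := Nat.pos_of_ne_zero fun h => by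
        subst h
        simp at hbc
      rw [Nat.mul_div_cancel_left c hb0, div_mul_div_comm, ← mul_pow, ← Nat.cast_mul b c]
      refine div_le_div_of_nonneg_right ?_ (Nat.cast_nonneg _)
      refine pow_le_pow_left₀ (Nat.cast_nonneg _) ?_ j
      exact_mod_cast DivSum.card_mul b c
    refine h1.trans ((DivSum.key Q h0 hQ (fun n => (n.divisors.card : ℝ) ^ j / n) hG).trans ?_)
    rw [pow_succ 2 j, pow_mul]
    exact pow_le_pow_left₀ (sum_nonneg fun n _ => hG n) ih 2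

end Pool.Agent.MP_a12917_nt_GT
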