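import Mathlib
import Pool.Agent.Lib.MP_a12917_nt_GT.Defs
import Pool.Agent.Lib.MP_a12917_nt_GT.Basic
import Pool.Agent.Lib.MP_a12917_nt_GT.CntMulM
import Pool.Agent.Lib.MP_a12917_nt_GT.DivSum

/-!
# MP_a12917_nt, project GT, module CntMom: moments of the divisor count

(`ℓ = hs z`.)
Induction on `m`; `m = 0`: both sides are `1`. Step: `cnt(x)^{m+1} = ∑_{a ∈ Q} 1_{a ∣ x} cnt(x)^m`, so by
`cnt_mul_mean`, `mean cnt^{m+1} ≤ ∑_{a ∈ Q} d(a)^m/a · mean cnt^m ≤ s^{2^m} s^{2^m - 1} = s^{2^{m+1} - 1}`,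
`s = ∑_{a ∈ Q} 1/a`, by `div_sum` and induction.
-/

set_option autoImplicit false

noncomputable section

namespace Pool.Agent.MP_a12917_nt_GT

open Finset

theorem cnt_mom (Q : Finset ℕ) (h0 : ∀ q ∈ Q, 0 < q) (hQ : ∀ q ∈ Q, ∀ d : ℕ, d ∣ q → d ∈ Q)
    (L : ℕ) (hL0 : 0 < L) (hL : ∀ q ∈ Q, q ∣ L) (m : ℕ) :
    mean L (fun x => (cnt Q x : ℝ) ^ m) ≤ (∑ a ∈ Q, 1 / (a : ℝ)) ^ (2 ^ m - 1) := by
  have hs0 : 0 ≤ ∑ a ∈ Q, 1 / (a : ℝ) := sum_nonneg fun a _ => by positivity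
  induction m with
  | zero =>
    have h1 : mean L (fun x => (cnt Q x : ℝ) ^ 0) = 1 := by
      simp only [pow_zero]
      exact mean_const L hL0 1
    rw [h1]
    simp
  | succ m ih =>
    have h1 : mean L (fun x => (cnt Q x : ℝ) ^ (m + 1)) =
        ∑ a ∈ Q, mean L (fun x => if (a : ℤ) ∣ x then (cnt Q x : ℝ) ^ m else 0) := by
      rw [← mean_sum]
      refine mean_congr L _ _ fun x => ?_
      rw [← sum_filter, sum_const, nsmul_eq_mul, pow_succ, mul_comm]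
      rfl
    rw [h1]
    have h2 : ∀ a ∈ Q, mean L (fun x => if (a : ℤ) ∣ x then (cnt Q x : ℝ) ^ m else 0) ≤
        (a.divisors.card : ℝ) ^ m / a * mean L (fun x => (cnt Q x : ℝ) ^ m) :=
      fun a ha => cnt_mul_mean Q h0 hQ L hL0 hL a (hL a ha) m
    refine (sum_le_sum h2).trans ?_
    rw [← sum_mul]
    have h3 : 0 ≤ mean L (fun x => (cnt Q x : ℝ) ^ m) :=
      mean_nonneg L _ fun x => by positivity
    refine (mul_le_mul (div_sum Q h0 hQ m) ih h3 (by positivity)).trans ?_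
    rw [← pow_add]
    refine le_of_eq ?_
    congr 1
    have h4 : 1 ≤ 2 ^ m := Nat.one_le_two_pow
    rw [pow_succ 2 m]
    omega

end Pool.Agent.MP_a12917_nt_GT
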