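import Mathlib
import Pool.Agent.Lib.MP_a12917_nt_GT.Defs
import Pool.Agent.Lib.MP_a12917_nt_GT.Basic
import Pool.Agent.Lib.MP_a12917_nt_GT.NdFacts

/-!
# MP_a12917_nt, project GT, module EKsum: the square sum of EK over the fractions with denominator q

(`ℓ = hs z`.)
`EK K ρ ≤ 2 K / (1 + 2 K nd ρ)` (two cases), and `nd ρ ≥ ρ` or `nd ρ ≥ 1 - ρ`. So
`EK K (r/q) ^ 2 ≤ G (r/q) + G ((q-r)/q)` with `G t = (2 K / (1 + 2 K t)) ^ 2`, and
`∑_{1 ≤ r ≤ n} G (r/q) ≤ 2 K q` by telescoping: with `a = 1 + 2 K (r-1)/q`, `b = 1 + 2 K r/q`,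
`G (r/q) = 4 K² / b² ≤ 4 K² / (a b) = 2 K q (1/a - 1/b)`.
-/

set_option autoImplicit false

noncomputable section

namespace Pool.Agent.MP_a12917_nt_GT

open Finset

/-- the majorant -/
private def EKsumG (K t : ℝ) : ℝ := (2 * K / (1 + 2 * K * t)) ^ 2

private theorem EKsumG_nonneg (K t : ℝ) : 0 ≤ EKsumG K t := sq_nonneg _

private theorem EKsumG_anti (K : ℝ) (hK : 0 < K) (s t : ℝ) (hs : 0 ≤ s) (h : s ≤ t) :
    EKsumG K t ≤ EKsumG K s := by
  unfold EKsumG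
  have h1 : 0 < 1 + 2 * K * s := by positivity
  have h2 : 1 + 2 * K * s ≤ 1 + 2 * K * t := by nlinarith
  have h3 : 2 * K / (1 + 2 * K * t) ≤ 2 * K / (1 + 2 * K * s) :=
    div_le_div_of_nonneg_left (by positivity) h1 h2
  have h4 : 0 ≤ 2 * K / (1 + 2 * K * t) := div_nonneg (by positivity) (by linarith)
  exact pow_le_pow_left₀ h4 h3 2

private theorem EKsum_le (K : ℝ) (hK : 0 < K) (ρ : ℚ) : EK K ρ ^ 2 ≤ EKsumG K (nd ρ) := by
  have h0 := nd_nonneg ρ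
  have h1 : 0 < 1 + 2 * K * nd ρ := by positivity
  have h2 := EK_nonneg K hK.le ρ
  unfold EKsumG
  refine pow_le_pow_left₀ h2 ?_ 2
  rw [le_div_iff₀ h1]
  unfold EK
  split_ifs with h
  · nlinarith
  · have h3 : 1 < 2 * K * nd ρ := not_le.1 h
    have h4 : 0 < nd ρ := by
      by_contra h5
      have h6 : nd ρ = 0 := le_antisymm (not_lt.1 h5) h0
      rw [h6, mul_zero] at h3
      linarith
    rw [div_mul_eq_mul_div, div_le_iff₀ (by positivity), one_mul]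
    nlinarith

private theorem EKsum_nd (ρ : ℚ) : (ρ : ℝ) ≤ nd ρ ∨ 1 - (ρ : ℝ) ≤ nd ρ := by
  unfold nd
  rcases le_or_gt (round ρ) 0 with h | h
  · left
    have h1 : ((round ρ : ℤ) : ℝ) ≤ 0 := by exact_mod_cast h
    refine le_trans ?_ (le_abs_self _)
    push_cast
    linarith
  · right
    have h1 : (1 : ℝ) ≤ ((round ρ : ℤ) : ℝ) := by exact_mod_cast h
    refine le_trans ?_ (neg_le_abs _)
    push_cast
    linarith

private theorem EKsum_G (K : ℝ) (hK : 0 < K) (ρ : ℚ) (h0 : 0 ≤ ρ) (h1 : ρ ≤ 1) :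
    EK K ρ ^ 2 ≤ EKsumG K (ρ : ℝ) + EKsumG K (1 - (ρ : ℝ)) := by
  have h2 := EKsum_le K hK ρ
  have h3 := EKsumG_nonneg K (ρ : ℝ)
  have h4 := EKsumG_nonneg K (1 - (ρ : ℝ))
  have h5 : (0 : ℝ) ≤ (ρ : ℝ) := by exact_mod_cast h0
  have h6 : (ρ : ℝ) ≤ 1 := by exact_mod_cast h1
  rcases EKsum_nd ρ with h | h
  · have h7 := EKsumG_anti K hK _ _ h5 h
    linarith
  · have h7 := EKsumG_anti K hK _ _ (by linarith) h
    linarith

private theorem EKsum_tel (K Q : ℝ) (hK : 0 < K) (hQ : 0 < Q) (n : ℕ) :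
    ∑ i ∈ range n, EKsumG K (((i : ℝ) + 1) / Q) ≤ 2 * K * Q * (1 - 1 / (1 + 2 * K * (n / Q))) := by
  induction n with
  | zero => simp
  | succ n ih =>
    rw [sum_range_succ]
    have h1 : EKsumG K (((n : ℝ) + 1) / Q) ≤ 2 * K * Q * (1 / (1 + 2 * K * (n / Q)) -
        1 / (1 + 2 * K * (((n : ℝ) + 1) / Q))) := by
      have ha : 0 < 1 + 2 * K * ((n : ℝ) / Q) := by positivity
      have hb : 0 < 1 + 2 * K * (((n : ℝ) + 1) / Q) := by positivity
      have hab : 1 + 2 * K * ((n : ℝ) / Q) ≤ 1 + 2 * K * (((n : ℝ) + 1) / Q) := by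
        have h2 : (n : ℝ) / Q ≤ ((n : ℝ) + 1) / Q := by
          rw [div_le_div_iff_of_pos_right hQ]
          linarith
        nlinarith
      have h3 : 2 * K * Q * (1 / (1 + 2 * K * (n / Q)) - 1 / (1 + 2 * K * (((n : ℝ) + 1) / Q))) =
          (2 * K) ^ 2 / ((1 + 2 * K * ((n : ℝ) / Q)) * (1 + 2 * K * (((n : ℝ) + 1) / Q))) := by
        rw [div_sub_div _ _ ha.ne' hb.ne', mul_div_assoc']
        congr 1
        field_simp
        ring
      rw [h3]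
      unfold EKsumG
      rw [div_pow]
      refine div_le_div_of_nonneg_left (by positivity) (by positivity) ?_
      rw [sq (1 + 2 * K * (((n : ℝ) + 1) / Q))]
      exact mul_le_mul_of_nonneg_right hab hb.le
    push_cast
    linarith [ih, h1]

private theorem EKsum_tel' (K Q : ℝ) (hK : 0 < K) (hQ : 0 < Q) (n : ℕ) :
    ∑ i ∈ range n, EKsumG K (((i : ℝ) + 1) / Q) ≤ 2 * K * Q := by
  refine (EKsum_tel K Q hK hQ n).trans ?_
  have h1 : 0 ≤ 1 / (1 + 2 * K * ((n : ℝ) / Q)) := by positivity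
  have h2 : 0 < 2 * K * Q := by positivity
  nlinarith

theorem ek_sum (q : ℕ) (hq : 2 ≤ q) (K : ℝ) (hK : 0 < K) :
    ∑ ρ ∈ Fr q, EK K ρ ^ 2 ≤ 4 * K * q := by
  have hq0 : (0 : ℝ) < q := by
    have : 0 < q := by omega
    exact_mod_cast this
  have hqQ : (0 : ℚ) < q := by
    have : 0 < q := by omega
    exact_mod_cast this
  have e1 : ∑ ρ ∈ Fr q, EK K ρ ^ 2 =
      ∑ r ∈ (range q).filter (fun r => Nat.Coprime r q), EK K ((r : ℚ) / (q : ℚ)) ^ 2 := by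
    unfold Fr
    refine sum_image ?_
    intro a _ b _ h
    have h1 : (a : ℚ) / q = (b : ℚ) / q := h
    rw [div_left_inj' hqQ.ne'] at h1
    exact_mod_cast h1
  have e2 : ∑ r ∈ (range q).filter (fun r => Nat.Coprime r q), EK K ((r : ℚ) / (q : ℚ)) ^ 2 ≤
      ∑ r ∈ (range (q - 1)).image Nat.succ, EK K ((r : ℚ) / (q : ℚ)) ^ 2 := by
    refine sum_le_sum_of_subset_of_nonneg ?_ (fun _ _ _ => sq_nonneg _)
    intro r hr
    rw [mem_filter, mem_range] at hr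
    rw [mem_image]
    have h1 : r ≠ 0 := by
      rintro rfl
      have h2 := (Nat.coprime_zero_left q).1 hr.2
      omega
    exact ⟨r - 1, by rw [mem_range]; omega, by omega⟩
  have e3 : ∑ r ∈ (range (q - 1)).image Nat.succ, EK K ((r : ℚ) / (q : ℚ)) ^ 2 =
      ∑ i ∈ range (q - 1), EK K (((i + 1 : ℕ) : ℚ) / (q : ℚ)) ^ 2 :=
    sum_image fun a _ b _ h => Nat.succ_injective h
  have e4 : ∑ i ∈ range (q - 1), EK K (((i + 1 : ℕ) : ℚ) / (q : ℚ)) ^ 2 ≤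
      ∑ i ∈ range (q - 1), (EKsumG K (((i : ℝ) + 1) / q) +
        EKsumG K ((((q - 1 - 1 - i : ℕ) : ℝ) + 1) / q)) := by
    refine sum_le_sum fun i hi => ?_
    rw [mem_range] at hi
    have h1 : ((i + 1 : ℕ) : ℚ) / (q : ℚ) ≤ 1 := by
      rw [div_le_one hqQ]
      have : i + 1 ≤ q := by omega
      exact_mod_cast this
    have h2 := EKsum_G K hK (((i + 1 : ℕ) : ℚ) / (q : ℚ)) (by positivity) h1
    have h3 : ((((i + 1 : ℕ) : ℚ) / (q : ℚ) : ℚ) : ℝ) = ((i : ℝ) + 1) / q := by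
      push_cast
      rfl
    have h4 : 1 - ((i : ℝ) + 1) / q = (((q - 1 - 1 - i : ℕ) : ℝ) + 1) / q := by
      have h5 : ((q - 1 - 1 - i : ℕ) : ℝ) + 1 = q - ((i : ℝ) + 1) := by
        have h6 : (q - 1 - 1 - i : ℕ) + 1 + (i + 1) = q := by omega
        have h7 : (((q - 1 - 1 - i : ℕ) + 1 + (i + 1) : ℕ) : ℝ) = (q : ℝ) := by rw [h6]
        push_cast at h7
        linarith
      rw [h5, sub_div, div_self hq0.ne']
    rw [h3, h4] at h2
    exact h2
  have e5 : ∑ i ∈ range (q - 1), EKsumG K ((((q - 1 - 1 - i : ℕ) : ℝ) + 1) / q) =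
      ∑ i ∈ range (q - 1), EKsumG K (((i : ℝ) + 1) / q) :=
    sum_range_reflect (fun i : ℕ => EKsumG K (((i : ℝ) + 1) / q)) (q - 1)
  rw [sum_add_distrib, e5] at e4
  have e6 := EKsum_tel' K q hK hq0 (q - 1)
  rw [e1]
  refine e2.trans ?_
  rw [e3]
  linarith

end Pool.Agent.MP_a12917_nt_GT
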