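import Mathlib
import Pool.Agent.Lib.MP_a12917_nt_GT.Defs
import Pool.Agent.Lib.MP_a12917_nt_GT.Basic

/-!
# MP_a12917_nt, project GT, module LcmCount: moments of the divisor count as a sum over lcms

(`ℓ = hs z`.)
`(cnt Q x)^{card ι} = ∏_i ∑_{q ∈ Q} 1_{q ∣ x} = ∑_{c : ι → Q} ∏_i 1_{c_i ∣ x} = ∑_c 1_{lcm c ∣ x}`
(`Finset.prod_univ_sum`; `Finset.lcm_dvd_iff`, over the integers via `Int.natAbs` or
`Int.natCast_dvd`), and the mean over `x < L` of `1_{m ∣ x}` is `1/m` for `m ∣ L`, `m > 0`.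
-/

set_option autoImplicit false

noncomputable section

namespace Pool.Agent.MP_a12917_nt_GT

open Finset

theorem mean_dvd (m L : ℕ) (hm : m ∣ L) (hL0 : 0 < L) :
    mean L (fun x => if (m : ℤ) ∣ x then (1 : ℝ) else 0) = 1 / (m : ℝ) := by
  have hm0 : 0 < m := Nat.pos_of_dvd_of_pos hm hL0
  rw [mean_of_dvd m L hm hL0 _ (fun x => by simp)]
  unfold mean
  congr 1
  rw [Finset.sum_eq_single 0]
  · simp
  · intro x hx hx0
    refine if_neg ?_
    intro h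
    have h1 : m ∣ x := by exact_mod_cast h
    exact absurd (Nat.le_of_dvd (Nat.pos_of_ne_zero hx0) h1) (not_le.2 (Finset.mem_range.1 hx))
  · intro h
    exact absurd (Finset.mem_range.2 hm0) h

theorem lcm_count {ι : Type} [Fintype ι] [DecidableEq ι] (Q : Finset ℕ) (hQ : ∀ q ∈ Q, 0 < q)
    (L : ℕ) (hL0 : 0 < L) (hL : ∀ q ∈ Q, q ∣ L) :
    ∑ c ∈ Fintype.piFinset (fun _ : ι => Q), 1 / ((univ.lcm c : ℕ) : ℝ) =
      mean L (fun x => (cnt Q x : ℝ) ^ (Fintype.card ι)) := by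
  have h1 : ∀ c ∈ Fintype.piFinset (fun _ : ι => Q), 1 / ((univ.lcm c : ℕ) : ℝ) =
      mean L (fun x => ∏ i, if (c i : ℤ) ∣ x then (1 : ℝ) else 0) := by
    intro c hc
    have h2 : (univ.lcm c : ℕ) ∣ L := Finset.lcm_dvd fun i _ =>
      hL _ (Fintype.mem_piFinset.1 hc i)
    rw [← mean_dvd _ L h2 hL0]
    refine mean_congr _ _ _ fun x => ?_
    have h3 : ((univ.lcm c : ℕ) : ℤ) ∣ x ↔ ∀ i, (c i : ℤ) ∣ x := by
      rw [Int.natCast_dvd, Finset.lcm_dvd_iff]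
      refine ⟨fun h i => Int.natCast_dvd.2 (h i (Finset.mem_univ i)), fun h i _ =>
        Int.natCast_dvd.1 (h i)⟩
    by_cases h4 : ∀ i, (c i : ℤ) ∣ x
    · rw [if_pos (h3.2 h4)]
      exact (Finset.prod_eq_one fun i _ => if_pos (h4 i)).symm
    · rw [if_neg fun h => h4 (h3.1 h)]
      push Not at h4
      obtain ⟨i, hi⟩ := h4
      exact (Finset.prod_eq_zero (Finset.mem_univ i) (if_neg hi)).symm
  rw [Finset.sum_congr rfl h1, ← mean_sum]
  refine mean_congr _ _ _ fun x => ?_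
  rw [← Finset.prod_univ_sum (fun _ : ι => Q) (fun _ q => if (q : ℤ) ∣ x then (1 : ℝ) else 0),
    Finset.prod_const, Finset.card_univ]
  congr 1
  unfold cnt
  rw [Finset.sum_boole]

end Pool.Agent.MP_a12917_nt_GT
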