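import Mathlib
import Pool.Agent.Lib.MP_a12917_nt_GT.Defs
import Pool.Agent.Lib.MP_a12917_nt_GT.Basic

/-!
# MP_a12917_nt, project GT, module CrtSum: Chinese remainder sum

(`ℓ = hs z`.)
For coprime `m, n` the map `(u, v) ↦ u A + v B mod mn` is a bijection from
`[0,m) × [0,n)` onto the residues mod `mn`: if `uA + vB ≡ u'A + v'B mod mn`, reduce mod `m`
(`m ∣ B`): `uA ≡ u'A`, so `u ≡ u' mod m`, `u = u'`; in the same way `v = v'`; both sides have
`mn` elements. As `f` is periodic mod `mn`, the sum over `x < mn` is the sum over the images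
(`Int.emod` representatives).
-/

set_option autoImplicit false

noncomputable section

namespace Pool.Agent.MP_a12917_nt_GT

open Finset

theorem CrtSum.div_aux {m : ℕ} {u u' v v' : ℕ} {A B : ℤ} (hu : u < m) (hu' : u' < m)
    (hA : IsCoprime A (m : ℤ)) (hB : (m : ℤ) ∣ B)
    (h : (m : ℤ) ∣ ((u : ℤ) * A + (v : ℤ) * B) - ((u' : ℤ) * A + (v' : ℤ) * B)) : u = u' := by
  have h1 : (m : ℤ) ∣ A * ((u : ℤ) - u') := by
    have h2 : (m : ℤ) ∣ ((v : ℤ) - v') * B := hB.mul_left _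
    have h3 := dvd_sub h h2
    have h4 : ((u : ℤ) * A + (v : ℤ) * B) - ((u' : ℤ) * A + (v' : ℤ) * B) -
        ((v : ℤ) - v') * B = A * ((u : ℤ) - u') := by ring
    rwa [h4] at h3
  have h5 : (m : ℤ) ∣ (u : ℤ) - u' := hA.symm.dvd_of_dvd_mul_left h1
  have h6 : (u : ℤ) - u' = 0 := by
    refine Int.eq_zero_of_abs_lt_dvd h5 ?_
    rw [abs_lt]
    omega
  omega

theorem crt_sum (m n : ℕ) (hm : 0 < m) (hn : 0 < n) (hco : m.Coprime n) (A B : ℤ)
    (hA : (n : ℤ) ∣ A) (hA' : IsCoprime A (m : ℤ)) (hB : (m : ℤ) ∣ B)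
    (hB' : IsCoprime B (n : ℤ)) (f : ℤ → ℝ) (hf : ∀ x, f (x + ((m * n : ℕ) : ℤ)) = f x) :
    ∑ x ∈ range (m * n), f (x : ℤ) =
      ∑ u ∈ range m, ∑ v ∈ range n, f ((u : ℤ) * A + (v : ℤ) * B) := by
  have hmn : 0 < m * n := Nat.mul_pos hm hn
  have hN : (0 : ℤ) < ((m * n : ℕ) : ℤ) := by exact_mod_cast hmn
  have hper : ∀ x : ℤ, f (x % ((m * n : ℕ) : ℤ)) = f x := by
    intro x
    have h1 : Function.Periodic f ((m * n : ℕ) : ℤ) := hf
    have h2 := h1.int_mul (x / ((m * n : ℕ) : ℤ)) (x % ((m * n : ℕ) : ℤ))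
    rw [← h2]
    congr 1
    have h3 := Int.emod_add_mul_ediv x ((m * n : ℕ) : ℤ)
    rw [Int.cast_id]
    linarith
  have _ := hco
  have hmap : ∀ p ∈ range m ×ˢ range n,
      (((p.1 : ℤ) * A + (p.2 : ℤ) * B) % ((m * n : ℕ) : ℤ)).toNat ∈ range (m * n) := by
    intro p _
    have h1 := Int.emod_lt_of_pos ((p.1 : ℤ) * A + (p.2 : ℤ) * B) hN
    have h2 := Int.emod_nonneg ((p.1 : ℤ) * A + (p.2 : ℤ) * B) hN.ne'
    rw [mem_range]
    omega
  have hinj : Set.InjOn (fun p : ℕ × ℕ =>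
      (((p.1 : ℤ) * A + (p.2 : ℤ) * B) % ((m * n : ℕ) : ℤ)).toNat)
      (range m ×ˢ range n : Finset (ℕ × ℕ)) := by
    rintro ⟨u, v⟩ hp ⟨u', v'⟩ hp' h
    rw [mem_coe, mem_product, mem_range, mem_range] at hp hp'
    have h1 : (((u : ℤ) * A + (v : ℤ) * B) % ((m * n : ℕ) : ℤ)).toNat =
        (((u' : ℤ) * A + (v' : ℤ) * B) % ((m * n : ℕ) : ℤ)).toNat := h
    have h2 := Int.emod_nonneg ((u : ℤ) * A + (v : ℤ) * B) hN.ne'
    have h3 := Int.emod_nonneg ((u' : ℤ) * A + (v' : ℤ) * B) hN.ne'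
    have h4 : ((u : ℤ) * A + (v : ℤ) * B) % ((m * n : ℕ) : ℤ) =
        ((u' : ℤ) * A + (v' : ℤ) * B) % ((m * n : ℕ) : ℤ) := by omega
    have h5 : ((m * n : ℕ) : ℤ) ∣
        ((u : ℤ) * A + (v : ℤ) * B) - ((u' : ℤ) * A + (v' : ℤ) * B) :=
      Int.modEq_iff_dvd.1 (show _ ≡ _ [ZMOD ((m * n : ℕ) : ℤ)] from h4.symm)
    have h6 : (m : ℤ) ∣ ((m * n : ℕ) : ℤ) := by
      push_cast
      exact Dvd.intro _ rfl
    have h7 : (n : ℤ) ∣ ((m * n : ℕ) : ℤ) := by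
      push_cast
      exact Dvd.intro_left _ rfl
    have h8 : u = u' := CrtSum.div_aux hp.1 hp'.1 hA' hB (h6.trans h5)
    have h9 : v = v' := by
      refine CrtSum.div_aux (v := u) (v' := u') hp.2 hp'.2 hB' hA ?_
      have h10 := h7.trans h5
      rwa [add_comm ((u : ℤ) * A), add_comm ((u' : ℤ) * A)] at h10
    rw [h8, h9]
  rw [← Finset.sum_product']
  symm
  refine Finset.sum_nbij (fun p : ℕ × ℕ =>
      (((p.1 : ℤ) * A + (p.2 : ℤ) * B) % ((m * n : ℕ) : ℤ)).toNat) hmap hinj ?_ ?_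
  · refine Finset.surjOn_of_injOn_of_card_le _ (fun p hp => hmap p hp) hinj ?_
    rw [card_product, card_range, card_range, card_range]
  · intro p _
    have h1 := Int.emod_nonneg ((p.1 : ℤ) * A + (p.2 : ℤ) * B) hN.ne'
    beta_reduce
    rw [Int.toNat_of_nonneg h1, hper]

end Pool.Agent.MP_a12917_nt_GT
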