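import Mathlib
import Pool.Agent.Lib.MP_a12917_nt_GT.Defs
import Pool.Agent.Lib.MP_a12917_nt_GT.Basic

/-!
# MP_a12917_nt, project GT, module OnePrime: one prime case of the fundamental lemma

(`ℓ = hs z`.)
`g_i ≥ 0` is periodic mod `p^{e_i}`, `e_i ≤ E`, and `e_{i1} = e_{i2} = E` for two different
indices. For `i ≠ i1, i2` and every `u`: `g_i(u) ≤ (∑_{u' < p^{e_i}} g_i(u')²)^{1/2}` (periodicity:
`g_i(u) = g_i(u mod p^{e_i})`, one term of a sum of nonnegative terms). So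
`∑_u ∏ g_i(u) ≤ ∏_{i ≠ i1,i2} (…)^{1/2} · ∑_{u < p^E} g_{i1}(u) g_{i2}(u)` and Cauchy-Schwarz for
the last sum.
-/

set_option autoImplicit false

noncomputable section

namespace Pool.Agent.MP_a12917_nt_GT

open Finset

theorem OnePrime.bound {N : ℕ} (hN : 0 < N) (f : ℤ → ℝ) (h0 : ∀ x, 0 ≤ f x)
    (hper : ∀ x, f (x + ((N : ℕ) : ℤ)) = f x) (u : ℤ) :
    f u ≤ Real.sqrt (∑ u ∈ range N, f (u : ℤ) ^ 2) := by
  have hN' : (0 : ℤ) < (N : ℤ) := by exact_mod_cast hN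
  have h1 : Function.Periodic f (N : ℤ) := hper
  have h2 : f (u % (N : ℤ)) = f u := by
    have h3 := h1.int_mul (u / (N : ℤ)) (u % (N : ℤ))
    rw [← h3]
    congr 1
    have h4 := Int.emod_add_mul_ediv u (N : ℤ)
    rw [Int.cast_id]
    linarith
  have h5 := Int.emod_nonneg u hN'.ne'
  have h6 := Int.emod_lt_of_pos u hN'
  refine Real.le_sqrt_of_sq_le ?_
  have h7 : f u ^ 2 = f (((u % (N : ℤ)).toNat : ℕ) : ℤ) ^ 2 := by
    rw [Int.toNat_of_nonneg h5, h2]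
  rw [h7]
  refine Finset.single_le_sum (f := fun u : ℕ => f (u : ℤ) ^ 2) (fun u _ => sq_nonneg _) ?_
  rw [mem_range]
  omega

theorem one_prime {ι : Type} [Fintype ι] [DecidableEq ι] (p : ℕ) (hp : 0 < p) (e : ι → ℕ)
    (E : ℕ) (he : ∀ i, e i ≤ E) (i1 i2 : ι) (h12 : i1 ≠ i2) (h1 : e i1 = E) (h2 : e i2 = E)
    (f : ι → ℤ → ℝ) (h0 : ∀ i x, 0 ≤ f i x)
    (hper : ∀ i x, f i (x + ((p ^ e i : ℕ) : ℤ)) = f i x) :
    ∑ u ∈ range (p ^ E), ∏ i, f i (u : ℤ) ≤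
      ∏ i, Real.sqrt (∑ u ∈ range (p ^ e i), f i (u : ℤ) ^ 2) := by
  have hK : ∀ i (u : ℤ), f i u ≤ Real.sqrt (∑ u ∈ range (p ^ e i), f i (u : ℤ) ^ 2) := fun i u =>
    OnePrime.bound (Nat.pow_pos hp) (f i) (h0 i) (hper i) u
  have _ := he
  have hi2 : i2 ∈ univ.erase i1 := mem_erase.2 ⟨h12.symm, mem_univ _⟩
  have hsplit : ∀ F : ι → ℝ, ∏ i, F i = (∏ i ∈ (univ.erase i1).erase i2, F i) *
      (F i1 * F i2) := by
    intro F
    rw [← Finset.mul_prod_erase univ F (mem_univ i1), ← Finset.mul_prod_erase _ F hi2]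
    ring
  have hpos : 0 ≤ ∏ i ∈ (univ.erase i1).erase i2,
      Real.sqrt (∑ u ∈ range (p ^ e i), f i (u : ℤ) ^ 2) :=
    prod_nonneg fun i _ => Real.sqrt_nonneg _
  calc ∑ u ∈ range (p ^ E), ∏ i, f i (u : ℤ)
      ≤ ∑ u ∈ range (p ^ E), (∏ i ∈ (univ.erase i1).erase i2,
          Real.sqrt (∑ u ∈ range (p ^ e i), f i (u : ℤ) ^ 2)) *
            (f i1 (u : ℤ) * f i2 (u : ℤ)) := by
        refine sum_le_sum fun u _ => ?_
        rw [hsplit fun i => f i (u : ℤ)]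
        refine mul_le_mul_of_nonneg_right ?_ (mul_nonneg (h0 _ _) (h0 _ _))
        exact prod_le_prod (fun i _ => h0 i _) fun i _ => hK i _
    _ = (∏ i ∈ (univ.erase i1).erase i2,
          Real.sqrt (∑ u ∈ range (p ^ e i), f i (u : ℤ) ^ 2)) *
            ∑ u ∈ range (p ^ E), f i1 (u : ℤ) * f i2 (u : ℤ) := by
        rw [mul_sum]
    _ ≤ (∏ i ∈ (univ.erase i1).erase i2,
          Real.sqrt (∑ u ∈ range (p ^ e i), f i (u : ℤ) ^ 2)) *
            (Real.sqrt (∑ u ∈ range (p ^ E), f i1 (u : ℤ) ^ 2) *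
              Real.sqrt (∑ u ∈ range (p ^ E), f i2 (u : ℤ) ^ 2)) :=
        mul_le_mul_of_nonneg_left (Real.sum_mul_le_sqrt_mul_sqrt _ _ _) hpos
    _ = ∏ i, Real.sqrt (∑ u ∈ range (p ^ e i), f i (u : ℤ) ^ 2) := by
        rw [hsplit fun i => Real.sqrt (∑ u ∈ range (p ^ e i), f i (u : ℤ) ^ 2), h1, h2]

end Pool.Agent.MP_a12917_nt_GT
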