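import Mathlib
import Pool.Agent.Lib.MP_a12917_nt_GT.Defs
import Pool.Agent.Lib.MP_a12917_nt_GT.Basic
import Pool.Agent.Lib.MP_a12917_nt_GT.CrtSum
import Pool.Agent.Lib.MP_a12917_nt_GT.OnePrime

/-!
# MP_a12917_nt, project GT, module FL: fundamental lemma
(Finner / Montgomery-Vaughan type inequality)

(`ℓ = hs z`.)
Strong induction on `L`. `L = 1`: all `q_i = 1`, both sides are `∏ f_i(0)`.

`L > 1`: `p = L.minFac`, `E = v_p(L) ≥ 1`, `m = p^E`, `n = L/m` (coprime to `p`), `e_i = v_p(q_i)`,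
`q_i = p^{e_i} q_i'`, `q_i' ∣ n`. By `crt_sum` (with `A = n`, `B = m`)
`∑_{x<L} ∏ f_i(x) = ∑_{u<m} ∑_{v<n} ∏ f_i(u n + v m)`.
For fixed `u` the function `v ↦ f_i(u n + v m)` is periodic mod `q_i'` (`q_i = p^{e_i} q_i'` divides
`q_i' m`), and the hypothesis on the prime powers holds for `(n, q_i')` with the same pairs of
indices; induction: the inner sum is `≤ ∏ g_i(u)`, `g_i(u) = (∑_{v<q_i'} f_i(u n + v m)²)^{1/2}`.
`g_i` is periodic mod `p^{e_i}` (`q_i ∣ p^{e_i} n`). By `one_prime`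
`∑_{u<m} ∏ g_i(u) ≤ ∏ (∑_{u<p^{e_i}} g_i(u)²)^{1/2}`, and
`∑_{u<p^{e_i}} g_i(u)² = ∑_{u<p^{e_i}} ∑_{v<q_i'} f_i(u n + v m)² = ∑_{x<q_i} f_i(x)²` by `crt_sum`
for the pair `(p^{e_i}, q_i')` with `A = n` (divisible by `q_i'`, coprime to `p`) and `B = m = p^E`
(divisible by `p^{e_i}`, coprime to `q_i'`).
-/

set_option autoImplicit false

noncomputable section

namespace Pool.Agent.MP_a12917_nt_GT

open Finset

theorem FL.per {g : ℤ → ℝ} {a : ℤ} (h : ∀ x, g (x + a) = g x) {d : ℤ} (hd : a ∣ d) (x : ℤ) :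
    g (x + d) = g x := by
  obtain ⟨c, rfl⟩ := hd
  have h1 : Function.Periodic g a := h
  have h2 := h1.int_mul c x
  rw [Int.cast_id] at h2
  rw [mul_comm]
  exact h2

theorem FL.aux {ι : Type} [Fintype ι] [DecidableEq ι] (L : ℕ) : 0 < L → ∀ (q : ι → ℕ),
    (∀ i, q i ∣ L) →
    (∀ p : ℕ, p.Prime → p ∣ L → ∃ i1 i2, i1 ≠ i2 ∧
      (q i1).factorization p = L.factorization p ∧ (q i2).factorization p = L.factorization p) →
    ∀ (f : ι → ℤ → ℝ), (∀ i x, 0 ≤ f i x) → (∀ i x, f i (x + (q i : ℤ)) = f i x) →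
    ∑ x ∈ range L, ∏ i, f i (x : ℤ) ≤
      ∏ i, Real.sqrt (∑ x ∈ range (q i), f i (x : ℤ) ^ 2) := by
  induction L using Nat.strong_induction_on with
  | _ L ih =>
    intro hL q hq h2 f h0 hper
    rcases Nat.lt_or_ge 1 L with h1 | h1
    · obtain ⟨p, hpd⟩ : ∃ p, p = L.minFac := ⟨_, rfl⟩
      have hp : p.Prime := by
        rw [hpd]
        exact Nat.minFac_prime (by omega)
      have hpL : p ∣ L := by
        rw [hpd]
        exact Nat.minFac_dvd L
      obtain ⟨E, hE⟩ : ∃ E, E = L.factorization p := ⟨_, rfl⟩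
      obtain ⟨n, hn⟩ : ∃ n, n = L / p ^ L.factorization p := ⟨_, rfl⟩
      have hLmn : p ^ E * n = L := by
        rw [hE, hn]
        exact Nat.ordProj_mul_ordCompl_eq_self L p
      have hE1 : 1 ≤ E := by
        rw [hE]
        exact hp.factorization_pos_of_dvd hL.ne' hpL
      have hnp : Nat.Coprime p n := by
        rw [hn]
        exact Nat.coprime_ordCompl hp hL.ne'
      have hn0 : 0 < n := by
        rcases Nat.eq_zero_or_pos n with h | h
        · rw [h, mul_zero] at hLmn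
          omega
        · exact h
      have hm0 : 0 < p ^ E := Nat.pow_pos hp.pos
      have hnL : n < L := by
        have h3 : 2 ≤ p ^ E := le_trans hp.two_le (Nat.le_self_pow (by omega) p)
        nlinarith
      have hq0 : ∀ i, q i ≠ 0 := fun i h => by
        have h3 := hq i
        rw [h, zero_dvd_iff] at h3
        omega
      set e : ι → ℕ := fun i => (q i).factorization p with he
      set q' : ι → ℕ := fun i => q i / p ^ (q i).factorization p with hq'
      have hqe : ∀ i, p ^ e i * q' i = q i := fun i => Nat.ordProj_mul_ordCompl_eq_self (q i) p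
      have heE : ∀ i, e i ≤ E := by
        intro i
        rw [hE]
        exact (Nat.factorization_le_iff_dvd (hq0 i) hL.ne').2 (hq i) p
      have hq'n : ∀ i, q' i ∣ n := by
        intro i
        rw [hn]
        exact Nat.ordCompl_dvd_ordCompl_of_dvd (hq i) p
      have hq'p : ∀ i, Nat.Coprime p (q' i) := fun i => Nat.coprime_ordCompl hp (hq0 i)
      have hq'0 : ∀ i, 0 < q' i := fun i => Nat.pos_of_dvd_of_pos (hq'n i) hn0
      have hpe : ∀ i, ((p ^ e i : ℕ) : ℤ) ∣ ((p ^ E : ℕ) : ℤ) := fun i =>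
        Int.natCast_dvd_natCast.2 (pow_dvd_pow p (heE i))
      have hcop : ∀ (a b : ℕ), Nat.Coprime p b → IsCoprime ((p ^ a : ℕ) : ℤ) (b : ℤ) :=
        fun a b h => Nat.isCoprime_iff_coprime.2 (h.pow_left a)
      -- the Chinese remainder sum
      have hsum : ∑ x ∈ range L, ∏ i, f i (x : ℤ) =
          ∑ u ∈ range (p ^ E), ∑ v ∈ range n,
            ∏ i, f i ((u : ℤ) * (n : ℤ) + (v : ℤ) * ((p ^ E : ℕ) : ℤ)) := by
        have h3 := crt_sum (p ^ E) n hm0 hn0 (hnp.pow_left E) (n : ℤ) ((p ^ E : ℕ) : ℤ)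
          (dvd_refl _) (hcop E n hnp).symm (dvd_refl _) (hcop E n hnp)
          (fun x => ∏ i, f i x) (fun x => Finset.prod_congr rfl fun i _ => by
            refine FL.per (hper i) ?_ x
            rw [hLmn]
            exact Int.natCast_dvd_natCast.2 (hq i))
        rw [hLmn] at h3
        exact h3
      rw [hsum]
      -- the inner sums
      have hin : ∀ u : ℤ, ∑ v ∈ range n,
          ∏ i, f i (u * (n : ℤ) + (v : ℤ) * ((p ^ E : ℕ) : ℤ)) ≤
          ∏ i, Real.sqrt (∑ v ∈ range (q' i),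
            f i (u * (n : ℤ) + (v : ℤ) * ((p ^ E : ℕ) : ℤ)) ^ 2) := by
        intro u
        refine ih n hnL hn0 q' hq'n ?_
          (fun i v => f i (u * (n : ℤ) + v * ((p ^ E : ℕ) : ℤ))) (fun i v => h0 i _) ?_
        · intro r hr hrn
          have hrL : r ∣ L := by
            rw [← hLmn]
            exact hrn.mul_left _
          have hrp : r ≠ p := by
            rintro rfl
            have h3 := hnp.eq_one_of_dvd hrn
            exact hr.one_lt.ne' h3
          obtain ⟨i1, i2, h12, h3, h4⟩ := h2 r hr hrL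
          have h5 : n.factorization r = L.factorization r := by
            rw [hn, Nat.factorization_ordCompl, Finsupp.erase_ne hrp]
          have h6 : ∀ i, (q' i).factorization r = (q i).factorization r := by
            intro i
            rw [hq', Nat.factorization_ordCompl, Finsupp.erase_ne hrp]
          exact ⟨i1, i2, h12, by rw [h6, h5, h3], by rw [h6, h5, h4]⟩
        · intro i v
          have h3 : u * (n : ℤ) + (v + (q' i : ℤ)) * ((p ^ E : ℕ) : ℤ) =
              (u * (n : ℤ) + v * ((p ^ E : ℕ) : ℤ)) + (q' i : ℤ) * ((p ^ E : ℕ) : ℤ) := by ring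
          rw [h3]
          refine FL.per (hper i) ?_ _
          have h4 : (q i : ℤ) = (q' i : ℤ) * ((p ^ e i : ℕ) : ℤ) := by
            rw [← hqe i]
            push_cast
            ring
          rw [h4]
          exact mul_dvd_mul_left _ (hpe i)
      refine le_trans (Finset.sum_le_sum fun u _ => hin (u : ℤ)) ?_
      obtain ⟨i1, i2, h12, h3, h4⟩ := h2 p hp hpL
      have hop := one_prime p hp.pos e E heE i1 i2 h12 (by rw [hE]; exact h3)
        (by rw [hE]; exact h4)
        (fun i u => Real.sqrt (∑ v ∈ range (q' i),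
            f i (u * (n : ℤ) + (v : ℤ) * ((p ^ E : ℕ) : ℤ)) ^ 2))
        (fun i u => Real.sqrt_nonneg _) (fun i u => ?_)
      · refine le_trans hop (le_of_eq (Finset.prod_congr rfl fun i _ => ?_))
        congr 1
        have h5 : ∀ u : ℕ, Real.sqrt (∑ v ∈ range (q' i),
            f i ((u : ℤ) * (n : ℤ) + (v : ℤ) * ((p ^ E : ℕ) : ℤ)) ^ 2) ^ 2 =
            ∑ v ∈ range (q' i), f i ((u : ℤ) * (n : ℤ) + (v : ℤ) * ((p ^ E : ℕ) : ℤ)) ^ 2 :=
          fun u => Real.sq_sqrt (Finset.sum_nonneg fun v _ => sq_nonneg _)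
        simp only [h5]
        have h6 := crt_sum (p ^ e i) (q' i) (Nat.pow_pos hp.pos) (hq'0 i)
          ((hq'p i).pow_left (e i)) (n : ℤ) ((p ^ E : ℕ) : ℤ)
          (Int.natCast_dvd_natCast.2 (hq'n i)) (hcop (e i) n hnp).symm (hpe i)
          (hcop E (q' i) (hq'p i)) (fun x => f i x ^ 2) (fun x => by
            rw [hqe i, hper i x])
        rw [hqe i] at h6
        exact h6.symm
      · beta_reduce
        congr 1
        refine Finset.sum_congr rfl fun v _ => ?_
        have h5 : (u + ((p ^ e i : ℕ) : ℤ)) * (n : ℤ) + (v : ℤ) * ((p ^ E : ℕ) : ℤ) =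
            (u * (n : ℤ) + (v : ℤ) * ((p ^ E : ℕ) : ℤ)) + ((p ^ e i : ℕ) : ℤ) * (n : ℤ) := by ring
        rw [h5, FL.per (hper i)]
        have h6 : (q i : ℤ) = ((p ^ e i : ℕ) : ℤ) * (q' i : ℤ) := by
          rw [← hqe i]
          push_cast
          ring
        rw [h6]
        exact mul_dvd_mul_left _ (Int.natCast_dvd_natCast.2 (hq'n i))
    · have hL1 : L = 1 := by omega
      subst hL1
      have hq1 : ∀ i, q i = 1 := fun i => Nat.dvd_one.1 (hq i)
      simp only [hq1, range_one, Finset.sum_singleton, Nat.cast_zero]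
      refine le_of_eq (Finset.prod_congr rfl fun i _ => ?_)
      rw [Real.sqrt_sq (h0 i 0)]

theorem fl {ι : Type} [Fintype ι] [DecidableEq ι] (L : ℕ) (hL : 0 < L) (q : ι → ℕ)
    (hq : ∀ i, q i ∣ L)
    (h2 : ∀ p : ℕ, p.Prime → p ∣ L → ∃ i1 i2, i1 ≠ i2 ∧
      (q i1).factorization p = L.factorization p ∧ (q i2).factorization p = L.factorization p)
    (f : ι → ℤ → ℝ) (h0 : ∀ i x, 0 ≤ f i x) (hper : ∀ i x, f i (x + (q i : ℤ)) = f i x) :
    ∑ x ∈ range L, ∏ i, f i (x : ℤ) ≤
      ∏ i, Real.sqrt (∑ x ∈ range (q i), f i (x : ℤ) ^ 2) :=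
  FL.aux L hL q hq h2 f h0 hper

end Pool.Agent.MP_a12917_nt_GT
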