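import Mathlib
import Pool.Agent.Lib.MP_a12917_nt_GT.Defs
import Pool.Agent.Lib.MP_a12917_nt_GT.Basic

/-!
# MP_a12917_nt, project GT, module Vanish: a sum of fractions with a unique highest prime power in the denominators is no integer

(`ℓ = hs z`.)
Suppose `∑ ρ_i` is an integer `n`. Let `N` be the product (or lcm) of the denominators of the
`ρ_i`, `i ≠ i0`; the number `σ = n - ∑_{i ≠ i0} ρ_i` has a denominator dividing the lcm `N'` of
these denominators, and `v_p(N') = max v_p(den ρ_i) < v_p(den ρ_{i0})` (for the lcm; if the index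
set has only `i0` then `σ = n` has denominator `1`). But `σ = ρ_{i0}`: contradiction. (`h0`:
`v_p(den ρ_{i0}) ≥ 1`, so the case of the empty lcm is fine.) Induction over the finite set
`univ.erase i0` with the statement `v_p(den of the partial sum) < v_p(den ρ_{i0})`,
`Rat.add_den_dvd_lcm`, is the easiest way.
-/

set_option autoImplicit false

noncomputable section

namespace Pool.Agent.MP_a12917_nt_GT

open Finset

theorem Vanish.add_le (p : ℕ) (x y : ℚ) : (x + y).den.factorization p ≤
    max (x.den.factorization p) (y.den.factorization p) := by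
  have h1 := Rat.add_den_dvd_lcm x y
  have h2 : x.den.lcm y.den ≠ 0 := Nat.lcm_ne_zero x.den_nz y.den_nz
  have h3 := (Nat.factorization_le_iff_dvd (x + y).den_nz h2).2 h1 p
  rw [Nat.factorization_lcm x.den_nz y.den_nz, Finsupp.sup_apply] at h3
  exact h3

theorem not_int {ι : Type} [Fintype ι] [DecidableEq ι] (ρ : ι → ℚ) (p : ℕ) (hp : p.Prime)
    (i0 : ι) (h0 : p ∣ (ρ i0).den)
    (h : ∀ i, i ≠ i0 → (ρ i).den.factorization p < (ρ i0).den.factorization p) :
    (∑ i, ρ i).den ≠ 1 := by
  intro h1
  have hv : 0 < (ρ i0).den.factorization p :=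
    hp.factorization_pos_of_dvd (ρ i0).den_nz h0
  have key : ∀ s : Finset ι, i0 ∉ s →
      (∑ i ∈ s, ρ i).den.factorization p < (ρ i0).den.factorization p := by
    intro s
    induction s using Finset.induction_on with
    | empty =>
      intro _
      simpa using hv
    | insert a s ha ih =>
      intro hi
      rw [sum_insert ha]
      have h2 : a ≠ i0 := fun h => hi (h ▸ mem_insert_self _ _)
      have h3 := ih (fun h => hi (mem_insert_of_mem h))
      exact (Vanish.add_le p _ _).trans_lt (max_lt (h a h2) h3)
  have h4 := key (univ.erase i0) (notMem_erase _ _)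
  have h5 : ρ i0 = ∑ i, ρ i + -(∑ i ∈ univ.erase i0, ρ i) := by
    rw [← add_sum_erase univ ρ (mem_univ i0)]
    ring
  have h6 := Vanish.add_le p (∑ i, ρ i) (-(∑ i ∈ univ.erase i0, ρ i))
  rw [← h5, h1, Rat.neg_den, Nat.factorization_one, Finsupp.zero_apply] at h6
  omega

end Pool.Agent.MP_a12917_nt_GT
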