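import Mathlib
import Pool.Agent.Lib.MP_a12917_nt_GT.Defs
import Pool.Agent.Lib.MP_a12917_nt_GT.Basic
import Pool.Agent.Lib.MP_a12917_nt_GT.FL
import Pool.Agent.Lib.MP_a12917_nt_GT.Vanish
import Pool.Agent.Lib.MP_a12917_nt_GT.SumEe

/-!
# MP_a12917_nt, project GT, module Tuple: mean of a product of trigonometric polynomials

(`ℓ = hs z`.)
Let `Λ = lcm q_i` (`Finset.univ.lcm q`), `ψ_i(x) = ∑_{ρ ∈ T_i} a_i(ρ) ee ρ x` (periodic mod `q_i`,
`ee_per`).

Case 1: for every prime `p ∣ Λ` there are two different indices with `v_p(q_i) = v_p(Λ)`. Then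
`‖mean‖ ≤ (1/L) ∑_{x<L} ∏ ‖ψ_i(x)‖ = (1/Λ) ∑_{x<Λ} ∏ ‖ψ_i(x)‖` (`mean_of_dvd`, `Λ ∣ L`) and by
`fl` this is `≤ (1/Λ) ∏ (∑_{x<q_i} ‖ψ_i‖²)^{1/2} ≤ B^{card ι}/Λ`.

Case 2: there is a prime `p ∣ Λ` without such a pair. There is at least one index `i0` with
`v_p(q_{i0}) = v_p(Λ)` (the lcm; `v_p(Λ) = max v_p(q_i)`), so `v_p(q_i) < v_p(q_{i0})` for the
others. Expand the product (`Finset.prod_univ_sum`): `∑_{x<L} ∏ ψ_i(x) = ∑_{(ρ_i)} ∏ a_i(ρ_i)
∑_{x<L} ee (∑ ρ_i) x`, every inner sum is `0` by `sum_ee` and `not_int`.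
-/

set_option autoImplicit false

noncomputable section

namespace Pool.Agent.MP_a12917_nt_GT

open Finset

namespace Tuple

theorem lcm_ne_zero {ι : Type} [DecidableEq ι] (q : ι → ℕ) (hq : ∀ i, 0 < q i)
    (s : Finset ι) : s.lcm q ≠ 0 := by
  induction s using Finset.induction_on with
  | empty => simp
  | insert a s _ ih =>
    rw [Finset.lcm_insert]
    exact Nat.lcm_ne_zero (hq a).ne' ih

theorem exists_max {ι : Type} [DecidableEq ι] (q : ι → ℕ) (hq : ∀ i, 0 < q i) (p : ℕ)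
    (s : Finset ι) (hs : 0 < (s.lcm q).factorization p) :
    ∃ i ∈ s, (q i).factorization p = (s.lcm q).factorization p := by
  induction s using Finset.induction_on with
  | empty => simp at hs
  | insert a s _ ih =>
    have h1 : ((insert a s).lcm q).factorization p =
        max ((q a).factorization p) ((s.lcm q).factorization p) := by
      rw [Finset.lcm_insert]
      show ((q a).lcm (s.lcm q)).factorization p = _
      rw [Nat.factorization_lcm (hq a).ne' (lcm_ne_zero q hq s), Finsupp.sup_apply]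
    rw [h1] at hs ⊢
    rcases le_or_gt ((s.lcm q).factorization p) ((q a).factorization p) with h | h
    · exact ⟨a, mem_insert_self _ _, (max_eq_left h).symm⟩
    · rw [max_eq_right h.le]
      obtain ⟨i, hi, hi2⟩ := ih (by omega)
      exact ⟨i, mem_insert_of_mem hi, hi2⟩

theorem den_sum_dvd {ι : Type} [DecidableEq ι] (ρ : ι → ℚ) (L : ℕ) (h : ∀ i, (ρ i).den ∣ L)
    (s : Finset ι) : (∑ i ∈ s, ρ i).den ∣ L := by
  induction s using Finset.induction_on with
  | empty => simp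
  | insert a s ha ih =>
    rw [sum_insert ha]
    exact (Rat.add_den_dvd_lcm _ _).trans (Nat.lcm_dvd (h a) ih)

theorem ee_sum {ι : Type} [DecidableEq ι] (ρ : ι → ℚ) (x : ℤ) (s : Finset ι) :
    ee (∑ i ∈ s, ρ i) x = ∏ i ∈ s, ee (ρ i) x := by
  induction s using Finset.induction_on with
  | empty => simp [ee_zero_left]
  | insert a s ha ih => rw [sum_insert ha, prod_insert ha, ee_add_left, ih]

end Tuple

theorem tuple_bound {ι : Type} [Fintype ι] [DecidableEq ι] (q : ι → ℕ) (hq : ∀ i, 0 < q i)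
    (T : ι → Finset ℚ) (hT : ∀ i, ∀ ρ ∈ T i, ρ.den = q i) (a : ι → ℚ → ℂ) (B : ℝ) (hB : 0 ≤ B)
    (h : ∀ i, ∑ x ∈ range (q i), ‖∑ ρ ∈ T i, a i ρ * ee ρ (x : ℤ)‖ ^ 2 ≤ B ^ 2)
    (L : ℕ) (hL0 : 0 < L) (hL : ∀ i, q i ∣ L) :
    ‖(∑ x ∈ range L, ∏ i, ∑ ρ ∈ T i, a i ρ * ee ρ (x : ℤ)) / (L : ℂ)‖ ≤
      B ^ (Fintype.card ι) / ((univ.lcm q : ℕ) : ℝ) := by
  set lc : ℕ := univ.lcm q with hlc
  have hlc0 : lc ≠ 0 := Tuple.lcm_ne_zero q hq univ
  have hqlc : ∀ i, q i ∣ lc := fun i => Finset.dvd_lcm (mem_univ i)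
  have hlcL : lc ∣ L := Finset.lcm_dvd fun i _ => hL i
  have hlcpos : (0 : ℝ) < (lc : ℝ) := by exact_mod_cast Nat.pos_of_ne_zero hlc0
  have hLpos : (0 : ℝ) < (L : ℝ) := by exact_mod_cast hL0
  by_cases hcase : ∀ p : ℕ, p.Prime → p ∣ lc → ∃ i1 i2, i1 ≠ i2 ∧
      (q i1).factorization p = lc.factorization p ∧ (q i2).factorization p = lc.factorization p
  · -- every prime power of the lcm occurs twice
    have hper : ∀ i (x : ℤ), ‖∑ ρ ∈ T i, a i ρ * ee ρ (x + (q i : ℤ))‖ =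
        ‖∑ ρ ∈ T i, a i ρ * ee ρ x‖ := by
      intro i x
      congr 1
      refine sum_congr rfl fun ρ hρ => ?_
      rw [ee_per ρ (q i) (by rw [hT i ρ hρ]) x]
    have h1 := fl lc (Nat.pos_of_ne_zero hlc0) q hqlc hcase
      (fun i (x : ℤ) => ‖∑ ρ ∈ T i, a i ρ * ee ρ x‖) (fun i x => norm_nonneg _) hper
    have h2 : ∏ i, Real.sqrt (∑ x ∈ range (q i),
        ‖∑ ρ ∈ T i, a i ρ * ee ρ (x : ℤ)‖ ^ 2) ≤ B ^ (Fintype.card ι) := by
      have h3 : ∏ i : ι, Real.sqrt (∑ x ∈ range (q i),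
          ‖∑ ρ ∈ T i, a i ρ * ee ρ (x : ℤ)‖ ^ 2) ≤ ∏ _i : ι, B := by
        refine prod_le_prod (fun i _ => Real.sqrt_nonneg _) fun i _ => ?_
        rw [← Real.sqrt_sq hB]
        exact Real.sqrt_le_sqrt (h i)
      rwa [prod_const, card_univ] at h3
    have h4 : mean L (fun x => ∏ i, ‖∑ ρ ∈ T i, a i ρ * ee ρ x‖) =
        mean lc (fun x => ∏ i, ‖∑ ρ ∈ T i, a i ρ * ee ρ x‖) := by
      refine mean_of_dvd lc L hlcL hL0 _ fun x => ?_
      refine prod_congr rfl fun i _ => ?_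
      exact per_dvd (q i) lc (hqlc i) (fun x => ‖∑ ρ ∈ T i, a i ρ * ee ρ x‖) (hper i) x
    have h5 : ‖(∑ x ∈ range L, ∏ i, ∑ ρ ∈ T i, a i ρ * ee ρ (x : ℤ)) / (L : ℂ)‖ ≤
        mean L (fun x => ∏ i, ‖∑ ρ ∈ T i, a i ρ * ee ρ x‖) := by
      rw [norm_div, Complex.norm_natCast]
      unfold mean
      refine div_le_div_of_nonneg_right ?_ hLpos.le
      refine (norm_sum_le _ _).trans (le_of_eq ?_)
      exact sum_congr rfl fun x _ => norm_prod _ _
    refine h5.trans ?_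
    rw [h4]
    unfold mean
    exact div_le_div_of_nonneg_right (h1.trans h2) hlcpos.le
  · -- a prime power of the lcm which occurs once
    push Not at hcase
    obtain ⟨p, hp, hpl, huniq⟩ := hcase
    have hv : 0 < lc.factorization p := hp.factorization_pos_of_dvd hlc0 hpl
    obtain ⟨i0, -, hi0⟩ := Tuple.exists_max q hq p univ hv
    have hlt : ∀ i, i ≠ i0 → (q i).factorization p < (q i0).factorization p := by
      intro i hi
      have h1 := huniq i0 i hi.symm hi0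
      have h2 := (Nat.factorization_le_iff_dvd (hq i).ne' hlc0).2 (hqlc i) p
      have h3 : (q i0).factorization p = lc.factorization p := hi0
      omega
    have hp0 : p ∣ q i0 := by
      by_contra hnd
      have h1 := Nat.factorization_eq_zero_of_not_dvd hnd
      have h3 : (q i0).factorization p = lc.factorization p := hi0
      omega
    have hzero : ∑ x ∈ range L, ∏ i, ∑ ρ ∈ T i, a i ρ * ee ρ (x : ℤ) = 0 := by
      simp only [prod_univ_sum]
      rw [sum_comm]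
      refine sum_eq_zero fun ρ hρ => ?_
      rw [Fintype.mem_piFinset] at hρ
      have h1 : ∀ x ∈ range L, ∏ i, a i (ρ i) * ee (ρ i) (x : ℤ) =
          (∏ i, a i (ρ i)) * ee (∑ i, ρ i) (x : ℤ) := by
        intro x _
        rw [prod_mul_distrib, Tuple.ee_sum]
      rw [sum_congr rfl h1, ← mul_sum, sum_ee (∑ i, ρ i) L
        (Tuple.den_sum_dvd ρ L (fun i => by rw [hT i _ (hρ i)]; exact hL i) univ)]
      rw [if_neg, mul_zero]
      refine not_int ρ p hp i0 ?_ ?_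
      · rw [hT i0 _ (hρ i0)]
        exact hp0
      · intro i hi
        rw [hT i _ (hρ i), hT i0 _ (hρ i0)]
        exact hlt i hi
    rw [hzero, zero_div, norm_zero]
    positivity

end Pool.Agent.MP_a12917_nt_GT
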