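import Mathlib
import Pool.Agent.Lib.MP_a12917_nt_GT.Defs
import Pool.Agent.Lib.MP_a12917_nt_GT.Basic
import Pool.Agent.Lib.MP_a12917_nt_GT.Pars
import Pool.Agent.Lib.MP_a12917_nt_GT.Tuple
import Pool.Agent.Lib.MP_a12917_nt_GT.LcmCount

/-!
# MP_a12917_nt, project GT, module KE: key estimate: even moments of trigonometric polynomials

(`ℓ = hs z`.)
Write `φ_q(x) = ∑_{ρ ∈ Fr q} a_ρ ee ρ x`, `f = ∑_{q ∈ Q} φ_q`. `‖f‖^{2k} = f^k conj(f)^k` is a product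
over the index type `ι = Fin k ⊕ Fin k` of sums over `q ∈ Q` (of `φ_q` for the first half, of
`conj φ_q` for the second half); expand with `Finset.prod_univ_sum`:
`mean ‖f‖^{2k} = ∑_{c : ι → Q} mean ∏_i ψ_{i}`, `ψ_i = φ_{c_i}` or `conj φ_{c_i}`. Both are of the form
required in `tuple_bound` with `q_i = c_i`: for `conj φ_q` use the set `(Fr q).image (fun ρ => -ρ)` and
the coefficients `conj (a (-ρ))` (`conj_ee`, the denominator of `-ρ` is `q`). The hypothesis of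
`tuple_bound` with `B = (K W²)^{1/2}`: `∑_{x<q} ‖φ_q(x)‖² = q ∑_{ρ ∈ Fr q} ‖a_ρ‖² ≤ K W²`
(`parseval` with `L = q`, `mem_Fr`). So `mean ‖f‖^{2k} ≤ ∑_c B^{2k}/lcm(c)` and `lcm_count`.
-/

set_option autoImplicit false

noncomputable section

namespace Pool.Agent.MP_a12917_nt_GT

open Finset

namespace KE

/-- the part with the denominator `q` -/
def phi (a : ℚ → ℂ) (q : ℕ) (x : ℤ) : ℂ := ∑ ρ ∈ Fr q, a ρ * ee ρ x

/-- the frequencies of the factor number `i` -/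
def TT {k : ℕ} (i : Fin k ⊕ Fin k) (q : ℕ) : Finset ℚ :=
  Sum.elim (fun _ => Fr q) (fun _ => (Fr q).image fun ρ => -ρ) i

/-- the coefficients of the factor number `i` -/
def AA {k : ℕ} (a : ℚ → ℂ) (i : Fin k ⊕ Fin k) (ρ : ℚ) : ℂ :=
  Sum.elim (fun _ => a ρ) (fun _ => (starRingEnd ℂ) (a (-ρ))) i

theorem psi_inl {k : ℕ} (a : ℚ → ℂ) (j : Fin k) (q : ℕ) (x : ℤ) :
    ∑ ρ ∈ TT (Sum.inl j : Fin k ⊕ Fin k) q, AA a (Sum.inl j : Fin k ⊕ Fin k) ρ * ee ρ x =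
      phi a q x := rfl

theorem psi_inr {k : ℕ} (a : ℚ → ℂ) (j : Fin k) (q : ℕ) (x : ℤ) :
    ∑ ρ ∈ TT (Sum.inr j : Fin k ⊕ Fin k) q, AA a (Sum.inr j : Fin k ⊕ Fin k) ρ * ee ρ x =
      (starRingEnd ℂ) (phi a q x) := by
  change ∑ ρ ∈ (Fr q).image (fun ρ => -ρ), (starRingEnd ℂ) (a (-ρ)) * ee ρ x = _
  rw [sum_image (fun ρ _ σ _ h => neg_injective h)]
  unfold phi
  rw [map_sum]
  refine sum_congr rfl fun ρ _ => ?_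
  rw [map_mul, conj_ee, neg_neg]

theorem prod_eq {k : ℕ} (Q : Finset ℕ) (a : ℚ → ℂ) (x : ℤ) :
    ((‖∑ q ∈ Q, ∑ ρ ∈ Fr q, a ρ * ee ρ x‖ ^ (2 * k) : ℝ) : ℂ) =
      ∑ c ∈ Fintype.piFinset (fun _ : Fin k ⊕ Fin k => Q),
        ∏ i, ∑ ρ ∈ TT i (c i), AA a i ρ * ee ρ x := by
  rw [← Finset.prod_univ_sum (fun _ : Fin k ⊕ Fin k => Q)
    (fun i q => ∑ ρ ∈ TT i q, AA a i ρ * ee ρ x), Fintype.prod_sum_type]
  simp only [psi_inl, psi_inr]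
  rw [← map_sum, prod_const, prod_const, card_univ, Fintype.card_fin, ← mul_pow,
    Complex.mul_conj, pow_mul, Complex.normSq_eq_norm_sq]
  push_cast
  rfl

theorem den_TT {k : ℕ} (i : Fin k ⊕ Fin k) {q : ℕ} (hq : 0 < q) {ρ : ℚ} (hρ : ρ ∈ TT i q) :
    ρ.den = q := by
  rcases i with j | j
  · exact ((mem_Fr q hq ρ).1 hρ).2.2
  · have h1 : ρ ∈ (Fr q).image (fun ρ => -ρ) := hρ
    obtain ⟨σ, hσ, rfl⟩ := mem_image.1 h1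
    rw [Rat.neg_den]
    exact ((mem_Fr q hq σ).1 hσ).2.2

theorem sq_sum {k : ℕ} (i : Fin k ⊕ Fin k) {q : ℕ} (hq : 0 < q) (a : ℚ → ℂ) :
    ∑ x ∈ range q, ‖∑ ρ ∈ TT i q, AA a i ρ * ee ρ (x : ℤ)‖ ^ 2 =
      q * ∑ ρ ∈ Fr q, ‖a ρ‖ ^ 2 := by
  have h1 : ∀ x : ℕ, ‖∑ ρ ∈ TT i q, AA a i ρ * ee ρ (x : ℤ)‖ = ‖phi a q (x : ℤ)‖ := by
    intro x
    rcases i with j | j
    · rw [psi_inl]
    · rw [psi_inr, Complex.norm_conj]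
  have h2 := parseval (Fr q) (fun ρ hρ => ⟨((mem_Fr q hq ρ).1 hρ).1, ((mem_Fr q hq ρ).1 hρ).2.1⟩)
    q hq (fun ρ hρ => by rw [((mem_Fr q hq ρ).1 hρ).2.2]) a
  have hq' : (q : ℝ) ≠ 0 := by positivity
  rw [← h2]
  unfold mean
  rw [mul_div_cancel₀ _ hq']
  refine sum_congr rfl fun x _ => ?_
  rw [h1]
  rfl

end KE

theorem ke (k : ℕ) (Q : Finset ℕ) (hQ : ∀ q ∈ Q, 0 < q) (a : ℚ → ℂ) (K W : ℝ) (hK : 0 ≤ K)
    (hW : 0 ≤ W) (ha : ∀ q ∈ Q, ∑ ρ ∈ Fr q, ‖a ρ‖ ^ 2 ≤ K * W ^ 2 / q) (L : ℕ) (hL0 : 0 < L)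
    (hL : ∀ q ∈ Q, q ∣ L) :
    mean L (fun x => ‖∑ q ∈ Q, ∑ ρ ∈ Fr q, a ρ * ee ρ x‖ ^ (2 * k)) ≤
      K ^ k * W ^ (2 * k) * mean L (fun x => (cnt Q x : ℝ) ^ (2 * k)) := by
  have hB : 0 ≤ Real.sqrt (K * W ^ 2) := Real.sqrt_nonneg _
  have hB2 : Real.sqrt (K * W ^ 2) ^ 2 = K * W ^ 2 := Real.sq_sqrt (by positivity)
  have h1 : ∀ c ∈ Fintype.piFinset (fun _ : Fin k ⊕ Fin k => Q),
      ‖(∑ x ∈ range L, ∏ i, ∑ ρ ∈ KE.TT i (c i), KE.AA a i ρ * ee ρ (x : ℤ)) / (L : ℂ)‖ ≤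
        (K ^ k * W ^ (2 * k)) * (1 / ((univ.lcm c : ℕ) : ℝ)) := by
    intro c hc
    rw [Fintype.mem_piFinset] at hc
    have h2 := tuple_bound c (fun i => hQ _ (hc i)) (fun i => KE.TT i (c i))
      (fun i ρ hρ => KE.den_TT i (hQ _ (hc i)) hρ) (KE.AA a) (Real.sqrt (K * W ^ 2)) hB
      (fun i => by
        rw [KE.sq_sum i (hQ _ (hc i)) a, hB2]
        have h3 := ha _ (hc i)
        have h4 : (0 : ℝ) < (c i : ℝ) := by exact_mod_cast hQ _ (hc i)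
        rw [le_div_iff₀ h4] at h3
        linarith) L hL0 (fun i => hL _ (hc i))
    have h5 : Real.sqrt (K * W ^ 2) ^ Fintype.card (Fin k ⊕ Fin k) = K ^ k * W ^ (2 * k) := by
      rw [Fintype.card_sum, Fintype.card_fin, ← two_mul, pow_mul, hB2, mul_pow, ← pow_mul]
    rw [h5] at h2
    rw [mul_one_div]
    exact h2
  have h2 : ((mean L (fun x => ‖∑ q ∈ Q, ∑ ρ ∈ Fr q, a ρ * ee ρ x‖ ^ (2 * k)) : ℝ) : ℂ) =
      ∑ c ∈ Fintype.piFinset (fun _ : Fin k ⊕ Fin k => Q),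
        (∑ x ∈ range L, ∏ i, ∑ ρ ∈ KE.TT i (c i), KE.AA a i ρ * ee ρ (x : ℤ)) / (L : ℂ) := by
    unfold mean
    rw [Complex.ofReal_div, Complex.ofReal_sum, Complex.ofReal_natCast, ← sum_div, sum_comm]
    congr 1
    exact sum_congr rfl fun x _ => KE.prod_eq Q a (x : ℤ)
  have h3 : 0 ≤ mean L (fun x => ‖∑ q ∈ Q, ∑ ρ ∈ Fr q, a ρ * ee ρ x‖ ^ (2 * k)) :=
    mean_nonneg _ _ fun x => by positivity
  have h4 := lcm_count (ι := Fin k ⊕ Fin k) Q hQ L hL0 hL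
  rw [Fintype.card_sum, Fintype.card_fin, ← two_mul] at h4
  have _ := hW
  calc mean L (fun x => ‖∑ q ∈ Q, ∑ ρ ∈ Fr q, a ρ * ee ρ x‖ ^ (2 * k))
      = ‖((mean L (fun x => ‖∑ q ∈ Q, ∑ ρ ∈ Fr q, a ρ * ee ρ x‖ ^ (2 * k)) : ℝ) : ℂ)‖ := by
        rw [Complex.norm_real, Real.norm_of_nonneg h3]
    _ ≤ ∑ c ∈ Fintype.piFinset (fun _ : Fin k ⊕ Fin k => Q),
        ‖(∑ x ∈ range L, ∏ i, ∑ ρ ∈ KE.TT i (c i), KE.AA a i ρ * ee ρ (x : ℤ)) / (L : ℂ)‖ := by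
        rw [h2]
        exact norm_sum_le _ _
    _ ≤ ∑ c ∈ Fintype.piFinset (fun _ : Fin k ⊕ Fin k => Q),
        (K ^ k * W ^ (2 * k)) * (1 / ((univ.lcm c : ℕ) : ℝ)) := sum_le_sum h1
    _ = K ^ k * W ^ (2 * k) * mean L (fun x => (cnt Q x : ℝ) ^ (2 * k)) := by
        rw [← mul_sum, h4]

end Pool.Agent.MP_a12917_nt_GT
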