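import Mathlib
import Pool.Agent.Lib.MP_a12917_nt_GT.Defs
import Pool.Agent.Lib.MP_a12917_nt_GT.Basic
import Pool.Agent.Lib.MP_a12917_nt_GT.Pars
import Pool.Agent.Lib.MP_a12917_nt_GT.KE
import Pool.Agent.Lib.MP_a12917_nt_GT.EKsum
import Pool.Agent.Lib.MP_a12917_nt_GT.CntMom
import Pool.Agent.Lib.MP_a12917_nt_GT.NdFacts
import Pool.Agent.Lib.MP_a12917_nt_GT.Dil

/-!
# MP_a12917_nt, project GT, module SumN: square sums of the majorants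

(`ℓ = hs z`.)
`sum_b`: `∑_{σ ∈ RU z} bw² = ∑_{2 ≤ q ≤ z} (ℓ/q)² ∑_{ρ ∈ Fr q} EK(K,ρ)² ≤ ∑_q (ℓ/q)² 4Kq = 4Kℓ² ∑ 1/q ≤ 4Kℓ³`
(`ek_sum`; the sets `Fr q` are disjoint, `mem_Fr`).

`sum_N`: let `Φ(x) = ∑_{ρ ∈ RU z} b(ρ) ee ρ x`, `b = bw z K`. `Φ² = ∑_{σ ∈ R2 (RU z)} NN(σ) ee σ x`, so
by `parseval` (with `L = Lm z`; the denominators of `R2 (RU z)` divide `Lm z`, `den(ρ+σ)` divides the lcm; for
`q ≤ z`, `q ∣ z! ∣ Lm z`) `∑ NN² = mean ‖Φ‖⁴`, and by `ke` with `k = 2`, `Q = Icc 2 z`, constant `4K` and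
`W = ℓ`: `≤ (4K)² ℓ⁴ mean cnt(Icc 2 z)⁴ ≤ (4K)² ℓ⁴ mean cnt(Icc 1 z)⁴ ≤ (4K)² ℓ⁴ ℓ^{15}` (`cnt_mom`,
`m = 4`, for the divisor closed set `Icc 1 z`), `≤ (4K)² ℓ^{20}`.
-/

set_option autoImplicit false

noncomputable section

namespace Pool.Agent.MP_a12917_nt_GT

open Finset

namespace SumN

theorem sum_RU {M : Type} [AddCommMonoid M] (z : ℕ) (f : ℚ → M) :
    ∑ ρ ∈ RU z, f ρ = ∑ q ∈ Icc 2 z, ∑ ρ ∈ Fr q, f ρ := by
  unfold RU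
  refine sum_biUnion ?_
  intro q hq q' hq' hne
  rw [mem_coe, mem_Icc] at hq hq'
  show Disjoint (Fr q) (Fr q')
  rw [disjoint_left]
  intro ρ h1 h2
  rw [mem_Fr q (by omega)] at h1
  rw [mem_Fr q' (by omega)] at h2
  exact hne (h1.2.2.symm.trans h2.2.2)

theorem sum_Fr (z : ℕ) (K : ℝ) (hK : 0 < K) {q : ℕ} (hq : 2 ≤ q) :
    ∑ ρ ∈ Fr q, bw z K ρ ^ 2 ≤ 4 * K * hs z ^ 2 / q := by
  have hq0 : (0 : ℝ) < q := by
    have : 0 < q := by omega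
    exact_mod_cast this
  have h1 : ∑ ρ ∈ Fr q, bw z K ρ ^ 2 = (hs z / q) ^ 2 * ∑ ρ ∈ Fr q, EK K ρ ^ 2 := by
    rw [mul_sum]
    refine sum_congr rfl fun ρ hρ => ?_
    rw [mem_Fr q (by omega)] at hρ
    unfold bw
    rw [hρ.2.2, mul_pow]
  rw [h1]
  refine (mul_le_mul_of_nonneg_left (ek_sum q hq K hK) (sq_nonneg _)).trans (le_of_eq ?_)
  field_simp

theorem den_RU {z : ℕ} {ρ : ℚ} (h : ρ ∈ RU z) : ρ.den ∣ z.factorial ∧ 0 ≤ ρ ∧ ρ < 1 := by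
  unfold RU at h
  obtain ⟨q, hq, h1⟩ := mem_biUnion.1 h
  rw [mem_Icc] at hq
  rw [mem_Fr q (by omega)] at h1
  refine ⟨?_, h1.1, h1.2.1⟩
  rw [h1.2.2]
  exact Nat.dvd_factorial (by omega) hq.2

theorem fact_dvd {z : ℕ} (hz : 1 ≤ z) : z.factorial ∣ Lm z := dvd_pow_self _ (by omega)

theorem sq_eq (T : Finset ℚ) (b : ℚ → ℝ) (x : ℤ) :
    (∑ ρ ∈ T, (b ρ : ℂ) * ee ρ x) ^ 2 = ∑ σ ∈ R2 T, ((NN T b σ : ℝ) : ℂ) * ee σ x := by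
  rw [sq, sum_mul_sum, ← sum_product', ← sum_fiberwise_of_maps_to
    (t := R2 T) (g := fun u : ℚ × ℚ => Int.fract (u.1 + u.2))]
  · refine sum_congr rfl fun σ _ => ?_
    unfold NN
    rw [Complex.ofReal_sum, sum_mul]
    refine sum_congr rfl fun u hu => ?_
    rw [← (mem_filter.1 hu).2, ee_fract, ee_add_left]
    push_cast
    ring
  · intro u hu
    exact mem_image.2 ⟨u, hu, rfl⟩

end SumN

theorem sum_b (z : ℕ) (hz : 1 ≤ z) (K : ℝ) (hK : 0 < K) :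
    ∑ σ ∈ RU z, bw z K σ ^ 2 ≤ 4 * K * hs z ^ 3 := by
  have _ := hz
  rw [SumN.sum_RU]
  have h1 : ∑ q ∈ Icc 2 z, ∑ ρ ∈ Fr q, bw z K ρ ^ 2 ≤
      ∑ q ∈ Icc 2 z, 4 * K * hs z ^ 2 * (1 / (q : ℝ)) := by
    refine sum_le_sum fun q hq => ?_
    rw [mem_Icc] at hq
    rw [mul_one_div]
    exact SumN.sum_Fr z K hK hq.1
  refine h1.trans ?_
  rw [← mul_sum]
  have h2 : ∑ q ∈ Icc 2 z, 1 / (q : ℝ) ≤ hs z :=
    sum_le_sum_of_subset_of_nonneg (Icc_subset_Icc (by norm_num) le_rfl)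
      fun i _ _ => by positivity
  have h3 := hs_nonneg z
  calc 4 * K * hs z ^ 2 * ∑ q ∈ Icc 2 z, 1 / (q : ℝ) ≤ 4 * K * hs z ^ 2 * hs z :=
        mul_le_mul_of_nonneg_left h2 (by positivity)
    _ = 4 * K * hs z ^ 3 := by ring

theorem sum_N (z : ℕ) (hz : 1 ≤ z) (K : ℝ) (hK : 0 < K) :
    ∑ σ ∈ R2 (RU z), NN (RU z) (bw z K) σ ^ 2 ≤ (4 * K) ^ 2 * hs z ^ 20 := by
  have hh0 := hs_nonneg z
  have hh1 := one_le_hs z hz
  have h1 := parseval (R2 (RU z)) (fun σ hσ => by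
      unfold R2 at hσ
      obtain ⟨u, -, rfl⟩ := mem_image.1 hσ
      exact ⟨Int.fract_nonneg _, Int.fract_lt_one _⟩) (Lm z) (Lm_pos z) (fun σ hσ => by
      unfold R2 at hσ
      obtain ⟨u, hu, rfl⟩ := mem_image.1 hσ
      rw [mem_product] at hu
      rw [den_fract]
      refine ((Rat.add_den_dvd_lcm u.1 u.2).trans (Nat.lcm_dvd (SumN.den_RU hu.1).1
        (SumN.den_RU hu.2).1)).trans (SumN.fact_dvd hz))
    (fun σ => ((NN (RU z) (bw z K) σ : ℝ) : ℂ))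
  have h2 : ∑ σ ∈ R2 (RU z), NN (RU z) (bw z K) σ ^ 2 =
      ∑ σ ∈ R2 (RU z), ‖((NN (RU z) (bw z K) σ : ℝ) : ℂ)‖ ^ 2 := by
    refine sum_congr rfl fun σ _ => ?_
    rw [Complex.norm_real, Real.norm_eq_abs, sq_abs]
  rw [h2, ← h1]
  have h3 : mean (Lm z) (fun x =>
      ‖∑ σ ∈ R2 (RU z), ((NN (RU z) (bw z K) σ : ℝ) : ℂ) * ee σ x‖ ^ 2) =
      mean (Lm z) (fun x => ‖∑ q ∈ Icc 2 z, ∑ ρ ∈ Fr q, ((bw z K ρ : ℝ) : ℂ) * ee ρ x‖ ^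
        (2 * 2)) := by
    refine mean_congr _ _ _ fun x => ?_
    rw [← SumN.sq_eq, ← SumN.sum_RU, norm_pow, pow_mul]
  rw [h3]
  have h4 := ke 2 (Icc 2 z) (fun q hq => by rw [mem_Icc] at hq; omega)
    (fun ρ => ((bw z K ρ : ℝ) : ℂ)) (4 * K) (hs z) (by positivity) hh0 (fun q hq => by
      rw [mem_Icc] at hq
      have h5 := SumN.sum_Fr z K hK hq.1
      refine le_trans (le_of_eq ?_) h5
      refine sum_congr rfl fun ρ _ => ?_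
      rw [Complex.norm_real, Real.norm_eq_abs, sq_abs]) (Lm z) (Lm_pos z) (fun q hq => by
      rw [mem_Icc] at hq
      exact (Nat.dvd_factorial (by omega) hq.2).trans (SumN.fact_dvd hz))
  refine h4.trans ?_
  have h5 := cnt_mom (Icc 1 z) (fun q hq => by rw [mem_Icc] at hq; omega) (fun q hq d hd => by
      rw [mem_Icc] at hq ⊢
      exact ⟨Nat.pos_of_dvd_of_pos hd (by omega), (Nat.le_of_dvd (by omega) hd).trans hq.2⟩)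
    (Lm z) (Lm_pos z) (fun q hq => by
      rw [mem_Icc] at hq
      exact (Nat.dvd_factorial (by omega) hq.2).trans (SumN.fact_dvd hz)) 4
  have h6 : mean (Lm z) (fun x => (cnt (Icc 2 z) x : ℝ) ^ (2 * 2)) ≤
      mean (Lm z) (fun x => (cnt (Icc 1 z) x : ℝ) ^ 4) := by
    refine mean_mono _ _ _ fun x => ?_
    have h7 : cnt (Icc 2 z) x ≤ cnt (Icc 1 z) x := by
      unfold cnt
      exact card_le_card (filter_subset_filter _ (Icc_subset_Icc (by norm_num) le_rfl))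
    have h8 : (cnt (Icc 2 z) x : ℝ) ≤ cnt (Icc 1 z) x := by exact_mod_cast h7
    exact pow_le_pow_left₀ (Nat.cast_nonneg _) h8 4
  have h7 : mean (Lm z) (fun x => (cnt (Icc 2 z) x : ℝ) ^ (2 * 2)) ≤ hs z ^ 15 :=
    h6.trans h5
  calc (4 * K) ^ 2 * hs z ^ (2 * 2) * mean (Lm z) (fun x => (cnt (Icc 2 z) x : ℝ) ^ (2 * 2))
      ≤ (4 * K) ^ 2 * hs z ^ (2 * 2) * hs z ^ 15 :=
        mul_le_mul_of_nonneg_left h7 (by positivity)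
    _ = (4 * K) ^ 2 * hs z ^ 19 := by ring
    _ ≤ (4 * K) ^ 2 * hs z ^ 20 :=
        mul_le_mul_of_nonneg_left (pow_le_pow_right₀ hh1 (by norm_num)) (by positivity)

end Pool.Agent.MP_a12917_nt_GT
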