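import Mathlib
import Pool.Agent.Lib.MP_a12917_nt_GT.Defs
import Pool.Agent.Lib.MP_a12917_nt_GT.Basic
import Pool.Agent.Lib.MP_a12917_nt_GT.GtTP
import Pool.Agent.Lib.MP_a12917_nt_GT.A1n
import Pool.Agent.Lib.MP_a12917_nt_GT.A2n
import Pool.Agent.Lib.MP_a12917_nt_GT.DL
import Pool.Agent.Lib.MP_a12917_nt_GT.SumN
import Pool.Agent.Lib.MP_a12917_nt_GT.Dil
import Pool.Agent.Lib.MP_a12917_nt_GT.NdFacts

/-!
# MP_a12917_nt, project GT, module Blk: sums over the primes of a dyadic block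

(`ℓ = hs z`.)
`log_bd`: `log z ≤ ℓ` (`log(z+1) ≤ ∑_{a≤z} 1/a`), so `1 + log(z² P) ≤ 1 + 3 log z ≤ 4ℓ` for `P ≤ z`.

`blk_A1`: `A1_norm` for `f = gt y z p`, `T = Tp y z p` (`gt_tp`, `Tp_mem`), then `Tp_dil`: the sum
is
`≤ ∑_{ρ ∈ Tp} bw(fract(pρ))² kap²`; `dl` with `T p = Tp y z p`, `Ts = RU z`, `Dn = z² ` (all
denominators
`≤ z ≤ z²`), `β = bw z K'`, and `sum_b`: `≤ 4K'ℓ³ · 9√P · 4ℓ = 144 K' ℓ⁴ √P`.

`blk_A2`: `A2_norm` with `Ts = RU z`, `b = bw z K'` (nonnegative by `EK_nonneg`), then `dl` with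
`T p = (R2 (Tp y z p)).erase 0`, `Ts = (R2 (RU z)).erase 0`, `Dn = z²`, `β = NN (RU z) (bw z K')`:
`τ = fract(ρ+σ) ≠ 0`, `ρ, σ ∈ Tp`: `τ.den` is coprime to `p` (`add_cop`), `fract(pτ) =
fract(fract(pρ) + fract(pσ)) ∈ R2 (RU z)` (`fract_fract_add`, `Tp_dil`), it is not `0` because its
denominator is that of `τ` (`fract_den`) and this is not `1`; the denominator of an element of
`R2 (RU z)` is at most `z²` (divides the product of two denominators, `den_fract`). With `sum_N`: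
`≤ (4K')² ℓ^{20} · 36 √P ℓ = 576 K'² ℓ^{21} √P`.
-/

set_option autoImplicit false

noncomputable section

namespace Pool.Agent.MP_a12917_nt_GT

open Finset

theorem log_bd (z P : ℕ) (hP : 1 ≤ P) (hPz : P ≤ z) :
    1 + Real.log (((z ^ 2 : ℕ) : ℝ) * P) ≤ 4 * hs z := by
  have hz : 1 ≤ z := hP.trans hPz
  have hz0 : (0 : ℝ) < z := by exact_mod_cast hz
  have hP0 : (0 : ℝ) < P := by exact_mod_cast hP
  have h1 : Real.log z ≤ hs z := by
    have h2 := log_add_one_le_harmonic z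
    have h3 : ((harmonic z : ℚ) : ℝ) = hs z := by
      rw [harmonic_eq_sum_Icc, hs]
      push_cast
      exact sum_congr rfl fun i _ => by rw [one_div]
    rw [h3] at h2
    refine le_trans ?_ h2
    apply Real.log_le_log hz0
    push_cast
    linarith
  have h4 : Real.log P ≤ Real.log z := Real.log_le_log hP0 (by exact_mod_cast hPz)
  have h5 := one_le_hs z hz
  have h6 : Real.log (((z ^ 2 : ℕ) : ℝ) * P) = 2 * Real.log z + Real.log P := by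
    push_cast
    rw [Real.log_mul (by positivity) (by positivity), Real.log_pow]
    push_cast; ring
  rw [h6]
  linarith

namespace Blk

theorem mem_RU (z : ℕ) (σ : ℚ) (h : σ ∈ RU z) :
    0 < σ ∧ σ < 1 ∧ 2 ≤ σ.den ∧ σ.den ≤ z := by
  simp only [RU, mem_biUnion, mem_Icc] at h
  obtain ⟨q, ⟨hq1, hq2⟩, hq⟩ := h
  obtain ⟨h0, h1, h2⟩ := (mem_Fr q (by omega) σ).1 hq
  refine ⟨lt_of_le_of_ne h0 ?_, h1, by omega, by omega⟩
  rintro rfl
  simp at h2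
  omega

theorem den_R2 (z : ℕ) (σ : ℚ) (h : σ ∈ R2 (RU z)) : σ.den ≤ z ^ 2 := by
  simp only [R2, mem_image, mem_product] at h
  obtain ⟨u, ⟨h1, h2⟩, rfl⟩ := h
  rw [den_fract]
  have h3 := Nat.le_of_dvd (Nat.mul_pos u.1.den_pos u.2.den_pos) (Rat.add_den_dvd u.1 u.2)
  have h4 := (mem_RU z _ h1).2.2.2
  have h5 := (mem_RU z _ h2).2.2.2
  calc _ ≤ u.1.den * u.2.den := h3
    _ ≤ z * z := Nat.mul_le_mul h4 h5
    _ = _ := by ring

theorem bw_nonneg (z : ℕ) (K' : ℝ) (hK : 0 ≤ K') (σ : ℚ) : 0 ≤ bw z K' σ :=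
  mul_nonneg (div_nonneg (hs_nonneg z) (Nat.cast_nonneg _)) (EK_nonneg K' hK σ)

theorem R2_pos (T : Finset ℚ) (τ : ℚ) (h : τ ∈ (R2 T).erase 0) : 0 < τ ∧ τ < 1 := by
  rw [mem_erase] at h
  obtain ⟨h0, h⟩ := h
  simp only [R2, mem_image] at h
  obtain ⟨u, _, rfl⟩ := h
  exact ⟨lt_of_le_of_ne (Int.fract_nonneg _) (Ne.symm h0), Int.fract_lt_one _⟩

end Blk

open Blk

theorem blk_A1 (y z P : ℕ) (hP : 1 ≤ P) (hPz : P ≤ z) (Ps : Finset ℕ)
    (hPs : Ps ⊆ (Ioc P (2 * P)).filter Nat.Prime) (β lam K : ℕ → ℕ)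
    (hlam : ∀ p ∈ Ps, lam p ≤ p) (K' : ℝ) (hK0 : 0 < K') (hK : ∀ p ∈ Ps, (K p : ℝ) ≤ K') :
    ∑ p ∈ Ps, mean (Lm z) (fun x => A1 p (β p) (lam p) (K p) (gt y z p) x ^ 2) ≤
      144 * K' * hs z ^ 4 * Real.sqrt P := by
  have hz : 1 ≤ z := hP.trans hPz
  have hpr : ∀ p ∈ Ps, p.Prime := fun p hp => (mem_filter.1 (hPs hp)).2
  have h1 : ∀ p ∈ Ps, mean (Lm z) (fun x => A1 p (β p) (lam p) (K p) (gt y z p) x ^ 2) ≤
      ∑ ρ ∈ Tp y z p, bw z K' (Int.fract ((p : ℚ) * ρ)) ^ 2 * kap p ρ ^ 2 := by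
    intro p hp
    refine (A1_norm p (hpr p hp).pos (Tp y z p)
      (fun ρ hρ => ⟨(Tp_mem y z p (hpr p hp) ρ hρ).1, (Tp_mem y z p (hpr p hp) ρ hρ).2.1⟩)
      (Lm z) (Lm_pos z) (fun ρ hρ => (Tp_mem y z p (hpr p hp) ρ hρ).2.2.2.1)
      (fun ρ => wt (z / p) ρ.den) (gt y z p) (gt_tp y z p) (β p) (lam p) (K p)
      (hlam p hp) K' (hK p hp)).trans ?_
    apply sum_le_sum
    intro ρ hρ
    have h2 := (Tp_dil y z p (hpr p hp) ρ hρ K' hK0.le).2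
    exact mul_le_mul_of_nonneg_right
      (pow_le_pow_left₀ (mul_nonneg (abs_nonneg _) (EK_nonneg K' hK0.le _)) h2 2) (sq_nonneg _)
  have h2 := dl P hP (z ^ 2) (Nat.one_le_pow _ _ hz) (fun p => Tp y z p) (RU z)
    (fun σ hσ => ⟨(mem_RU z σ hσ).1, (mem_RU z σ hσ).2.1,
      (mem_RU z σ hσ).2.2.2.trans (Nat.le_self_pow (by norm_num) z)⟩) Ps hPs
    (fun p hp τ hτ => ⟨(Tp_mem y z p (hpr p hp) τ hτ).1, (Tp_mem y z p (hpr p hp) τ hτ).2.1,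
      (Tp_mem y z p (hpr p hp) τ hτ).2.2.1, (Tp_dil y z p (hpr p hp) τ hτ K' hK0.le).1⟩)
    (bw z K')
  have h3 := sum_b z hz K' hK0
  have h4 := log_bd z P hP hPz
  have h5 : 0 ≤ Real.sqrt (P : ℝ) := Real.sqrt_nonneg _
  have h6 := hs_nonneg z
  calc _ ≤ ∑ p ∈ Ps, ∑ ρ ∈ Tp y z p, bw z K' (Int.fract ((p : ℚ) * ρ)) ^ 2 * kap p ρ ^ 2 :=
        sum_le_sum h1
    _ ≤ _ := h2
    _ ≤ (4 * K' * hs z ^ 3) * (9 * Real.sqrt P * (4 * hs z)) := by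
        apply mul_le_mul h3 (mul_le_mul_of_nonneg_left h4 (by positivity)) _ (by positivity)
        have : 0 ≤ Real.log (((z ^ 2 : ℕ) : ℝ) * P) := by
          apply Real.log_nonneg
          have h7 : 1 ≤ z ^ 2 * P := Nat.one_le_iff_ne_zero.2 (by positivity)
          exact_mod_cast h7
        positivity
    _ = _ := by ring

theorem blk_A2 (y z P : ℕ) (hP : 1 ≤ P) (hPz : P ≤ z) (Ps : Finset ℕ)
    (hPs : Ps ⊆ (Ioc P (2 * P)).filter Nat.Prime) (β lam K : ℕ → ℕ)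
    (hlam : ∀ p ∈ Ps, lam p ≤ p) (K' : ℝ) (hK0 : 0 < K') (hK : ∀ p ∈ Ps, (K p : ℝ) ≤ K') :
    ∑ p ∈ Ps, sd (Lm z) (A2 p (β p) (lam p) (K p) (gt y z p)) ^ 2 ≤
      576 * K' ^ 2 * hs z ^ 21 * Real.sqrt P := by
  have hz : 1 ≤ z := hP.trans hPz
  have hpr : ∀ p ∈ Ps, p.Prime := fun p hp => (mem_filter.1 (hPs hp)).2
  have h1 : ∀ p ∈ Ps, sd (Lm z) (A2 p (β p) (lam p) (K p) (gt y z p)) ^ 2 ≤
      ∑ τ ∈ (R2 (Tp y z p)).erase 0,
        NN (RU z) (bw z K') (Int.fract ((p : ℚ) * τ)) ^ 2 * kap p τ ^ 2 := by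
    intro p hp
    rw [sd, Real.sq_sqrt (mean_nonneg _ _ fun x => sq_nonneg _)]
    exact A2_norm p (hpr p hp).pos (Tp y z p)
      (fun ρ hρ => ⟨(Tp_mem y z p (hpr p hp) ρ hρ).1, (Tp_mem y z p (hpr p hp) ρ hρ).2.1,
        (Tp_mem y z p (hpr p hp) ρ hρ).2.2.1⟩)
      (Lm z) (Lm_pos z) (fun ρ hρ => (Tp_mem y z p (hpr p hp) ρ hρ).2.2.2.1)
      (fun ρ => wt (z / p) ρ.den) (gt y z p) (gt_tp y z p) (β p) (lam p) (K p)
      (hlam p hp) K' (hK p hp) (RU z) (bw z K') (bw_nonneg z K' hK0.le)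
      (fun ρ hρ => Tp_dil y z p (hpr p hp) ρ hρ K' hK0.le)
  have h2 := dl P hP (z ^ 2) (Nat.one_le_pow _ _ hz) (fun p => (R2 (Tp y z p)).erase 0)
    ((R2 (RU z)).erase 0)
    (fun σ hσ => ⟨(R2_pos _ σ hσ).1, (R2_pos _ σ hσ).2, den_R2 z σ (mem_of_mem_erase hσ)⟩)
    Ps hPs
    (fun p hp τ hτ => by
      have hτ0 := R2_pos _ τ hτ
      have hτ1 := mem_of_mem_erase hτ
      simp only [R2, mem_image, mem_product] at hτ1
      obtain ⟨u, ⟨hu1, hu2⟩, hu⟩ := hτ1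
      have m1 := Tp_mem y z p (hpr p hp) _ hu1
      have m2 := Tp_mem y z p (hpr p hp) _ hu2
      have hco : τ.den.Coprime p := by
        rw [← hu]; exact add_cop p _ _ m1.2.2.1 m2.2.2.1
      refine ⟨hτ0.1, hτ0.2, hco, ?_⟩
      rw [mem_erase]
      constructor
      · intro h0
        have h3 := fract_den p τ hco
        rw [h0] at h3
        have h4 : τ.den = 1 := by simpa using h3.symm
        have h5 : τ = τ.num := ((Rat.den_eq_one_iff τ).1 h4).symm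
        have h6 : (0 : ℚ) < τ.num := h5 ▸ hτ0.1
        have h7 : (τ.num : ℚ) < 1 := h5 ▸ hτ0.2
        have h8 : (0 : ℤ) < τ.num := by exact_mod_cast h6
        have h9 : τ.num < 1 := by exact_mod_cast h7
        omega
      · rw [← hu, ← fract_fract_add]
        exact mem_image_of_mem (fun u : ℚ × ℚ => Int.fract (u.1 + u.2))
          (mem_product.2 ⟨(Tp_dil y z p (hpr p hp) _ hu1 K' hK0.le).1,
            (Tp_dil y z p (hpr p hp) _ hu2 K' hK0.le).1⟩ :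
            (Int.fract ((p : ℚ) * u.1), Int.fract ((p : ℚ) * u.2)) ∈ RU z ×ˢ RU z))
    (NN (RU z) (bw z K'))
  have h3 := sum_N z hz K' hK0
  have h3' : ∑ σ ∈ (R2 (RU z)).erase 0, NN (RU z) (bw z K') σ ^ 2 ≤
      (4 * K') ^ 2 * hs z ^ 20 :=
    (sum_le_sum_of_subset_of_nonneg (erase_subset _ _) fun _ _ _ => sq_nonneg _).trans h3
  have h4 := log_bd z P hP hPz
  have h5 : 0 ≤ Real.sqrt (P : ℝ) := Real.sqrt_nonneg _
  have h6 := hs_nonneg z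
  calc _ ≤ ∑ p ∈ Ps, ∑ τ ∈ (R2 (Tp y z p)).erase 0,
        NN (RU z) (bw z K') (Int.fract ((p : ℚ) * τ)) ^ 2 * kap p τ ^ 2 := sum_le_sum h1
    _ ≤ _ := h2
    _ ≤ ((4 * K') ^ 2 * hs z ^ 20) * (9 * Real.sqrt P * (4 * hs z)) := by
        apply mul_le_mul h3' (mul_le_mul_of_nonneg_left h4 (by positivity)) _ (by positivity)
        have : 0 ≤ Real.log (((z ^ 2 : ℕ) : ℝ) * P) := by
          apply Real.log_nonneg
          have h7 : 1 ≤ z ^ 2 * P := Nat.one_le_iff_ne_zero.2 (by positivity)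
          exact_mod_cast h7
        positivity
    _ = _ := by ring

end Pool.Agent.MP_a12917_nt_GT
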