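import Mathlib
import Pool.Agent.Lib.MP_a12917_nt_GT.Defs
import Pool.Agent.Lib.MP_a12917_nt_GT.Basic
import Pool.Agent.Lib.MP_a12917_nt_GT.KE
import Pool.Agent.Lib.MP_a12917_nt_GT.RamC
import Pool.Agent.Lib.MP_a12917_nt_GT.FKb
import Pool.Agent.Lib.MP_a12917_nt_GT.EKsum
import Pool.Agent.Lib.MP_a12917_nt_GT.NdFacts

/-!
# MP_a12917_nt, project GT, module Kew: even moments of weighted window sums of Ramanujan sums

(`ℓ = hs z`.)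
By `ram_ee` and `ee_add_right`, `∑_{h ∈ Icc 1 K} ram q (x+h) = ∑_{ρ ∈ Fr q} F(ρ) ee ρ x`,
`F(ρ) = ∑_{h ∈ Icc 1 K} ee ρ h`. The real function is the trigonometric polynomial with coefficients
`a ρ = w (ρ.den) F(ρ)` (`ρ.den = q` on `Fr q`, `mem_Fr`); the even power of a real number is the
even
power of the norm of its image in the complex numbers. Apply `ke` with the constant `4K` for `K`:
`∑_{ρ ∈ Fr q} ‖a ρ‖² ≤ (W/q)² ∑_{ρ ∈ Fr q} EK(K, ρ)² ≤ (W/q)² 4 K q` for `q ≥ 2` (`fk_Icc` with `c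
= 0`,
`ek_sum`); if `K = 1`, `‖F(ρ)‖ = 1` and `∑ ≤ (W/q)² card (Fr q) ≤ W²/q ≤ 4 W²/q` (`card_Fr_le`).
-/

set_option autoImplicit false

noncomputable section

namespace Pool.Agent.MP_a12917_nt_GT

open Finset

theorem kew (k : ℕ) (Q : Finset ℕ) (hQ : ∀ q ∈ Q, 0 < q) (K : ℕ) (hK : 1 ≤ K)
    (hKQ : K = 1 ∨ ∀ q ∈ Q, 2 ≤ q) (w : ℕ → ℝ) (W : ℝ) (hW : 0 ≤ W)
    (hw : ∀ q ∈ Q, |w q| ≤ W / q) (L : ℕ) (hL0 : 0 < L) (hL : ∀ q ∈ Q, q ∣ L) :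
    mean L (fun x => (∑ q ∈ Q, w q * ∑ h ∈ Icc 1 K, ram q (x + (h : ℤ))) ^ (2 * k)) ≤
      (4 * (K : ℝ)) ^ k * W ^ (2 * k) * mean L (fun x => (cnt Q x : ℝ) ^ (2 * k)) := by
  classical
  set F : ℚ → ℂ := fun ρ => ∑ h ∈ Icc 1 K, ee ρ (h : ℤ) with hF
  set a : ℚ → ℂ := fun ρ => ((w ρ.den : ℝ) : ℂ) * F ρ with ha
  have key : ∀ x : ℤ, ((∑ q ∈ Q, w q * ∑ h ∈ Icc 1 K, ram q (x + (h : ℤ)) : ℝ) : ℂ) =
      ∑ q ∈ Q, ∑ ρ ∈ Fr q, a ρ * ee ρ x := by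
    intro x
    push_cast
    apply sum_congr rfl
    intro q hq
    have h1 : ∀ h ∈ Icc 1 K, ((ram q (x + (h : ℤ)) : ℝ) : ℂ) =
        ∑ ρ ∈ Fr q, ee ρ x * ee ρ (h : ℤ) := by
      intro h _
      rw [ram_ee q (hQ q hq)]
      exact sum_congr rfl fun ρ _ => ee_add_right ρ x h
    rw [sum_congr rfl h1, sum_comm, mul_sum]
    apply sum_congr rfl
    intro ρ hρ
    have hden : ρ.den = q := ((mem_Fr q (hQ q hq) ρ).1 hρ).2.2
    simp only [ha, hF, hden]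
    rw [← mul_sum]
    ring
  have hnorm : ∀ x : ℤ, (∑ q ∈ Q, w q * ∑ h ∈ Icc 1 K, ram q (x + (h : ℤ))) ^ (2 * k) =
      ‖∑ q ∈ Q, ∑ ρ ∈ Fr q, a ρ * ee ρ x‖ ^ (2 * k) := by
    intro x
    rw [← key x, Complex.norm_real, Real.norm_eq_abs, pow_mul, pow_mul, sq_abs]
  rw [mean_congr L _ _ hnorm]
  refine ke k Q hQ a (4 * K) W (by positivity) hW ?_ L hL0 hL
  intro q hq
  have hq0 : 0 < q := hQ q hq
  have hqr : (0 : ℝ) < q := by exact_mod_cast hq0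
  have hwq : (w q) ^ 2 ≤ (W / q) ^ 2 := by
    rw [← sq_abs]
    exact pow_le_pow_left₀ (abs_nonneg _) (hw q hq) 2
  have h1 : ∑ ρ ∈ Fr q, ‖a ρ‖ ^ 2 ≤ (W / q) ^ 2 * ∑ ρ ∈ Fr q, ‖F ρ‖ ^ 2 := by
    rw [mul_sum]
    apply sum_le_sum
    intro ρ hρ
    have hden : ρ.den = q := ((mem_Fr q hq0 ρ).1 hρ).2.2
    simp only [ha]
    rw [norm_mul, mul_pow, Complex.norm_real, Real.norm_eq_abs, sq_abs, hden]
    exact mul_le_mul_of_nonneg_right hwq (by positivity)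
  have h2 : ∑ ρ ∈ Fr q, ‖F ρ‖ ^ 2 ≤ 4 * K * q := by
    rcases hKQ with h | h
    · subst h
      have h3 : ∀ ρ ∈ Fr q, ‖F ρ‖ ^ 2 = 1 := by
        intro ρ _
        simp [hF, norm_ee]
      rw [sum_congr rfl h3]
      have h4 : ((Fr q).card : ℝ) ≤ q := by exact_mod_cast card_Fr_le q
      simp only [sum_const, nsmul_eq_mul, mul_one, Nat.cast_one]
      linarith
    · refine le_trans ?_ (ek_sum q (h q hq) K (by exact_mod_cast hK))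
      apply sum_le_sum
      intro ρ _
      have h5 := fk_Icc K K le_rfl ρ 0
      simp only [zero_add] at h5
      exact pow_le_pow_left₀ (norm_nonneg _) h5 2
  calc _ ≤ (W / q) ^ 2 * ∑ ρ ∈ Fr q, ‖F ρ‖ ^ 2 := h1
    _ ≤ (W / q) ^ 2 * (4 * K * q) := by gcongr
    _ = _ := by field_simp

end Pool.Agent.MP_a12917_nt_GT
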