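import Mathlib
import Pool.Agent.Lib.MP_a12917_nt_GT.Defs
import Pool.Agent.Lib.MP_a12917_nt_GT.Basic
import Pool.Agent.Lib.MP_a12917_nt_GT.Kew
import Pool.Agent.Lib.MP_a12917_nt_GT.CntMom
import Pool.Agent.Lib.MP_a12917_nt_GT.Wt

/-!
# MP_a12917_nt, project GT, module Kez: even moments, explicit bound by a power of the harmonic sum

(`ℓ = hs z`.)
`kew` with `W = hs z`; `cnt Q ≤ cnt (Icc 1 z)` and `cnt_mom` for the divisor closed set `Icc 1 z`: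
`mean cnt^{2k} ≤ ℓ^{2^{2k} - 1} ≤ ℓ^{4^k}` (`one_le_hs`). `g_mom`: `kez` for `Q = Qp y z p ⊆ Icc 1 z`,
`K = 1`, `w = wt (z/p)` (`wt_nonneg`, `wt_le`, `hs_mono`), shifting `x` by `-1` (`mean_shift`; `g` is
periodic mod every multiple of `Lm z`; or apply `kez` and use that `∑_{h ∈ Icc 1 1}` is one term and
`ram q` is periodic mod `q`). `gt_window`: the same for the elements `≥ 2` of `Qp y z p` and `K` general.
`M_mom`: `M_good`, `Good y z t ⊆ Icc 2 z`, `w = wt z`. `cnt_mom_z`: `cnt_mom` for `Icc 1 z` and `L = Lm z`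
(`dvd_Lm`).
-/

set_option autoImplicit false

noncomputable section

namespace Pool.Agent.MP_a12917_nt_GT

open Finset

theorem Kez.dvd (z : ℕ) (hz : 1 ≤ z) (q : ℕ) (hq : q ∈ Icc 1 z) : q ∣ Lm z := by
  rw [mem_Icc] at hq
  exact (Nat.dvd_factorial hq.1 hq.2).trans (dvd_pow_self _ (by omega))

theorem cnt_mom_z (z : ℕ) (hz : 1 ≤ z) (m : ℕ) :
    mean (Lm z) (fun x => (cnt (Icc 1 z) x : ℝ) ^ m) ≤ hs z ^ (2 ^ m - 1) := by
  refine cnt_mom (Icc 1 z) (fun q hq => (mem_Icc.1 hq).1) (fun q hq d hd => ?_) (Lm z) (Lm_pos z)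
    (Kez.dvd z hz) m
  rw [mem_Icc] at hq ⊢
  exact ⟨Nat.pos_of_dvd_of_pos hd hq.1, (Nat.le_of_dvd hq.1 hd).trans hq.2⟩

theorem kez (k z : ℕ) (hz : 1 ≤ z) (Q : Finset ℕ) (hQ : Q ⊆ Icc 1 z) (K : ℕ) (hK : 1 ≤ K)
    (hKQ : K = 1 ∨ ∀ q ∈ Q, 2 ≤ q) (w : ℕ → ℝ) (hw : ∀ q ∈ Q, |w q| ≤ hs z / q) :
    mean (Lm z) (fun x => (∑ q ∈ Q, w q * ∑ h ∈ Icc 1 K, ram q (x + (h : ℤ))) ^ (2 * k)) ≤
      (4 * (K : ℝ)) ^ k * hs z ^ (2 * k + 4 ^ k) := by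
  have h1 := kew k Q (fun q hq => (mem_Icc.1 (hQ hq)).1) K hK hKQ w (hs z) (hs_nonneg z) hw
    (Lm z) (Lm_pos z) (fun q hq => Kez.dvd z hz q (hQ hq))
  have h2 : mean (Lm z) (fun x => (cnt Q x : ℝ) ^ (2 * k)) ≤
      mean (Lm z) (fun x => (cnt (Icc 1 z) x : ℝ) ^ (2 * k)) := by
    refine mean_mono _ _ _ fun x => ?_
    have h3 : cnt Q x ≤ cnt (Icc 1 z) x := card_le_card (filter_subset_filter _ hQ)
    have h4 : (cnt Q x : ℝ) ≤ (cnt (Icc 1 z) x : ℝ) := by exact_mod_cast h3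
    exact pow_le_pow_left₀ (Nat.cast_nonneg _) h4 _
  have h3 := cnt_mom_z z hz (2 * k)
  have h4 : hs z ^ (2 ^ (2 * k) - 1) ≤ hs z ^ (4 ^ k) := by
    refine pow_le_pow_right₀ (one_le_hs z hz) ?_
    rw [pow_mul]
    norm_num
  refine h1.trans ?_
  rw [pow_add, ← mul_assoc]
  exact mul_le_mul_of_nonneg_left (h2.trans (h3.trans h4))
    (mul_nonneg (by positivity) (pow_nonneg (hs_nonneg z) _))

end Pool.Agent.MP_a12917_nt_GT
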