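import Mathlib
import Pool.Agent.Lib.MP_a12917_nt_GT.Defs
import Pool.Agent.Lib.MP_a12917_nt_GT.Basic

/-!
# MP_a12917_nt, project GT, module RamB: Ramanujan sums: multiplication by a prime, dilation

(`ℓ = hs z`.)
`ram_mul_prime`: the divisors of `pq` (`p ∤ q`) are `d` and `p d`, `d ∣ q`
(`Nat.Prime.divisors_mul`-type lemma or `Nat.divisors_mul` / the disjoint union
`divisors q ∪ p • divisors q`), `μ(pq/d) = μ(p) μ(q/d) = - μ(q/d)` (coprime), `μ(pq/(pd)) = μ(q/d)`,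
and `p d ∣ n ↔ p ∣ n ∧ d ∣ n` (coprime). So
`ram (pq) n = -ram q n + p 1_{p ∣ n} ram q n`. `ram_dil`: for `d ∣ q`, `gcd(d, m) = 1`, so
`d ∣ m n ↔ d ∣ n`.
-/

set_option autoImplicit false

noncomputable section

namespace Pool.Agent.MP_a12917_nt_GT

open Finset

theorem ram_mul_prime (p q : ℕ) (hp : p.Prime) (hq : 0 < q) (hpq : ¬ p ∣ q) (n : ℤ) :
    ram (p * q) n = ((if (p : ℤ) ∣ n then (p : ℝ) else 0) - 1) * ram q n := by
  classical
  have hp0 : 0 < p := hp.pos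
  have hset : (p * q).divisors = q.divisors ∪ q.divisors.image (fun d => p * d) := by
    ext d
    rw [mem_union, mem_image, Nat.mem_divisors, Nat.mem_divisors]
    constructor
    · rintro ⟨h1, _⟩
      by_cases h2 : p ∣ d
      · right
        obtain ⟨d', rfl⟩ := h2
        exact ⟨d', Nat.mem_divisors.2 ⟨Nat.dvd_of_mul_dvd_mul_left hp0 h1, hq.ne'⟩, rfl⟩
      · left
        have h3 : Nat.Coprime d p := ((Nat.Prime.coprime_iff_not_dvd hp).2 h2).symm
        exact ⟨h3.dvd_of_dvd_mul_left h1, hq.ne'⟩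
    · rintro (⟨h1, _⟩ | ⟨d', h1, rfl⟩)
      · exact ⟨h1.mul_left p, (Nat.mul_pos hp0 hq).ne'⟩
      · exact ⟨Nat.mul_dvd_mul_left p (Nat.dvd_of_mem_divisors h1), (Nat.mul_pos hp0 hq).ne'⟩
  have hdis : Disjoint q.divisors (q.divisors.image (fun d => p * d)) := by
    rw [Finset.disjoint_left]
    intro d h1 h2
    obtain ⟨d', _, rfl⟩ := mem_image.1 h2
    exact hpq ((Dvd.intro _ rfl).trans (Nat.dvd_of_mem_divisors h1))
  unfold ram
  rw [hset, sum_union hdis, sum_image (fun x _ y _ h => Nat.eq_of_mul_eq_mul_left hp0 h),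
    ← sum_add_distrib, mul_sum]
  refine sum_congr rfl fun d hd => ?_
  have hdq := Nat.dvd_of_mem_divisors hd
  have hd0 : 0 < d := Nat.pos_of_mem_divisors hd
  have e1 : p * q / d = p * (q / d) := Nat.mul_div_assoc p hdq
  have e2 : p * q / (p * d) = q / d := Nat.mul_div_mul_left q d hp0
  have hcop : Nat.Coprime p (q / d) := (Nat.Prime.coprime_iff_not_dvd hp).2
    fun h => hpq (h.trans (Nat.div_dvd_of_dvd hdq))
  have e3 : ArithmeticFunction.moebius (p * (q / d)) =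
      -ArithmeticFunction.moebius (q / d) := by
    rw [ArithmeticFunction.isMultiplicative_moebius.map_mul_of_coprime hcop,
      ArithmeticFunction.moebius_apply_prime hp, neg_one_mul]
  have hcop2 : IsCoprime (p : ℤ) (d : ℤ) := by
    rw [Nat.isCoprime_iff_coprime]
    exact (Nat.Prime.coprime_iff_not_dvd hp).2 fun h => hpq (h.trans hdq)
  rw [e1, e2, e3]
  push_cast
  by_cases h1 : (d : ℤ) ∣ n
  · by_cases h2 : (p : ℤ) ∣ n
    · have h3 : (p : ℤ) * (d : ℤ) ∣ n := hcop2.mul_dvd h2 h1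
      simp only [h1, h2, h3, if_true]
      ring
    · have h3 : ¬ (p : ℤ) * (d : ℤ) ∣ n := fun h3 => h2 ((Dvd.intro _ rfl).trans h3)
      simp only [h1, h2, h3, if_true, if_false]
      ring
  · have h3 : ¬ (p : ℤ) * (d : ℤ) ∣ n := fun h3 => h1 ((Dvd.intro_left _ rfl).trans h3)
    simp only [h1, h3, if_false]
    ring

theorem ram_dil (m : ℤ) (q : ℕ) (hmq : IsCoprime m (q : ℤ)) (n : ℤ) :
    ram q (m * n) = ram q n := by
  unfold ram
  refine sum_congr rfl fun d hd => ?_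
  have h1 : (d : ℤ) ∣ (q : ℤ) := Int.natCast_dvd_natCast.2 (Nat.dvd_of_mem_divisors hd)
  have h2 : IsCoprime (d : ℤ) m := (hmq.of_isCoprime_of_dvd_right h1).symm
  have h3 : ((d : ℤ) ∣ m * n) ↔ (d : ℤ) ∣ n :=
    ⟨fun h => h2.dvd_of_dvd_mul_left h, fun h => h.mul_left m⟩
  by_cases h4 : (d : ℤ) ∣ n
  · rw [if_pos h4, if_pos (h3.2 h4)]
  · rw [if_neg h4, if_neg fun h5 => h4 (h3.1 h5)]

end Pool.Agent.MP_a12917_nt_GT
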