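import Mathlib
import Pool.Agent.Lib.MP_a12917_nt_GT.Defs
import Pool.Agent.Lib.MP_a12917_nt_GT.Basic
import Pool.Agent.Lib.MP_a12917_nt_GT.RamA
import Pool.Agent.Lib.MP_a12917_nt_GT.RamB

/-!
# MP_a12917_nt, project GT, module Per: periodicity

(`ℓ = hs z`.)
`q_dvd`: `q ∈ Qp y z p` satisfies `1 ≤ q ≤ z/p ≤ z` and all its primes are `< p`, i.e. divide `(p-1)!`;
`v_r(q) ≤ log2 q ≤ z ≤ z v_r((p-1)!)`, so `q ∣ ((p-1)!)^z` (`Nat.factorization_le_iff_dvd`, `Nat.factorization_lt`).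
`g_per`: `ram_add`. `g_dil`: `ram_dil` (`p` is coprime to `q ∈ Qp y z p`). `D_per`: each term is periodic.
`M_per`: for a prime `p' < p`, `p' ∈ Pr y z`: `p' ∣ (p-1)!`, so `p' ∣ Nm z p` (`z ≥ 1` as `p' ≤ z`), and
`Nm z p' ∣ Nm z p`. `Nm_co`: `p` does not divide `(p-1)!`. `Nm_dvd`: `(p-1)!^z p ∣ (p!)^z ∣ (z!)^z`
(`z ≥ 1`). `dvd_Lm`: `q ∣ z! ∣ (z!)^z`. `S_per`: each `Ua a H` is periodic mod `a`.
-/

set_option autoImplicit false

noncomputable section

namespace Pool.Agent.MP_a12917_nt_GT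

open Finset

theorem q_dvd (y z p q : ℕ) (hq : q ∈ Qp y z p) : q ∣ Nm z p := by
  unfold Qp at hq
  rw [mem_filter, mem_Icc] at hq
  obtain ⟨⟨h1, h2⟩, h3, _⟩ := hq
  have hqz : q ≤ z := h2.trans (Nat.div_le_self z p)
  rw [← Nat.factorization_le_iff_dvd (by omega) (Nm_pos z p).ne']
  intro r
  by_cases hr : r ∈ q.primeFactors
  · have hrp := h3 r hr
    have hr1 := Nat.prime_of_mem_primeFactors hr
    unfold Nm
    rw [Nat.factorization_pow, Finsupp.smul_apply, smul_eq_mul]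
    have h4 : 1 ≤ ((p - 1).factorial).factorization r :=
      (Nat.Prime.dvd_iff_one_le_factorization hr1 (Nat.factorial_ne_zero _)).1
        ((Nat.Prime.dvd_factorial hr1).2 (by omega))
    have h5 : q.factorization r < q := Nat.factorization_lt r (by omega)
    calc q.factorization r ≤ z * 1 := by omega
      _ ≤ z * ((p - 1).factorial).factorization r := Nat.mul_le_mul_left z h4
  · rw [← Nat.support_factorization, Finsupp.notMem_support_iff] at hr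
    rw [hr]
    exact Nat.zero_le _

theorem g_per (y z p : ℕ) (x : ℤ) : g y z p (x + (Nm z p : ℤ)) = g y z p x := by
  unfold g
  refine sum_congr rfl fun q hq => ?_
  rw [ram_add q x _ (Int.natCast_dvd_natCast.2 (q_dvd y z p q hq))]

theorem g_dil (y z p : ℕ) (hp : p.Prime) (n : ℤ) : g y z p ((p : ℤ) * n) = g y z p n := by
  unfold g
  refine sum_congr rfl fun q hq => ?_
  rw [ram_dil (p : ℤ) q ?_ n]
  rw [Nat.isCoprime_iff_coprime]
  refine (Nat.Prime.coprime_iff_not_dvd hp).2 fun h => ?_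
  unfold Qp at hq
  rw [mem_filter, mem_Icc] at hq
  have h1 := hq.2.1 p (Nat.mem_primeFactors.2 ⟨hp, h, by omega⟩)
  omega

theorem D_per (p H N : ℕ) (f : ℤ → ℝ) (hf : ∀ x, f (x + (N : ℤ)) = f x) (hp : p ∣ N) (x : ℤ) :
    D p H f (x + (N : ℤ)) = D p H f x := by
  unfold D
  refine sum_congr rfl fun h _ => ?_
  have e : x + (N : ℤ) + (h : ℤ) = x + (h : ℤ) + (N : ℤ) := by ring
  rw [e, hf]
  have h1 : (p : ℤ) ∣ (N : ℤ) := Int.natCast_dvd_natCast.2 hp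
  have h2 : ((p : ℤ) ∣ x + (h : ℤ) + (N : ℤ)) ↔ (p : ℤ) ∣ x + (h : ℤ) := dvd_add_left h1
  by_cases h3 : (p : ℤ) ∣ x + (h : ℤ)
  · rw [if_pos h3, if_pos (h2.2 h3)]
  · rw [if_neg h3, if_neg fun h4 => h3 (h2.1 h4)]

theorem M_per (y z H p : ℕ) (x : ℤ) : M y z H p (x + (Nm z p : ℤ)) = M y z H p x := by
  unfold M
  refine sum_congr rfl fun p' hp' => ?_
  unfold Pr at hp'
  rw [mem_filter, mem_filter, mem_Ioc] at hp'
  obtain ⟨⟨⟨_, h2⟩, h3⟩, h4⟩ := hp'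
  have hz : z ≠ 0 := by
    have := h3.pos
    omega
  have h5 : Nm z p' ∣ Nm z p := by
    unfold Nm
    exact pow_dvd_pow_of_dvd (Nat.factorial_dvd_factorial (by omega)) z
  have h6 : p' ∣ Nm z p := by
    unfold Nm
    exact ((Nat.Prime.dvd_factorial h3).2 (by omega)).trans (dvd_pow_self _ hz)
  exact D_per p' H (Nm z p) (g y z p') (per_dvd _ _ h5 _ (g_per y z p')) h6 x

theorem Nm_co (z p : ℕ) (hp : p.Prime) : (Nm z p).Coprime p := by
  unfold Nm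
  refine Nat.Coprime.pow_left z (Nat.Coprime.symm ?_)
  refine (Nat.Prime.coprime_iff_not_dvd hp).2 fun h => ?_
  have h1 := (Nat.Prime.dvd_factorial hp).1 h
  have := hp.pos
  omega

theorem Nm_dvd (z p : ℕ) (hp : 1 ≤ p) (hpz : p ≤ z) : Nm z p * p ∣ Lm z := by
  unfold Nm Lm
  have h1 : p ∣ p ^ z := dvd_pow_self p (by omega)
  have h2 : (p - 1).factorial ^ z * p ^ z = (p.factorial) ^ z := by
    rw [← mul_pow, mul_comm ((p - 1).factorial) p, Nat.mul_factorial_pred (by omega)]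
  calc (p - 1).factorial ^ z * p ∣ (p - 1).factorial ^ z * p ^ z :=
        Nat.mul_dvd_mul_left _ h1
    _ = (p.factorial) ^ z := h2
    _ ∣ (z.factorial) ^ z := pow_dvd_pow_of_dvd (Nat.factorial_dvd_factorial hpz) z

theorem dvd_Lm (z q : ℕ) (h1 : 1 ≤ q) (hq : q ≤ z) : q ∣ Lm z := by
  unfold Lm
  exact (Nat.dvd_factorial h1 hq).trans (dvd_pow_self _ (by omega))

theorem S_per (z H : ℕ) (x : ℤ) : S z H (x + (Lm z : ℤ)) = S z H x := by
  unfold S
  refine sum_congr rfl fun a ha => ?_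
  rw [mem_Icc] at ha
  unfold Ua
  congr 1
  refine sum_congr rfl fun h _ => ?_
  have e : x + (Lm z : ℤ) + (h : ℤ) = x + (h : ℤ) + (Lm z : ℤ) := by ring
  have h1 : (a : ℤ) ∣ (Lm z : ℤ) := Int.natCast_dvd_natCast.2 (dvd_Lm z a ha.1 ha.2)
  have h2 : ((a : ℤ) ∣ x + (Lm z : ℤ) + (h : ℤ)) ↔ (a : ℤ) ∣ x + (h : ℤ) := by
    rw [e]
    exact dvd_add_left h1
  by_cases h3 : (a : ℤ) ∣ x + (h : ℤ)
  · rw [if_pos h3, if_pos (h2.2 h3)]
  · rw [if_neg h3, if_neg fun h4 => h3 (h2.1 h4)]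

end Pool.Agent.MP_a12917_nt_GT
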