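import Mathlib
import Pool.Agent.Lib.MP_a12917_nt_GT.Defs
import Pool.Agent.Lib.MP_a12917_nt_GT.Basic
import Pool.Agent.Lib.MP_a12917_nt_GT.CntMom
import Pool.Agent.Lib.MP_a12917_nt_GT.CntMulM
import Pool.Agent.Lib.MP_a12917_nt_GT.Kez
import Pool.Agent.Lib.MP_a12917_nt_GT.Per

/-!
# MP_a12917_nt, project GT, module CBad: moments of the count of dropped moduli

(`ℓ = hs z`.)
`Bad = smooth part ∪ square part`: `cnt Bad x ≤ cnt (Sm y z) x + c2(x)`, where `c2(x)` counts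
the `q ≤ z`, `q ∣ x`, divisible by some `r²`, `r > y` prime. So `cnt^m ≤ 2^m (cnt(Sm)^m + c2^m)`
(`(u+v)^m ≤ 2^m max^m`; `m = 0` is fine). `mean cnt(Sm y z)^m ≤ (∑ 1/q)^{2^m - 1}` (`cnt_mom`;
`Sm y z` is divisor closed; `dvd_Lm`).
`c2(x)^m ≤ ∑_{r} 1_{r² ∣ x} cnt(Icc 1 z)(x)^m` over the primes `y < r`,
`r² ≤ z` if `c2(x) > 0`; for `m ≥ 1` and `c2(x) = 0` the left side is `0`; (for `m = 0` the claim is
`1 ≤ 1·(1 + …)`, directly). `cnt_mul_mean` with `a = r² ∣ Lm z` (`r² ≤ z`), `d(r²) = 3`: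
`mean ≤ ∑_r 3^m/r² · ℓ^{2^m-1}` (`cnt_mom_z`) and `∑_{r > y} 1/r² ≤ 1/y`.
-/

set_option autoImplicit false

noncomputable section

namespace Pool.Agent.MP_a12917_nt_GT

open Finset

namespace CBad

/-- the square part -/
def B2 (y z : ℕ) : Finset ℕ :=
  (Icc 1 z).filter fun q => ∃ r ∈ q.primeFactors, y < r ∧ r ^ 2 ∣ q

/-- the primes `r > y` with `r² ≤ z` -/
def PP2 (y z : ℕ) : Finset ℕ := (Ioc y z).filter fun r => r.Prime ∧ r ^ 2 ≤ z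

theorem cnt_mono {Q Q' : Finset ℕ} (h : Q ⊆ Q') (x : ℤ) : cnt Q x ≤ cnt Q' x :=
  card_le_card (filter_subset_filter _ h)

theorem cnt_le (y z : ℕ) (x : ℤ) :
    (cnt (Bad y z) x : ℝ) ≤ cnt (Sm y z) x + cnt (B2 y z) x := by
  have h1 : Bad y z ⊆ Sm y z ∪ B2 y z := by
    intro q hq
    obtain ⟨h2, h3⟩ := mem_filter.1 hq
    have h4 : q ∈ Icc 1 z := mem_Icc.2 ⟨one_le_two.trans (mem_Icc.1 h2).1, (mem_Icc.1 h2).2⟩
    rcases h3 with h3 | h3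
    · exact mem_union_left _ (mem_filter.2 ⟨h4, h3⟩)
    · exact mem_union_right _ (mem_filter.2 ⟨h4, h3⟩)
  have h2 : cnt (Bad y z) x ≤ cnt (Sm y z) x + cnt (B2 y z) x := by
    refine (cnt_mono h1 x).trans ?_
    unfold cnt
    rw [filter_union]
    exact card_union_le _ _
  exact_mod_cast h2

theorem Icc_h0 (z : ℕ) : ∀ q ∈ Icc 1 z, 0 < q := fun _ hq => (mem_Icc.1 hq).1

theorem Icc_hQ (z : ℕ) : ∀ q ∈ Icc 1 z, ∀ d : ℕ, d ∣ q → d ∈ Icc 1 z := by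
  intro q hq d hd
  have h1 := mem_Icc.1 hq
  exact mem_Icc.2 ⟨Nat.pos_of_dvd_of_pos hd h1.1, (Nat.le_of_dvd h1.1 hd).trans h1.2⟩

theorem Icc_hL (z : ℕ) : ∀ q ∈ Icc 1 z, q ∣ Lm z := by
  intro q hq
  have h1 := mem_Icc.1 hq
  exact dvd_Lm z q h1.1 h1.2

theorem Sm_mom (m y z : ℕ) : mean (Lm z) (fun x => (cnt (Sm y z) x : ℝ) ^ m) ≤
    (∑ q ∈ Sm y z, 1 / (q : ℝ)) ^ (2 ^ m - 1) := by
  refine cnt_mom (Sm y z) (fun q hq => Icc_h0 z q (mem_filter.1 hq).1) ?_ (Lm z) (Lm_pos z)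
    (fun q hq => Icc_hL z q (mem_filter.1 hq).1) m
  intro q hq d hd
  obtain ⟨h1, h2⟩ := mem_filter.1 hq
  refine mem_filter.2 ⟨Icc_hQ z q h1 d hd, fun r hr => h2 r ?_⟩
  exact Nat.primeFactors_mono hd (Icc_h0 z q h1).ne' hr

theorem term (m y z r : ℕ) (hz : 1 ≤ z) (hr : r ∈ PP2 y z) :
    mean (Lm z) (fun x => if ((r ^ 2 : ℕ) : ℤ) ∣ x then (cnt (Icc 1 z) x : ℝ) ^ m else 0) ≤
      3 ^ m * hs z ^ (2 ^ m - 1) * ((r : ℝ) ^ 2)⁻¹ := by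
  obtain ⟨h1, hp, h2⟩ := mem_filter.1 hr
  have h3 := cnt_mul_mean (Icc 1 z) (Icc_h0 z) (Icc_hQ z) (Lm z) (Lm_pos z) (Icc_hL z) (r ^ 2)
    (dvd_Lm z (r ^ 2) (Nat.pos_of_ne_zero (pow_ne_zero _ hp.ne_zero)) h2) m
  refine h3.trans ?_
  have h4 : (r ^ 2).divisors.card = 3 := by
    rw [Nat.divisors_prime_pow hp, card_map, card_range]
  rw [h4]
  have h5 := cnt_mom_z z hz m
  calc ((3 : ℕ) : ℝ) ^ m / ((r ^ 2 : ℕ) : ℝ) * mean (Lm z) (fun x => (cnt (Icc 1 z) x : ℝ) ^ m)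
      ≤ ((3 : ℕ) : ℝ) ^ m / ((r ^ 2 : ℕ) : ℝ) * hs z ^ (2 ^ m - 1) :=
        mul_le_mul_of_nonneg_left h5 (by positivity)
    _ = _ := by
        push_cast
        ring

theorem sum_inv (y z : ℕ) (hy : 1 ≤ y) : ∑ r ∈ PP2 y z, ((r : ℝ) ^ 2)⁻¹ ≤ (y : ℝ)⁻¹ := by
  have h1 : ∑ r ∈ PP2 y z, ((r : ℝ) ^ 2)⁻¹ ≤ ∑ r ∈ Ioc y z, ((r : ℝ) ^ 2)⁻¹ :=
    sum_le_sum_of_subset_of_nonneg (filter_subset _ _) fun i _ _ => by positivity
  refine h1.trans ?_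
  rcases le_or_gt y z with h | h
  · have h2 := sum_Ioc_inv_sq_le_sub (α := ℝ) (Nat.one_le_iff_ne_zero.1 hy) h
    have h3 : (0 : ℝ) ≤ (z : ℝ)⁻¹ := by positivity
    linarith
  · rw [Ioc_eq_empty_of_le h.le, sum_empty]
    positivity

theorem B2_mom (m y z : ℕ) (hy : 1 ≤ y) (hz : 1 ≤ z) (hm : m ≠ 0) :
    mean (Lm z) (fun x => (cnt (B2 y z) x : ℝ) ^ m) ≤ 3 ^ m / y * hs z ^ (2 ^ m - 1) := by
  have h1 : mean (Lm z) (fun x => (cnt (B2 y z) x : ℝ) ^ m) ≤ mean (Lm z) (fun x =>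
      ∑ r ∈ PP2 y z, if ((r ^ 2 : ℕ) : ℤ) ∣ x then (cnt (Icc 1 z) x : ℝ) ^ m else 0) := by
    refine mean_mono _ _ _ fun x => ?_
    have hnn : ∀ r ∈ PP2 y z,
        (0 : ℝ) ≤ if ((r ^ 2 : ℕ) : ℤ) ∣ x then (cnt (Icc 1 z) x : ℝ) ^ m else 0 := by
      intro r _
      split_ifs
      · positivity
      · exact le_rfl
    rcases Nat.eq_zero_or_pos (cnt (B2 y z) x) with h0 | h0
    · rw [h0, Nat.cast_zero, zero_pow hm]
      exact sum_nonneg hnn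
    · obtain ⟨q, hq⟩ := card_pos.1 h0
      obtain ⟨hq1, hqx⟩ := mem_filter.1 hq
      obtain ⟨hq2, r, hr, hyr, hrq⟩ := mem_filter.1 hq1
      have hq3 := mem_Icc.1 hq2
      have hrp : r.Prime := Nat.prime_of_mem_primeFactors hr
      have hr2 : r ^ 2 ≤ z := (Nat.le_of_dvd hq3.1 hrq).trans hq3.2
      have hrz : r ≤ z := (Nat.le_self_pow two_ne_zero r).trans hr2
      have hrP : r ∈ PP2 y z := mem_filter.2 ⟨mem_Ioc.2 ⟨hyr, hrz⟩, hrp, hr2⟩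
      refine le_trans ?_ (single_le_sum hnn hrP)
      rw [if_pos ((Int.natCast_dvd_natCast.2 hrq).trans hqx)]
      have h2 : (cnt (B2 y z) x : ℝ) ≤ cnt (Icc 1 z) x := by
        exact_mod_cast cnt_mono (filter_subset _ _) x
      exact pow_le_pow_left₀ (Nat.cast_nonneg _) h2 m
  refine h1.trans ?_
  rw [mean_sum]
  refine (sum_le_sum fun r hr => term m y z r hz hr).trans ?_
  rw [← mul_sum]
  have h2 : (0 : ℝ) ≤ 3 ^ m * hs z ^ (2 ^ m - 1) :=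
    mul_nonneg (by positivity) (pow_nonneg (hs_nonneg z) _)
  calc 3 ^ m * hs z ^ (2 ^ m - 1) * ∑ r ∈ PP2 y z, ((r : ℝ) ^ 2)⁻¹
      ≤ 3 ^ m * hs z ^ (2 ^ m - 1) * (y : ℝ)⁻¹ :=
        mul_le_mul_of_nonneg_left (sum_inv y z hy) h2
    _ = _ := by rw [div_eq_mul_inv]; ring

end CBad

theorem cnt_bad (m y z : ℕ) (hy : 1 ≤ y) (hz : 1 ≤ z) :
    mean (Lm z) (fun x => (cnt (Bad y z) x : ℝ) ^ m) ≤
      2 ^ m * ((∑ q ∈ Sm y z, 1 / (q : ℝ)) ^ (2 ^ m - 1) + 3 ^ m / y * hs z ^ (2 ^ m - 1)) := by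
  rcases Nat.eq_zero_or_pos m with hm | hm
  · subst hm
    have h1 : mean (Lm z) (fun x => (cnt (Bad y z) x : ℝ) ^ 0) = 1 := by
      simp only [pow_zero]
      exact mean_const _ (Lm_pos z) 1
    rw [h1]
    have h2 : (0 : ℝ) ≤ 1 / (y : ℝ) := by positivity
    norm_num
  · have h1 : mean (Lm z) (fun x => (cnt (Bad y z) x : ℝ) ^ m) ≤ mean (Lm z) (fun x =>
        2 ^ m * ((cnt (Sm y z) x : ℝ) ^ m + (cnt (CBad.B2 y z) x : ℝ) ^ m)) := by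
      refine mean_mono _ _ _ fun x => ?_
      refine (pow_le_pow_left₀ (Nat.cast_nonneg _) (CBad.cnt_le y z x) m).trans ?_
      refine (add_pow_le (Nat.cast_nonneg _) (Nat.cast_nonneg _) m).trans ?_
      refine mul_le_mul_of_nonneg_right ?_ (by positivity)
      exact pow_le_pow_right₀ one_le_two (Nat.sub_le m 1)
    refine h1.trans ?_
    rw [mean_const_mul, mean_add]
    refine mul_le_mul_of_nonneg_left ?_ (by positivity)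
    exact add_le_add (CBad.Sm_mom m y z) (CBad.B2_mom m y z hy hz hm.ne')

end Pool.Agent.MP_a12917_nt_GT
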