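import Mathlib
import Pool.Agent.Lib.MP_a12917_nt_GT.Defs
import Pool.Agent.Lib.MP_a12917_nt_GT.Basic

/-!
# MP_a12917_nt, project GT, module ChT: Taylor formula for characteristic functions of finite
distributions

(`ℓ = hs z`.)
`|e^{iu} - ∑_{j<n} (iu)^j/j!| ≤ |u|^n/n!` for real `u` (induction on `n` by integration, or a lemma
of Mathlib:
search for a Taylor bound of `Complex.exp` on the imaginary axis; or
`Complex.exp` Taylor with integral remainder). Average over `x ∈ s` with `u = t X x`, `n = 2k`.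
-/

set_option autoImplicit false

noncomputable section

namespace Pool.Agent.MP_a12917_nt_GT

open Finset

namespace ChT

theorem deriv_aux (c : ℂ) (n : ℕ) (u : ℝ) :
    HasDerivAt (fun u : ℝ => Complex.exp (u * c) -
      ∑ j ∈ range (n + 1), ((u : ℂ) * c) ^ j / (j.factorial : ℂ))
      (c * (Complex.exp (u * c) - ∑ j ∈ range n, ((u : ℂ) * c) ^ j / (j.factorial : ℂ))) u := by
  have h0 : HasDerivAt (fun u : ℝ => (u : ℂ) * c) c u := by
    have h := (Complex.ofRealCLM.hasDerivAt (x := u)).mul_const c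
    simpa using h
  have h1 : HasDerivAt (fun u : ℝ => Complex.exp (u * c)) (Complex.exp (u * c) * c) u := h0.cexp
  have h2 : ∀ j ∈ range (n + 1), HasDerivAt (fun u : ℝ => ((u : ℂ) * c) ^ j / (j.factorial : ℂ))
      ((j : ℂ) * ((u : ℂ) * c) ^ (j - 1) * c / (j.factorial : ℂ)) u := fun j _ =>
    (h0.pow j).div_const _
  have h3 := h1.sub (HasDerivAt.fun_sum h2)
  convert! h3 using 1
  rw [mul_sub, mul_comm c (Complex.exp _)]
  congr 1
  rw [sum_range_succ', mul_sum]
  simp only [Nat.cast_zero, zero_mul, zero_div, add_zero]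
  refine sum_congr rfl fun j _ => ?_
  rw [Nat.add_sub_cancel, Nat.factorial_succ]
  have h4 : ((j.factorial : ℕ) : ℂ) ≠ 0 := by exact_mod_cast Nat.factorial_ne_zero j
  have h5 : ((j + 1 : ℕ) : ℂ) ≠ 0 := by exact_mod_cast Nat.succ_ne_zero j
  push_cast at h5 ⊢
  field_simp

theorem exp_taylor_nonneg (c : ℂ) (hc : ‖c‖ = 1) (hexp : ∀ u : ℝ, ‖Complex.exp (u * c)‖ = 1)
    (n : ℕ) : ∀ u : ℝ, 0 ≤ u →
    ‖Complex.exp (u * c) - ∑ j ∈ range n, ((u : ℂ) * c) ^ j / (j.factorial : ℂ)‖ ≤
      u ^ n / n.factorial := by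
  induction n with
  | zero =>
    intro u _
    simp only [range_zero, sum_empty, sub_zero, pow_zero, Nat.factorial_zero, Nat.cast_one,
      div_one]
    exact (hexp u).le
  | succ n ih =>
    intro u hu
    have hB : ∀ x : ℝ, HasDerivAt (fun x : ℝ => x ^ (n + 1) / ((n + 1).factorial : ℝ))
        (x ^ n / (n.factorial : ℝ)) x := by
      intro x
      have h1 := (hasDerivAt_pow (n + 1) x).div_const ((n + 1).factorial : ℝ)
      convert! h1 using 1
      rw [Nat.add_sub_cancel, Nat.factorial_succ]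
      have h4 : ((n.factorial : ℕ) : ℝ) ≠ 0 := by exact_mod_cast Nat.factorial_ne_zero n
      have h5 : ((n + 1 : ℕ) : ℝ) ≠ 0 := by exact_mod_cast Nat.succ_ne_zero n
      push_cast at h5 ⊢
      field_simp
    have hd := deriv_aux c n
    refine image_norm_le_of_norm_deriv_right_le_deriv_boundary (a := 0) (b := u)
      (fun x _ => (hd x).continuousAt.continuousWithinAt)
      (fun x _ => (hd x).hasDerivWithinAt) ?_ hB ?_ ⟨hu, le_refl u⟩
    · rw [sum_range_succ']
      simp
    · intro x hx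
      rw [norm_mul, hc, one_mul]
      exact ih x hx.1

end ChT

theorem exp_taylor (u : ℝ) (n : ℕ) :
    ‖Complex.exp (u * Complex.I) - ∑ j ∈ range n, (u * Complex.I) ^ j / (j.factorial : ℂ)‖ ≤
      |u| ^ n / n.factorial := by
  rcases le_total 0 u with h | h
  · rw [abs_of_nonneg h]
    exact ChT.exp_taylor_nonneg Complex.I Complex.norm_I
      (fun u => Complex.norm_exp_ofReal_mul_I u) n u h
  · rw [abs_of_nonpos h]
    have h1 := ChT.exp_taylor_nonneg (-Complex.I) (by rw [norm_neg, Complex.norm_I])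
      (fun u => by
        have e : (u : ℂ) * -Complex.I = ((-u : ℝ) : ℂ) * Complex.I := by
          push_cast
          ring
        rw [e]
        exact Complex.norm_exp_ofReal_mul_I _) n (-u) (by linarith)
    have e : ((-u : ℝ) : ℂ) * -Complex.I = (u : ℂ) * Complex.I := by
      push_cast
      ring
    rw [e] at h1
    exact h1

theorem char_taylor (s : Finset ℤ) (hs : s.Nonempty) (X : ℤ → ℝ) (t : ℝ) (k : ℕ) :
    ‖(∑ x ∈ s, Complex.exp ((t * X x : ℝ) * Complex.I)) / (s.card : ℂ) -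
        ∑ j ∈ range (2 * k), ((t : ℂ) * Complex.I) ^ j / (j.factorial : ℂ) *
          (((∑ x ∈ s, X x ^ j) / s.card : ℝ) : ℂ)‖ ≤
      |t| ^ (2 * k) / ((2 * k).factorial : ℝ) * ((∑ x ∈ s, X x ^ (2 * k)) / s.card) := by
  have hc : (0 : ℝ) < s.card := by exact_mod_cast hs.card_pos
  have hc' : ((s.card : ℕ) : ℂ) ≠ 0 := by exact_mod_cast hc.ne'
  have e1 : (∑ x ∈ s, Complex.exp ((t * X x : ℝ) * Complex.I)) / (s.card : ℂ) -
        ∑ j ∈ range (2 * k), ((t : ℂ) * Complex.I) ^ j / (j.factorial : ℂ) *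
          (((∑ x ∈ s, X x ^ j) / s.card : ℝ) : ℂ) =
      (∑ x ∈ s, (Complex.exp ((t * X x : ℝ) * Complex.I) -
        ∑ j ∈ range (2 * k), (((t * X x : ℝ) : ℂ) * Complex.I) ^ j / (j.factorial : ℂ))) /
          (s.card : ℂ) := by
    rw [sum_sub_distrib, sub_div]
    congr 1
    rw [sum_comm, sum_div]
    refine sum_congr rfl fun j _ => ?_
    push_cast
    rw [← mul_div_assoc, mul_sum]
    congr 1
    refine sum_congr rfl fun x _ => ?_
    rw [mul_right_comm, mul_pow]
    ring
  rw [e1, norm_div, Complex.norm_natCast, div_le_iff₀ hc]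
  calc ‖∑ x ∈ s, (Complex.exp ((t * X x : ℝ) * Complex.I) -
        ∑ j ∈ range (2 * k), (((t * X x : ℝ) : ℂ) * Complex.I) ^ j / (j.factorial : ℂ))‖ ≤
      ∑ x ∈ s, ‖(Complex.exp ((t * X x : ℝ) * Complex.I) -
        ∑ j ∈ range (2 * k), (((t * X x : ℝ) : ℂ) * Complex.I) ^ j / (j.factorial : ℂ))‖ :=
        norm_sum_le _ _
    _ ≤ ∑ x ∈ s, |t * X x| ^ (2 * k) / ((2 * k).factorial : ℝ) :=
        sum_le_sum fun x _ => exp_taylor _ _
    _ = |t| ^ (2 * k) / ((2 * k).factorial : ℝ) * ((∑ x ∈ s, X x ^ (2 * k)) / s.card) *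
        s.card := by
        rw [mul_assoc, div_mul_cancel₀ _ hc.ne', mul_sum]
        refine sum_congr rfl fun x _ => ?_
        rw [abs_mul, mul_pow, (even_two_mul k).pow_abs (X x)]
        ring

end Pool.Agent.MP_a12917_nt_GT
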