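import Mathlib
import Pool.Agent.Lib.MP_a12917_nt_GT.Defs
import Pool.Agent.Lib.MP_a12917_nt_GT.Basic
import Pool.Agent.Lib.MP_a12917_nt_GT.ChT
import Pool.Agent.Lib.MP_a12917_nt_GT.GamF

/-!
# MP_a12917_nt, project GT, module ChL: convergence of moments gives convergence of characteristic
functions

(`ℓ = hs z`.)
Fix `t` and `k`. By `char_taylor` and the hypothesis the lim sup of
`‖φ_n(t) - ∑_{j<2k} (it)^j/j! γ_j‖` is at most `|t|^{2k}/(2k)! γ_{2k} = (t²/2)^k/k!`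
(`gam_even_eq`), and
`∑_{j<2k} (it)^j/j! γ_j = ∑_{l<k} (-t²/2)^l/l!` (odd terms vanish) differs from `exp(-t²/2)` by
`≤ (t²/2)^k/k!` (alternating/Taylor, or simply a quantity tending to `0` as `k → ∞`). Let `k → ∞`.
-/

set_option autoImplicit false

noncomputable section

namespace Pool.Agent.MP_a12917_nt_GT

open Finset

namespace ChL

theorem psum_eq (t : ℝ) (k : ℕ) :
    ∑ j ∈ range (2 * k), ((t : ℂ) * Complex.I) ^ j / (j.factorial : ℂ) * ((gam j : ℝ) : ℂ) =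
      ∑ l ∈ range k, (-(t : ℂ) ^ 2 / 2) ^ l / (l.factorial : ℂ) := by
  induction k with
  | zero => simp
  | succ k ih =>
    rw [show 2 * (k + 1) = 2 * k + 1 + 1 by ring, sum_range_succ, sum_range_succ, ih,
      sum_range_succ]
    have h1 : gam (2 * k + 1) = 0 := gam_odd _ (by
      rw [Nat.not_even_iff_odd]
      exact ⟨k, rfl⟩)
    rw [h1, gam_even_eq]
    have h2 : (((2 * k).factorial : ℕ) : ℂ) ≠ 0 := by
      exact_mod_cast Nat.factorial_ne_zero (2 * k)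
    have h3 : ((k.factorial : ℕ) : ℂ) ≠ 0 := by exact_mod_cast Nat.factorial_ne_zero k
    have h4 : ((t : ℂ) * Complex.I) ^ (2 * k) = (-(t : ℂ) ^ 2) ^ k := by
      rw [pow_mul, mul_pow, Complex.I_sq]
      ring
    rw [h4]
    push_cast
    rw [div_pow]
    field_simp
    ring

end ChL

theorem char_lim (s : ℕ → Finset ℤ) (hs : ∀ n, (s n).Nonempty) (X : ℕ → ℤ → ℝ)
    (h : ∀ m : ℕ, Filter.Tendsto (fun n => (∑ x ∈ s n, X n x ^ m) / ((s n).card : ℝ))
      Filter.atTop (nhds (gam m))) (t : ℝ) :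
    Filter.Tendsto (fun n => (∑ x ∈ s n, Complex.exp ((t * X n x : ℝ) * Complex.I)) /
      ((s n).card : ℂ)) Filter.atTop (nhds (Complex.exp (-(t : ℂ) ^ 2 / 2))) := by
  rw [Metric.tendsto_atTop]
  intro ε hε
  -- the finite sums
  have hP : Filter.Tendsto (fun k => ∑ l ∈ range k, (-(t : ℂ) ^ 2 / 2) ^ l / (l.factorial : ℂ))
      Filter.atTop (nhds (Complex.exp (-(t : ℂ) ^ 2 / 2))) := by
    have h1 := (NormedSpace.expSeries_div_hasSum_exp (-(t : ℂ) ^ 2 / 2)).tendsto_sum_nat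
    rwa [← Complex.exp_eq_exp_ℂ] at h1
  have hA : Filter.Tendsto (fun k => |t| ^ (2 * k) / ((2 * k).factorial : ℝ) * gam (2 * k))
      Filter.atTop (nhds 0) := by
    have h1 := FloorSemiring.tendsto_pow_div_factorial_atTop (t ^ 2 / 2)
    refine h1.congr fun k => ?_
    rw [gam_even_eq, pow_mul, sq_abs, div_pow]
    have h2 : (((2 * k).factorial : ℕ) : ℝ) ≠ 0 := by
      exact_mod_cast Nat.factorial_ne_zero (2 * k)
    field_simp
  obtain ⟨k, hk1, hk2⟩ := ((Metric.tendsto_nhds.1 hP (ε / 4) (by linarith)).and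
    (hA.eventually_lt_const (show (0 : ℝ) < ε / 4 by linarith))).exists
  rw [← ChL.psum_eq, dist_eq_norm] at hk1
  have h1 : Filter.Tendsto (fun n => |t| ^ (2 * k) / ((2 * k).factorial : ℝ) *
      ((∑ x ∈ s n, X n x ^ (2 * k)) / ((s n).card : ℝ))) Filter.atTop
      (nhds (|t| ^ (2 * k) / ((2 * k).factorial : ℝ) * gam (2 * k))) := (h (2 * k)).const_mul _
  have h2 : Filter.Tendsto (fun n => ∑ j ∈ range (2 * k), ((t : ℂ) * Complex.I) ^ j /
      (j.factorial : ℂ) * (((∑ x ∈ s n, X n x ^ j) / (s n).card : ℝ) : ℂ)) Filter.atTop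
      (nhds (∑ j ∈ range (2 * k), ((t : ℂ) * Complex.I) ^ j / (j.factorial : ℂ) *
        ((gam j : ℝ) : ℂ))) := by
    refine tendsto_finsetSum _ fun j _ => ?_
    exact ((Complex.continuous_ofReal.tendsto _).comp (h j)).const_mul _
  obtain ⟨N, hN⟩ := Filter.eventually_atTop.1 ((h1.eventually_lt_const hk2).and
    (Metric.tendsto_nhds.1 h2 (ε / 4) (by linarith)))
  refine ⟨N, fun n hn => ?_⟩
  obtain ⟨h3, h4⟩ := hN n hn
  rw [dist_eq_norm] at h4 ⊢
  have h5 := char_taylor (s n) (hs n) (X n) t k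
  set φ : ℂ := (∑ x ∈ s n, Complex.exp ((t * X n x : ℝ) * Complex.I)) / ((s n).card : ℂ)
  set A : ℂ := ∑ j ∈ range (2 * k), ((t : ℂ) * Complex.I) ^ j /
      (j.factorial : ℂ) * (((∑ x ∈ s n, X n x ^ j) / (s n).card : ℝ) : ℂ)
  set B : ℂ := ∑ j ∈ range (2 * k), ((t : ℂ) * Complex.I) ^ j / (j.factorial : ℂ) *
        ((gam j : ℝ) : ℂ)
  set E : ℂ := Complex.exp (-(t : ℂ) ^ 2 / 2)
  have e : φ - E = (φ - A) + (A - B) + (B - E) := by ring
  calc ‖φ - E‖ = ‖(φ - A) + (A - B) + (B - E)‖ := by rw [e]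
    _ ≤ ‖φ - A‖ + ‖A - B‖ + ‖B - E‖ := norm_add₃_le
    _ < ε := by linarith

end Pool.Agent.MP_a12917_nt_GT
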