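import Mathlib
import Pool.Agent.Lib.MP_a12917_nt_GT.Defs
import Pool.Agent.Lib.MP_a12917_nt_GT.Basic

/-!
# MP_a12917_nt, project GT, module Cond: averaging over the residue mod p (Chinese remainder theorem)

(`ℓ = hs z`.)
Both functions are periodic mod `N p` (and `N p ∣ L`), so by `mean_of_dvd` take `L = N p`. For each
`b < p` the integers `x ∈ [0, Np)` with `-x ≡ b mod p` represent every residue mod `N` exactly once
(`N`, `p` coprime), so `∑_{x < Np} Φ((-x) % p, x) = ∑_{b<p} ∑_{x < Np, -x ≡ b} Φ(b, x) =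
∑_{b<p} ∑_{x<N} Φ(b,x)`. Dividing by `Np` gives `(1/N) ∑_{x<N} (1/p) ∑_b Φ(b,x)`.
-/

set_option autoImplicit false

noncomputable section

namespace Pool.Agent.MP_a12917_nt_GT

open Finset

namespace Cond

/-- the bijection of the Chinese remainder theorem -/
theorem sum_crt (N p : ℕ) (hN : 0 < N) (hp : 0 < p) (hco : N.Coprime p) (Φ : ℕ → ℤ → ℝ)
    (hΦ : ∀ b x, Φ b (x + (N : ℤ)) = Φ b x) :
    ∑ x ∈ range (N * p), Φ ((-(x : ℤ)) % (p : ℤ)).toNat (x : ℤ) =
      ∑ x ∈ range N, ∑ b ∈ range p, Φ b (x : ℤ) := by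
  have hp' : (p : ℤ) ≠ 0 := by exact_mod_cast hp.ne'
  have hp'' : (0 : ℤ) < p := by exact_mod_cast hp
  rw [← sum_product (s := range N) (t := range p) (f := fun y => Φ y.2 (y.1 : ℤ))]
  have hmap : ∀ x ∈ range (N * p), (x % N, ((-(x : ℤ)) % (p : ℤ)).toNat) ∈
      range N ×ˢ range p := by
    intro x _
    rw [mem_product, mem_range, mem_range]
    refine ⟨Nat.mod_lt _ hN, ?_⟩
    have h1 := Int.emod_nonneg (-(x : ℤ)) hp'
    have h2 := Int.emod_lt_of_pos (-(x : ℤ)) hp''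
    change ((-(x : ℤ)) % (p : ℤ)).toNat < p
    omega
  have hinj : Set.InjOn (fun x : ℕ => (x % N, ((-(x : ℤ)) % (p : ℤ)).toNat))
      (range (N * p) : Set ℕ) := by
    intro x hx y hy hxy
    rw [mem_coe, mem_range] at hx hy
    simp only [Prod.mk.injEq] at hxy
    obtain ⟨h1, h2⟩ := hxy
    have h3 : (N : ℤ) ∣ (x : ℤ) - y := by
      have h4 : y ≡ x [MOD N] := h1.symm
      exact h4.dvd
    have h5 : (p : ℤ) ∣ (x : ℤ) - y := by
      have a1 := Int.emod_nonneg (-(x : ℤ)) hp'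
      have a2 := Int.emod_nonneg (-(y : ℤ)) hp'
      have h6 : (-(x : ℤ)) % (p : ℤ) = (-(y : ℤ)) % (p : ℤ) := by omega
      have h7 : (p : ℤ) ∣ -(x : ℤ) - -(y : ℤ) := Int.ModEq.dvd (Int.ModEq.symm h6)
      have h8 : (-(x : ℤ) - -(y : ℤ)) = -((x : ℤ) - y) := by ring
      rw [h8, dvd_neg] at h7
      exact h7
    have h9 : ((N * p : ℕ) : ℤ) ∣ (x : ℤ) - y := by
      push_cast
      exact IsCoprime.mul_dvd (Nat.isCoprime_iff_coprime.2 hco) h3 h5
    have h10 : (x : ℤ) - y = 0 := by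
      refine Int.eq_zero_of_abs_lt_dvd h9 ?_
      rw [abs_lt]
      constructor <;> omega
    omega
  refine sum_nbij (fun x : ℕ => (x % N, ((-(x : ℤ)) % (p : ℤ)).toNat)) hmap hinj ?_ ?_
  · refine surjOn_of_injOn_of_card_le _ hmap hinj ?_
    rw [card_product, card_range, card_range, card_range]
  · intro x _
    have h1 := per_mul N (x / N) (Φ ((-(x : ℤ)) % (p : ℤ)).toNat) (hΦ _) ((x % N : ℕ) : ℤ)
    change _ = Φ ((-(x : ℤ)) % (p : ℤ)).toNat ((x % N : ℕ) : ℤ)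
    rw [← h1]
    congr 1
    have h2 := Nat.mod_add_div x N
    exact_mod_cast h2.symm

end Cond

theorem cond (N p L : ℕ) (hL0 : 0 < L) (hL : N * p ∣ L) (hco : N.Coprime p)
    (Φ : ℕ → ℤ → ℝ) (hΦ : ∀ b x, Φ b (x + (N : ℤ)) = Φ b x) :
    mean L (fun x => Φ ((-x) % (p : ℤ)).toNat x) =
      mean L (fun x => (∑ b ∈ range p, Φ b x) / p) := by
  have hNp : 0 < N * p := Nat.pos_of_dvd_of_pos hL hL0
  have hN : 0 < N := by
    rcases Nat.eq_zero_or_pos N with h0 | h0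
    · subst h0
      simp at hNp
    · exact h0
  have hp : 0 < p := by
    rcases Nat.eq_zero_or_pos p with h0 | h0
    · subst h0
      simp at hNp
    · exact h0
  rw [mean_of_dvd (N * p) L hL hL0 (fun x => Φ ((-x) % (p : ℤ)).toNat x) ?_,
    mean_of_dvd N L ((dvd_mul_right N p).trans hL) hL0
      (fun x => (∑ b ∈ range p, Φ b x) / p) ?_]
  · have h1 := Cond.sum_crt N p hN hp hco Φ hΦ
    simp only [mean]
    rw [h1, ← sum_div]
    push_cast
    rw [div_div, mul_comm (p : ℝ) N]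
  · intro x
    simp only [hΦ]
  · intro x
    have h1 : (-(x + ((N * p : ℕ) : ℤ))) % (p : ℤ) = (-x) % (p : ℤ) := by
      have h2 : -(x + ((N * p : ℕ) : ℤ)) = -x + (p : ℤ) * (-(N : ℤ)) := by
        push_cast
        ring
      rw [h2, Int.add_mul_emod_self_left]
    simp only [h1]
    exact per_mul N p _ (hΦ _) x

end Pool.Agent.MP_a12917_nt_GT
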