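import Mathlib
import Pool.Agent.Lib.MP_a12917_nt_GT.Defs
import Pool.Agent.Lib.MP_a12917_nt_GT.Basic
import Pool.Agent.Lib.MP_a12917_nt_GT.GamF

/-!
# MP_a12917_nt, project GT, module Conn: the remainder in elementary terms

(`ℓ = hs z`.)
`S_nat`: interchange the sums: `∑_{n ∈ (x, x+H]} #{a ≤ z : a ∣ n} = ∑_{a ≤ z} #{h ∈ [1,H] : a ∣ x+h}`
(`n = x + h`), and `∑_a H/a = H ∑_a 1/a`. `gam_eq`: `gam_even_eq`, `gam_odd`.
-/

set_option autoImplicit false

noncomputable section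

namespace Pool.Agent.MP_a12917_nt_GT

open Finset

theorem S_nat (z H x : ℕ) : S z H (x : ℤ) =
    (∑ n ∈ Ioc x (x + H), (((Icc 1 z).filter (fun a => a ∣ n)).card : ℝ)) -
      H * ∑ a ∈ Icc 1 z, 1 / (a : ℝ) := by
  have h1 : (∑ n ∈ Ioc x (x + H), (((Icc 1 z).filter (fun a => a ∣ n)).card : ℝ)) =
      ∑ h ∈ Icc 1 H, (((Icc 1 z).filter (fun a => a ∣ x + h)).card : ℝ) := by
    symm
    refine Finset.sum_nbij (fun h => x + h) ?_ ?_ ?_ ?_
    · intro h hh
      rw [Finset.mem_Icc] at hh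
      rw [Finset.mem_Ioc]
      omega
    · intro a _ b _ hab
      have : x + a = x + b := hab
      omega
    · intro n hn
      rw [Finset.mem_coe, Finset.mem_Ioc] at hn
      refine ⟨n - x, ?_, ?_⟩
      · rw [Finset.mem_coe, Finset.mem_Icc]
        omega
      · change x + (n - x) = n
        omega
    · intro h _
      rfl
  have h2 : ∀ h ∈ Icc 1 H, (((Icc 1 z).filter (fun a => a ∣ x + h)).card : ℝ) =
      ∑ a ∈ Icc 1 z, if (a : ℤ) ∣ (x : ℤ) + (h : ℤ) then (1 : ℝ) else 0 := by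
    intro h _
    rw [Finset.card_filter, Nat.cast_sum]
    refine Finset.sum_congr rfl fun a _ => ?_
    have h3 : ((a : ℤ) ∣ (x : ℤ) + (h : ℤ)) ↔ a ∣ x + h := by
      rw [← Nat.cast_add, Int.natCast_dvd_natCast]
    by_cases h4 : a ∣ x + h
    · rw [if_pos h4, if_pos (h3.mpr h4), Nat.cast_one]
    · rw [if_neg h4, if_neg (fun h5 => h4 (h3.mp h5)), Nat.cast_zero]
  rw [h1, Finset.sum_congr rfl h2, Finset.sum_comm, Finset.mul_sum, ← Finset.sum_sub_distrib]
  unfold S Ua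
  refine Finset.sum_congr rfl fun a _ => ?_
  rw [mul_one_div]

theorem gam_eq (m : ℕ) : gam m =
    if Even m then (m.factorial : ℝ) / (2 ^ (m / 2) * (m / 2).factorial) else 0 := by
  by_cases hm : Even m
  · rw [if_pos hm]
    obtain ⟨k, hk⟩ := hm
    obtain rfl : m = 2 * k := by omega
    rw [gam_even_eq, Nat.mul_div_cancel_left k (by norm_num)]
  · rw [if_neg hm, gam_odd m hm]

end Pool.Agent.MP_a12917_nt_GT
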