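import Mathlib
import Pool.Agent.Lib.MP_a12917_nt_GT.Defs
import Pool.Agent.Lib.MP_a12917_nt_GT.Basic

/-!
# MP_a12917_nt, project GT, module Cop: coprime pairs in the harmonic double sum

(`ℓ = hs z`.)
The pairs `(a,b) ∈ [1,M]²` that are not coprime have a common prime factor `p`, so their contribution is
`≤ ∑_{p ≤ M} ∑_{a',b' ≤ M/p} 1/(p² a' b') ≤ (∑_p 1/p²) (hs M)²`, and `∑_p 1/p² ≤ 1/4 + ∑_{k ≥ 1} 1/(2k+1)²
≤ 1/4 + ∑_{k≥1} 1/(4k(k+1)) = 1/4 + 1/4 = 1/2` (for the finite sums: `p = 2` or `p = 2k+1`).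
-/

set_option autoImplicit false

noncomputable section

namespace Pool.Agent.MP_a12917_nt_GT

open Finset

theorem psq_sum (K : ℕ) : ∑ p ∈ (Icc 2 (2 * (K + 1) + 1)).filter Nat.Prime, 1 / (p : ℝ) ^ 2 ≤
    1 / 2 - 1 / (4 * ((K : ℝ) + 2)) := by
  induction K with
  | zero =>
    have h : (Icc 2 (2 * (0 + 1) + 1)).filter Nat.Prime = {2, 3} := by decide
    rw [h]
    norm_num
  | succ K ih =>
    rw [show 2 * (K + 1 + 1) + 1 = (2 * (K + 1) + 1) + 1 + 1 by ring]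
    rw [sum_filter] at ih ⊢
    rw [sum_Icc_succ_top (by omega), sum_Icc_succ_top (by omega)]
    have h1 : ¬ Nat.Prime (2 * (K + 1) + 1 + 1) := by
      intro h
      have h2 : 2 ∣ 2 * (K + 1) + 1 + 1 := ⟨K + 2, by ring⟩
      have := (Nat.prime_dvd_prime_iff_eq Nat.prime_two h).1 h2
      omega
    rw [if_neg h1, add_zero]
    have h3 : (if Nat.Prime (2 * (K + 1) + 1 + 1 + 1) then
        1 / (((2 * (K + 1) + 1 + 1 + 1 : ℕ) : ℝ)) ^ 2 else 0) ≤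
        1 / (((2 * (K + 1) + 1 + 1 + 1 : ℕ) : ℝ)) ^ 2 := by
      split_ifs
      · exact le_rfl
      · positivity
    have h4 : 1 / (((2 * (K + 1) + 1 + 1 + 1 : ℕ) : ℝ)) ^ 2 ≤
        1 / (4 * ((K : ℝ) + 2)) - 1 / (4 * (((K + 1 : ℕ) : ℝ) + 2)) := by
      have hK : (0 : ℝ) ≤ K := Nat.cast_nonneg _
      push_cast
      rw [div_sub_div _ _ (by positivity) (by positivity), div_le_div_iff₀ (by positivity)
        (by positivity)]
      nlinarith
    linarith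

theorem psq_le (N : ℕ) : ∑ p ∈ (Icc 2 N).filter Nat.Prime, 1 / (p : ℝ) ^ 2 ≤ 1 / 2 := by
  have h1 : ∑ p ∈ (Icc 2 N).filter Nat.Prime, 1 / (p : ℝ) ^ 2 ≤
      ∑ p ∈ (Icc 2 (2 * (N + 1) + 1)).filter Nat.Prime, 1 / (p : ℝ) ^ 2 := by
    apply sum_le_sum_of_subset_of_nonneg
    · exact filter_subset_filter _ (Icc_subset_Icc le_rfl (by omega))
    · intro i _ _; positivity
  have h2 := psq_sum N
  have h3 : (0 : ℝ) ≤ 1 / (4 * ((N : ℝ) + 2)) := by positivity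
  linarith

theorem mult_sum (N p : ℕ) (hp : 1 ≤ p) :
    ∑ a ∈ Icc 1 N, (if p ∣ a then 1 / (a : ℝ) else 0) ≤ hs N / p := by
  have h1 : ∑ a ∈ Icc 1 N, (if p ∣ a then 1 / (a : ℝ) else 0) ≤
      ∑ a ∈ (Icc 1 N).image (fun k => p * k), 1 / (a : ℝ) := by
    rw [← sum_filter]
    apply sum_le_sum_of_subset_of_nonneg
    · intro a ha
      rw [mem_filter, mem_Icc] at ha
      obtain ⟨⟨h1, h2⟩, k, rfl⟩ := ha
      rw [mem_image]
      refine ⟨k, mem_Icc.2 ⟨Nat.pos_of_ne_zero (by rintro rfl; simp at h1), ?_⟩, rfl⟩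
      exact (Nat.le_mul_of_pos_left k hp).trans h2
    · intro i _ _; positivity
  refine h1.trans (le_of_eq ?_)
  rw [sum_image (fun a _ b _ h => Nat.eq_of_mul_eq_mul_left hp h)]
  unfold hs
  rw [sum_div]
  refine sum_congr rfl fun k _ => ?_
  push_cast
  rw [div_div, mul_comm]

theorem cop_sum (N : ℕ) : hs N ^ 2 / 2 ≤
    ∑ a ∈ Icc 1 N, ∑ b ∈ Icc 1 N, if a.Coprime b then 1 / ((a : ℝ) * b) else 0 := by
  have hsq : hs N ^ 2 = ∑ a ∈ Icc 1 N, ∑ b ∈ Icc 1 N, 1 / ((a : ℝ) * b) := by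
    unfold hs
    rw [sq, sum_mul_sum]
    refine sum_congr rfl fun a _ => sum_congr rfl fun b _ => ?_
    rw [one_div_mul_one_div]
  -- pointwise
  have hpt : ∀ a ∈ Icc 1 N, ∀ b ∈ Icc 1 N, 1 / ((a : ℝ) * b) ≤
      (if a.Coprime b then 1 / ((a : ℝ) * b) else 0) +
      ∑ p ∈ (Icc 2 N).filter Nat.Prime, (if p ∣ a then 1 / (a : ℝ) else 0) *
        (if p ∣ b then 1 / (b : ℝ) else 0) := by
    intro a ha b hb
    rw [mem_Icc] at ha hb
    have hnn : ∀ p ∈ (Icc 2 N).filter Nat.Prime, 0 ≤ (if p ∣ a then 1 / (a : ℝ) else 0) *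
        (if p ∣ b then 1 / (b : ℝ) else 0) := by
      intro p _
      apply mul_nonneg <;> split_ifs <;> positivity
    by_cases hco : a.Coprime b
    · rw [if_pos hco]
      have := sum_nonneg hnn
      linarith
    · rw [if_neg hco, zero_add]
      obtain ⟨p, hp, hpa, hpb⟩ := Nat.Prime.not_coprime_iff_dvd.1 hco
      have hmem : p ∈ (Icc 2 N).filter Nat.Prime :=
        mem_filter.2 ⟨mem_Icc.2 ⟨hp.two_le, (Nat.le_of_dvd ha.1 hpa).trans ha.2⟩, hp⟩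
      have h1 := single_le_sum hnn hmem
      simp only [if_pos hpa, if_pos hpb] at h1
      rw [← one_div_mul_one_div]
      exact h1
  have h1 : hs N ^ 2 ≤ ∑ a ∈ Icc 1 N, ∑ b ∈ Icc 1 N,
      ((if a.Coprime b then 1 / ((a : ℝ) * b) else 0) +
      ∑ p ∈ (Icc 2 N).filter Nat.Prime, (if p ∣ a then 1 / (a : ℝ) else 0) *
        (if p ∣ b then 1 / (b : ℝ) else 0)) := by
    rw [hsq]
    exact sum_le_sum fun a ha => sum_le_sum fun b hb => hpt a ha b hb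
  have h2 : ∑ a ∈ Icc 1 N, ∑ b ∈ Icc 1 N,
      ∑ p ∈ (Icc 2 N).filter Nat.Prime, (if p ∣ a then 1 / (a : ℝ) else 0) *
        (if p ∣ b then 1 / (b : ℝ) else 0) ≤ hs N ^ 2 / 2 := by
    have h3 : ∑ a ∈ Icc 1 N, ∑ b ∈ Icc 1 N,
        ∑ p ∈ (Icc 2 N).filter Nat.Prime, (if p ∣ a then 1 / (a : ℝ) else 0) *
          (if p ∣ b then 1 / (b : ℝ) else 0) =
        ∑ p ∈ (Icc 2 N).filter Nat.Prime,
          (∑ a ∈ Icc 1 N, (if p ∣ a then 1 / (a : ℝ) else 0)) ^ 2 := by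
      have h4 : ∀ a ∈ Icc 1 N, ∑ b ∈ Icc 1 N,
          ∑ p ∈ (Icc 2 N).filter Nat.Prime, (if p ∣ a then 1 / (a : ℝ) else 0) *
            (if p ∣ b then 1 / (b : ℝ) else 0) =
          ∑ p ∈ (Icc 2 N).filter Nat.Prime, ∑ b ∈ Icc 1 N,
            (if p ∣ a then 1 / (a : ℝ) else 0) * (if p ∣ b then 1 / (b : ℝ) else 0) :=
        fun a _ => sum_comm
      rw [sum_congr rfl h4, sum_comm]
      refine sum_congr rfl fun p _ => ?_
      rw [sq, sum_mul_sum]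
    rw [h3]
    calc ∑ p ∈ (Icc 2 N).filter Nat.Prime,
          (∑ a ∈ Icc 1 N, (if p ∣ a then 1 / (a : ℝ) else 0)) ^ 2
        ≤ ∑ p ∈ (Icc 2 N).filter Nat.Prime, hs N ^ 2 * (1 / (p : ℝ) ^ 2) := by
          refine sum_le_sum fun p hp => ?_
          rw [mem_filter, mem_Icc] at hp
          have h5 := mult_sum N p (by omega)
          have h6 : 0 ≤ ∑ a ∈ Icc 1 N, (if p ∣ a then 1 / (a : ℝ) else 0) := by
            refine sum_nonneg fun a _ => ?_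
            split_ifs <;> positivity
          calc _ ≤ (hs N / p) ^ 2 := pow_le_pow_left₀ h6 h5 2
            _ = _ := by rw [div_pow]; ring
      _ = hs N ^ 2 * ∑ p ∈ (Icc 2 N).filter Nat.Prime, 1 / (p : ℝ) ^ 2 := by rw [mul_sum]
      _ ≤ hs N ^ 2 * (1 / 2) := mul_le_mul_of_nonneg_left (psq_le N) (sq_nonneg _)
      _ = _ := by ring
  simp only [sum_add_distrib] at h1
  linarith

end Pool.Agent.MP_a12917_nt_GT
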