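import Mathlib
import Pool.Agent.Lib.MP_a12917_nt_GT.Defs
import Pool.Agent.Lib.MP_a12917_nt_GT.Basic
import Pool.Agent.Lib.MP_a12917_nt_GT.LcmCount

/-!
# MP_a12917_nt, project GT, module Cov: covariances of counts of multiples in a window

(`ℓ = hs z`.)
For `a, b ∣ L`, `h, h'`: the mean of `1_{a ∣ x+h} 1_{b ∣ x+h'}` is `1/[a,b]` if `gcd(a,b) ∣ h - h'` and `0`
otherwise (CRT: in each period `[a,b]` of `x` there is exactly one solution, or none); `cov_pair`.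
`pair_count`: let `c = gcd`, the number `n` of pairs `(h,h') ∈ [1,H]²` with `c ∣ h - h'` satisfies
`H²/c ≤ n ≤ H²/c + H` (lower: Cauchy-Schwarz over the `c` classes; upper: for each `h` at most
`H/c + 1` values `h'`), and `n = H` if `c ≥ H`.
`cov_eq`: `mean(N_a N_b) = n/[a,b]`, `N_a = Ua + H/a`, `mean N_a = H/a`, so
`mean(Ua Ub) = n/[a,b] - H²/(ab) = (gcd/(ab)) (n - H²/gcd)`; hence `≥ 0`, `≤ H/[a,b] = H gcd/(ab)`, and
`= (gcd/(ab)) (H - H²/gcd) ≥ gcd H/(2ab)` if `gcd ≥ 2H`.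
-/

set_option autoImplicit false

noncomputable section

namespace Pool.Agent.MP_a12917_nt_GT

open Finset

namespace Cov

/-- common solutions -/
theorem sol (a b : ℕ) (h h' : ℤ) (hd : ((Nat.gcd a b : ℕ) : ℤ) ∣ h - h') :
    ∃ x0 : ℤ, ∀ x : ℤ, ((a : ℤ) ∣ x + h ∧ (b : ℤ) ∣ x + h') ↔
      ((Nat.lcm a b : ℕ) : ℤ) ∣ x + x0 := by
  obtain ⟨k, hk⟩ := hd
  have h1 : ((Nat.gcd a b : ℕ) : ℤ) = a * Nat.gcdA a b + b * Nat.gcdB a b :=
    Nat.gcd_eq_gcd_ab a b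
  rw [h1] at hk
  refine ⟨h - a * (Nat.gcdA a b * k), fun x => ?_⟩
  have h2 : ((Nat.lcm a b : ℕ) : ℤ) ∣ x + (h - a * (Nat.gcdA a b * k)) ↔
      (a : ℤ) ∣ x + (h - a * (Nat.gcdA a b * k)) ∧
      (b : ℤ) ∣ x + (h - a * (Nat.gcdA a b * k)) := by
    rw [Int.natCast_dvd, Int.natCast_dvd, Int.natCast_dvd, Nat.lcm_dvd_iff]
  rw [h2]
  have h3 : x + (h - a * (Nat.gcdA a b * k)) = (x + h) - a * (Nat.gcdA a b * k) := by ring
  have h4 : x + (h - a * (Nat.gcdA a b * k)) = (x + h') + b * (Nat.gcdB a b * k) := by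
    linear_combination hk
  have h5 : (a : ℤ) ∣ x + (h - a * (Nat.gcdA a b * k)) ↔ (a : ℤ) ∣ x + h := by
    rw [h3]
    exact dvd_sub_left (Dvd.intro _ rfl)
  have h6 : (b : ℤ) ∣ x + (h - a * (Nat.gcdA a b * k)) ↔ (b : ℤ) ∣ x + h' := by
    rw [h4]
    exact dvd_add_left (Dvd.intro _ rfl)
  rw [h5, h6]

/-- number of pairs -/
def np (g H : ℕ) : ℝ :=
  ∑ h ∈ Icc 1 H, ∑ h' ∈ Icc 1 H, if (g : ℤ) ∣ (h : ℤ) - (h' : ℤ) then (1 : ℝ) else 0

/-- number of multiples -/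
def na (a H : ℕ) (x : ℤ) : ℝ := ∑ h ∈ Icc 1 H, if (a : ℤ) ∣ x + (h : ℤ) then (1 : ℝ) else 0

theorem per_a (a L : ℕ) (ha : a ∣ L) (x : ℤ) :
    (if (a : ℤ) ∣ x + (L : ℤ) then (1 : ℝ) else 0) = if (a : ℤ) ∣ x then (1 : ℝ) else 0 := by
  have h1 : (a : ℤ) ∣ (L : ℤ) := by exact_mod_cast ha
  have h2 : (a : ℤ) ∣ x + (L : ℤ) ↔ (a : ℤ) ∣ x := dvd_add_left h1
  by_cases h3 : (a : ℤ) ∣ x
  · rw [if_pos h3, if_pos (h2.2 h3)]
  · rw [if_neg h3, if_neg (fun h => h3 (h2.1 h))]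

theorem mean_na (a H L : ℕ) (ha : a ∣ L) (hL0 : 0 < L) :
    mean L (na a H) = (H : ℝ) / a := by
  unfold na
  have h0 := mean_sum L (Icc 1 H) (fun h x => if (a : ℤ) ∣ x + (h : ℤ) then (1 : ℝ) else 0)
  rw [h0]
  have h1 : ∀ h ∈ Icc 1 H, mean L (fun x => if (a : ℤ) ∣ x + (h : ℤ) then (1 : ℝ) else 0) =
      1 / (a : ℝ) := by
    intro h _
    rw [← mean_dvd a L ha hL0]
    exact mean_shift_nat L (fun x => if (a : ℤ) ∣ x then (1 : ℝ) else 0) (per_a a L ha) h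
  rw [sum_congr rfl h1, sum_const, Nat.card_Icc, Nat.add_sub_cancel, nsmul_eq_mul]
  ring

end Cov

theorem cov_pair (a b L : ℕ) (ha : a ∣ L) (hb : b ∣ L) (hL0 : 0 < L) (h h' : ℤ) :
    mean L (fun x => (if (a : ℤ) ∣ x + h then (1 : ℝ) else 0) *
      (if (b : ℤ) ∣ x + h' then (1 : ℝ) else 0)) =
      if ((Nat.gcd a b : ℕ) : ℤ) ∣ h - h' then 1 / ((Nat.lcm a b : ℕ) : ℝ) else 0 := by
  by_cases hd : ((Nat.gcd a b : ℕ) : ℤ) ∣ h - h'
  · rw [if_pos hd]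
    obtain ⟨x0, hx0⟩ := Cov.sol a b h h' hd
    have hl : Nat.lcm a b ∣ L := Nat.lcm_dvd ha hb
    rw [← mean_dvd (Nat.lcm a b) L hl hL0, ← mean_shift L
      (fun x => if ((Nat.lcm a b : ℕ) : ℤ) ∣ x then (1 : ℝ) else 0) (Cov.per_a _ L hl) x0]
    refine mean_congr _ _ _ fun x => ?_
    by_cases h1 : (a : ℤ) ∣ x + h
    · by_cases h2 : (b : ℤ) ∣ x + h'
      · rw [if_pos h1, if_pos h2, if_pos ((hx0 x).1 ⟨h1, h2⟩), one_mul]
      · rw [if_neg h2, if_neg (fun h3 => h2 ((hx0 x).2 h3).2), mul_zero]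
    · rw [if_neg h1, if_neg (fun h3 => h1 ((hx0 x).2 h3).1), zero_mul]
  · rw [if_neg hd]
    have h0 : (fun x : ℤ => (if (a : ℤ) ∣ x + h then (1 : ℝ) else 0) *
        (if (b : ℤ) ∣ x + h' then (1 : ℝ) else 0)) = fun _ => 0 := by
      funext x
      by_cases h1 : (a : ℤ) ∣ x + h
      · by_cases h2 : (b : ℤ) ∣ x + h'
        · exfalso
          apply hd
          have h3 : ((Nat.gcd a b : ℕ) : ℤ) ∣ (a : ℤ) := by
            exact_mod_cast Nat.gcd_dvd_left a b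
          have h4 : ((Nat.gcd a b : ℕ) : ℤ) ∣ (b : ℤ) := by
            exact_mod_cast Nat.gcd_dvd_right a b
          have h5 := dvd_sub (h3.trans h1) (h4.trans h2)
          have h6 : x + h - (x + h') = h - h' := by ring
          rwa [h6] at h5
        · rw [if_neg h2, mul_zero]
      · rw [if_neg h1, zero_mul]
    rw [h0, mean_const L hL0]

namespace Cov

theorem mean_nanb (a b H L : ℕ) (ha : a ∣ L) (hb : b ∣ L) (hL0 : 0 < L) :
    mean L (fun x => na a H x * na b H x) = np (Nat.gcd a b) H / ((Nat.lcm a b : ℕ) : ℝ) := by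
  have h1 : (fun x => na a H x * na b H x) = fun x => ∑ h ∈ Icc 1 H, ∑ h' ∈ Icc 1 H,
      (if (a : ℤ) ∣ x + (h : ℤ) then (1 : ℝ) else 0) *
      (if (b : ℤ) ∣ x + (h' : ℤ) then (1 : ℝ) else 0) := by
    funext x
    unfold na
    rw [sum_mul_sum]
  rw [h1, mean_sum L (Icc 1 H) (fun h x => ∑ h' ∈ Icc 1 H,
      (if (a : ℤ) ∣ x + (h : ℤ) then (1 : ℝ) else 0) *
      (if (b : ℤ) ∣ x + (h' : ℤ) then (1 : ℝ) else 0))]
  unfold np
  rw [sum_div]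
  refine sum_congr rfl fun h _ => ?_
  rw [mean_sum L (Icc 1 H) (fun h' x =>
      (if (a : ℤ) ∣ x + (h : ℤ) then (1 : ℝ) else 0) *
      (if (b : ℤ) ∣ x + (h' : ℤ) then (1 : ℝ) else 0)), sum_div]
  refine sum_congr rfl fun h' _ => ?_
  rw [cov_pair a b L ha hb hL0]
  by_cases h2 : ((Nat.gcd a b : ℕ) : ℤ) ∣ (h : ℤ) - (h' : ℤ)
  · rw [if_pos h2, if_pos h2]
  · rw [if_neg h2, if_neg h2, zero_div]

theorem cov_eq (a b H L : ℕ) (ha : a ∣ L) (hb : b ∣ L) (hL0 : 0 < L) :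
    mean L (fun x => Ua a H x * Ua b H x) =
      (np (Nat.gcd a b) H - (H : ℝ) ^ 2 / ((Nat.gcd a b : ℕ) : ℝ)) /
        ((Nat.lcm a b : ℕ) : ℝ) := by
  have ha0 : 0 < a := Nat.pos_of_dvd_of_pos ha hL0
  have hb0 : 0 < b := Nat.pos_of_dvd_of_pos hb hL0
  have h1 : (fun x => Ua a H x * Ua b H x) = fun x => na a H x * na b H x -
      ((H : ℝ) / b * na a H x + ((H : ℝ) / a * na b H x + (-((H : ℝ) / a * ((H : ℝ) / b))))) := by
    funext x
    unfold Ua na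
    ring
  rw [h1, mean_sub L (fun x => na a H x * na b H x) (fun x =>
      (H : ℝ) / b * na a H x + ((H : ℝ) / a * na b H x + (-((H : ℝ) / a * ((H : ℝ) / b))))),
    mean_nanb a b H L ha hb hL0,
    mean_add L (fun x => (H : ℝ) / b * na a H x)
      (fun x => (H : ℝ) / a * na b H x + (-((H : ℝ) / a * ((H : ℝ) / b)))),
    mean_add L (fun x => (H : ℝ) / a * na b H x) (fun _ => -((H : ℝ) / a * ((H : ℝ) / b))),
    mean_const L hL0, mean_const_mul L _ (na a H), mean_const_mul L _ (na b H),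
    mean_na a H L ha hL0, mean_na b H L hb hL0]
  have h2 : ((Nat.gcd a b : ℕ) : ℝ) * ((Nat.lcm a b : ℕ) : ℝ) = a * b := by
    exact_mod_cast Nat.gcd_mul_lcm a b
  have hg : (0 : ℝ) < ((Nat.gcd a b : ℕ) : ℝ) := by
    exact_mod_cast Nat.gcd_pos_of_pos_left b ha0
  have hl : (0 : ℝ) < ((Nat.lcm a b : ℕ) : ℝ) := by
    exact_mod_cast Nat.lcm_pos ha0 hb0
  have har : (0 : ℝ) < a := by exact_mod_cast ha0
  have hbr : (0 : ℝ) < b := by exact_mod_cast hb0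
  have h3 : (H : ℝ) / b * (H / a) = (H : ℝ) ^ 2 / ((Nat.gcd a b : ℕ) : ℝ) /
      ((Nat.lcm a b : ℕ) : ℝ) := by
    rw [div_div, h2, div_mul_div_comm, sq, mul_comm (b : ℝ) a]
  rw [sub_div, ← h3]
  ring

theorem np_lower (g H : ℕ) (hg : 0 < g) : (H : ℝ) ^ 2 / g ≤ np g H := by
  have h1 := cov_eq g g H g dvd_rfl dvd_rfl hg
  rw [Nat.gcd_self, Nat.lcm_self] at h1
  have h2 : 0 ≤ mean g (fun x => Ua g H x * Ua g H x) :=
    mean_nonneg _ _ fun x => mul_self_nonneg _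
  rw [h1] at h2
  have hgr : (0 : ℝ) < g := by exact_mod_cast hg
  have h3 : 0 ≤ np g H - (H : ℝ) ^ 2 / g := by
    by_contra hcon
    push Not at hcon
    exact absurd h2 (not_le.2 (div_neg_of_neg_of_pos hcon hgr))
  linarith

theorem np_upper (g H : ℕ) (hg : 0 < g) : np g H ≤ (H : ℝ) ^ 2 / g + H := by
  have hgr : (0 : ℝ) < g := by exact_mod_cast hg
  have h1 : ∀ h ∈ Icc 1 H, (∑ h' ∈ Icc 1 H,
      if (g : ℤ) ∣ (h : ℤ) - (h' : ℤ) then (1 : ℝ) else 0) ≤ (H : ℝ) / g + 1 := by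
    intro h _
    rw [sum_boole]
    have h2 : (Icc 1 H).filter (fun h' : ℕ => (g : ℤ) ∣ (h : ℤ) - (h' : ℤ)) =
        (Ioc 0 H).filter (fun h' : ℕ => h' ≡ h [MOD g]) := by
      ext h'
      rw [mem_filter, mem_filter, mem_Icc, mem_Ioc, Nat.modEq_iff_dvd]
      constructor
      · rintro ⟨⟨h3, h4⟩, h5⟩
        exact ⟨⟨by omega, h4⟩, h5⟩
      · rintro ⟨⟨h3, h4⟩, h5⟩
        exact ⟨⟨by omega, h4⟩, h5⟩
    rw [h2]
    have h3 := Nat.Ioc_filter_modEq_card 0 H hg h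
    have h4 : ((((Ioc 0 H).filter (fun h' : ℕ => h' ≡ h [MOD g])).card : ℤ) : ℝ) ≤
        (H : ℝ) / g + 1 := by
      rw [h3]
      have h5 : ((⌊((H : ℚ) - h) / g⌋ : ℤ) : ℝ) ≤ ((H : ℝ) - h) / g := by
        have h6 := Int.floor_le (((H : ℚ) - h) / g)
        exact_mod_cast h6
      have h7 : (((0 : ℕ) : ℝ) - h) / g < ((⌊(((0 : ℕ) : ℚ) - h) / g⌋ : ℤ) : ℝ) + 1 := by
        have h8 := Int.lt_floor_add_one ((((0 : ℕ) : ℚ) - h) / g)
        exact_mod_cast h8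
      have h9 : ((H : ℝ) - h) / g = (H : ℝ) / g + (((0 : ℕ) : ℝ) - h) / g := by
        rw [← add_div]
        congr 1
        push_cast
        ring
      rw [Int.cast_max, max_le_iff]
      refine ⟨?_, ?_⟩
      · rw [Int.cast_sub]
        linarith
      · have h10 : (0 : ℝ) ≤ (H : ℝ) / g := by positivity
        rw [Int.cast_zero]
        linarith
    exact_mod_cast h4
  calc np g H ≤ ∑ h ∈ Icc 1 H, ((H : ℝ) / g + 1) := sum_le_sum h1
    _ = (H : ℝ) ^ 2 / g + H := by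
      rw [sum_const, Nat.card_Icc, Nat.add_sub_cancel, nsmul_eq_mul]
      ring

theorem np_big (g H : ℕ) (hg : 2 * H ≤ g) : np g H = H := by
  unfold np
  have h1 : ∀ h ∈ Icc 1 H, (∑ h' ∈ Icc 1 H,
      if (g : ℤ) ∣ (h : ℤ) - (h' : ℤ) then (1 : ℝ) else 0) = 1 := by
    intro h hh
    rw [sum_eq_single h]
    · rw [sub_self, if_pos (dvd_zero _)]
    · intro h' hh' hne
      rw [if_neg]
      intro hd
      apply hne
      have h2 := mem_Icc.1 hh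
      have h3 := mem_Icc.1 hh'
      have h4 : (h : ℤ) - (h' : ℤ) = 0 := by
        refine Int.eq_zero_of_abs_lt_dvd hd ?_
        rw [abs_lt]
        constructor <;> omega
      omega
    · intro h2
      exact absurd hh h2
  rw [sum_congr rfl h1, sum_const, Nat.card_Icc, Nat.add_sub_cancel, nsmul_eq_mul, mul_one]

end Cov

theorem cov_nonneg (a b H L : ℕ) (ha : a ∣ L) (hb : b ∣ L) (hL0 : 0 < L) :
    0 ≤ mean L (fun x => Ua a H x * Ua b H x) := by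
  rw [Cov.cov_eq a b H L ha hb hL0]
  have ha0 : 0 < a := Nat.pos_of_dvd_of_pos ha hL0
  have h1 := Cov.np_lower (Nat.gcd a b) H (Nat.gcd_pos_of_pos_left b ha0)
  exact div_nonneg (by linarith) (Nat.cast_nonneg _)

theorem cov_le (a b H L : ℕ) (ha : a ∣ L) (hb : b ∣ L) (hL0 : 0 < L) :
    mean L (fun x => Ua a H x * Ua b H x) ≤ (H : ℝ) / ((Nat.lcm a b : ℕ) : ℝ) := by
  rw [Cov.cov_eq a b H L ha hb hL0]
  have ha0 : 0 < a := Nat.pos_of_dvd_of_pos ha hL0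
  have h1 := Cov.np_upper (Nat.gcd a b) H (Nat.gcd_pos_of_pos_left b ha0)
  exact div_le_div_of_nonneg_right (by linarith) (Nat.cast_nonneg _)

theorem cov_big (a b H L : ℕ) (ha : a ∣ L) (hb : b ∣ L) (hL0 : 0 < L)
    (hH : 2 * H ≤ Nat.gcd a b) :
    ((Nat.gcd a b : ℕ) : ℝ) * H / (2 * a * b) ≤ mean L (fun x => Ua a H x * Ua b H x) := by
  rw [Cov.cov_eq a b H L ha hb hL0, Cov.np_big _ _ hH]
  have ha0 : 0 < a := Nat.pos_of_dvd_of_pos ha hL0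
  have hb0 : 0 < b := Nat.pos_of_dvd_of_pos hb hL0
  have h2 : ((Nat.gcd a b : ℕ) : ℝ) * ((Nat.lcm a b : ℕ) : ℝ) = a * b := by
    exact_mod_cast Nat.gcd_mul_lcm a b
  have hg : (0 : ℝ) < ((Nat.gcd a b : ℕ) : ℝ) := by
    exact_mod_cast Nat.gcd_pos_of_pos_left b ha0
  have hl : (0 : ℝ) < ((Nat.lcm a b : ℕ) : ℝ) := by
    exact_mod_cast Nat.lcm_pos ha0 hb0
  have h3 : ((Nat.gcd a b : ℕ) : ℝ) * H / (2 * a * b) =
      (H : ℝ) / 2 / ((Nat.lcm a b : ℕ) : ℝ) := by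
    rw [mul_assoc 2 (a : ℝ) b, ← h2]
    field_simp
  rw [h3]
  refine div_le_div_of_nonneg_right ?_ hl.le
  have h4 : (2 * (H : ℝ)) ≤ ((Nat.gcd a b : ℕ) : ℝ) := by exact_mod_cast hH
  have h5 : (H : ℝ) ^ 2 / ((Nat.gcd a b : ℕ) : ℝ) ≤ (H : ℝ) / 2 := by
    rw [div_le_iff₀ hg]
    have h6 : (0 : ℝ) ≤ H := Nat.cast_nonneg _
    nlinarith
  linarith

theorem mean_Ua (a H L : ℕ) (ha : a ∣ L) (hL0 : 0 < L) : mean L (Ua a H) = 0 := by
  have h1 := mean_sub L (Cov.na a H) (fun _ => (H : ℝ) / a)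
  rw [Cov.mean_na a H L ha hL0, mean_const L hL0, sub_self] at h1
  exact h1

end Pool.Agent.MP_a12917_nt_GT
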