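import Mathlib
import Pool.Agent.Lib.MP_a12917_nt_GT.Defs
import Pool.Agent.Lib.MP_a12917_nt_GT.Basic
import Pool.Agent.Lib.MP_a12917_nt_GT.Cond

/-!
# MP_a12917_nt, project GT, module DU: the difference D in terms of the class sums U

(`ℓ = hs z`.)
`D_eq_U`: `p ∣ x + h` iff `h ≡ -x mod p` iff `h % p = ((-x) % p).toNat`. `U_sum`: the classes partition
`Icc 1 H`, `p ≠ 0`. Periodicity is immediate. `mean_MD`: `cond` with
`Φ b x = F (M' x) (U p H f b x - Ub p H f x)` and `D_eq_U`. `mean_D_zero`, `mean_V`: `mean_MD` with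
`F a d = a d`, and `∑_b (U_b - Ub) = 0` (`U_sum`); with `F a d = a d²` and the definition of `V`.
-/

set_option autoImplicit false

noncomputable section

namespace Pool.Agent.MP_a12917_nt_GT

open Finset

theorem D_eq_U (p H : ℕ) (hp : 0 < p) (f : ℤ → ℝ) (x : ℤ) :
    D p H f x = U p H f ((-x) % (p : ℤ)).toNat x - Ub p H f x := by
  have hp' : (0 : ℤ) < (p : ℤ) := by exact_mod_cast hp
  have h1 : ∀ h : ℕ, ((p : ℤ) ∣ x + (h : ℤ)) ↔ h % p = ((-x) % (p : ℤ)).toNat := by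
    intro h
    have h2 := Int.emod_nonneg (-x) hp'.ne'
    have h3 : ((h % p : ℕ) : ℤ) = (h : ℤ) % (p : ℤ) := Int.natCast_mod h p
    have h4 : h % p = ((-x) % (p : ℤ)).toNat ↔ (h : ℤ) % (p : ℤ) = (-x) % (p : ℤ) := by omega
    rw [h4]
    have h5 : ((h : ℤ) % (p : ℤ) = (-x) % (p : ℤ)) ↔ (p : ℤ) ∣ -x - (h : ℤ) :=
      Int.modEq_iff_dvd
    rw [h5, ← dvd_neg]
    have h6 : -(x + (h : ℤ)) = -x - (h : ℤ) := by ring
    rw [h6]
  unfold D U Ub
  rw [sum_filter, sum_div, ← sum_sub_distrib]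
  refine sum_congr rfl fun h _ => ?_
  by_cases h2 : (p : ℤ) ∣ x + (h : ℤ)
  · rw [if_pos h2, if_pos ((h1 h).1 h2)]
    ring
  · rw [if_neg h2, if_neg (fun h3 => h2 ((h1 h).2 h3))]
    ring

theorem U_sum (p H : ℕ) (hp : 0 < p) (f : ℤ → ℝ) (x : ℤ) :
    ∑ b ∈ range p, U p H f b x = p * Ub p H f x := by
  have hp' : (p : ℝ) ≠ 0 := by positivity
  unfold U Ub
  rw [mul_div_cancel₀ _ hp']
  exact sum_fiberwise_of_maps_to (fun h _ => mem_range.2 (Nat.mod_lt h hp)) _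

theorem U_per (p H N : ℕ) (f : ℤ → ℝ) (hf : ∀ x, f (x + (N : ℤ)) = f x) (b : ℕ) (x : ℤ) :
    U p H f b (x + (N : ℤ)) = U p H f b x := by
  unfold U
  refine sum_congr rfl fun h _ => ?_
  rw [← hf (x + (h : ℤ))]
  congr 1
  ring

theorem Ub_per (p H N : ℕ) (f : ℤ → ℝ) (hf : ∀ x, f (x + (N : ℤ)) = f x) (x : ℤ) :
    Ub p H f (x + (N : ℤ)) = Ub p H f x := by
  unfold Ub
  congr 1
  refine sum_congr rfl fun h _ => ?_
  rw [← hf (x + (h : ℤ))]
  congr 1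
  ring

theorem V_per (p H N : ℕ) (f : ℤ → ℝ) (hf : ∀ x, f (x + (N : ℤ)) = f x) (x : ℤ) :
    V p H f (x + (N : ℤ)) = V p H f x := by
  unfold V
  congr 1
  refine sum_congr rfl fun b _ => ?_
  rw [U_per p H N f hf, Ub_per p H N f hf]

theorem mean_MD (N p L H : ℕ) (hL0 : 0 < L) (hL : N * p ∣ L) (hco : N.Coprime p)
    (f : ℤ → ℝ) (hf : ∀ x, f (x + (N : ℤ)) = f x)
    (M' : ℤ → ℝ) (hM : ∀ x, M' (x + (N : ℤ)) = M' x) (F : ℝ → ℝ → ℝ) :
    mean L (fun x => F (M' x) (D p H f x)) =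
      mean L (fun x => (∑ b ∈ range p, F (M' x) (U p H f b x - Ub p H f x)) / p) := by
  have hN : 0 < N * p := Nat.pos_of_dvd_of_pos hL hL0
  have hp : 0 < p := Nat.pos_of_mul_pos_left hN
  have h1 := cond N p L hL0 hL hco
    (fun b x => F (M' x) (U p H f b x - Ub p H f x)) (fun b x => by
      rw [hM, U_per p H N f hf, Ub_per p H N f hf])
  rw [← h1]
  refine mean_congr _ _ _ fun x => ?_
  rw [D_eq_U p H hp]

theorem mean_D_zero (N p L H : ℕ) (hL0 : 0 < L) (hL : N * p ∣ L) (hco : N.Coprime p)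
    (f : ℤ → ℝ) (hf : ∀ x, f (x + (N : ℤ)) = f x)
    (M' : ℤ → ℝ) (hM : ∀ x, M' (x + (N : ℤ)) = M' x) :
    mean L (fun x => M' x * D p H f x) = 0 := by
  have hN : 0 < N * p := Nat.pos_of_dvd_of_pos hL hL0
  have hp : 0 < p := Nat.pos_of_mul_pos_left hN
  rw [mean_MD N p L H hL0 hL hco f hf M' hM (fun a d => a * d)]
  have h1 : ∀ x, (∑ b ∈ range p, M' x * (U p H f b x - Ub p H f x)) / p = 0 := by
    intro x
    rw [← mul_sum, sum_sub_distrib, U_sum p H hp, sum_const, card_range, nsmul_eq_mul, sub_self,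
      mul_zero, zero_div]
  rw [mean_congr _ _ _ h1, mean_const L hL0]

theorem mean_V (N p L H : ℕ) (hL0 : 0 < L) (hL : N * p ∣ L) (hco : N.Coprime p)
    (f : ℤ → ℝ) (hf : ∀ x, f (x + (N : ℤ)) = f x)
    (M' : ℤ → ℝ) (hM : ∀ x, M' (x + (N : ℤ)) = M' x) :
    mean L (fun x => M' x * D p H f x ^ 2) = mean L (fun x => M' x * V p H f x) := by
  rw [mean_MD N p L H hL0 hL hco f hf M' hM (fun a d => a * d ^ 2)]
  refine mean_congr _ _ _ fun x => ?_
  unfold V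
  rw [← mul_sum, mul_div_assoc]

end Pool.Agent.MP_a12917_nt_GT
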