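import Mathlib
import Pool.Agent.Lib.MP_a12917_nt_GT.Defs
import Pool.Agent.Lib.MP_a12917_nt_GT.Basic
import Pool.Agent.Lib.MP_a12917_nt_GT.DU

/-!
# MP_a12917_nt, project GT, module DMomB: the terms of order i for p > H

(`ℓ = hs z`.)
By `mean_MD` with `F a d = |a|^j |d|^i` the left side is
`mean(|M'|^j (1/p) ∑_{b<p} |U_b - Ub|^i)`. Pointwise: `|U_b - Ub|^i ≤ 2^{i-1}(|U_b|^i + |Ub|^i)`; as
`H < p` each class contains at most one `h`, so `∑_b |U_b|^i = ∑_{h ≤ H} |f(x+h)|^i` (`i ≥ 1`); and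
`p |Ub|^i ≤ p p^{-i} H^{i-1} ∑_h |f(x+h)|^i ≤ ∑_h |f(x+h)|^i` (power mean inequality, `H < p`). So
`(1/p) ∑_b |U_b - Ub|^i ≤ (2^i/p) ∑_{h ≤ H} |f(x+h)|^i`. Finally
`mean(|M'|^j |f(x+h)|^i) ≤ (mean M'^{2j})^{1/2} (mean f(x+h)^{2i})^{1/2}` (`mean_abs_cs`) and
`mean_shift` (`N ∣ L`, `per_dvd`).
-/

set_option autoImplicit false

noncomputable section

namespace Pool.Agent.MP_a12917_nt_GT

open Finset

namespace DMomB

theorem two (u v : ℝ) (i : ℕ) : |u - v| ^ i ≤ 2 ^ (i - 1) * (|u| ^ i + |v| ^ i) := by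
  refine le_trans (pow_le_pow_left₀ (abs_nonneg _) (abs_sub u v) i) ?_
  exact add_pow_le (abs_nonneg _) (abs_nonneg _) i

theorem U_val (p H : ℕ) (hH : H < p) (f : ℤ → ℝ) (b : ℕ) (x : ℤ) :
    U p H f b x = if b ∈ Icc 1 H then f (x + (b : ℤ)) else 0 := by
  unfold U
  have h1 : (Icc 1 H).filter (fun h => h % p = b) = if b ∈ Icc 1 H then {b} else ∅ := by
    ext h
    rw [mem_filter]
    constructor
    · rintro ⟨h2, h3⟩
      have h4 : h % p = h := Nat.mod_eq_of_lt (lt_of_le_of_lt (mem_Icc.1 h2).2 hH)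
      rw [h4] at h3
      subst h3
      rw [if_pos h2]
      exact mem_singleton_self _
    · intro h2
      by_cases h3 : b ∈ Icc 1 H
      · rw [if_pos h3, mem_singleton] at h2
        subst h2
        exact ⟨h3, Nat.mod_eq_of_lt (lt_of_le_of_lt (mem_Icc.1 h3).2 hH)⟩
      · rw [if_neg h3] at h2
        exact absurd h2 (notMem_empty h)
  rw [h1]
  by_cases h3 : b ∈ Icc 1 H
  · rw [if_pos h3, if_pos h3, sum_singleton]
  · rw [if_neg h3, if_neg h3, sum_empty]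

theorem sumU (p H : ℕ) (hH : H < p) (f : ℤ → ℝ) (x : ℤ) (n : ℕ) :
    ∑ b ∈ range p, |U p H f b x| ^ (n + 1) = ∑ h ∈ Icc 1 H, |f (x + (h : ℤ))| ^ (n + 1) := by
  have h1 : ∀ b ∈ range p, |U p H f b x| ^ (n + 1) =
      if b ∈ Icc 1 H then |f (x + (b : ℤ))| ^ (n + 1) else 0 := by
    intro b _
    rw [U_val p H hH]
    by_cases h3 : b ∈ Icc 1 H
    · rw [if_pos h3, if_pos h3]
    · rw [if_neg h3, if_neg h3, abs_zero, zero_pow (Nat.succ_ne_zero n)]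
  rw [sum_congr rfl h1, ← sum_filter]
  congr 1
  ext h
  rw [mem_filter, mem_range]
  exact ⟨fun h2 => h2.2, fun h2 => ⟨lt_of_le_of_lt (mem_Icc.1 h2).2 hH, h2⟩⟩

theorem sumB (p H : ℕ) (hH : H < p) (f : ℤ → ℝ) (x : ℤ) (n : ℕ) :
    (p : ℝ) * |Ub p H f x| ^ (n + 1) ≤ ∑ h ∈ Icc 1 H, |f (x + (h : ℤ))| ^ (n + 1) := by
  have hp : (0 : ℝ) < p := by
    have h1 : 0 < p := lt_of_le_of_lt (Nat.zero_le H) hH
    exact_mod_cast h1
  unfold Ub
  rcases Nat.eq_zero_or_pos H with h0 | h0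
  · subst h0
    have h1 : Icc 1 0 = (∅ : Finset ℕ) := by decide
    rw [h1, sum_empty, sum_empty, zero_div, abs_zero, zero_pow (Nat.succ_ne_zero n), mul_zero]
  · have hHr : (0 : ℝ) < H := by exact_mod_cast h0
    have h1 := pow_sum_div_card_le_sum_pow (s := Icc 1 H) (f := fun h : ℕ => |f (x + (h : ℤ))|)
      (fun _ _ => abs_nonneg _) n
    rw [Nat.card_Icc, Nat.add_sub_cancel] at h1
    refine le_trans ?_ h1
    have h2 : |∑ h ∈ Icc 1 H, f (x + (h : ℤ))| ≤ ∑ h ∈ Icc 1 H, |f (x + (h : ℤ))| :=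
      abs_sum_le_sum_abs _ _
    rw [abs_div, Nat.abs_cast, div_pow]
    have h3 : (p : ℝ) * (|∑ h ∈ Icc 1 H, f (x + (h : ℤ))| ^ (n + 1) / (p : ℝ) ^ (n + 1)) =
        |∑ h ∈ Icc 1 H, f (x + (h : ℤ))| ^ (n + 1) / (p : ℝ) ^ n := by
      rw [pow_succ (p : ℝ) n]
      field_simp
    rw [h3]
    have h4 : (H : ℝ) ^ n ≤ (p : ℝ) ^ n :=
      pow_le_pow_left₀ hHr.le (by exact_mod_cast hH.le) n
    exact div_le_div₀ (pow_nonneg (sum_nonneg fun _ _ => abs_nonneg _) _)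
      (pow_le_pow_left₀ (abs_nonneg _) h2 _) (pow_pos hHr n) h4

theorem point (p H : ℕ) (hH : H < p) (f : ℤ → ℝ) (x : ℤ) (n : ℕ) :
    ∑ b ∈ range p, |U p H f b x - Ub p H f x| ^ (n + 1) ≤
      2 ^ (n + 1) * ∑ h ∈ Icc 1 H, |f (x + (h : ℤ))| ^ (n + 1) := by
  calc ∑ b ∈ range p, |U p H f b x - Ub p H f x| ^ (n + 1)
      ≤ ∑ b ∈ range p, 2 ^ n * (|U p H f b x| ^ (n + 1) + |Ub p H f x| ^ (n + 1)) :=
        sum_le_sum fun b _ => two _ _ (n + 1)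
    _ = 2 ^ n * (∑ b ∈ range p, |U p H f b x| ^ (n + 1) + p * |Ub p H f x| ^ (n + 1)) := by
        rw [← mul_sum, sum_add_distrib, sum_const, card_range, nsmul_eq_mul]
    _ ≤ 2 ^ n * (∑ h ∈ Icc 1 H, |f (x + (h : ℤ))| ^ (n + 1) +
          ∑ h ∈ Icc 1 H, |f (x + (h : ℤ))| ^ (n + 1)) := by
        rw [sumU p H hH]
        have h1 := sumB p H hH f x n
        have h2 : (0 : ℝ) < 2 ^ n := by positivity
        exact mul_le_mul_of_nonneg_left (by linarith) h2.le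
    _ = 2 ^ (n + 1) * ∑ h ∈ Icc 1 H, |f (x + (h : ℤ))| ^ (n + 1) := by
        rw [pow_succ]
        ring

end DMomB

theorem dmom_big (N p L H : ℕ) (hL0 : 0 < L) (hL : N * p ∣ L) (hco : N.Coprime p) (hH : H < p)
    (f : ℤ → ℝ) (hf : ∀ x, f (x + (N : ℤ)) = f x)
    (M' : ℤ → ℝ) (hM : ∀ x, M' (x + (N : ℤ)) = M' x) (i j : ℕ) (hi : 1 ≤ i) :
    mean L (fun x => |M' x| ^ j * |D p H f x| ^ i) ≤
      2 ^ i / p * H * Real.sqrt (mean L (fun x => M' x ^ (2 * j))) *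
        Real.sqrt (mean L (fun x => f x ^ (2 * i))) := by
  obtain ⟨n, rfl⟩ : ∃ n, i = n + 1 := ⟨i - 1, by omega⟩
  have hp : (0 : ℝ) < p := by
    have h1 : 0 < p := lt_of_le_of_lt (Nat.zero_le H) hH
    exact_mod_cast h1
  have h1 := mean_MD N p L H hL0 hL hco f hf M' hM (fun a d => |a| ^ j * |d| ^ (n + 1))
  rw [h1]
  have h2 : mean L (fun x => (∑ b ∈ range p, |M' x| ^ j *
      |U p H f b x - Ub p H f x| ^ (n + 1)) / p) ≤
      mean L (fun x => 2 ^ (n + 1) / p * ∑ h ∈ Icc 1 H, |M' x| ^ j *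
        |f (x + (h : ℤ))| ^ (n + 1)) := by
    refine mean_mono _ _ _ fun x => ?_
    rw [← mul_sum, ← mul_sum, div_mul_eq_mul_div]
    refine div_le_div_of_nonneg_right ?_ hp.le
    have h3 := DMomB.point p H hH f x n
    calc |M' x| ^ j * ∑ b ∈ range p, |U p H f b x - Ub p H f x| ^ (n + 1)
        ≤ |M' x| ^ j * (2 ^ (n + 1) * ∑ h ∈ Icc 1 H, |f (x + (h : ℤ))| ^ (n + 1)) :=
          mul_le_mul_of_nonneg_left h3 (pow_nonneg (abs_nonneg _) _)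
      _ = 2 ^ (n + 1) * (|M' x| ^ j * ∑ h ∈ Icc 1 H, |f (x + (h : ℤ))| ^ (n + 1)) := by ring
  refine h2.trans ?_
  rw [mean_const_mul, mean_sum L (Icc 1 H) (fun h x => |M' x| ^ j * |f (x + (h : ℤ))| ^ (n + 1))]
  have hNL : N ∣ L := (Dvd.intro p rfl).trans hL
  have h4 : ∀ h ∈ Icc 1 H, mean L (fun x => |M' x| ^ j * |f (x + (h : ℤ))| ^ (n + 1)) ≤
      Real.sqrt (mean L (fun x => M' x ^ (2 * j))) *
        Real.sqrt (mean L (fun x => f x ^ (2 * (n + 1)))) := by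
    intro h _
    have h5 := mean_abs_cs L (fun x => M' x ^ j) (fun x => f (x + (h : ℤ)) ^ (n + 1))
    have h6 : (fun x => |M' x ^ j| * |f (x + (h : ℤ)) ^ (n + 1)|) =
        fun x => |M' x| ^ j * |f (x + (h : ℤ))| ^ (n + 1) := by
      funext x
      rw [abs_pow, abs_pow]
    have h7 : (fun x => (M' x ^ j) ^ 2) = fun x => M' x ^ (2 * j) := by
      funext x
      rw [← pow_mul, mul_comm]
    have h8 : (fun x => (f (x + (h : ℤ)) ^ (n + 1)) ^ 2) =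
        fun x => f (x + (h : ℤ)) ^ (2 * (n + 1)) := by
      funext x
      rw [← pow_mul, mul_comm]
    have h9 := mean_shift_nat L (fun x => f x ^ (2 * (n + 1)))
      (fun x => by rw [per_dvd N L hNL f hf x]) h
    rw [h7, h8] at h5
    change mean L (fun x => |M' x ^ j| * |f (x + (h : ℤ)) ^ (n + 1)|) ≤ _ at h5
    rw [h6, h9] at h5
    exact h5
  have h10 := sum_le_sum h4
  rw [sum_const, Nat.card_Icc, Nat.add_sub_cancel, nsmul_eq_mul] at h10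
  have h11 : (0 : ℝ) ≤ 2 ^ (n + 1) / p := by positivity
  refine (mul_le_mul_of_nonneg_left h10 h11).trans (le_of_eq ?_)
  ring

end Pool.Agent.MP_a12917_nt_GT
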