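import Mathlib
import Pool.Agent.Lib.MP_a12917_nt_GT.Defs
import Pool.Agent.Lib.MP_a12917_nt_GT.Basic
import Pool.Agent.Lib.MP_a12917_nt_GT.RamA
import Pool.Agent.Lib.MP_a12917_nt_GT.Wt

/-!
# MP_a12917_nt, project GT, module SEq: expansion of the remainder and of the divisor count in Ramanujan sums

(`ℓ = hs z`.)
`1_{a ∣ n} = (1/a) ∑_{q ∣ a} ram q n` (`ram_sum`). `cnt_eq`: `cnt (Icc 1 z) n = ∑_{a ≤ z} 1_{a ∣ n} =
∑_{a ≤ z} (1/a) ∑_{q ∣ a} ram q n = ∑_{q ≤ z} wt z q · ram q n` (interchange). `S_eq`: `Ua a H x =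
∑_{h ≤ H} (1_{a ∣ x+h} - 1/a) = (1/a) ∑_{h} ∑_{q ∣ a, q > 1} ram q (x+h)` (`ram_one`), sum over `a`.
-/

set_option autoImplicit false

noncomputable section

namespace Pool.Agent.MP_a12917_nt_GT

open Finset

theorem cnt_eq (z : ℕ) (n : ℤ) : (cnt (Icc 1 z) n : ℝ) = ∑ q ∈ Icc 1 z, wt z q * ram q n := by
  unfold cnt
  rw [card_eq_sum_ones, sum_filter]
  push_cast
  have h1 : ∀ a ∈ Icc 1 z, (if (a : ℤ) ∣ n then (1 : ℝ) else 0) =
      ∑ q ∈ a.divisors, 1 / (a : ℝ) * ram q n := by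
    intro a ha
    rw [mem_Icc] at ha
    have ha' : (a : ℝ) ≠ 0 := by
      have : 0 < a := by omega
      positivity
    rw [← mul_sum, ram_sum a (by omega) n]
    split_ifs
    · field_simp
    · rw [mul_zero]
  rw [sum_congr rfl h1]
  have h2 : ∀ q ∈ Icc 1 z, wt z q * ram q n =
      ∑ a ∈ (Icc 1 z).filter (fun a => q ∣ a), 1 / (a : ℝ) * ram q n := by
    intro q _
    unfold wt
    rw [sum_mul]
  rw [sum_congr rfl h2]
  refine sum_comm' fun a q => ?_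
  rw [Nat.mem_divisors, mem_filter, mem_Icc, mem_Icc]
  constructor
  · rintro ⟨⟨h3, h4⟩, h5, _⟩
    exact ⟨⟨⟨h3, h4⟩, h5⟩, Nat.pos_of_dvd_of_pos h5 (by omega),
      (Nat.le_of_dvd (by omega) h5).trans h4⟩
  · rintro ⟨⟨⟨h3, h4⟩, h5⟩, _, _⟩
    exact ⟨⟨h3, h4⟩, h5, by omega⟩

theorem S_eq (z H : ℕ) (x : ℤ) :
    S z H x = ∑ q ∈ Icc 2 z, wt z q * ∑ h ∈ Icc 1 H, ram q (x + (h : ℤ)) := by
  have key : ∀ n : ℤ, ∑ a ∈ Icc 1 z, ((if (a : ℤ) ∣ n then (1 : ℝ) else 0) - 1 / a) =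
      ∑ q ∈ Icc 2 z, wt z q * ram q n := by
    intro n
    rw [sum_sub_distrib]
    have h1 : ∑ a ∈ Icc 1 z, (if (a : ℤ) ∣ n then (1 : ℝ) else 0) = (cnt (Icc 1 z) n : ℝ) := by
      unfold cnt
      rw [card_eq_sum_ones, sum_filter]
      push_cast
      rfl
    rw [h1, cnt_eq]
    rcases Nat.eq_zero_or_pos z with h0 | h0
    · subst h0
      simp
    · have h2 : Icc 1 z = insert 1 (Icc 2 z) := by
        ext a
        rw [mem_insert, mem_Icc, mem_Icc]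
        omega
      have h3 : (1 : ℕ) ∉ Icc 2 z := by
        rw [mem_Icc]
        omega
      have h4 : ∑ q ∈ Icc 1 z, wt z q * ram q n =
          wt z 1 * ram 1 n + ∑ q ∈ Icc 2 z, wt z q * ram q n := by
        rw [h2, sum_insert h3]
      rw [h4, ram_one, mul_one, wt_one]
      unfold hs
      ring
  have h5 : ∀ a ∈ Icc 1 z, Ua a H x = ∑ h ∈ Icc 1 H,
      ((if (a : ℤ) ∣ x + (h : ℤ) then (1 : ℝ) else 0) - 1 / a) := by
    intro a _
    unfold Ua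
    rw [sum_sub_distrib, sum_const, Nat.card_Icc, Nat.add_sub_cancel, nsmul_eq_mul,
      mul_one_div]
  unfold S
  rw [sum_congr rfl h5, sum_comm, sum_congr rfl fun (h : ℕ) _ => key (x + (h : ℤ)), sum_comm]
  exact sum_congr rfl fun q _ => by rw [mul_sum]

end Pool.Agent.MP_a12917_nt_GT
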