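import Mathlib
import Pool.Agent.Lib.MP_a12917_nt_GT.Defs
import Pool.Agent.Lib.MP_a12917_nt_GT.Basic
import Pool.Agent.Lib.MP_a12917_nt_GT.RamB
import Pool.Agent.Lib.MP_a12917_nt_GT.Wt
import Pool.Agent.Lib.MP_a12917_nt_GT.SEq

/-!
# MP_a12917_nt, project GT, module Split: the decomposition into martingale and dropped part

(`ℓ = hs z`.)
`D_ram`: for a prime `p`, `D p H (g y z p) x = ∑_h (1_{p ∣ x+h} - 1/p) ∑_{q ∈ Qp} wt (z/p) q ram q (x+h)
= ∑_{q ∈ Qp} wt z (pq) ∑_h ram (pq) (x+h)` by `ram_mul_prime` (`p ∤ q` as all primes of `q` are `< p`,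
`q ≥ 1`) and `wt_mul`.

`M_good`: `Good y z t` is the disjoint union over `p ∈ Pr y z`, `p < t`, of the sets `p · Qp y z p`:
if `q ∈ Good`, then `q` is not `y`-smooth, so its largest prime factor `p` is `> y`, `p ≤ q ≤ z`,
`p < t`, `p² ∤ q` (else `q` would be in `Bad`), so `q = p q'`, `q' ≤ z/p`, all primes of `q'` are `< p`, and
`r² ∤ q'` for the primes `r > y`. Conversely, `q = p q'` with `q' ∈ Qp y z p` is in `[2, z]`, has the prime
factor `p > y`; if `r² ∣ p q'` for a prime `r > y` then `r ≠ p` (else `p ∣ q'`), so `r² ∣ q'`: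
contradiction; the primes of `q` are `≤ p < t`. The set determines `p` (largest prime factor).

`S_split`: `S_eq`, `Icc 2 z = Bad y z ∪ Good y z (z+1)` (disjoint; primes of `q ≤ z` are `< z+1`).
-/

set_option autoImplicit false

noncomputable section

namespace Pool.Agent.MP_a12917_nt_GT

open Finset

/-- the members of `Qp` -/
theorem Split.mem_Qp {y z p q : ℕ} (hp : p.Prime) : q ∈ Qp y z p ↔ (1 ≤ q ∧ p * q ≤ z) ∧
    (∀ r : ℕ, r.Prime → r ∣ q → r < p) ∧ ∀ r : ℕ, r.Prime → r ∣ q → y < r → ¬ r ^ 2 ∣ q := by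
  unfold Qp
  rw [mem_filter, mem_Icc, Nat.le_div_iff_mul_le hp.pos, mul_comm q p]
  constructor
  · rintro ⟨⟨h1, h2⟩, h3, h4⟩
    refine ⟨⟨h1, h2⟩, fun r hr hrq => h3 r ?_, fun r hr hrq => h4 r ?_⟩
    · exact Nat.mem_primeFactors.2 ⟨hr, hrq, by omega⟩
    · exact Nat.mem_primeFactors.2 ⟨hr, hrq, by omega⟩
  · rintro ⟨⟨h1, h2⟩, h3, h4⟩
    refine ⟨⟨h1, h2⟩, fun r hr => ?_, fun r hr => ?_⟩
    · exact h3 r (Nat.prime_of_mem_primeFactors hr) (Nat.dvd_of_mem_primeFactors hr)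
    · exact h4 r (Nat.prime_of_mem_primeFactors hr) (Nat.dvd_of_mem_primeFactors hr)

theorem D_ram (y z H p : ℕ) (hp : p.Prime) (x : ℤ) :
    D p H (g y z p) x =
      ∑ q ∈ Qp y z p, wt z (p * q) * ∑ h ∈ Icc 1 H, ram (p * q) (x + (h : ℤ)) := by
  have hp' : (p : ℝ) ≠ 0 := by
    have := hp.pos
    positivity
  unfold D g
  simp only [mul_sum]
  rw [sum_comm]
  refine sum_congr rfl fun q hq => sum_congr rfl fun h _ => ?_
  obtain ⟨⟨h1, _⟩, h2, _⟩ := (Split.mem_Qp hp).1 hq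
  have hpq : ¬ p ∣ q := fun h3 => lt_irrefl p (h2 p hp h3)
  rw [ram_mul_prime p q hp h1 hpq, wt_mul z p q hp.one_le h1]
  by_cases h4 : (p : ℤ) ∣ x + (h : ℤ)
  · simp only [h4, if_true]
    field_simp
  · simp only [h4, if_false]
    field_simp
    ring

theorem M_good (y z H t : ℕ) (x : ℤ) :
    M y z H t x = ∑ q ∈ Good y z t, wt z q * ∑ h ∈ Icc 1 H, ram q (x + (h : ℤ)) := by
  classical
  unfold M
  have hP : ∀ p ∈ (Pr y z).filter (fun p => p < t), p.Prime ∧ y < p ∧ p ≤ z ∧ p < t := by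
    intro p hp
    unfold Pr at hp
    rw [mem_filter, mem_filter, mem_Ioc] at hp
    exact ⟨hp.1.2, hp.1.1.1, hp.1.1.2, hp.2⟩
  rw [sum_congr rfl fun p hp => D_ram y z H p (hP p hp).1 x, sum_sigma']
  refine sum_bij (fun s _ => s.1 * s.2) (fun s hs => ?_) (fun s hs s' hs' h => ?_)
    (fun n hn => ?_) (fun _ _ => rfl)
  · rw [mem_sigma] at hs
    obtain ⟨hp, hyp, hpz, hpt⟩ := hP _ hs.1
    obtain ⟨⟨h1, h2⟩, h3, h4⟩ := (Split.mem_Qp hp).1 hs.2
    have hp2 := hp.two_le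
    unfold Good
    rw [mem_filter, mem_Icc]
    have hdvd : ∀ r : ℕ, r.Prime → r ∣ s.1 * s.2 → r = s.1 ∨ r ∣ s.2 := by
      intro r hr hrd
      rcases (Nat.Prime.dvd_mul hr).1 hrd with h5 | h5
      · exact Or.inl ((Nat.prime_dvd_prime_iff_eq hr hp).1 h5)
      · exact Or.inr h5
    refine ⟨⟨?_, h2⟩, ?_, ?_⟩
    · calc 2 ≤ s.1 * 1 := by omega
        _ ≤ s.1 * s.2 := Nat.mul_le_mul_left _ h1
    · unfold Bad
      rw [mem_filter]
      rintro ⟨_, h5 | ⟨r, hr, hyr, hr2⟩⟩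
      · have h6 := h5 s.1 (Nat.mem_primeFactors.2 ⟨hp, Dvd.intro _ rfl,
          (Nat.mul_pos hp.pos h1).ne'⟩)
        omega
      · have hr1 := Nat.prime_of_mem_primeFactors hr
        have hrd := Nat.dvd_of_mem_primeFactors hr
        have hps : ¬ s.1 ∣ s.2 := fun h6 => lt_irrefl _ (h3 _ hp h6)
        by_cases h6 : r = s.1
        · rw [h6, sq] at hr2
          exact hps (Nat.dvd_of_mul_dvd_mul_left hp.pos hr2)
        · have h7 : Nat.Coprime (r ^ 2) s.1 :=
            Nat.Coprime.pow_left 2 ((Nat.coprime_primes hr1 hp).2 h6)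
          have h8 : r ^ 2 ∣ s.2 := h7.dvd_of_dvd_mul_left hr2
          exact h4 r hr1 ((Dvd.intro_left _ (sq r).symm).trans h8) hyr h8
    · intro r hr
      have hr1 := Nat.prime_of_mem_primeFactors hr
      rcases hdvd r hr1 (Nat.dvd_of_mem_primeFactors hr) with h5 | h5
      · rw [h5]
        exact hpt
      · exact (h3 r hr1 h5).trans hpt
  · rw [mem_sigma] at hs hs'
    obtain ⟨hp, _, _, _⟩ := hP _ hs.1
    obtain ⟨hp', _, _, _⟩ := hP _ hs'.1
    obtain ⟨⟨h1, _⟩, h3, _⟩ := (Split.mem_Qp hp).1 hs.2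
    obtain ⟨⟨h1', _⟩, h3', _⟩ := (Split.mem_Qp hp').1 hs'.2
    obtain ⟨p, q⟩ := s
    obtain ⟨p', q'⟩ := s'
    simp only at *
    have hpp : p = p' := by
      by_contra hne
      have h5 : p' ∣ q := by
        have h6 : p' ∣ p * q := by
          rw [h]
          exact Dvd.intro _ rfl
        rcases (Nat.Prime.dvd_mul hp').1 h6 with h7 | h7
        · exact absurd ((Nat.prime_dvd_prime_iff_eq hp' hp).1 h7).symm hne
        · exact h7
      have h5' : p ∣ q' := by
        have h6 : p ∣ p' * q' := by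
          rw [← h]
          exact Dvd.intro _ rfl
        rcases (Nat.Prime.dvd_mul hp).1 h6 with h7 | h7
        · exact absurd ((Nat.prime_dvd_prime_iff_eq hp hp').1 h7) hne
        · exact h7
      have h8 := h3 p' hp' h5
      have h9 := h3' p hp h5'
      omega
    subst hpp
    have hqq : q = q' := Nat.eq_of_mul_eq_mul_left hp.pos h
    rw [hqq]
  · unfold Good at hn
    rw [mem_filter, mem_Icc] at hn
    obtain ⟨⟨h1, h2⟩, h3, h4⟩ := hn
    have h5 : ¬ ((∀ r ∈ n.primeFactors, r ≤ y) ∨ ∃ r ∈ n.primeFactors, y < r ∧ r ^ 2 ∣ n) := by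
      intro h5
      apply h3
      unfold Bad
      rw [mem_filter, mem_Icc]
      exact ⟨⟨h1, h2⟩, h5⟩
    rw [not_or] at h5
    obtain ⟨h6, h7⟩ := h5
    push Not at h6 h7
    obtain ⟨r0, hr0, hyr0⟩ := h6
    have hne : n.primeFactors.Nonempty := ⟨r0, hr0⟩
    obtain ⟨p, hpm, hpmax⟩ : ∃ p ∈ n.primeFactors, ∀ r ∈ n.primeFactors, r ≤ p :=
      ⟨_, max'_mem _ hne, fun r hr => le_max' _ r hr⟩
    have hp := Nat.prime_of_mem_primeFactors hpm
    obtain ⟨q, hq⟩ := Nat.dvd_of_mem_primeFactors hpm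
    have hyp : y < p := hyr0.trans_le (hpmax r0 hr0)
    have hq1 : 1 ≤ q := by
      rcases Nat.eq_zero_or_pos q with h | h
      · rw [h, mul_zero] at hq
        omega
      · exact h
    have hpq : ¬ p ∣ q := by
      intro h
      refine h7 p hpm hyp ?_
      rw [hq, sq]
      exact Nat.mul_dvd_mul_left p h
    refine ⟨⟨p, q⟩, ?_, hq.symm⟩
    rw [mem_sigma]
    refine ⟨?_, (Split.mem_Qp hp).2 ⟨⟨hq1, hq ▸ h2⟩, fun r hr hrq => ?_, fun r hr hrq hyr h8 => ?_⟩⟩
    · unfold Pr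
      rw [mem_filter, mem_filter, mem_Ioc]
      refine ⟨⟨⟨hyp, ?_⟩, hp⟩, h4 p hpm⟩
      exact (Nat.le_of_dvd (by omega) (Nat.dvd_of_mem_primeFactors hpm)).trans h2
    · have h9 : r ∈ n.primeFactors := Nat.mem_primeFactors.2 ⟨hr, by
        rw [hq]
        exact hrq.mul_left p, by omega⟩
      have h10 := hpmax r h9
      have h11 : r ≠ p := fun h => hpq (h ▸ hrq)
      show r < p
      omega
    · have h9 : r ∈ n.primeFactors := Nat.mem_primeFactors.2 ⟨hr, by
        rw [hq]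
        exact hrq.mul_left p, by omega⟩
      refine h7 r h9 hyr ?_
      rw [hq]
      exact h8.mul_left p

theorem S_split (y z H : ℕ) (x : ℤ) : S z H x = M y z H (z + 1) x + R y z H x := by
  classical
  rw [S_eq, M_good]
  unfold R
  have h1 : Good y z (z + 1) = (Icc 2 z).filter (fun q => ¬ q ∈ Bad y z) := by
    unfold Good
    refine filter_congr fun q hq => ?_
    rw [mem_Icc] at hq
    constructor
    · exact fun h => h.1
    · refine fun h => ⟨h, fun r hr => ?_⟩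
      have := Nat.le_of_dvd (by omega) (Nat.dvd_of_mem_primeFactors hr)
      omega
  have h2 : Bad y z = (Icc 2 z).filter (fun q => q ∈ Bad y z) := by
    ext q
    rw [mem_filter]
    constructor
    · intro h
      refine ⟨?_, h⟩
      unfold Bad at h
      exact (mem_filter.1 h).1
    · exact fun h => h.2
  have h3 := sum_filter_add_sum_filter_not (Icc 2 z) (fun q => q ∈ Bad y z)
    (fun q => wt z q * ∑ h ∈ Icc 1 H, ram q (x + (h : ℤ)))
  rw [h1, ← h3, ← h2, add_comm]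

end Pool.Agent.MP_a12917_nt_GT
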