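import Mathlib
import Pool.Agent.Lib.MP_a12917_nt_GT.Defs
import Pool.Agent.Lib.MP_a12917_nt_GT.Basic
import Pool.Agent.Lib.MP_a12917_nt_GT.Kez
import Pool.Agent.Lib.MP_a12917_nt_GT.Wt
import Pool.Agent.Lib.MP_a12917_nt_GT.Split
import Pool.Agent.Lib.MP_a12917_nt_GT.Per

/-!
# MP_a12917_nt, project GT, module KezB: moment bounds for g, its windows and the martingale

(`ℓ = hs z`.)
`g_mom`: `kez` for `Q = Qp y z p ⊆ Icc 1 z`, `K = 1`, `w = wt (z/p)` (`wt_nonneg`, `wt_le`,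
`hs_mono`): the function there is `g y z p (x+1)`; shift (`mean_shift`, `g` is
periodic mod `Lm z` because every
`q ∈ Qp` divides `Lm z`, `dvd_Lm`, `ram_add`).
`gt_window`: the same for the set of the elements `≥ 2` of `Qp y z p` and general `K ≥ 1`:
`∑_{h} gt (x+h) = ∑_q wt (z/p) q ∑_h ram q (x+h)`.
`Ub_mom`: `Ub = (1/p) ∑_h gt(x+h)`, so the mean is `≤ p^{-2k} (4H)^k ℓ^{2k+4^k}`.
`M_mom`: `M_good`, `Good y z t ⊆ Icc 2 z`, `w = wt z`, `K = H`.
-/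

set_option autoImplicit false

noncomputable section

namespace Pool.Agent.MP_a12917_nt_GT

open Finset

namespace KezB

theorem Qp_sub (y z p : ℕ) : Qp y z p ⊆ Icc 1 z := by
  intro q hq
  have h1 := mem_Icc.1 (mem_filter.1 hq).1
  exact mem_Icc.2 ⟨h1.1, h1.2.trans (Nat.div_le_self z p)⟩

theorem w_le (z p q : ℕ) (hq : 1 ≤ q) : |wt (z / p) q| ≤ hs z / q := by
  rw [abs_of_nonneg (wt_nonneg _ _)]
  exact (wt_le _ _ hq).trans (div_le_div_of_nonneg_right (hs_mono _ _ (Nat.div_le_self z p))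
    (Nat.cast_nonneg _))

theorem w_le' (z q : ℕ) (hq : 1 ≤ q) : |wt z q| ≤ hs z / q := by
  rw [abs_of_nonneg (wt_nonneg _ _)]
  exact wt_le _ _ hq

theorem g_Lm (y z p : ℕ) (x : ℤ) : g y z p (x + (Lm z : ℤ)) = g y z p x := by
  unfold g
  refine sum_congr rfl fun q hq => ?_
  have h1 := mem_Icc.1 (Qp_sub y z p hq)
  rw [ram_add q x (Lm z : ℤ) (Int.natCast_dvd_natCast.2 (dvd_Lm z q h1.1 h1.2))]

end KezB

theorem g_mom (k y z p : ℕ) (hz : 1 ≤ z) :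
    mean (Lm z) (fun x => g y z p x ^ (2 * k)) ≤ 4 ^ k * hs z ^ (2 * k + 4 ^ k) := by
  have h1 := kez k z hz (Qp y z p) (KezB.Qp_sub y z p) 1 le_rfl (Or.inl rfl) (wt (z / p))
    fun q hq => KezB.w_le z p q (mem_Icc.1 (KezB.Qp_sub y z p hq)).1
  have h2 := mean_shift (Lm z) (fun x => g y z p x ^ (2 * k))
    (fun x => by rw [KezB.g_Lm]) 1
  rw [← h2]
  rw [Nat.cast_one, mul_one] at h1
  refine le_trans (le_of_eq ?_) h1
  refine mean_congr _ _ _ fun x => ?_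
  congr 1
  unfold g
  refine sum_congr rfl fun q _ => ?_
  rw [Icc_self, sum_singleton, Nat.cast_one]

theorem gt_window (k y z p K : ℕ) (hz : 1 ≤ z) (hK : 1 ≤ K) :
    mean (Lm z) (fun x => (∑ h ∈ Icc 1 K, gt y z p (x + (h : ℤ))) ^ (2 * k)) ≤
      (4 * (K : ℝ)) ^ k * hs z ^ (2 * k + 4 ^ k) := by
  have h1 := kez k z hz ((Qp y z p).filter fun q => 2 ≤ q)
    ((filter_subset _ _).trans (KezB.Qp_sub y z p)) K hK
    (Or.inr fun q hq => (mem_filter.1 hq).2) (wt (z / p))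
    fun q hq => KezB.w_le z p q (mem_Icc.1 (KezB.Qp_sub y z p (mem_filter.1 hq).1)).1
  refine le_trans (le_of_eq ?_) h1
  refine mean_congr _ _ _ fun x => ?_
  congr 1
  unfold gt
  rw [sum_comm]
  refine sum_congr rfl fun q _ => ?_
  rw [mul_sum]

theorem Ub_mom (k y z p H : ℕ) (hz : 1 ≤ z) (hH : 1 ≤ H) :
    mean (Lm z) (fun x => Ub p H (gt y z p) x ^ (2 * k)) ≤
      (4 * (H : ℝ)) ^ k * hs z ^ (2 * k + 4 ^ k) / (p : ℝ) ^ (2 * k) := by
  have h1 := gt_window k y z p H hz hH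
  have h2 : mean (Lm z) (fun x => Ub p H (gt y z p) x ^ (2 * k)) =
      mean (Lm z) (fun x => (∑ h ∈ Icc 1 H, gt y z p (x + (h : ℤ))) ^ (2 * k)) /
        (p : ℝ) ^ (2 * k) := by
    rw [← mean_div_const]
    refine mean_congr _ _ _ fun x => ?_
    unfold Ub
    rw [div_pow]
  rw [h2]
  exact div_le_div_of_nonneg_right h1 (by positivity)

theorem M_mom (k y z H t : ℕ) (hz : 1 ≤ z) (hH : 1 ≤ H) :
    mean (Lm z) (fun x => M y z H t x ^ (2 * k)) ≤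
      (4 * (H : ℝ)) ^ k * hs z ^ (2 * k + 4 ^ k) := by
  have h0 : ∀ q ∈ Good y z t, 2 ≤ q ∧ q ≤ z := fun q hq => mem_Icc.1 (mem_filter.1 hq).1
  have h1 := kez k z hz (Good y z t)
    (fun q hq => mem_Icc.2 ⟨one_le_two.trans (h0 q hq).1, (h0 q hq).2⟩) H hH
    (Or.inr fun q hq => (h0 q hq).1) (wt z)
    fun q hq => KezB.w_le' z q (one_le_two.trans (h0 q hq).1)
  refine le_trans (le_of_eq ?_) h1
  refine mean_congr _ _ _ fun x => ?_
  rw [M_good]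

end Pool.Agent.MP_a12917_nt_GT
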