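import Mathlib
import Pool.Agent.Lib.MP_a12917_nt_GT.Defs
import Pool.Agent.Lib.MP_a12917_nt_GT.Basic

/-!
# MP_a12917_nt, project GT, module MeanDiv: mean of a function of quotient and remainder

(`ℓ = hs z`.)
Periodicity: `x ↦ Φ (x % p) (x / p)` is periodic mod `N p` (`(x + Np)/p = x/p + N`), so by
`mean_of_dvd` take `L = Np`: `x = p u + r` with `r < p`, `u < N` (a bijection),
`(1/(Np)) ∑_r ∑_{u<N} Φ r u = (1/p) ∑_r mean N (Φ r) = (1/p) ∑_r mean L (Φ r)`.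
-/

set_option autoImplicit false

noncomputable section

namespace Pool.Agent.MP_a12917_nt_GT

open Finset

namespace MeanDiv

theorem sum_blocks (k p : ℕ) (F : ℕ → ℝ) :
    ∑ x ∈ range (k * p), F x = ∑ u ∈ range k, ∑ r ∈ range p, F (u * p + r) := by
  induction k with
  | zero => simp
  | succ k ih =>
    rw [Nat.succ_mul, sum_range_add, ih, sum_range_succ]

end MeanDiv

theorem mean_div (N p L : ℕ) (hL0 : 0 < L) (hL : N * p ∣ L) (Φ : ℕ → ℤ → ℝ)
    (hΦ : ∀ b x, Φ b (x + (N : ℤ)) = Φ b x) :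
    mean L (fun x => Φ (x % (p : ℤ)).toNat (x / (p : ℤ))) =
      (∑ r ∈ range p, mean L (Φ r)) / p := by
  have hNp : 0 < N * p := Nat.pos_of_dvd_of_pos hL hL0
  have hN : 0 < N := Nat.pos_of_ne_zero fun h => by simp [h] at hNp
  have hp : 0 < p := Nat.pos_of_ne_zero fun h => by simp [h] at hNp
  have hpz : (p : ℤ) ≠ 0 := by exact_mod_cast hp.ne'
  have hper : ∀ x : ℤ, Φ ((x + ((N * p : ℕ) : ℤ)) % (p : ℤ)).toNat
      ((x + ((N * p : ℕ) : ℤ)) / (p : ℤ)) = Φ (x % (p : ℤ)).toNat (x / (p : ℤ)) := by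
    intro x
    rw [Nat.cast_mul, Int.add_mul_emod_self_right, Int.add_mul_ediv_right _ _ hpz, hΦ]
  rw [mean_of_dvd (N * p) L hL hL0 _ hper]
  have h1 : ∀ r ∈ range p, mean L (Φ r) = mean N (Φ r) := fun r _ =>
    mean_of_dvd N L ((Dvd.intro _ rfl).trans hL) hL0 _ (hΦ r)
  rw [sum_congr rfl h1]
  simp only [mean]
  rw [MeanDiv.sum_blocks N p fun x => Φ ((x : ℤ) % (p : ℤ)).toNat ((x : ℤ) / (p : ℤ))]
  have h2 : ∀ u ∈ range N, ∑ r ∈ range p, Φ (((u * p + r : ℕ) : ℤ) % (p : ℤ)).toNat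
      (((u * p + r : ℕ) : ℤ) / (p : ℤ)) = ∑ r ∈ range p, Φ r (u : ℤ) := by
    intro u _
    refine sum_congr rfl fun r hr => ?_
    have hr' := mem_range.1 hr
    have h3 : (u * p + r) % p = r := by
      rw [Nat.mul_add_mod', Nat.mod_eq_of_lt hr']
    have h4 : (u * p + r) / p = u := by
      rw [Nat.add_comm, Nat.add_mul_div_right _ _ hp, Nat.div_eq_of_lt hr', Nat.zero_add]
    rw [← Int.natCast_mod, ← Int.natCast_div, h3, h4, Int.toNat_natCast]
  rw [sum_congr rfl h2, sum_comm]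
  rw [← sum_div, div_div]
  push_cast
  rfl

end Pool.Agent.MP_a12917_nt_GT
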