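import Mathlib
import Pool.Agent.Lib.MP_a12917_nt_GT.Defs
import Pool.Agent.Lib.MP_a12917_nt_GT.Basic

/-!
# MP_a12917_nt, project GT, module Scal: scaling: multiples of p in a window

(`ℓ = hs z`.)
Write `x = p u + r`, `u = x / p` (floor), `r = x % p ∈ [0,p)`. The multiples of `p` in `(x, x+H]` are
`p n` with `p u + r < p n ≤ p u + r + H`, i.e. `u < n ≤ u + (r+H)/p` (floor). So the sum over `h` with
`p ∣ x + h` of `f(x+h) = f(p n) = f(n)` is the sum over `n = u + j`, `1 ≤ j ≤ (r+H)/p`. The bijection is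
`j ↦ h = p (u + j) - x`. `window_count`: `f = 1`.
-/

set_option autoImplicit false

noncomputable section

namespace Pool.Agent.MP_a12917_nt_GT

open Finset

theorem scal (p H : ℕ) (hp : 0 < p) (f : ℤ → ℝ) (hf : ∀ n : ℤ, f ((p : ℤ) * n) = f n) (x : ℤ) :
    ∑ h ∈ Icc 1 H, (if (p : ℤ) ∣ x + (h : ℤ) then (1 : ℝ) else 0) * f (x + (h : ℤ)) =
      ∑ j ∈ Icc 1 (((x % (p : ℤ)).toNat + H) / p), f (x / (p : ℤ) + (j : ℤ)) := by
  have hp' : (0 : ℤ) < p := by exact_mod_cast hp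
  have hr0 := Int.emod_nonneg x hp'.ne'
  have hr1 := Int.emod_lt_of_pos x hp'
  have hx0 := Int.mul_ediv_add_emod x p
  obtain ⟨R, hRc⟩ : ∃ R : ℕ, (x % (p : ℤ)) = (R : ℤ) := ⟨_, (Int.toNat_of_nonneg hr0).symm⟩
  rw [hRc] at hr1 hx0 ⊢
  rw [Int.toNat_natCast]
  generalize x / (p : ℤ) = u at hx0 ⊢
  have hRp : R < p := by exact_mod_cast hr1
  have hdvd : ∀ h : ℕ, ((p : ℤ) ∣ x + h) ↔ p ∣ R + h := by
    intro h
    have e : x + h = p * u + ((R + h : ℕ) : ℤ) := by
      rw [← hx0]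
      push_cast
      ring
    rw [e, dvd_add_right (dvd_mul_right _ _)]
    exact Int.natCast_dvd_natCast
  simp only [ite_mul, one_mul, zero_mul]
  rw [← sum_filter]
  refine sum_nbij' (fun h => (R + h) / p) (fun j => p * j - R) ?_ ?_ ?_ ?_ ?_
  · intro h hh
    rw [mem_filter, mem_Icc, hdvd] at hh
    obtain ⟨⟨h1, h2⟩, h3⟩ := hh
    show (R + h) / p ∈ Icc 1 ((R + H) / p)
    rw [mem_Icc]
    refine ⟨?_, Nat.div_le_div_right (by omega)⟩
    exact Nat.div_pos (Nat.le_of_dvd (by omega) h3) hp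
  · intro j hj
    rw [mem_Icc] at hj
    show p * j - R ∈ _
    have h1 : p * 1 ≤ p * j := Nat.mul_le_mul_left p hj.1
    have h2 : p * j ≤ R + H := by
      have := Nat.mul_le_mul_left p hj.2
      exact this.trans (Nat.mul_div_le _ _)
    rw [mem_filter, mem_Icc, hdvd]
    refine ⟨⟨by omega, by omega⟩, ?_⟩
    rw [Nat.add_sub_cancel' (by omega)]
    exact dvd_mul_right _ _
  · intro h hh
    rw [mem_filter, mem_Icc, hdvd] at hh
    show p * ((R + h) / p) - R = h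
    rw [Nat.mul_div_cancel' hh.2]
    omega
  · intro j hj
    rw [mem_Icc] at hj
    have h1 : p * 1 ≤ p * j := Nat.mul_le_mul_left p hj.1
    show (R + (p * j - R)) / p = j
    rw [Nat.add_sub_cancel' (by omega), Nat.mul_div_cancel_left _ hp]
  · intro h hh
    rw [mem_filter, mem_Icc, hdvd] at hh
    show f (x + h) = f (u + (((R + h) / p : ℕ) : ℤ))
    rw [← hf (u + _)]
    congr 1
    have h4 : (p : ℤ) * (((R + h) / p : ℕ) : ℤ) = ((R + h : ℕ) : ℤ) := by
      rw [← Nat.cast_mul, Nat.mul_div_cancel' hh.2]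
    rw [mul_add, h4, ← hx0]
    push_cast
    ring

end Pool.Agent.MP_a12917_nt_GT
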