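import Mathlib
import Pool.Agent.Lib.MP_a12917_nt_GT.Defs
import Pool.Agent.Lib.MP_a12917_nt_GT.Basic
import Pool.Agent.Lib.MP_a12917_nt_GT.Scal
import Pool.Agent.Lib.MP_a12917_nt_GT.MeanDiv
import Pool.Agent.Lib.MP_a12917_nt_GT.KezB
import Pool.Agent.Lib.MP_a12917_nt_GT.Wt
import Pool.Agent.Lib.MP_a12917_nt_GT.RamA
import Pool.Agent.Lib.MP_a12917_nt_GT.Per

/-!
# MP_a12917_nt, project GT, module DMomS: moments of D for p ≤ H

(`ℓ = hs z`.)
`g = c + gt`, `c = wt (z/p) 1 = hs (z/p) ≤ ℓ` (`g_split`; `1 ∈ Qp y z p` since `z/p ≥ 1`; `ram_one`). By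
`scal` (for `g`, `g_dil`), `D p H g x = ∑_{j=1}^{K(x)} g(x/p + j) - Ub p H g x`,
`K(x) = ((x%p)+H)/p ∈ {⌊H/p⌋, ⌊H/p⌋+1}`, so
`D = c (K(x) - H/p) + T(x) - Ub p H gt x`, `T(x) = ∑_{j=1}^{K(x)} gt (x/p + j)`, `|K(x) - H/p| ≤ 1`. So
`D^{2k} ≤ 9^k (ℓ^{2k} + T^{2k} + Ub^{2k})` (`|a+b+c|^{2k} ≤ (3 max)^{2k}`). By `mean_div` (with
`Φ r u = (∑_{j=1}^{(r+H)/p} gt(u+j))^{2k}`, `N = Nm z p`) and `gt_window`,
`mean T^{2k} ≤ (4 (H/p+1))^k ℓ^{2k+4^k} ≤ (8H/p)^k ℓ^{2k+4^k}` (`⌊H/p⌋ ≥ 1`, `⌊H/p⌋+1 ≤ 2H/p`);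
`mean Ub^{2k} ≤ (4H)^k ℓ^{2k+4^k}/p^{2k} ≤ (4H/p)^k ℓ^{2k+4^k}` (`Ub_mom`). As `H/p ≥ 1`, `ℓ ≥ 1` the sum is
`≤ 9^k (1 + 8^k + 4^k) (H/p)^k ℓ^{2k+4^k} ≤ 4·72^k …`.
-/

set_option autoImplicit false

noncomputable section

namespace Pool.Agent.MP_a12917_nt_GT

open Finset

theorem g_split (y z p : ℕ) (hp : 1 ≤ p) (hpz : p ≤ z) (x : ℤ) :
    g y z p x = hs (z / p) + gt y z p x := by
  have h1 : (Qp y z p).filter (fun q => ¬ 2 ≤ q) = {1} := by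
    ext q
    rw [mem_filter, mem_singleton]
    constructor
    · rintro ⟨h1, h2⟩
      have h3 := mem_Icc.1 (mem_filter.1 h1).1
      omega
    · rintro rfl
      refine ⟨mem_filter.2 ⟨mem_Icc.2 ⟨le_rfl, Nat.div_pos hpz hp⟩, ?_, ?_⟩, by omega⟩
      · intro r hr
        simp at hr
      · intro r hr
        simp at hr
  unfold g gt
  rw [← sum_filter_add_sum_filter_not (Qp y z p) (fun q => 2 ≤ q), h1, sum_singleton, wt_one,
    ram_one, mul_one, add_comm]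

namespace DMomS

theorem three (a b c : ℝ) (k : ℕ) :
    (a + b + c) ^ (2 * k) ≤ 9 ^ k * (a ^ (2 * k) + b ^ (2 * k) + c ^ (2 * k)) := by
  have hM : ∃ M : ℝ, 0 ≤ M ∧ a ^ 2 ≤ M ∧ b ^ 2 ≤ M ∧ c ^ 2 ≤ M ∧
      M ^ k ≤ a ^ (2 * k) + b ^ (2 * k) + c ^ (2 * k) := by
    have ha : 0 ≤ a ^ (2 * k) := by rw [pow_mul]; positivity
    have hb : 0 ≤ b ^ (2 * k) := by rw [pow_mul]; positivity
    have hc : 0 ≤ c ^ (2 * k) := by rw [pow_mul]; positivity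
    rcases le_total (a ^ 2) (b ^ 2) with h1 | h1
    · rcases le_total (b ^ 2) (c ^ 2) with h2 | h2
      · refine ⟨c ^ 2, sq_nonneg _, h1.trans h2, h2, le_rfl, ?_⟩
        rw [← pow_mul]
        linarith
      · refine ⟨b ^ 2, sq_nonneg _, h1, le_rfl, h2, ?_⟩
        rw [← pow_mul]
        linarith
    · rcases le_total (a ^ 2) (c ^ 2) with h2 | h2
      · refine ⟨c ^ 2, sq_nonneg _, h2, h1.trans h2, le_rfl, ?_⟩
        rw [← pow_mul]
        linarith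
      · refine ⟨a ^ 2, sq_nonneg _, le_rfl, h1, h2, ?_⟩
        rw [← pow_mul]
        linarith
  obtain ⟨M, hM0, h1, h2, h3, h4⟩ := hM
  have h5 : (a + b + c) ^ 2 ≤ 9 * M := by
    nlinarith [sq_nonneg (a - b), sq_nonneg (b - c), sq_nonneg (a - c)]
  rw [pow_mul]
  calc ((a + b + c) ^ 2) ^ k ≤ (9 * M) ^ k := pow_le_pow_left₀ (sq_nonneg _) h5 k
    _ = 9 ^ k * M ^ k := mul_pow _ _ _
    _ ≤ _ := mul_le_mul_of_nonneg_left h4 (by positivity)

theorem gt_per (y z p : ℕ) (x : ℤ) : gt y z p (x + (Nm z p : ℤ)) = gt y z p x := by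
  unfold gt
  refine sum_congr rfl fun q hq => ?_
  rw [ram_add q x (Nm z p : ℤ)
    (Int.natCast_dvd_natCast.2 (q_dvd y z p q (mem_filter.1 hq).1))]

theorem K_bd (p H r : ℕ) (hp : 0 < p) (hr : r < p) :
    |(((r + H) / p : ℕ) : ℝ) - (H : ℝ) / p| ≤ 1 := by
  have hpR : (0 : ℝ) < p := by exact_mod_cast hp
  have h1 : ((r + H) / p) * p ≤ r + H := Nat.div_mul_le_self _ _
  have h2 : r + H < ((r + H) / p + 1) * p := by
    rw [mul_comm]
    exact Nat.lt_mul_div_succ _ hp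
  have h1' : (((r + H) / p : ℕ) : ℝ) * p ≤ r + H := by exact_mod_cast h1
  have h2' : (r : ℝ) + H < ((((r + H) / p : ℕ) : ℝ) + 1) * p := by exact_mod_cast h2
  have hr' : (r : ℝ) < p := by exact_mod_cast hr
  have hr0 : (0 : ℝ) ≤ r := Nat.cast_nonneg r
  rw [abs_le]
  constructor
  · rw [le_sub_iff_add_le, ← sub_eq_neg_add, sub_le_iff_le_add, div_le_iff₀ hpR]
    linarith
  · rw [sub_le_iff_le_add, ← sub_le_iff_le_add', le_div_iff₀ hpR]
    linarith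

theorem D_eq (y z p H : ℕ) (hp : p.Prime) (hpz : p ≤ z) (x : ℤ) :
    D p H (g y z p) x =
      hs (z / p) * (((((x % (p : ℤ)).toNat + H) / p : ℕ) : ℝ) - (H : ℝ) / p) +
      (∑ j ∈ Icc 1 (((x % (p : ℤ)).toNat + H) / p), gt y z p (x / (p : ℤ) + (j : ℤ))) +
      (-Ub p H (gt y z p) x) := by
  have h1 : D p H (g y z p) x =
      ∑ h ∈ Icc 1 H, (if (p : ℤ) ∣ x + (h : ℤ) then (1 : ℝ) else 0) * g y z p (x + (h : ℤ)) -
      (∑ h ∈ Icc 1 H, g y z p (x + (h : ℤ))) / p := by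
    unfold D
    rw [sum_div, ← sum_sub_distrib]
    refine sum_congr rfl fun h _ => ?_
    ring
  rw [h1, scal p H hp.pos (g y z p) (g_dil y z p hp) x]
  have h2 : ∀ (s : Finset ℕ) (w : ℕ → ℤ), ∑ j ∈ s, g y z p (w j) =
      s.card * hs (z / p) + ∑ j ∈ s, gt y z p (w j) := by
    intro s w
    rw [sum_congr rfl fun j _ => g_split y z p hp.one_lt.le hpz (w j), sum_add_distrib,
      sum_const, nsmul_eq_mul]
  rw [h2, h2, Nat.card_Icc, Nat.card_Icc, Nat.add_sub_cancel, Nat.add_sub_cancel]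
  unfold Ub
  ring

end DMomS

theorem dmom_small (k y z p H : ℕ) (hp : p.Prime) (hpz : p ≤ z) (hpH : p ≤ H) :
    mean (Lm z) (fun x => D p H (g y z p) x ^ (2 * k)) ≤
      4 * 72 ^ k * ((H : ℝ) / p) ^ k * hs z ^ (2 * k + 4 ^ k) := by
  have hz : 1 ≤ z := hp.one_lt.le.trans hpz
  have hH : 1 ≤ H := hp.one_lt.le.trans hpH
  have hl1 : 1 ≤ hs z := one_le_hs z hz
  have hl0 : 0 ≤ hs z := hs_nonneg z
  have hpR : (0 : ℝ) < p := by exact_mod_cast hp.pos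
  have hp1 : (1 : ℝ) ≤ p := by exact_mod_cast hp.one_lt.le
  have hq : (1 : ℝ) ≤ (H : ℝ) / p := by
    rw [le_div_iff₀ hpR, one_mul]
    exact_mod_cast hpH
  have hmod : ∀ x : ℤ, (x % (p : ℤ)).toNat < p := by
    intro x
    have h1 := Int.emod_lt_of_pos x (b := (p : ℤ)) (by exact_mod_cast hp.pos)
    have h2 := Int.emod_nonneg x (b := (p : ℤ)) (by exact_mod_cast hp.pos.ne')
    omega
  -- the first term
  have hA : mean (Lm z) (fun x => (hs (z / p) *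
      (((((x % (p : ℤ)).toNat + H) / p : ℕ) : ℝ) - (H : ℝ) / p)) ^ (2 * k)) ≤
      hs z ^ (2 * k) := by
    refine (mean_mono _ _ (fun _ => hs z ^ (2 * k)) fun x => ?_).trans
      (mean_const (Lm z) (Lm_pos z) _).le
    have h1 := DMomS.K_bd p H _ hp.pos (hmod x)
    have h2 : |hs (z / p) * (((((x % (p : ℤ)).toNat + H) / p : ℕ) : ℝ) - (H : ℝ) / p)| ≤
        hs z := by
      rw [abs_mul, abs_of_nonneg (hs_nonneg _)]
      calc hs (z / p) * |((((x % (p : ℤ)).toNat + H) / p : ℕ) : ℝ) - (H : ℝ) / p|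
          ≤ hs z * 1 := mul_le_mul (hs_mono _ _ (Nat.div_le_self z p)) h1 (abs_nonneg _) hl0
        _ = hs z := mul_one _
    rw [← Even.pow_abs (even_two_mul k)]
    exact pow_le_pow_left₀ (abs_nonneg _) h2 _
  -- the second term
  have hB : mean (Lm z) (fun x => (∑ j ∈ Icc 1 (((x % (p : ℤ)).toNat + H) / p),
      gt y z p (x / (p : ℤ) + (j : ℤ))) ^ (2 * k)) ≤
      (8 * ((H : ℝ) / p)) ^ k * hs z ^ (2 * k + 4 ^ k) := by
    rw [mean_div (Nm z p) p (Lm z) (Lm_pos z) (Nm_dvd z p hp.one_lt.le hpz)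
      (fun r u => (∑ j ∈ Icc 1 ((r + H) / p), gt y z p (u + (j : ℤ))) ^ (2 * k)) (by
        intro r x
        congr 1
        refine sum_congr rfl fun j _ => ?_
        rw [add_right_comm, DMomS.gt_per])]
    rw [div_le_iff₀ hpR]
    have h1 : ∀ r ∈ range p, mean (Lm z) ((fun r u =>
        (∑ j ∈ Icc 1 ((r + H) / p), gt y z p (u + (j : ℤ))) ^ (2 * k)) r) ≤
        (8 * ((H : ℝ) / p)) ^ k * hs z ^ (2 * k + 4 ^ k) := by
      intro r hr
      have hr' := mem_range.1 hr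
      have hK : 1 ≤ (r + H) / p := Nat.div_pos (hpH.trans (Nat.le_add_left _ _)) hp.pos
      refine (gt_window k y z p _ hz hK).trans ?_
      refine mul_le_mul_of_nonneg_right (pow_le_pow_left₀ (by positivity) ?_ k) (by positivity)
      have h2 := (abs_le.1 (DMomS.K_bd p H r hp.pos hr')).2
      linarith
    refine (sum_le_sum h1).trans (le_of_eq ?_)
    rw [sum_const, card_range, nsmul_eq_mul]
    ring
  -- the third term
  have hC : mean (Lm z) (fun x => (-Ub p H (gt y z p) x) ^ (2 * k)) ≤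
      (4 * ((H : ℝ) / p)) ^ k * hs z ^ (2 * k + 4 ^ k) := by
    have h1 : (fun x => (-Ub p H (gt y z p) x) ^ (2 * k)) =
        fun x => Ub p H (gt y z p) x ^ (2 * k) := by
      funext x
      rw [Even.neg_pow (even_two_mul k)]
    rw [h1]
    refine (Ub_mom k y z p H hz hH).trans ?_
    rw [mul_div_right_comm]
    refine mul_le_mul_of_nonneg_right ?_ (by positivity)
    rw [mul_div_assoc' 4 (H : ℝ) (p : ℝ), div_pow]
    refine div_le_div_of_nonneg_left (by positivity) (by positivity) ?_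
    exact pow_le_pow_right₀ hp1 (by omega)
  -- the sum
  have hsum : mean (Lm z) (fun x => D p H (g y z p) x ^ (2 * k)) ≤
      9 ^ k * (hs z ^ (2 * k) + (8 * ((H : ℝ) / p)) ^ k * hs z ^ (2 * k + 4 ^ k) +
        (4 * ((H : ℝ) / p)) ^ k * hs z ^ (2 * k + 4 ^ k)) := by
    refine (mean_mono _ _ (fun x => 9 ^ k * ((hs (z / p) *
      (((((x % (p : ℤ)).toNat + H) / p : ℕ) : ℝ) - (H : ℝ) / p)) ^ (2 * k) +
      (∑ j ∈ Icc 1 (((x % (p : ℤ)).toNat + H) / p),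
        gt y z p (x / (p : ℤ) + (j : ℤ))) ^ (2 * k) +
      (-Ub p H (gt y z p) x) ^ (2 * k))) fun x => ?_).trans ?_
    · rw [DMomS.D_eq y z p H hp hpz x]
      exact DMomS.three _ _ _ k
    · rw [mean_const_mul, mean_add, mean_add]
      exact mul_le_mul_of_nonneg_left (add_le_add (add_le_add hA hB) hC) (by positivity)
  refine hsum.trans ?_
  have hQ1 : (1 : ℝ) ≤ ((H : ℝ) / p) ^ k := one_le_pow₀ hq
  have hE : hs z ^ (2 * k) ≤ hs z ^ (2 * k + 4 ^ k) := pow_le_pow_right₀ hl1 (Nat.le_add_right _ _)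
  have hE0 : 0 ≤ hs z ^ (2 * k + 4 ^ k) := by positivity
  have h8 : (1 : ℝ) ≤ 8 ^ k := one_le_pow₀ (by norm_num)
  have h48 : (4 : ℝ) ^ k ≤ 8 ^ k := pow_le_pow_left₀ (by norm_num) (by norm_num) k
  have h72 : (72 : ℝ) ^ k = 9 ^ k * 8 ^ k := by
    rw [← mul_pow]
    norm_num
  rw [h72, mul_pow, mul_pow]
  set Q := ((H : ℝ) / p) ^ k
  set E := hs z ^ (2 * k + 4 ^ k)
  have hT1 : hs z ^ (2 * k) ≤ 8 ^ k * Q * E := by
    calc hs z ^ (2 * k) ≤ E := hE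
      _ = 1 * 1 * E := by ring
      _ ≤ 8 ^ k * Q * E := by gcongr
  have hT2 : 4 ^ k * Q * E ≤ 8 ^ k * Q * E := by gcongr
  have hT3 : 0 ≤ 8 ^ k * Q * E := by positivity
  calc 9 ^ k * (hs z ^ (2 * k) + 8 ^ k * Q * E + 4 ^ k * Q * E)
      ≤ 9 ^ k * (4 * (8 ^ k * Q * E)) := mul_le_mul_of_nonneg_left (by linarith) (by positivity)
    _ = 4 * (9 ^ k * 8 ^ k) * Q * E := by ring

end Pool.Agent.MP_a12917_nt_GT
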