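import Mathlib
import Pool.Agent.Lib.MP_a12917_nt_GT.Defs
import Pool.Agent.Lib.MP_a12917_nt_GT.Basic
import Pool.Agent.Lib.MP_a12917_nt_GT.Cov
import Pool.Agent.Lib.MP_a12917_nt_GT.LcmCount

/-!
# MP_a12917_nt, project GT, module DvVar: variance of window sums of the square of the divisor count

(`ℓ = hs z`.)
`cnt(n)² = ∑_{a,b ≤ z} 1_{[a,b] ∣ n}`, so `∑_h cnt(x+h)² - H mean cnt² = ∑_{a,b} Ua [a,b] H x`
(`mean_Ua`; the mean of `cnt²` is `∑ 1/[a,b]`). Square and take the mean: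
`∑_{a,b,a',b'} mean(Ua c H · Ua c' H) ≤ H ∑ 1/lcm(a,b,a',b')` with `c = [a,b]`, `c' = [a',b']`
(`cov_le`; `c, c' ∣ L`), and `∑ 1/lcm(a,b,a',b') = mean cnt⁴` (as in `lcm_count`, or directly:
`cnt⁴ = ∑ 1_{lcm(c,c') ∣ n}` and `mean_dvd`).
-/

set_option autoImplicit false

noncomputable section

namespace Pool.Agent.MP_a12917_nt_GT

open Finset

namespace DvVar

theorem ite_lcm (a b : ℕ) (n : ℤ) :
    (if (a : ℤ) ∣ n then (1 : ℝ) else 0) * (if (b : ℤ) ∣ n then (1 : ℝ) else 0) =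
      if ((Nat.lcm a b : ℕ) : ℤ) ∣ n then (1 : ℝ) else 0 := by
  have h : ((Nat.lcm a b : ℕ) : ℤ) ∣ n ↔ (a : ℤ) ∣ n ∧ (b : ℤ) ∣ n := by
    rw [Int.natCast_dvd, Int.natCast_dvd, Int.natCast_dvd]
    exact Nat.lcm_dvd_iff
  by_cases h1 : (a : ℤ) ∣ n <;> by_cases h2 : (b : ℤ) ∣ n <;> simp [h, h1, h2]

theorem cnt_eq (Q : Finset ℕ) (n : ℤ) :
    (cnt Q n : ℝ) = ∑ a ∈ Q, if (a : ℤ) ∣ n then (1 : ℝ) else 0 := by
  unfold cnt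
  rw [Finset.sum_boole]

theorem cnt_sq (Q : Finset ℕ) (n : ℤ) : (cnt Q n : ℝ) ^ 2 =
    ∑ u ∈ Q ×ˢ Q, if ((Nat.lcm u.1 u.2 : ℕ) : ℤ) ∣ n then (1 : ℝ) else 0 := by
  rw [cnt_eq, sq, sum_mul_sum, ← sum_product']
  exact sum_congr rfl fun u _ => ite_lcm u.1 u.2 n

end DvVar

theorem dv_var (z H L : ℕ) (hL0 : 0 < L) (hL : ∀ q ∈ Icc 1 z, q ∣ L) :
    mean L (fun x => ((∑ h ∈ Icc 1 H, (cnt (Icc 1 z) (x + (h : ℤ)) : ℝ) ^ 2) -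
        H * mean L (fun x => (cnt (Icc 1 z) x : ℝ) ^ 2)) ^ 2) ≤
      H * mean L (fun x => (cnt (Icc 1 z) x : ℝ) ^ 4) := by
  set P : Finset (ℕ × ℕ) := Icc 1 z ×ˢ Icc 1 z with hP
  have hc : ∀ u ∈ P, Nat.lcm u.1 u.2 ∣ L := by
    intro u hu
    rw [hP, mem_product] at hu
    exact Nat.lcm_dvd (hL _ hu.1) (hL _ hu.2)
  have h1 : mean L (fun x => (cnt (Icc 1 z) x : ℝ) ^ 2) =
      ∑ u ∈ P, 1 / ((Nat.lcm u.1 u.2 : ℕ) : ℝ) := by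
    simp only [DvVar.cnt_sq]
    rw [mean_sum]
    exact sum_congr rfl fun u hu => mean_dvd _ L (hc u hu) hL0
  have h2 : ∀ x : ℤ, (∑ h ∈ Icc 1 H, (cnt (Icc 1 z) (x + (h : ℤ)) : ℝ) ^ 2) -
      H * mean L (fun x => (cnt (Icc 1 z) x : ℝ) ^ 2) =
      ∑ u ∈ P, Ua (Nat.lcm u.1 u.2) H x := by
    intro x
    rw [h1, mul_sum]
    simp only [DvVar.cnt_sq]
    rw [sum_comm, ← sum_sub_distrib]
    refine sum_congr rfl fun u _ => ?_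
    unfold Ua
    rw [mul_one_div]
  have h3 : mean L (fun x => ((∑ h ∈ Icc 1 H, (cnt (Icc 1 z) (x + (h : ℤ)) : ℝ) ^ 2) -
      H * mean L (fun x => (cnt (Icc 1 z) x : ℝ) ^ 2)) ^ 2) =
      ∑ u ∈ P, ∑ v ∈ P, mean L (fun x => Ua (Nat.lcm u.1 u.2) H x *
        Ua (Nat.lcm v.1 v.2) H x) := by
    rw [mean_congr L _ (fun x => ∑ u ∈ P, ∑ v ∈ P, Ua (Nat.lcm u.1 u.2) H x *
        Ua (Nat.lcm v.1 v.2) H x) fun x => by rw [h2, sq, sum_mul_sum], mean_sum]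
    exact sum_congr rfl fun u _ => mean_sum _ _ _
  have h4 : mean L (fun x => (cnt (Icc 1 z) x : ℝ) ^ 4) =
      ∑ u ∈ P, ∑ v ∈ P, 1 / ((Nat.lcm (Nat.lcm u.1 u.2) (Nat.lcm v.1 v.2) : ℕ) : ℝ) := by
    rw [mean_congr L _ (fun x => ∑ u ∈ P, ∑ v ∈ P,
      if ((Nat.lcm (Nat.lcm u.1 u.2) (Nat.lcm v.1 v.2) : ℕ) : ℤ) ∣ x then (1 : ℝ) else 0)
      fun x => by
        have e : (cnt (Icc 1 z) x : ℝ) ^ 4 = (cnt (Icc 1 z) x : ℝ) ^ 2 *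
          (cnt (Icc 1 z) x : ℝ) ^ 2 := by ring
        rw [e, DvVar.cnt_sq, sum_mul_sum]
        exact sum_congr rfl fun u _ => sum_congr rfl fun v _ => DvVar.ite_lcm _ _ x, mean_sum]
    refine sum_congr rfl fun u hu => ?_
    rw [mean_sum]
    exact sum_congr rfl fun v hv => mean_dvd _ L (Nat.lcm_dvd (hc u hu) (hc v hv)) hL0
  rw [h3, h4, mul_sum]
  refine sum_le_sum fun u hu => ?_
  rw [mul_sum]
  refine sum_le_sum fun v hv => ?_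
  rw [mul_one_div]
  exact cov_le _ _ H L (hc u hu) (hc v hv) hL0

end Pool.Agent.MP_a12917_nt_GT
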