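import Mathlib
import Pool.Agent.Lib.MP_a12917_nt_GT.Defs
import Pool.Agent.Lib.MP_a12917_nt_GT.Basic

/-!
# MP_a12917_nt, project GT, module SdF: facts on the standard deviation

(`ℓ = hs z`.)
`sd L f = √(mean L (f - mean L f)²)`. `sd_add`: Minkowski for the mean of squares: with `u = f - mean f`,
`v = h - mean h`, `mean (u+v)² = mean u² + 2 mean uv + mean v² ≤ (√mean u² + √mean v²)²` (`mean_cs`).
`sd_const_add`, `sd_const_mul` are immediate (`mean_const` needs `L > 0`). `sd_le`:
`mean (f - mean f)² = mean f² - (mean f)²`.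
-/

set_option autoImplicit false

noncomputable section

namespace Pool.Agent.MP_a12917_nt_GT

open Finset

theorem sd_nonneg (L : ℕ) (f : ℤ → ℝ) : 0 ≤ sd L f := Real.sqrt_nonneg _

theorem mink (L : ℕ) (u v : ℤ → ℝ) :
    Real.sqrt (mean L (fun x => (u x + v x) ^ 2)) ≤
      Real.sqrt (mean L (fun x => u x ^ 2)) + Real.sqrt (mean L (fun x => v x ^ 2)) := by
  have h0 : 0 ≤ mean L (fun x => u x ^ 2) := mean_nonneg L _ fun x => sq_nonneg _
  have h1 : 0 ≤ mean L (fun x => v x ^ 2) := mean_nonneg L _ fun x => sq_nonneg _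
  apply Real.sqrt_le_iff.2
  refine ⟨by positivity, ?_⟩
  have h2 : mean L (fun x => (u x + v x) ^ 2) =
      mean L (fun x => u x ^ 2) + 2 * mean L (fun x => u x * v x) +
        mean L (fun x => v x ^ 2) := by
    rw [← mean_const_mul, ← mean_add, ← mean_add]
    exact mean_congr L _ _ fun x => by ring
  rw [h2, add_sq, Real.sq_sqrt h0, Real.sq_sqrt h1]
  have := mean_cs L u v
  linarith

theorem sd_add (L : ℕ) (f h : ℤ → ℝ) : sd L (fun x => f x + h x) ≤ sd L f + sd L h := by
  unfold sd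
  have := mink L (fun x => f x - mean L f) (fun x => h x - mean L h)
  refine le_trans (le_of_eq ?_) this
  congr 1
  refine mean_congr L _ _ fun x => ?_
  rw [mean_add]
  ring

theorem sd_const_add (L : ℕ) (hL : 0 < L) (c : ℝ) (f : ℤ → ℝ) :
    sd L (fun x => c + f x) = sd L f := by
  unfold sd
  congr 1
  refine mean_congr L _ _ fun x => ?_
  rw [mean_add, mean_const L hL]
  ring

theorem sd_const_mul (L : ℕ) (c : ℝ) (f : ℤ → ℝ) : sd L (fun x => c * f x) = |c| * sd L f := by
  unfold sd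
  rw [← Real.sqrt_sq (abs_nonneg c), ← Real.sqrt_mul (sq_nonneg _), sq_abs, ← mean_const_mul]
  congr 1
  refine mean_congr L _ _ fun x => ?_
  rw [mean_const_mul]
  ring

theorem sd_le (L : ℕ) (hL : 0 < L) (f : ℤ → ℝ) : sd L f ≤ Real.sqrt (mean L (fun x => f x ^ 2)) := by
  unfold sd
  apply Real.sqrt_le_sqrt
  have h1 : mean L (fun x => (f x - mean L f) ^ 2) =
      mean L (fun x => f x ^ 2) - 2 * mean L f * mean L f + mean L f ^ 2 := by
    rw [← mean_const_mul, ← mean_const L hL (mean L f ^ 2), ← mean_sub, ← mean_add]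
    exact mean_congr L _ _ fun x => by ring
  rw [h1]
  nlinarith [sq_nonneg (mean L f)]

end Pool.Agent.MP_a12917_nt_GT
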