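import Mathlib
import Pool.Agent.Lib.MP_a12917_nt_GT.Defs
import Pool.Agent.Lib.MP_a12917_nt_GT.Basic
import Pool.Agent.Lib.MP_a12917_nt_GT.DU

/-!
# MP_a12917_nt, project GT, module VDec: decomposition of the conditional variance

(`ℓ = hs z`.)
Replace the class index `b ∈ range p` by `b ∈ [1,p]` (`0 ↔ p`). The elements of the class of `b ∈ [1,p]` in
`Icc 1 H` are `b + p j`, `0 ≤ j < K_b`, `K_b = H/p + 1` if `b ≤ H % p` and `K_b = H/p` if `b > H % p`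
(natural division). So `U_b(c + f) = c K_b + W_b`, `W_b = ∑_{j<K_b} f(x + b + p j)`,
`Ub(c+f) = c H/p + Y`, `Y = Ub p H f x = (1/p) ∑_b W_b`. Hence
`V = (1/p) ∑_b (c (K_b - H/p) + W_b - Y)² = c² (1/p) ∑ (K_b - H/p)² + (2c/p) ∑_b (K_b - H/p)(W_b - Y)
 + (1/p) ∑_b (W_b - Y)²`, and `∑_b (K_b - H/p) = 0` kills the `Y` in the middle term,
`(1/p) ∑_b (W_b - Y)² = (1/p) ∑_b W_b² - Y²`. Split the sums over `b` at `H % p`: these are the
functions `A1`, `A2`. `κ = c² (1/p) ∑ (K_b - H/p)²`.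
-/

set_option autoImplicit false

noncomputable section

namespace Pool.Agent.MP_a12917_nt_GT

open Finset

namespace VDec

/-- number of elements of the class of `b` -/
def Kb (p H b : ℕ) : ℕ := if b ≤ H % p then H / p + 1 else H / p

theorem reindex (p : ℕ) (hp : 0 < p) (G : ℕ → ℝ) :
    ∑ b ∈ range p, G b = ∑ b ∈ Ioc 0 p, G (b % p) := by
  obtain ⟨q, rfl⟩ : ∃ q, p = q + 1 := ⟨p - 1, by omega⟩
  have h1 : ∑ b ∈ Ioc 0 (q + 1), G (b % (q + 1)) =
      ∑ i ∈ range (q + 1), G ((i + 1) % (q + 1)) := by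
    refine sum_nbij' (fun b => b - 1) (fun i => i + 1) ?_ ?_ ?_ ?_ ?_
    · intro b hb
      simp only [mem_Ioc, mem_range] at *
      omega
    · intro i hi
      simp only [mem_Ioc, mem_range] at *
      omega
    · intro b hb
      simp only [mem_Ioc] at hb
      omega
    · intro i _
      exact Nat.add_sub_cancel i 1
    · intro b hb
      simp only [mem_Ioc] at hb
      rw [Nat.sub_add_cancel hb.1]
  rw [h1, sum_range_succ', sum_range_succ, Nat.mod_self]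
  congr 1
  refine sum_congr rfl fun i hi => ?_
  rw [Nat.mod_eq_of_lt]
  have := mem_range.1 hi
  omega

theorem class_eq (p H b : ℕ) (hp : 0 < p) (hb0 : 0 < b) (hb : b ≤ p) :
    (Icc 1 H).filter (fun h => h % p = b % p) =
      (range (Kb p H b)).image fun j => b + p * j := by
  ext h
  simp only [mem_filter, mem_Icc, mem_image, mem_range]
  have hH := Nat.div_add_mod H p
  have hr := Nat.mod_lt H hp
  constructor
  · rintro ⟨⟨h1, h2⟩, h3⟩
    have hle : b ≤ h := by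
      by_contra hlt
      push Not at hlt
      have hhp : h < p := by omega
      rw [Nat.mod_eq_of_lt hhp] at h3
      rcases Nat.lt_or_eq_of_le hb with h4 | h4
      · rw [Nat.mod_eq_of_lt h4] at h3
        omega
      · rw [h4, Nat.mod_self] at h3
        omega
    obtain ⟨j, hj⟩ : p ∣ h - b := (Nat.modEq_iff_dvd' hle).1 (Eq.symm h3)
    refine ⟨j, ?_, by omega⟩
    unfold Kb
    split_ifs with hbr
    · by_contra hcon
      push Not at hcon
      have h5 := Nat.mul_le_mul_left p hcon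
      rw [Nat.mul_add, Nat.mul_one] at h5
      omega
    · by_contra hcon
      push Not at hcon
      have h5 := Nat.mul_le_mul_left p hcon
      omega
  · rintro ⟨j, h1, h2⟩
    unfold Kb at h1
    refine ⟨⟨by omega, ?_⟩, ?_⟩
    · split_ifs at h1 with hbr
      · have h5 := Nat.mul_le_mul_left p (Nat.le_of_lt_succ h1)
        omega
      · have h5 := Nat.mul_le_mul_left p (Nat.succ_le_of_lt h1)
        rw [Nat.succ_eq_add_one, Nat.mul_add, Nat.mul_one] at h5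
        omega
    · rw [← h2, Nat.add_mul_mod_self_left]

theorem U_eq (p H b : ℕ) (hp : 0 < p) (hb0 : 0 < b) (hb : b ≤ p) (F : ℤ → ℝ) (x : ℤ) :
    U p H F (b % p) x =
      ∑ j ∈ range (Kb p H b), F (x + (b : ℤ) + (p : ℤ) * (j : ℤ)) := by
  unfold U
  rw [class_eq p H b hp hb0 hb, sum_image]
  · refine sum_congr rfl fun j _ => ?_
    congr 1
    push_cast
    ring
  · intro j _ j' _ h
    exact Nat.eq_of_mul_eq_mul_left hp (Nat.add_left_cancel h)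

theorem sum_U (p H : ℕ) (hp : 0 < p) (F : ℤ → ℝ) (x : ℤ) :
    ∑ b ∈ Ioc 0 p, ∑ j ∈ range (Kb p H b), F (x + (b : ℤ) + (p : ℤ) * (j : ℤ)) =
      ∑ h ∈ Icc 1 H, F (x + (h : ℤ)) := by
  have h1 : ∑ b ∈ Ioc 0 p, ∑ j ∈ range (Kb p H b), F (x + (b : ℤ) + (p : ℤ) * (j : ℤ)) =
      ∑ b ∈ Ioc 0 p, U p H F (b % p) x := by
    refine sum_congr rfl fun b hb => ?_
    rw [mem_Ioc] at hb
    rw [U_eq p H b hp hb.1 hb.2]
  rw [h1, ← reindex p hp (fun b => U p H F b x)]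
  exact sum_fiberwise_of_maps_to (fun h _ => mem_range.2 (Nat.mod_lt h hp)) _

end VDec

theorem V_dec (p H : ℕ) (hp : 0 < p) (c : ℝ) (f : ℤ → ℝ) : ∃ κ : ℝ, ∀ x : ℤ,
    V p H (fun n => c + f n) x =
      κ + 2 * c * ((((H / p : ℕ) : ℝ) + 1 - (H : ℝ) / p) * A1 p 0 (H % p) (H / p + 1) f x +
          (((H / p : ℕ) : ℝ) - (H : ℝ) / p) * A1 p (H % p) (p - H % p) (H / p) f x) +
        A2 p 0 (H % p) (H / p + 1) f x + A2 p (H % p) (p - H % p) (H / p) f x -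
        Ub p H f x ^ 2 := by
  have hp' : (p : ℝ) ≠ 0 := by positivity
  have hr : H % p ≤ p := (Nat.mod_lt H hp).le
  refine ⟨c ^ 2 * (∑ b ∈ Ioc 0 p, ((VDec.Kb p H b : ℝ) - (H : ℝ) / p) ^ 2) / p, fun x => ?_⟩
  obtain ⟨W, hW⟩ : ∃ W : ℕ → ℝ, W = fun b =>
    ∑ j ∈ range (VDec.Kb p H b), f (x + (b : ℤ) + (p : ℤ) * (j : ℤ)) := ⟨_, rfl⟩
  obtain ⟨Y, hY⟩ : ∃ Y, Y = Ub p H f x := ⟨_, rfl⟩
  have hWY : ∑ b ∈ Ioc 0 p, W b = p * Y := by
    rw [hW, hY, VDec.sum_U p H hp f x]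
    unfold Ub
    field_simp
  have hK : ∑ b ∈ Ioc 0 p, ((VDec.Kb p H b : ℝ) - (H : ℝ) / p) = 0 := by
    have h1 := VDec.sum_U p H hp (fun _ => 1) x
    simp only [sum_const, card_range, nsmul_eq_mul, mul_one, Nat.card_Icc,
      Nat.add_sub_cancel] at h1
    rw [sum_sub_distrib, h1, sum_const, Nat.card_Ioc, nsmul_eq_mul, Nat.sub_zero]
    field_simp
    ring
  have hUb : Ub p H (fun n => c + f n) x = c * ((H : ℝ) / p) + Y := by
    rw [hY]
    unfold Ub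
    rw [sum_add_distrib, sum_const, Nat.card_Icc, nsmul_eq_mul, Nat.add_sub_cancel]
    field_simp
  have hV : V p H (fun n => c + f n) x =
      (∑ b ∈ Ioc 0 p, (c * ((VDec.Kb p H b : ℝ) - (H : ℝ) / p) + (W b - Y)) ^ 2) / p := by
    unfold V
    rw [VDec.reindex p hp (fun b => (U p H (fun n => c + f n) b x -
      Ub p H (fun n => c + f n) x) ^ 2)]
    congr 1
    refine sum_congr rfl fun b hb => ?_
    rw [mem_Ioc] at hb
    rw [VDec.U_eq p H b hp hb.1 hb.2, hUb, sum_add_distrib, sum_const, card_range,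
      nsmul_eq_mul, hW]
    ring
  have hexp : ∑ b ∈ Ioc 0 p, (c * ((VDec.Kb p H b : ℝ) - (H : ℝ) / p) + (W b - Y)) ^ 2 =
      c ^ 2 * (∑ b ∈ Ioc 0 p, ((VDec.Kb p H b : ℝ) - (H : ℝ) / p) ^ 2) +
      2 * c * (∑ b ∈ Ioc 0 p, ((VDec.Kb p H b : ℝ) - (H : ℝ) / p) * W b) -
      2 * c * Y * (∑ b ∈ Ioc 0 p, ((VDec.Kb p H b : ℝ) - (H : ℝ) / p)) +
      ∑ b ∈ Ioc 0 p, W b ^ 2 - 2 * Y * (∑ b ∈ Ioc 0 p, W b) + p * Y ^ 2 := by
    have h1 : (p : ℝ) * Y ^ 2 = ∑ _b ∈ Ioc 0 p, Y ^ 2 := by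
      rw [sum_const, Nat.card_Ioc, nsmul_eq_mul, Nat.sub_zero]
    rw [h1]
    simp only [mul_sum]
    rw [← sum_add_distrib, ← sum_sub_distrib, ← sum_add_distrib, ← sum_sub_distrib,
      ← sum_add_distrib]
    refine sum_congr rfl fun b _ => ?_
    ring
  have hsplit : ∀ G : ℕ → ℝ, ∑ b ∈ Ioc 0 p, G b =
      ∑ b ∈ Ioc 0 (H % p), G b + ∑ b ∈ Ioc (H % p) p, G b := fun G =>
    (sum_Ioc_consecutive G (Nat.zero_le _) hr).symm
  have hK1 : ∀ b ∈ Ioc 0 (H % p), VDec.Kb p H b = H / p + 1 := fun b hb =>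
    if_pos (mem_Ioc.1 hb).2
  have hK2 : ∀ b ∈ Ioc (H % p) p, VDec.Kb p H b = H / p := fun b hb =>
    if_neg (not_le.2 (mem_Ioc.1 hb).1)
  have hmid : ∑ b ∈ Ioc 0 p, ((VDec.Kb p H b : ℝ) - (H : ℝ) / p) * W b =
      p * ((((H / p : ℕ) : ℝ) + 1 - (H : ℝ) / p) * A1 p 0 (H % p) (H / p + 1) f x +
          (((H / p : ℕ) : ℝ) - (H : ℝ) / p) * A1 p (H % p) (p - H % p) (H / p) f x) := by
    unfold A1
    rw [hsplit, Nat.zero_add, Nat.add_sub_cancel' hr]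
    have h1 : ∑ b ∈ Ioc 0 (H % p), ((VDec.Kb p H b : ℝ) - (H : ℝ) / p) * W b =
        (((H / p : ℕ) : ℝ) + 1 - (H : ℝ) / p) * ∑ b ∈ Ioc 0 (H % p),
          ∑ j ∈ range (H / p + 1), f (x + (b : ℤ) + (p : ℤ) * (j : ℤ)) := by
      rw [mul_sum]
      refine sum_congr rfl fun b hb => ?_
      rw [hW]
      beta_reduce
      rw [hK1 b hb]
      push_cast
      ring
    have h2 : ∑ b ∈ Ioc (H % p) p, ((VDec.Kb p H b : ℝ) - (H : ℝ) / p) * W b =
        (((H / p : ℕ) : ℝ) - (H : ℝ) / p) * ∑ b ∈ Ioc (H % p) p,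
          ∑ j ∈ range (H / p), f (x + (b : ℤ) + (p : ℤ) * (j : ℤ)) := by
      rw [mul_sum]
      refine sum_congr rfl fun b hb => ?_
      rw [hW]
      beta_reduce
      rw [hK2 b hb]
    rw [h1, h2]
    field_simp
  have hsq : ∑ b ∈ Ioc 0 p, W b ^ 2 =
      p * (A2 p 0 (H % p) (H / p + 1) f x + A2 p (H % p) (p - H % p) (H / p) f x) := by
    unfold A2
    rw [hsplit, Nat.zero_add, Nat.add_sub_cancel' hr]
    have h1 : ∑ b ∈ Ioc 0 (H % p), W b ^ 2 = ∑ b ∈ Ioc 0 (H % p),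
          (∑ j ∈ range (H / p + 1), f (x + (b : ℤ) + (p : ℤ) * (j : ℤ))) ^ 2 := by
      refine sum_congr rfl fun b hb => ?_
      rw [hW]
      beta_reduce
      rw [hK1 b hb]
    have h2 : ∑ b ∈ Ioc (H % p) p, W b ^ 2 = ∑ b ∈ Ioc (H % p) p,
          (∑ j ∈ range (H / p), f (x + (b : ℤ) + (p : ℤ) * (j : ℤ))) ^ 2 := by
      refine sum_congr rfl fun b hb => ?_
      rw [hW]
      beta_reduce
      rw [hK2 b hb]
    rw [h1, h2]
    field_simp
  rw [hV, hexp, hK, hWY, hmid, hsq, ← hY]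
  generalize A1 p 0 (H % p) (H / p + 1) f x = a1
  generalize A1 p (H % p) (p - H % p) (H / p) f x = a2
  generalize A2 p 0 (H % p) (H / p + 1) f x = a3
  generalize A2 p (H % p) (p - H % p) (H / p) f x = a4
  generalize ∑ b ∈ Ioc 0 p, ((VDec.Kb p H b : ℝ) - (H : ℝ) / p) ^ 2 = a5
  generalize ((H / p : ℕ) : ℝ) = a6
  field_simp
  ring

end Pool.Agent.MP_a12917_nt_GT
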