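import Mathlib
import Pool.Agent.Lib.MP_a12917_nt_GT.Defs
import Pool.Agent.Lib.MP_a12917_nt_GT.Basic
import Pool.Agent.Lib.MP_a12917_nt_GT.VDec
import Pool.Agent.Lib.MP_a12917_nt_GT.SdF
import Pool.Agent.Lib.MP_a12917_nt_GT.KezB
import Pool.Agent.Lib.MP_a12917_nt_GT.DMomS

/-!
# MP_a12917_nt, project GT, module VSp: standard deviation of V for one prime p ≤ H

(`ℓ = hs z`.)
`g = hs (z/p) + gt` (`g_split`), `V_dec` with `c = hs (z/p) ≤ ℓ` (`hs_mono`), the coefficients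
`H/p + 1 - H/p` (real) and `H/p - H/p` (natural division minus real division) have absolute value `≤ 1`.
Apply `sd_const_add`, `sd_add`, `sd_const_mul`; `sd_le` for the `A1`-terms and for the last term:
`sd (Ub²) ≤ √(mean Ub⁴) ≤ √((4H)² ℓ^{4+16}/p⁴) = 4Hℓ^{10}/p²` (`Ub_mom`, `k = 2`).
-/

set_option autoImplicit false

noncomputable section

namespace Pool.Agent.MP_a12917_nt_GT

open Finset

theorem sdV_le (y z H p : ℕ) (hp : p.Prime) (hpz : p ≤ z) (hpH : p ≤ H) :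
    sdV y z H p ≤
      2 * hs z * (Real.sqrt (mean (Lm z) (fun x =>
            A1 p 0 (H % p) (H / p + 1) (gt y z p) x ^ 2)) +
          Real.sqrt (mean (Lm z) (fun x =>
            A1 p (H % p) (p - H % p) (H / p) (gt y z p) x ^ 2))) +
        sd (Lm z) (A2 p 0 (H % p) (H / p + 1) (gt y z p)) +
        sd (Lm z) (A2 p (H % p) (p - H % p) (H / p) (gt y z p)) +
        4 * H * hs z ^ 10 / (p : ℝ) ^ 2 := by
  have hz : 1 ≤ z := hp.one_lt.le.trans hpz
  have hH : 1 ≤ H := hp.one_lt.le.trans hpH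
  have hL := Lm_pos z
  have hl0 : 0 ≤ hs z := hs_nonneg z
  have hc0 : 0 ≤ hs (z / p) := hs_nonneg _
  have hc1 : hs (z / p) ≤ hs z := hs_mono _ _ (Nat.div_le_self z p)
  have hpR : (0 : ℝ) < p := by exact_mod_cast hp.pos
  -- the coefficients
  have hb1 := DMomS.K_bd p H 0 hp.pos hp.pos
  rw [Nat.zero_add] at hb1
  have hb2 : ((H / p : ℕ) : ℝ) ≤ (H : ℝ) / p := Nat.cast_div_le
  obtain ⟨κ, hκ⟩ := V_dec p H hp.pos (hs (z / p)) (gt y z p)
  have hg : g y z p = fun n => hs (z / p) + gt y z p n :=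
    funext fun n => g_split y z p hp.one_lt.le hpz n
  have hab : ∀ (a : ℝ) (f : ℤ → ℝ), |a| ≤ 1 →
      sd (Lm z) (fun x => (2 * hs (z / p) * a) * f x) ≤
        2 * hs z * Real.sqrt (mean (Lm z) (fun x => f x ^ 2)) := by
    intro a f ha
    rw [sd_const_mul, abs_mul, abs_mul, abs_of_nonneg hc0, abs_two]
    refine mul_le_mul ?_ (sd_le _ hL f) (sd_nonneg _ _) (by positivity)
    calc 2 * hs (z / p) * |a| ≤ 2 * hs (z / p) * 1 :=
          mul_le_mul_of_nonneg_left ha (by positivity)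
      _ ≤ 2 * hs z := by linarith
  have hU : sd (Lm z) (fun x => (-1) * Ub p H (gt y z p) x ^ 2) ≤
      4 * H * hs z ^ 10 / (p : ℝ) ^ 2 := by
    rw [sd_const_mul, abs_neg, abs_one, one_mul]
    refine (sd_le _ hL _).trans ?_
    have h1 := Ub_mom 2 y z p H hz hH
    have h2 : mean (Lm z) (fun x => (Ub p H (gt y z p) x ^ 2) ^ 2) =
        mean (Lm z) (fun x => Ub p H (gt y z p) x ^ (2 * 2)) :=
      mean_congr _ _ _ fun x => (pow_mul _ _ _).symm
    rw [h2]
    refine (Real.sqrt_le_sqrt h1).trans ?_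
    have h3 : (4 * (H : ℝ)) ^ 2 * hs z ^ (2 * 2 + 4 ^ 2) / (p : ℝ) ^ (2 * 2) =
        (4 * H * hs z ^ 10 / (p : ℝ) ^ 2) ^ 2 := by
      rw [div_pow, pow_mul (p : ℝ) 2 2]
      congr 1
      ring
    rw [h3, Real.sqrt_sq (by positivity)]
  unfold sdV
  have hV : V p H (g y z p) = fun x => κ + ((((
      (2 * hs (z / p) * (((H / p : ℕ) : ℝ) + 1 - (H : ℝ) / p)) *
        A1 p 0 (H % p) (H / p + 1) (gt y z p) x +
      (2 * hs (z / p) * (((H / p : ℕ) : ℝ) - (H : ℝ) / p)) *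
        A1 p (H % p) (p - H % p) (H / p) (gt y z p) x) +
      A2 p 0 (H % p) (H / p + 1) (gt y z p) x) +
      A2 p (H % p) (p - H % p) (H / p) (gt y z p) x) +
      (-1) * Ub p H (gt y z p) x ^ 2) := by
    funext x
    rw [hg, hκ x]
    ring
  rw [hV, sd_const_add _ hL]
  refine (sd_add _ _ _).trans ?_
  refine add_le_add ?_ hU
  refine (sd_add _ _ _).trans ?_
  refine add_le_add ?_ le_rfl
  refine (sd_add _ _ _).trans ?_
  refine add_le_add ?_ le_rfl
  refine (sd_add _ _ _).trans ?_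
  rw [mul_add]
  refine add_le_add (hab _ _ ?_) (hab _ _ hb1)
  rw [abs_le] at hb1 ⊢
  constructor <;> linarith [hb1.1, hb1.2]

end Pool.Agent.MP_a12917_nt_GT
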