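import Mathlib
import Pool.Agent.Lib.MP_a12917_nt_GT.Defs
import Pool.Agent.Lib.MP_a12917_nt_GT.Basic
import Pool.Agent.Lib.MP_a12917_nt_GT.VSp
import Pool.Agent.Lib.MP_a12917_nt_GT.Blk
import Pool.Agent.Lib.MP_a12917_nt_GT.SdF

/-!
# MP_a12917_nt, project GT, module VSm: sum of the standard deviations of V over a dyadic block

(`ℓ = hs z`.)
`Ps` = the primes in `(P, 2P]` that are `≤ H` and in `Pr y z`; `K' = H/P + 1 ≤ 2H/P`;
`card Ps ≤ P`. `sdV_le` and Cauchy-Schwarz `∑_{p ∈ Ps} √X_p ≤ √(P ∑ X_p)`: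
A1-terms (two of them): `≤ √(P · 144 · (2H/P) ℓ⁴ √P) ≤ 17 √H ℓ² P^{1/4}` each, times `2ℓ`: together
`≤ 68 √H ℓ³ P^{1/4} ≤ 68 H ℓ^{11} / P^{1/4}` (`√H P^{1/2} ≤ H` as `P ≤ H`). A2-terms (two):
`≤ √(P · 576 · 4H²/P² · ℓ^{21} √P) = 48 H ℓ^{10.5} P^{-1/4}` each, together `≤ 96 H ℓ^{11}/P^{1/4}`. Last
term: `≤ P · 4Hℓ^{10}/P² ≤ 4Hℓ^{11}/P^{1/4}`. Total `≤ 168 H ℓ^{11}/P^{1/4}`.
-/

set_option autoImplicit false

noncomputable section

namespace Pool.Agent.MP_a12917_nt_GT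

open Finset

namespace VSm

theorem cs (Ps : Finset ℕ) (P : ℕ) (hc : Ps.card ≤ P) (f : ℕ → ℝ) (B C : ℝ)
    (hB : ∑ p ∈ Ps, f p ^ 2 ≤ B) (hC : 0 ≤ C) (h : P * B ≤ C ^ 2) : ∑ p ∈ Ps, f p ≤ C := by
  have h1 : (∑ p ∈ Ps, f p) ^ 2 ≤ (Ps.card : ℝ) * ∑ p ∈ Ps, f p ^ 2 :=
    sq_sum_le_card_mul_sum_sq
  have h2 : (Ps.card : ℝ) ≤ P := by exact_mod_cast hc
  have h3 : 0 ≤ ∑ p ∈ Ps, f p ^ 2 := sum_nonneg fun p _ => sq_nonneg _
  have h4 : (Ps.card : ℝ) * ∑ p ∈ Ps, f p ^ 2 ≤ P * B :=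
    mul_le_mul h2 hB h3 (Nat.cast_nonneg _)
  exact (abs_le_of_sq_le_sq' ((h1.trans h4).trans h) hC).2

end VSm

theorem V_small (y z H P : ℕ) (hP : 1 ≤ P) (hPH : P ≤ H) (hHz : H ≤ z) :
    ∑ p ∈ (Pr y z).filter (fun p => P < p ∧ p ≤ 2 * P ∧ p ≤ H), sdV y z H p ≤
      200 * H * hs z ^ 11 / Real.sqrt (Real.sqrt P) := by
  have hz : 1 ≤ z := hP.trans (hPH.trans hHz)
  have hl : 1 ≤ hs z := one_le_hs z hz
  obtain ⟨l, hldef⟩ : ∃ l, l = hs z := ⟨_, rfl⟩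
  obtain ⟨s, hsdef⟩ : ∃ s, s = Real.sqrt (Real.sqrt P) := ⟨_, rfl⟩
  obtain ⟨r, hrdef⟩ : ∃ r, r = Real.sqrt H := ⟨_, rfl⟩
  have hPr : (1 : ℝ) ≤ P := by exact_mod_cast hP
  have hPH' : (P : ℝ) ≤ H := by exact_mod_cast hPH
  have hs2 : s ^ 2 = Real.sqrt P := by rw [hsdef, Real.sq_sqrt (Real.sqrt_nonneg _)]
  have hs4 : s ^ 4 = P := by
    have h1 : s ^ 4 = (s ^ 2) ^ 2 := by ring
    rw [h1, hs2, Real.sq_sqrt (by linarith)]
  have hr2 : r ^ 2 = H := by rw [hrdef, Real.sq_sqrt (by linarith)]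
  have hr0 : 0 ≤ r := by rw [hrdef]; exact Real.sqrt_nonneg _
  have hs1 : 1 ≤ s := by
    rw [hsdef]
    exact Real.one_le_sqrt.2 (Real.one_le_sqrt.2 hPr)
  have hs0 : 0 < s := by linarith
  have hsr : s ^ 2 ≤ r := by
    rw [hs2, hrdef]
    exact Real.sqrt_le_sqrt hPH'
  have hP0 : (0 : ℝ) < P := by linarith
  have hH0 : (0 : ℝ) < H := by linarith
  rw [← hldef] at hl
  rw [← hsdef, ← hldef]
  obtain ⟨Ps, hPs⟩ : ∃ Ps, Ps = (Pr y z).filter (fun p => P < p ∧ p ≤ 2 * P ∧ p ≤ H) := ⟨_, rfl⟩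
  rw [← hPs]
  have hmem : ∀ p ∈ Ps, p.Prime ∧ p ≤ z ∧ P < p ∧ p ≤ 2 * P ∧ p ≤ H := by
    intro p hp
    rw [hPs] at hp
    obtain ⟨h1, h2, h3, h4⟩ := mem_filter.1 hp
    obtain ⟨h5, h6⟩ := mem_filter.1 h1
    exact ⟨h6, (mem_Ioc.1 h5).2, h2, h3, h4⟩
  have hsub : Ps ⊆ (Ioc P (2 * P)).filter Nat.Prime := by
    intro p hp
    obtain ⟨h1, h2, h3, h4, h5⟩ := hmem p hp
    exact mem_filter.2 ⟨mem_Ioc.2 ⟨h3, h4⟩, h1⟩
  have hcard : Ps.card ≤ P := by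
    refine (card_le_card (hsub.trans (filter_subset _ _))).trans ?_
    rw [Nat.card_Ioc]
    omega
  have hK0 : (0 : ℝ) < 2 * H / P := by positivity
  have hdiv : ∀ p ∈ Ps, ((H / p : ℕ) : ℝ) + 1 ≤ 2 * H / P := by
    intro p hp
    obtain ⟨h1, h2, h3, h4, h5⟩ := hmem p hp
    have h6 : ((H / p : ℕ) : ℝ) ≤ (H : ℝ) / p := Nat.cast_div_le
    have h7 : (P : ℝ) ≤ p := by exact_mod_cast h3.le
    have h8 : (H : ℝ) / p ≤ H / P := div_le_div_of_nonneg_left hH0.le hP0 h7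
    have h9 : (1 : ℝ) ≤ H / P := by rwa [le_div_iff₀ hP0, one_mul]
    have h10 : 2 * (H : ℝ) / P = H / P + H / P := by ring
    rw [h10]
    linarith
  have hKa : ∀ p ∈ Ps, ((H / p + 1 : ℕ) : ℝ) ≤ 2 * H / P := by
    intro p hp
    have := hdiv p hp
    push_cast
    exact this
  have hKb : ∀ p ∈ Ps, ((H / p : ℕ) : ℝ) ≤ 2 * H / P := by
    intro p hp
    have := hdiv p hp
    linarith
  have hla : ∀ p ∈ Ps, H % p ≤ p := fun p hp => (Nat.mod_lt _ (hmem p hp).1.pos).le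
  have hlb : ∀ p ∈ Ps, p - H % p ≤ p := fun p _ => Nat.sub_le _ _
  have hPz : P ≤ z := hPH.trans hHz
  have m0 : ∀ (f : ℤ → ℝ), 0 ≤ mean (Lm z) (fun x => f x ^ 2) := fun f =>
    mean_nonneg _ _ fun x => sq_nonneg _
  -- the four sums
  have hX : ∀ (β lam K : ℕ → ℕ), (∀ p ∈ Ps, lam p ≤ p) → (∀ p ∈ Ps, (K p : ℝ) ≤ 2 * H / P) →
      ∑ p ∈ Ps, Real.sqrt (mean (Lm z) (fun x =>
        A1 p (β p) (lam p) (K p) (gt y z p) x ^ 2)) ≤ 17 * r * l ^ 2 * s := by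
    intro β lam K h1 h2
    refine VSm.cs Ps P hcard _ (144 * (2 * H / P) * l ^ 4 * Real.sqrt P) _ ?_ (by positivity) ?_
    · have h3 := blk_A1 y z P hP hPz Ps hsub β lam K h1 (2 * H / P) hK0 h2
      rw [← hldef] at h3
      refine le_trans (le_of_eq ?_) h3
      exact sum_congr rfl fun p _ => Real.sq_sqrt (m0 _)
    · rw [← hs2]
      have h4 : (P : ℝ) * (144 * (2 * H / P) * l ^ 4 * s ^ 2) = 288 * H * l ^ 4 * s ^ 2 := by
        field_simp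
        ring
      have h5 : (17 * r * l ^ 2 * s) ^ 2 = 289 * H * l ^ 4 * s ^ 2 := by
        rw [← hr2]
        ring
      rw [h4, h5]
      have h6 : 0 ≤ (H : ℝ) * l ^ 4 * s ^ 2 := by positivity
      nlinarith
  have hY : ∀ (β lam K : ℕ → ℕ), (∀ p ∈ Ps, lam p ≤ p) → (∀ p ∈ Ps, (K p : ℝ) ≤ 2 * H / P) →
      ∑ p ∈ Ps, sd (Lm z) (A2 p (β p) (lam p) (K p) (gt y z p)) ≤ 48 * H * l ^ 11 / s := by
    intro β lam K h1 h2
    refine VSm.cs Ps P hcard _ (576 * (2 * H / P) ^ 2 * l ^ 21 * Real.sqrt P) _ ?_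
      (by positivity) ?_
    · have h3 := blk_A2 y z P hP hPz Ps hsub β lam K h1 (2 * H / P) hK0 h2
      rwa [← hldef] at h3
    · rw [← hs2]
      have h4 : (P : ℝ) * (576 * (2 * H / P) ^ 2 * l ^ 21 * s ^ 2) =
          2304 * (H : ℝ) ^ 2 * l ^ 21 / s ^ 2 := by
        rw [← hs4]
        field_simp
        ring
      have h5 : (48 * H * l ^ 11 / s) ^ 2 = 2304 * (H : ℝ) ^ 2 * l ^ 22 / s ^ 2 := by
        ring
      rw [h4, h5]
      refine div_le_div_of_nonneg_right ?_ (by positivity)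
      have h6 : l ^ 21 ≤ l ^ 22 := pow_le_pow_right₀ hl (by norm_num)
      exact mul_le_mul_of_nonneg_left h6 (by positivity)
  have hZ : ∑ p ∈ Ps, 4 * H * l ^ 10 / (p : ℝ) ^ 2 ≤ 4 * H * l ^ 11 / s := by
    have h1 : ∑ p ∈ Ps, 4 * H * l ^ 10 / (p : ℝ) ^ 2 ≤ ∑ _p ∈ Ps, 4 * H * l ^ 10 / (P : ℝ) ^ 2 := by
      refine sum_le_sum fun p hp => ?_
      have h2 : (P : ℝ) ≤ p := by exact_mod_cast (hmem p hp).2.2.1.le
      exact div_le_div_of_nonneg_left (by positivity) (by positivity)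
        (pow_le_pow_left₀ hP0.le h2 2)
    refine h1.trans ?_
    rw [sum_const, nsmul_eq_mul]
    have h3 : (Ps.card : ℝ) ≤ P := by exact_mod_cast hcard
    have h4 : (Ps.card : ℝ) * (4 * H * l ^ 10 / (P : ℝ) ^ 2) ≤
        P * (4 * H * l ^ 10 / (P : ℝ) ^ 2) := mul_le_mul_of_nonneg_right h3 (by positivity)
    refine h4.trans ?_
    have h5 : (P : ℝ) * (4 * H * l ^ 10 / (P : ℝ) ^ 2) = 4 * H * l ^ 10 / P := by
      field_simp
    rw [h5]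
    have h6 : s ≤ P := by
      rw [← hs4]
      calc s = s ^ 1 := (pow_one s).symm
        _ ≤ s ^ 4 := pow_le_pow_right₀ hs1 (by norm_num)
    have h7 : l ^ 10 ≤ l ^ 11 := pow_le_pow_right₀ hl (by norm_num)
    have h8 : 4 * (H : ℝ) * l ^ 10 ≤ 4 * H * l ^ 11 :=
      mul_le_mul_of_nonneg_left h7 (by positivity)
    exact div_le_div₀ (by positivity) h8 hs0 h6
  have h1 : ∑ p ∈ Ps, sdV y z H p ≤ ∑ p ∈ Ps,
      (2 * l * (Real.sqrt (mean (Lm z) (fun x =>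
            A1 p 0 (H % p) (H / p + 1) (gt y z p) x ^ 2)) +
          Real.sqrt (mean (Lm z) (fun x =>
            A1 p (H % p) (p - H % p) (H / p) (gt y z p) x ^ 2))) +
        sd (Lm z) (A2 p 0 (H % p) (H / p + 1) (gt y z p)) +
        sd (Lm z) (A2 p (H % p) (p - H % p) (H / p) (gt y z p)) +
        4 * H * l ^ 10 / (p : ℝ) ^ 2) := by
    refine sum_le_sum fun p hp => ?_
    rw [hldef]
    exact sdV_le y z H p (hmem p hp).1 (hmem p hp).2.1 (hmem p hp).2.2.2.2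
  refine h1.trans ?_
  rw [sum_add_distrib, sum_add_distrib, sum_add_distrib, ← mul_sum, sum_add_distrib]
  have a1 := hX (fun _ => 0) (fun p => H % p) (fun p => H / p + 1) hla hKa
  have a2 := hX (fun p => H % p) (fun p => p - H % p) (fun p => H / p) hlb hKb
  have a3 := hY (fun _ => 0) (fun p => H % p) (fun p => H / p + 1) hla hKa
  have a4 := hY (fun p => H % p) (fun p => p - H % p) (fun p => H / p) hlb hKb
  beta_reduce at a1 a2 a3 a4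
  have b1 : 2 * l * (17 * r * l ^ 2 * s + 17 * r * l ^ 2 * s) ≤ 68 * H * l ^ 11 / s := by
    rw [le_div_iff₀ hs0]
    have h2 : 2 * l * (17 * r * l ^ 2 * s + 17 * r * l ^ 2 * s) * s =
        68 * l ^ 3 * (r * s ^ 2) := by ring
    rw [h2]
    have h3 : r * s ^ 2 ≤ H := by
      rw [← hr2, pow_two r]
      exact mul_le_mul_of_nonneg_left hsr hr0
    have h4 : l ^ 3 ≤ l ^ 11 := pow_le_pow_right₀ hl (by norm_num)
    have h5 : l ^ 3 * (r * s ^ 2) ≤ l ^ 11 * H :=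
      mul_le_mul h4 h3 (by positivity) (by positivity)
    nlinarith
  have b2 : 2 * l * (∑ p ∈ Ps, Real.sqrt (mean (Lm z) (fun x =>
            A1 p 0 (H % p) (H / p + 1) (gt y z p) x ^ 2)) +
          ∑ p ∈ Ps, Real.sqrt (mean (Lm z) (fun x =>
            A1 p (H % p) (p - H % p) (H / p) (gt y z p) x ^ 2))) ≤
      2 * l * (17 * r * l ^ 2 * s + 17 * r * l ^ 2 * s) :=
    mul_le_mul_of_nonneg_left (add_le_add a1 a2) (by linarith)
  have b3 : 0 ≤ (H : ℝ) * l ^ 11 / s := by positivity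
  have b4 : 68 * (H : ℝ) * l ^ 11 / s = 68 * (H * l ^ 11 / s) := by ring
  have b5 : 48 * (H : ℝ) * l ^ 11 / s = 48 * (H * l ^ 11 / s) := by ring
  have b6 : 4 * (H : ℝ) * l ^ 11 / s = 4 * (H * l ^ 11 / s) := by ring
  have b7 : 200 * (H : ℝ) * l ^ 11 / s = 200 * (H * l ^ 11 / s) := by ring
  rw [b4] at b1
  rw [b5] at a3 a4
  rw [b6] at hZ
  rw [b7]
  linarith

end Pool.Agent.MP_a12917_nt_GT
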