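import Mathlib
import Pool.Agent.Lib.MP_a12917_nt_GT.Defs
import Pool.Agent.Lib.MP_a12917_nt_GT.Basic
import Pool.Agent.Lib.MP_a12917_nt_GT.VSm
import Pool.Agent.Lib.MP_a12917_nt_GT.SdF

/-!
# MP_a12917_nt, project GT, module VSt: sum of the standard deviations of V over all p ≤ H

(`ℓ = hs z`.)
The primes `y < p ≤ H` are in the blocks `(2^j y, 2^{j+1} y]`, `j ≥ 0`, `2^j y ≤ H`. By `V_small`
the total is
`≤ 200 H ℓ^{11} y^{-1/4} ∑_{j ≥ 0} 2^{-j/4}`, and `∑_j 2^{-j/4} = 1/(1 - 2^{-1/4}) ≤ 7`. (If `y ≥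
H` the sum
is empty. Induction on the number of blocks, or strong induction on `H - y` with the statement for
`2y`, avoids infinite sums: if `W(y)` is the sum, `W(y) ≤ 200 H ℓ^{11}/y^{1/4} + W(2y)` and
`200 + 1400 · 2^{-1/4} ≤ 1400` since `2^{-1/4} ≤ 0.8409 ≤ 6/7`. Note that the set `Pr y z` and the
functions depend on the first argument `y` too: the statement to prove by induction on the threshold
`P` is for a fixed `y`: the sum over `p ∈ Pr y z`, `P < p ≤ H`, is `≤ 1400 H ℓ^{11}/P^{1/4}`, `1 ≤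
P`; take
`P = y`.)
-/

set_option autoImplicit false

noncomputable section

namespace Pool.Agent.MP_a12917_nt_GT

open Finset

theorem VSt.root (P : ℝ) (hP : 0 ≤ P) :
    7 / 6 * Real.sqrt (Real.sqrt P) ≤ Real.sqrt (Real.sqrt (2 * P)) := by
  apply Real.le_sqrt_of_sq_le
  rw [mul_pow, Real.sq_sqrt (Real.sqrt_nonneg P)]
  apply Real.le_sqrt_of_sq_le
  rw [mul_pow, Real.sq_sqrt hP]
  nlinarith

theorem VSt.step (y z H : ℕ) (hHz : H ≤ z) (m : ℕ) : ∀ P : ℕ, 1 ≤ P → H - P ≤ m →
    ∑ p ∈ (Pr y z).filter (fun p => P < p ∧ p ≤ H), sdV y z H p ≤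
      1400 * H * hs z ^ 11 / Real.sqrt (Real.sqrt P) := by
  have hh := hs_nonneg z
  induction m with
  | zero =>
    intro P hP hm
    rw [filter_false_of_mem, sum_empty]
    · positivity
    · intro p _ h
      omega
  | succ m ih =>
    intro P hP hm
    rcases Nat.lt_or_ge P H with hPH | hPH
    · have h1 := V_small y z H P hP hPH.le hHz
      have h2 := ih (2 * P) (by omega) (by omega)
      have h3 : (Pr y z).filter (fun p => P < p ∧ p ≤ H) =
          (Pr y z).filter (fun p => P < p ∧ p ≤ 2 * P ∧ p ≤ H) ∪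
          (Pr y z).filter (fun p => 2 * P < p ∧ p ≤ H) := by
        ext p
        simp only [mem_filter, mem_union]
        constructor
        · rintro ⟨h4, h5, h6⟩
          rcases Nat.lt_or_ge (2 * P) p with h7 | h7
          · exact Or.inr ⟨h4, h7, h6⟩
          · exact Or.inl ⟨h4, h5, h7, h6⟩
        · rintro (⟨h4, h5, h6, h7⟩ | ⟨h4, h5, h6⟩)
          · exact ⟨h4, h5, h7⟩
          · exact ⟨h4, by omega, h6⟩
      rw [h3, sum_union]
      · refine (add_le_add h1 h2).trans ?_
        have hP0 : (0 : ℝ) < P := by exact_mod_cast hP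
        have hs0 : 0 < Real.sqrt (Real.sqrt (P : ℝ)) :=
          Real.sqrt_pos.2 (Real.sqrt_pos.2 hP0)
        have h4 := VSt.root (P : ℝ) hP0.le
        have h5 : 1400 * (H : ℝ) * hs z ^ 11 / Real.sqrt (Real.sqrt ((2 * P : ℕ) : ℝ)) ≤
            1200 * (H : ℝ) * hs z ^ 11 / Real.sqrt (Real.sqrt (P : ℝ)) := by
          push_cast
          have h6 : 1200 * (H : ℝ) * hs z ^ 11 / Real.sqrt (Real.sqrt (P : ℝ)) =
              1400 * (H : ℝ) * hs z ^ 11 / (7 / 6 * Real.sqrt (Real.sqrt (P : ℝ))) := by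
            field_simp
            ring
          rw [h6]
          exact div_le_div_of_nonneg_left (by positivity) (by positivity) h4
        refine (add_le_add (le_refl _) h5).trans (le_of_eq ?_)
        rw [← add_div]
        congr 1
        ring
      · rw [disjoint_left]
        intro p h4 h5
        rw [mem_filter] at h4 h5
        omega
    · rw [filter_false_of_mem, sum_empty]
      · positivity
      · intro p _ h
        omega

theorem V_small_tot (y z H : ℕ) (hy : 1 ≤ y) (hHz : H ≤ z) :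
    ∑ p ∈ (Pr y z).filter (fun p => p ≤ H), sdV y z H p ≤
      1400 * H * hs z ^ 11 / Real.sqrt (Real.sqrt y) := by
  have h1 := VSt.step y z H hHz (H - y) y hy le_rfl
  have h2 : (Pr y z).filter (fun p => p ≤ H) = (Pr y z).filter (fun p => y < p ∧ p ≤ H) := by
    refine filter_congr fun p hp => ?_
    have h3 : y < p := (mem_Ioc.1 (mem_filter.1 hp).1).1
    exact ⟨fun h => ⟨h3, h⟩, fun h => h.2⟩
  rw [h2]
  exact h1

end Pool.Agent.MP_a12917_nt_GT
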