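import Mathlib
import Pool.Agent.Lib.MP_a12917_nt_GT.Defs
import Pool.Agent.Lib.MP_a12917_nt_GT.Basic
import Pool.Agent.Lib.MP_a12917_nt_GT.VSt
import Pool.Agent.Lib.MP_a12917_nt_GT.DMomS
import Pool.Agent.Lib.MP_a12917_nt_GT.KezB
import Pool.Agent.Lib.MP_a12917_nt_GT.SdF

/-!
# MP_a12917_nt, project GT, module ErS: sum of the errors over the primes p ≤ H

(`ℓ = hs z`.)
`ℓ = hs z ≥ 1`. For `p ∈ Pr y z`, `p ≤ H`:
(a) `√(mean M_p^{2(m-2)}) ≤ √((4H)^{m-2} ℓ^{2(m-2)+4^{m-2}}) ≤ 2^m (√H)^{m-2} ℓ^{m+4^m}`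
(`M_mom`, `k = m-2`),
`C(m,2) ≤ 2^m`; by `V_small_tot` the sum over `p` of the first term of `E1` is
`≤ 4^m (√H)^{m-2} ℓ^{m+4^m} · 1400 H ℓ^{11}/y^{1/4}`.
(b) for `3 ≤ i ≤ m`: `mean(|M|^{m-i}|D|^i) ≤ √(mean M^{2(m-i)}) √(mean D^{2i})` (`mean_abs_cs`)
`≤ (2√H)^{m-i} ℓ^{(m-i)+4^{m-i}/2} · 2 · 9^i (H/p)^{i/2} ℓ^{i+4^i/2}`,
`≤ 2·2^m·9^m (√H)^m ℓ^{m+4^m} / (p√p)`
(`dmom_small`; `√(4·72^i) ≤ 2·9^i`; `p^{i/2} ≥ p^{3/2}`; `4^{m-i}+4^i ≤ 2·4^m`; half integer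
exponents: use `√(ℓ^{n}) ≤ ℓ^{N}` for `n ≤ 2N`). Sum over `i` with `∑ C(m,i) ≤ 2^m`:
`≤ 2·36^m (√H)^m ℓ^{m+4^m}/(p√p)`, and
`∑_{p > y} 1/(p√p) ≤ 3/√y ≤ 3/y^{1/4}` (telescoping:
`1/(n√n) ≤ 2/√(n-1) - 2/√n` for `n ≥ 2`).
Total `≤ (1400·4^m + 6·36^m) (√H)^m ℓ^{m+4^m+11}/y^{1/4} ≤ 1500·36^m …`.
-/

set_option autoImplicit false

noncomputable section

namespace Pool.Agent.MP_a12917_nt_GT

open Finset

namespace ErS

theorem sa (s l : ℝ) (hs1 : 1 ≤ s) (hl : 1 ≤ l) (m : ℕ) (hm : 2 ≤ m) :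
    (4 * s ^ 2) ^ (m - 2) * l ^ (2 * (m - 2) + 4 ^ (m - 2)) ≤
      (2 ^ m * s ^ (m - 2) * l ^ (m + 4 ^ m)) ^ 2 := by
  obtain ⟨k, rfl⟩ : ∃ k, m = k + 2 := ⟨m - 2, by omega⟩
  rw [Nat.add_sub_cancel]
  have hs0 : (0 : ℝ) ≤ s := by linarith
  have hl0 : (0 : ℝ) ≤ l := by linarith
  have h1 : (4 * s ^ 2) ^ k = 4 ^ k * (s ^ k) ^ 2 := by
    rw [mul_pow, ← pow_mul, ← pow_mul, Nat.mul_comm]
  have h2 : l ^ (2 * k + 4 ^ k) ≤ (l ^ (k + 2 + 4 ^ (k + 2))) ^ 2 := by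
    rw [← pow_mul]
    refine pow_le_pow_right₀ hl ?_
    have h3 : 4 ^ k ≤ 4 ^ (k + 2) := Nat.pow_le_pow_right (by norm_num) (by omega)
    generalize 4 ^ k = u at *
    generalize 4 ^ (k + 2) = v at *
    omega
  have h3 : (4 : ℝ) ^ k ≤ (2 ^ (k + 2)) ^ 2 := by
    have h4 : ((2 : ℝ) ^ (k + 2)) ^ 2 = 4 ^ (k + 2) := by
      rw [← pow_mul, Nat.mul_comm, pow_mul]
      norm_num
    rw [h4]
    exact pow_le_pow_right₀ (by norm_num) (by omega)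
  rw [h1, mul_pow, mul_pow]
  refine mul_le_mul (mul_le_mul_of_nonneg_right h3 (by positivity)) h2 (by positivity)
    (by positivity)

theorem sb (s l p : ℝ) (hs1 : 1 ≤ s) (hl : 1 ≤ l) (hp : 1 ≤ p) (m i : ℕ) (hi : 3 ≤ i)
    (him : i ≤ m) :
    ((4 * s ^ 2) ^ (m - i) * l ^ (2 * (m - i) + 4 ^ (m - i))) *
      (4 * 72 ^ i * (s ^ 2 / p) ^ i * l ^ (2 * i + 4 ^ i)) ≤
      (2 * 18 ^ m * s ^ m * l ^ (m + 4 ^ m) * (p * Real.sqrt p)⁻¹) ^ 2 := by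
  obtain ⟨k, rfl⟩ : ∃ k, m = k + i := ⟨m - i, by omega⟩
  rw [Nat.add_sub_cancel]
  have hs0 : (0 : ℝ) ≤ s := by linarith
  have hl0 : (0 : ℝ) ≤ l := by linarith
  have hp0 : (0 : ℝ) < p := by linarith
  have h1 : ((4 * s ^ 2) ^ k * l ^ (2 * k + 4 ^ k)) *
      (4 * 72 ^ i * (s ^ 2 / p) ^ i * l ^ (2 * i + 4 ^ i)) =
      4 * (4 ^ k * 72 ^ i) * (s ^ (k + i)) ^ 2 * l ^ (2 * k + 4 ^ k + (2 * i + 4 ^ i)) *
        (p ^ i)⁻¹ := by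
    rw [pow_add l (2 * k + 4 ^ k), div_pow, mul_pow 4 (s ^ 2) k, pow_add s k i, ← pow_mul s 2 k,
      ← pow_mul s 2 i, div_eq_mul_inv]
    rw [Nat.mul_comm 2 k, Nat.mul_comm 2 i, pow_mul, pow_mul]
    ring
  have h2 : (2 * 18 ^ (k + i) * s ^ (k + i) * l ^ (k + i + 4 ^ (k + i)) *
      (p * Real.sqrt p)⁻¹) ^ 2 =
      4 * (18 ^ (k + i)) ^ 2 * (s ^ (k + i)) ^ 2 * (l ^ (k + i + 4 ^ (k + i))) ^ 2 *
        (p ^ 3)⁻¹ := by
    have h3 : (p * Real.sqrt p) ^ 2 = p ^ 3 := by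
      rw [mul_pow, Real.sq_sqrt hp0.le]
      ring
    rw [mul_pow, mul_pow, mul_pow, mul_pow, inv_pow, h3]
    norm_num
  rw [h1, h2]
  have h3 : (4 : ℝ) ^ k * 72 ^ i ≤ (18 ^ (k + i)) ^ 2 := by
    rw [← pow_mul, Nat.mul_comm, pow_mul, pow_add]
    norm_num
    gcongr <;> norm_num
  have h4 : l ^ (2 * k + 4 ^ k + (2 * i + 4 ^ i)) ≤ (l ^ (k + i + 4 ^ (k + i))) ^ 2 := by
    rw [← pow_mul]
    refine pow_le_pow_right₀ hl ?_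
    have h5 : 4 ^ k ≤ 4 ^ (k + i) := Nat.pow_le_pow_right (by norm_num) (by omega)
    have h6 : 4 ^ i ≤ 4 ^ (k + i) := Nat.pow_le_pow_right (by norm_num) (by omega)
    omega
  have h5 : (p ^ i)⁻¹ ≤ (p ^ 3)⁻¹ :=
    inv_anti₀ (by positivity) (pow_le_pow_right₀ hp hi)
  gcongr

theorem tele (y z : ℕ) (hy : 1 ≤ y) (hyz : y ≤ z) :
    ∑ n ∈ Ioc y z, ((n : ℝ) * Real.sqrt n)⁻¹ ≤ 2 * (Real.sqrt y)⁻¹ - 2 * (Real.sqrt z)⁻¹ := by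
  induction z, hyz using Nat.le_induction with
  | base => simp
  | succ z hyz ih =>
    rw [sum_Ioc_succ_top hyz]
    have hz : (0 : ℝ) < z := by exact_mod_cast lt_of_lt_of_le hy hyz
    obtain ⟨a, ha⟩ : ∃ a, a = Real.sqrt (z : ℝ) := ⟨_, rfl⟩
    obtain ⟨b, hb⟩ : ∃ b, b = Real.sqrt ((z + 1 : ℕ) : ℝ) := ⟨_, rfl⟩
    have ha0 : 0 < a := by rw [ha]; exact Real.sqrt_pos.2 hz
    have ha2 : a ^ 2 = z := by rw [ha]; exact Real.sq_sqrt hz.le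
    have hb2 : b ^ 2 = z + 1 := by
      rw [hb, Real.sq_sqrt (Nat.cast_nonneg _)]
      push_cast
      ring
    have hb0 : 0 < b := by
      rw [hb]
      exact Real.sqrt_pos.2 (by positivity)
    have hab : a ≤ b := by
      rw [ha, hb]
      exact Real.sqrt_le_sqrt (by push_cast; linarith)
    have key : (((z + 1 : ℕ) : ℝ) * Real.sqrt ((z + 1 : ℕ) : ℝ))⁻¹ ≤ 2 * a⁻¹ - 2 * b⁻¹ := by
      rw [← hb]
      have h1 : (((z + 1 : ℕ) : ℝ) * b) = b ^ 3 := by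
        push_cast
        rw [← hb2]
        ring
      rw [h1]
      have h2 : 2 * a⁻¹ - 2 * b⁻¹ - (b ^ 3)⁻¹ =
          (2 * (b - a) * (b + a) * b ^ 2 - a * (b + a)) / (a * b ^ 3 * (b + a)) := by
        field_simp
      have h3 : 2 * (b - a) * (b + a) * b ^ 2 - a * (b + a) ≥ 0 := by
        have h4 : (b - a) * (b + a) = 1 := by nlinarith
        have h5 : 2 * (b - a) * (b + a) * b ^ 2 = 2 * b ^ 2 := by
          calc 2 * (b - a) * (b + a) * b ^ 2 = 2 * ((b - a) * (b + a)) * b ^ 2 := by ring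
            _ = _ := by rw [h4]; ring
        rw [h5]
        nlinarith
      have h4 : 0 ≤ 2 * a⁻¹ - 2 * b⁻¹ - (b ^ 3)⁻¹ := by
        rw [h2]
        exact div_nonneg h3 (by positivity)
      linarith
    rw [← ha] at ih
    rw [← hb]
    rw [← hb] at key
    linarith

theorem sum_le (y z : ℕ) (hy : 1 ≤ y) :
    ∑ n ∈ Ioc y z, ((n : ℝ) * Real.sqrt n)⁻¹ ≤ 2 * (Real.sqrt (Real.sqrt y))⁻¹ := by
  have hy' : (1 : ℝ) ≤ y := by exact_mod_cast hy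
  have h1 : 1 ≤ Real.sqrt y := Real.one_le_sqrt.2 hy'
  have h2 : 1 ≤ Real.sqrt (Real.sqrt y) := Real.one_le_sqrt.2 h1
  have h3 : Real.sqrt (Real.sqrt y) ≤ Real.sqrt y := by
    have h4 := Real.sq_sqrt (Real.sqrt_nonneg (y : ℝ))
    nlinarith
  have h4 : (Real.sqrt y)⁻¹ ≤ (Real.sqrt (Real.sqrt y))⁻¹ := inv_anti₀ (by linarith) h3
  rcases le_or_gt y z with h | h
  · have h5 := tele y z hy h
    have h6 : (0 : ℝ) ≤ (Real.sqrt z)⁻¹ := by positivity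
    linarith
  · rw [Ioc_eq_empty_of_le h.le, sum_empty]
    positivity

theorem first (m y z H p : ℕ) (hm : 2 ≤ m) (hz : 1 ≤ z) (hH : 1 ≤ H) :
    Real.sqrt (mean (Lm z) (fun x => M y z H p x ^ (2 * (m - 2)))) ≤
      2 ^ m * Real.sqrt H ^ (m - 2) * hs z ^ (m + 4 ^ m) := by
  have hH' : (1 : ℝ) ≤ H := by exact_mod_cast hH
  have hs1 : 1 ≤ Real.sqrt H := Real.one_le_sqrt.2 hH'
  have hl := one_le_hs z hz
  have hl0 := hs_nonneg z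
  refine Real.sqrt_le_iff.2 ⟨by positivity, (M_mom (m - 2) y z H p hz hH).trans ?_⟩
  have h1 := sa (Real.sqrt H) (hs z) hs1 hl m hm
  rw [Real.sq_sqrt (Nat.cast_nonneg _)] at h1
  exact h1

theorem second (m y z H p i : ℕ) (hi : 3 ≤ i) (him : i ≤ m) (hz : 1 ≤ z) (hH : 1 ≤ H)
    (hp : p.Prime) (hpz : p ≤ z) (hpH : p ≤ H) :
    mean (Lm z) (fun x => |M y z H p x| ^ (m - i) * |D p H (g y z p) x| ^ i) ≤
      2 * 18 ^ m * Real.sqrt H ^ m * hs z ^ (m + 4 ^ m) * ((p : ℝ) * Real.sqrt p)⁻¹ := by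
  have hH' : (1 : ℝ) ≤ H := by exact_mod_cast hH
  have hp' : (1 : ℝ) ≤ p := by exact_mod_cast hp.one_le
  have hs1 : 1 ≤ Real.sqrt H := Real.one_le_sqrt.2 hH'
  have hl := one_le_hs z hz
  have hl0 := hs_nonneg z
  have h1 := mean_abs_cs (Lm z) (fun x => M y z H p x ^ (m - i))
    (fun x => D p H (g y z p) x ^ i)
  simp only [abs_pow, ← pow_mul, Nat.mul_comm _ 2] at h1
  refine h1.trans ?_
  have h2 := M_mom (m - i) y z H p hz hH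
  have h3 := dmom_small i y z p H hp hpz hpH
  have h4 : ∀ (L : ℕ) (f : ℤ → ℝ) (n : ℕ), 0 ≤ mean L (fun x => f x ^ (2 * n)) := by
    intro L f n
    refine mean_nonneg _ _ fun x => ?_
    rw [pow_mul]
    positivity
  rw [← Real.sqrt_mul (h4 _ _ _)]
  refine Real.sqrt_le_iff.2 ⟨by positivity, ?_⟩
  refine (mul_le_mul h2 h3 (h4 _ _ _) (by positivity)).trans ?_
  have h5 := sb (Real.sqrt H) (hs z) p hs1 hl hp' m i hi him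
  rw [Real.sq_sqrt (Nat.cast_nonneg _)] at h5
  exact h5

theorem choose_sum (m : ℕ) : ∑ i ∈ Icc 3 m, (m.choose i : ℝ) ≤ 2 ^ m := by
  have h1 : ∑ i ∈ Icc 3 m, m.choose i ≤ ∑ i ∈ range (m + 1), m.choose i := by
    refine sum_le_sum_of_subset fun i hi => ?_
    have := mem_Icc.1 hi
    exact mem_range.2 (by omega)
  rw [Nat.sum_range_choose] at h1
  exact_mod_cast h1

theorem E1_le (m y z H p : ℕ) (hm : 2 ≤ m) (hz : 1 ≤ z) (hH : 1 ≤ H)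
    (hp : p.Prime) (hpz : p ≤ z) (hpH : p ≤ H) :
    E1 m y z H p ≤ 4 ^ m * Real.sqrt H ^ (m - 2) * hs z ^ (m + 4 ^ m) * sdV y z H p +
      2 * 36 ^ m * Real.sqrt H ^ m * hs z ^ (m + 4 ^ m) * ((p : ℝ) * Real.sqrt p)⁻¹ := by
  have hl0 := hs_nonneg z
  unfold E1
  have hch : (m.choose 2 : ℝ) ≤ 2 ^ m := by
    have := Nat.choose_le_two_pow m 2
    exact_mod_cast this
  have hsd : 0 ≤ sdV y z H p := sd_nonneg _ _
  refine add_le_add ?_ ?_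
  · have h1 := mul_le_mul hch (first m y z H p hm hz hH) (Real.sqrt_nonneg _) (by positivity)
    refine (mul_le_mul_of_nonneg_right h1 hsd).trans (le_of_eq ?_)
    have h2 : (4 : ℝ) ^ m = 2 ^ m * 2 ^ m := by
      rw [← mul_pow]
      norm_num
    rw [h2]
    ring
  · have h1 : ∀ i ∈ Icc 3 m, (m.choose i : ℝ) *
        mean (Lm z) (fun x => |M y z H p x| ^ (m - i) * |D p H (g y z p) x| ^ i) ≤
        (m.choose i : ℝ) * (2 * 18 ^ m * Real.sqrt H ^ m * hs z ^ (m + 4 ^ m) *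
          ((p : ℝ) * Real.sqrt p)⁻¹) := by
      intro i hi
      obtain ⟨h2, h3⟩ := mem_Icc.1 hi
      exact mul_le_mul_of_nonneg_left (second m y z H p i h2 h3 hz hH hp hpz hpH)
        (Nat.cast_nonneg _)
    refine (sum_le_sum h1).trans ?_
    rw [← sum_mul]
    refine (mul_le_mul_of_nonneg_right (choose_sum m) (by positivity)).trans (le_of_eq ?_)
    have h2 : (36 : ℝ) ^ m = 2 ^ m * 18 ^ m := by
      rw [← mul_pow]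
      norm_num
    rw [h2]
    ring

end ErS

theorem err_small (m y z H : ℕ) (hm : 2 ≤ m) (hy : 1 ≤ y) (hz : 1 ≤ z) (hH : 1 ≤ H)
    (hHz : H ≤ z) :
    ∑ p ∈ (Pr y z).filter (fun p => p ≤ H), E1 m y z H p ≤
      1500 * 36 ^ m * Real.sqrt H ^ m * hs z ^ (m + 4 ^ m + 11) / Real.sqrt (Real.sqrt y) := by
  have hH' : (1 : ℝ) ≤ H := by exact_mod_cast hH
  have hs1 : 1 ≤ Real.sqrt H := Real.one_le_sqrt.2 hH'
  have hl := one_le_hs z hz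
  have hl0 := hs_nonneg z
  obtain ⟨s, hse⟩ : ∃ s, s = Real.sqrt H := ⟨_, rfl⟩
  obtain ⟨q, hq⟩ : ∃ q, q = Real.sqrt (Real.sqrt y) := ⟨_, rfl⟩
  have hq0 : 0 ≤ q := by rw [hq]; exact Real.sqrt_nonneg _
  have h1 : ∀ p ∈ (Pr y z).filter (fun p => p ≤ H), E1 m y z H p ≤
      4 ^ m * s ^ (m - 2) * hs z ^ (m + 4 ^ m) * sdV y z H p +
      2 * 36 ^ m * s ^ m * hs z ^ (m + 4 ^ m) * ((p : ℝ) * Real.sqrt p)⁻¹ := by
    intro p hp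
    obtain ⟨h2, h3⟩ := mem_filter.1 hp
    obtain ⟨h4, h5⟩ := mem_filter.1 h2
    rw [hse]
    exact ErS.E1_le m y z H p hm hz hH h5 (mem_Ioc.1 h4).2 h3
  rw [← hse, ← hq]
  rw [← hse] at hs1
  have hs0 : 0 ≤ s := by linarith
  refine (sum_le_sum h1).trans ?_
  rw [sum_add_distrib, ← mul_sum, ← mul_sum]
  have h2 := V_small_tot y z H hy hHz
  rw [← hq] at h2
  have h3 : ∑ p ∈ (Pr y z).filter (fun p => p ≤ H), ((p : ℝ) * Real.sqrt p)⁻¹ ≤ 2 * q⁻¹ := by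
    rw [hq]
    refine le_trans ?_ (ErS.sum_le y z hy)
    refine sum_le_sum_of_subset_of_nonneg ?_ fun i _ _ => by positivity
    intro p hp
    exact (mem_filter.1 (mem_filter.1 hp).1).1
  have h4 : 4 ^ m * s ^ (m - 2) * hs z ^ (m + 4 ^ m) *
      ∑ p ∈ (Pr y z).filter (fun p => p ≤ H), sdV y z H p ≤
      4 ^ m * s ^ (m - 2) * hs z ^ (m + 4 ^ m) * (1400 * H * hs z ^ 11 / q) :=
    mul_le_mul_of_nonneg_left h2 (by positivity)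
  have h5 : 2 * 36 ^ m * s ^ m * hs z ^ (m + 4 ^ m) *
      ∑ p ∈ (Pr y z).filter (fun p => p ≤ H), ((p : ℝ) * Real.sqrt p)⁻¹ ≤
      2 * 36 ^ m * s ^ m * hs z ^ (m + 4 ^ m) * (2 * q⁻¹) :=
    mul_le_mul_of_nonneg_left h3 (by positivity)
  have h6 : s ^ (m - 2) * (H : ℝ) = s ^ m := by
    have h7 : s ^ 2 = (H : ℝ) := by rw [hse]; exact Real.sq_sqrt (Nat.cast_nonneg _)
    rw [← h7, ← pow_add]
    congr 1
    omega
  obtain ⟨A, hA⟩ : ∃ A, A = s ^ m * hs z ^ (m + 4 ^ m + 11) * q⁻¹ := ⟨_, rfl⟩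
  have hA0 : 0 ≤ A := by rw [hA]; positivity
  have h7 : 4 ^ m * s ^ (m - 2) * hs z ^ (m + 4 ^ m) * (1400 * H * hs z ^ 11 / q) =
      1400 * 4 ^ m * A := by
    rw [hA, ← h6, pow_add (hs z) (m + 4 ^ m) 11, div_eq_mul_inv]
    ring
  have h8 : 2 * 36 ^ m * s ^ m * hs z ^ (m + 4 ^ m) * (2 * q⁻¹) ≤ 4 * 36 ^ m * A := by
    rw [hA, pow_add (hs z) (m + 4 ^ m) 11]
    have h9 : (1 : ℝ) ≤ hs z ^ 11 := one_le_pow₀ hl
    have h10 : (0 : ℝ) ≤ 4 * 36 ^ m * s ^ m * hs z ^ (m + 4 ^ m) * q⁻¹ := by positivity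
    calc 2 * 36 ^ m * s ^ m * hs z ^ (m + 4 ^ m) * (2 * q⁻¹)
        = (4 * 36 ^ m * s ^ m * hs z ^ (m + 4 ^ m) * q⁻¹) * 1 := by ring
      _ ≤ (4 * 36 ^ m * s ^ m * hs z ^ (m + 4 ^ m) * q⁻¹) * hs z ^ 11 :=
          mul_le_mul_of_nonneg_left h9 h10
      _ = _ := by ring
  have h9 : 1500 * 36 ^ m * s ^ m * hs z ^ (m + 4 ^ m + 11) / q = 1500 * 36 ^ m * A := by
    rw [hA, div_eq_mul_inv]
    ring
  rw [h9]
  have h10 : (4 : ℝ) ^ m ≤ 36 ^ m := pow_le_pow_left₀ (by norm_num) (by norm_num) m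
  have h11 : (4 : ℝ) ^ m * A ≤ 36 ^ m * A := mul_le_mul_of_nonneg_right h10 hA0
  have h12 : (0 : ℝ) ≤ 36 ^ m * A := by positivity
  rw [h7] at h4
  linarith

end Pool.Agent.MP_a12917_nt_GT
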