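import Mathlib
import Pool.Agent.Lib.MP_a12917_nt_GT.Defs
import Pool.Agent.Lib.MP_a12917_nt_GT.Basic
import Pool.Agent.Lib.MP_a12917_nt_GT.Pars
import Pool.Agent.Lib.MP_a12917_nt_GT.Dil

/-!
# MP_a12917_nt, project GT, module Maj: majorant principle for the variance of window sums of squares

(`ℓ = hs z`.)
`f(x)² = ∑_{τ ∈ R2 T} A_τ ee τ x`, `A_τ = ∑_{(ρ,σ) ∈ T², fract(ρ+σ) = τ} a_ρ a_σ ≥ 0`, and in the same way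
`F(x)² = ∑ B_τ ee τ x` with `0 ≤ A_τ ≤ B_τ` (`ee_add_left`, `ee_fract`). So
`∑_{h=1}^H f(x+h)² = ∑_τ A_τ G_τ ee τ x`, `G_τ = ∑_h ee τ h`, the mean is the term `τ = 0`
(`= H mean f²`; the mean of `ee τ` vanishes for `0 < τ < 1`, by `sum_ee`), and by `parseval` the variance
is `∑_{τ ∈ (R2 T).erase 0} A_τ² ‖G_τ‖² ≤ ∑ B_τ² ‖G_τ‖²`. The denominators of `R2 T` divide `L`.
-/

set_option autoImplicit false

noncomputable section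

namespace Pool.Agent.MP_a12917_nt_GT

open Finset

namespace Maj

/-- the coefficient of the window sum -/
def G (H : ℕ) (τ : ℚ) : ℂ := ∑ h ∈ Icc 1 H, ee τ (h : ℤ)

theorem R2_range (T : Finset ℚ) : ∀ τ ∈ R2 T, 0 ≤ τ ∧ τ < 1 := by
  intro τ hτ
  obtain ⟨u, _, rfl⟩ := Finset.mem_image.1 hτ
  exact ⟨Int.fract_nonneg _, Int.fract_lt_one _⟩

theorem R2_den (T : Finset ℚ) (L : ℕ) (hL : ∀ ρ ∈ T, ρ.den ∣ L) :
    ∀ τ ∈ R2 T, τ.den ∣ L := by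
  intro τ hτ
  obtain ⟨u, hu, rfl⟩ := Finset.mem_image.1 hτ
  obtain ⟨h1, h2⟩ := Finset.mem_product.1 hu
  rw [den_fract]
  exact (Rat.add_den_dvd_lcm u.1 u.2).trans (Nat.lcm_dvd (hL _ h1) (hL _ h2))

theorem NN_nonneg (T : Finset ℚ) (a : ℚ → ℝ) (ha : ∀ ρ ∈ T, 0 ≤ a ρ) (τ : ℚ) :
    0 ≤ NN T a τ := by
  refine Finset.sum_nonneg fun u hu => ?_
  obtain ⟨h1, h2⟩ := Finset.mem_product.1 (Finset.mem_filter.1 hu).1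
  exact mul_nonneg (ha _ h1) (ha _ h2)

theorem NN_mono (T : Finset ℚ) (a b : ℚ → ℝ) (hab : ∀ ρ ∈ T, 0 ≤ a ρ ∧ a ρ ≤ b ρ) (τ : ℚ) :
    NN T a τ ≤ NN T b τ := by
  refine Finset.sum_le_sum fun u hu => ?_
  obtain ⟨h1, h2⟩ := Finset.mem_product.1 (Finset.mem_filter.1 hu).1
  exact mul_le_mul (hab _ h1).2 (hab _ h2).2 (hab _ h2).1 ((hab _ h1).1.trans (hab _ h1).2)

/-- the expansion of the square -/
theorem sq_exp (T : Finset ℚ) (a : ℚ → ℝ) (f : ℤ → ℝ)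
    (hf : ∀ n, (f n : ℂ) = ∑ ρ ∈ T, (a ρ : ℂ) * ee ρ n) (n : ℤ) :
    ((f n ^ 2 : ℝ) : ℂ) = ∑ τ ∈ R2 T, (NN T a τ : ℂ) * ee τ n := by
  have h1 : ∀ τ ∈ R2 T, (NN T a τ : ℂ) * ee τ n =
      ∑ u ∈ (T ×ˢ T).filter (fun u => Int.fract (u.1 + u.2) = τ),
        ((a u.1 : ℂ) * ee u.1 n) * ((a u.2 : ℂ) * ee u.2 n) := by
    intro τ _
    rw [NN, Complex.ofReal_sum, Finset.sum_mul]
    refine Finset.sum_congr rfl fun u hu => ?_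
    rw [← (Finset.mem_filter.1 hu).2, ee_fract, ee_add_left, Complex.ofReal_mul]
    ring
  have h2 : ∀ u ∈ T ×ˢ T, (fun u : ℚ × ℚ => Int.fract (u.1 + u.2)) u ∈ R2 T := fun u hu =>
    Finset.mem_image_of_mem (fun u : ℚ × ℚ => Int.fract (u.1 + u.2)) hu
  have h3 := Finset.sum_fiberwise_of_maps_to h2
    (fun u : ℚ × ℚ => ((a u.1 : ℂ) * ee u.1 n) * ((a u.2 : ℂ) * ee u.2 n))
  rw [Finset.sum_congr rfl h1]
  refine Eq.trans ?_ h3.symm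
  rw [Finset.sum_product, Complex.ofReal_pow, sq, hf, Finset.sum_mul_sum]

/-- the window sum of the squares -/
theorem win (T : Finset ℚ) (a : ℚ → ℝ) (f : ℤ → ℝ)
    (hf : ∀ n, (f n : ℂ) = ∑ ρ ∈ T, (a ρ : ℂ) * ee ρ n) (H : ℕ) (x : ℤ) :
    ((∑ h ∈ Icc 1 H, f (x + (h : ℤ)) ^ 2 : ℝ) : ℂ) =
      ∑ τ ∈ R2 T, (NN T a τ : ℂ) * G H τ * ee τ x := by
  rw [Complex.ofReal_sum]
  have h1 : ∀ h ∈ Icc 1 H, ((f (x + (h : ℤ)) ^ 2 : ℝ) : ℂ) =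
      ∑ τ ∈ R2 T, (NN T a τ : ℂ) * ee τ (h : ℤ) * ee τ x := by
    intro h _
    rw [sq_exp T a f hf]
    refine Finset.sum_congr rfl fun τ _ => ?_
    rw [ee_add_right]
    ring
  rw [Finset.sum_congr rfl h1, Finset.sum_comm]
  refine Finset.sum_congr rfl fun τ _ => ?_
  rw [G, Finset.mul_sum, Finset.sum_mul]

theorem den_one {τ : ℚ} (h : 0 ≤ τ ∧ τ < 1) : τ.den = 1 ↔ τ = 0 := by
  constructor
  · intro h1
    have h2 : (τ.num : ℚ) = τ := Rat.coe_int_num_of_den_eq_one h1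
    have h3 : τ.num < 1 := by
      have : ((τ.num : ℚ)) < 1 := by rw [h2]; exact h.2
      exact_mod_cast this
    have h4 : 0 ≤ τ.num := Rat.num_nonneg.2 h.1
    have h5 : τ.num = 0 := by omega
    exact Rat.num_eq_zero.1 h5
  · rintro rfl
    rfl

/-- the mean of the square -/
theorem mean_sq (T : Finset ℚ) (L : ℕ) (hL0 : 0 < L) (hL : ∀ ρ ∈ T, ρ.den ∣ L) (a : ℚ → ℝ)
    (f : ℤ → ℝ) (hf : ∀ n, (f n : ℂ) = ∑ ρ ∈ T, (a ρ : ℂ) * ee ρ n) :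
    ((mean L (fun x => f x ^ 2) : ℝ) : ℂ) = ∑ τ ∈ R2 T, if τ = 0 then (NN T a τ : ℂ) else 0 := by
  have hL1 : (L : ℂ) ≠ 0 := by exact_mod_cast hL0.ne'
  rw [mean, Complex.ofReal_div, Complex.ofReal_sum, Complex.ofReal_natCast, div_eq_iff hL1]
  have h1 : ∀ x ∈ range L, ((f (x : ℤ) ^ 2 : ℝ) : ℂ) =
      ∑ τ ∈ R2 T, (NN T a τ : ℂ) * ee τ (x : ℤ) := fun x _ => sq_exp T a f hf _
  rw [Finset.sum_congr rfl h1, Finset.sum_comm, Finset.sum_mul]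
  refine Finset.sum_congr rfl fun τ hτ => ?_
  rw [← Finset.mul_sum, sum_ee τ L (R2_den T L hL τ hτ)]
  by_cases h2 : τ = 0
  · rw [if_pos h2, if_pos ((den_one (R2_range T τ hτ)).2 h2)]
  · rw [if_neg h2, if_neg (fun h3 => h2 ((den_one (R2_range T τ hτ)).1 h3)), mul_zero, zero_mul]

theorem G_zero (H : ℕ) : G H 0 = (H : ℂ) := by
  have h1 : ∀ h ∈ Icc 1 H, ee 0 (h : ℤ) = 1 := fun h _ => ee_zero_left (h : ℤ)
  rw [G, Finset.sum_congr rfl h1, Finset.sum_const,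
    Nat.card_Icc, Nat.add_sub_cancel, nsmul_eq_mul, mul_one]

/-- the window sum minus its mean -/
theorem dev (T : Finset ℚ) (L : ℕ) (hL0 : 0 < L) (hL : ∀ ρ ∈ T, ρ.den ∣ L) (a : ℚ → ℝ)
    (f : ℤ → ℝ) (hf : ∀ n, (f n : ℂ) = ∑ ρ ∈ T, (a ρ : ℂ) * ee ρ n) (H : ℕ) (x : ℤ) :
    (((∑ h ∈ Icc 1 H, f (x + (h : ℤ)) ^ 2) - H * mean L (fun x => f x ^ 2) : ℝ) : ℂ) =
      ∑ τ ∈ (R2 T).erase 0, (NN T a τ : ℂ) * G H τ * ee τ x := by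
  rw [Complex.ofReal_sub, win T a f hf H x, Complex.ofReal_mul, mean_sq T L hL0 hL a f hf,
    Complex.ofReal_natCast, Finset.sum_ite_eq']
  by_cases h0 : (0 : ℚ) ∈ R2 T
  · rw [if_pos h0, ← Finset.add_sum_erase _ _ h0, G_zero, ee_zero_left]
    ring
  · rw [if_neg h0, Finset.erase_eq_of_notMem h0, mul_zero, sub_zero]

/-- the variance of the window sum -/
theorem var (T : Finset ℚ) (L : ℕ) (hL0 : 0 < L) (hL : ∀ ρ ∈ T, ρ.den ∣ L) (a : ℚ → ℝ)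
    (f : ℤ → ℝ) (hf : ∀ n, (f n : ℂ) = ∑ ρ ∈ T, (a ρ : ℂ) * ee ρ n) (H : ℕ) :
    mean L (fun x => ((∑ h ∈ Icc 1 H, f (x + (h : ℤ)) ^ 2) -
        H * mean L (fun x => f x ^ 2)) ^ 2) =
      ∑ τ ∈ (R2 T).erase 0, (NN T a τ * ‖G H τ‖) ^ 2 := by
  have h1 : ∀ x : ℤ, ((∑ h ∈ Icc 1 H, f (x + (h : ℤ)) ^ 2) -
      H * mean L (fun x => f x ^ 2)) ^ 2 =
      ‖∑ τ ∈ (R2 T).erase 0, ((NN T a τ : ℂ) * G H τ) * ee τ x‖ ^ 2 := by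
    intro x
    rw [← dev T L hL0 hL a f hf H x, Complex.norm_real, Real.norm_eq_abs, sq_abs]
  rw [mean_congr L _ _ h1, parseval ((R2 T).erase 0)
    (fun τ hτ => R2_range T τ (Finset.mem_of_mem_erase hτ)) L hL0
    (fun τ hτ => R2_den T L hL τ (Finset.mem_of_mem_erase hτ))]
  refine Finset.sum_congr rfl fun τ _ => ?_
  rw [norm_mul, Complex.norm_real, Real.norm_eq_abs, mul_pow, mul_pow, sq_abs]

end Maj

theorem maj_var (T : Finset ℚ) (hT : ∀ ρ ∈ T, 0 ≤ ρ ∧ ρ < 1) (L : ℕ) (hL0 : 0 < L)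
    (hL : ∀ ρ ∈ T, ρ.den ∣ L) (a b : ℚ → ℝ) (hab : ∀ ρ ∈ T, 0 ≤ a ρ ∧ a ρ ≤ b ρ)
    (f F : ℤ → ℝ) (hf : ∀ n, (f n : ℂ) = ∑ ρ ∈ T, (a ρ : ℂ) * ee ρ n)
    (hF : ∀ n, (F n : ℂ) = ∑ ρ ∈ T, (b ρ : ℂ) * ee ρ n) (H : ℕ) :
    mean L (fun x => ((∑ h ∈ Icc 1 H, f (x + (h : ℤ)) ^ 2) - H * mean L (fun x => f x ^ 2)) ^ 2) ≤
      mean L (fun x => ((∑ h ∈ Icc 1 H, F (x + (h : ℤ)) ^ 2) -
        H * mean L (fun x => F x ^ 2)) ^ 2) := by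
  rw [Maj.var T L hL0 hL a f hf H, Maj.var T L hL0 hL b F hF H]
  refine Finset.sum_le_sum fun τ _ => ?_
  have h1 : 0 ≤ NN T a τ := Maj.NN_nonneg T a (fun ρ hρ => (hab ρ hρ).1) τ
  have h2 : NN T a τ ≤ NN T b τ := Maj.NN_mono T a b hab τ
  exact pow_le_pow_left₀ (mul_nonneg h1 (norm_nonneg _))
    (mul_le_mul_of_nonneg_right h2 (norm_nonneg _)) 2

end Pool.Agent.MP_a12917_nt_GT
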