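import Mathlib
import Pool.Agent.Lib.MP_a12917_nt_GT.Defs
import Pool.Agent.Lib.MP_a12917_nt_GT.Basic
import Pool.Agent.Lib.MP_a12917_nt_GT.DU

/-!
# MP_a12917_nt, project GT, module VBid: the conditional variance for p > H

(`ℓ = hs z`.)
`∑_b (U_b - Ub)² = ∑_b U_b² - 2 Ub ∑_b U_b + p Ub² = ∑_b U_b² - p Ub²` (`U_sum`), and as `H < p` every class
`{h ∈ Icc 1 H : h % p = b}` has at most one element (`h % p = h`), so `∑_b U_b² = ∑_{h} f(x+h)²`.
-/

set_option autoImplicit false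

noncomputable section

namespace Pool.Agent.MP_a12917_nt_GT

open Finset

namespace VBid

theorem U_val (p H : ℕ) (hH : H < p) (f : ℤ → ℝ) (b : ℕ) (x : ℤ) :
    U p H f b x = if b ∈ Icc 1 H then f (x + (b : ℤ)) else 0 := by
  unfold U
  have h1 : (Icc 1 H).filter (fun h => h % p = b) = if b ∈ Icc 1 H then {b} else ∅ := by
    ext h
    rw [mem_filter]
    constructor
    · rintro ⟨h2, h3⟩
      have h4 : h % p = h := Nat.mod_eq_of_lt (lt_of_le_of_lt (mem_Icc.1 h2).2 hH)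
      rw [h4] at h3
      subst h3
      rw [if_pos h2]
      exact mem_singleton_self _
    · intro h2
      by_cases h3 : b ∈ Icc 1 H
      · rw [if_pos h3, mem_singleton] at h2
        subst h2
        exact ⟨h3, Nat.mod_eq_of_lt (lt_of_le_of_lt (mem_Icc.1 h3).2 hH)⟩
      · rw [if_neg h3] at h2
        exact absurd h2 (notMem_empty h)
  rw [h1]
  by_cases h3 : b ∈ Icc 1 H
  · rw [if_pos h3, if_pos h3, sum_singleton]
  · rw [if_neg h3, if_neg h3, sum_empty]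

theorem sumU (p H : ℕ) (hH : H < p) (f : ℤ → ℝ) (x : ℤ) :
    ∑ b ∈ range p, U p H f b x ^ 2 = ∑ h ∈ Icc 1 H, f (x + (h : ℤ)) ^ 2 := by
  have h1 : ∀ b ∈ range p, U p H f b x ^ 2 =
      if b ∈ Icc 1 H then f (x + (b : ℤ)) ^ 2 else 0 := by
    intro b _
    rw [U_val p H hH]
    by_cases h3 : b ∈ Icc 1 H
    · rw [if_pos h3, if_pos h3]
    · rw [if_neg h3, if_neg h3, zero_pow two_ne_zero]
  rw [sum_congr rfl h1, ← sum_filter]
  congr 1
  ext h
  rw [mem_filter, mem_range]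
  exact ⟨fun h2 => h2.2, fun h2 => ⟨lt_of_le_of_lt (mem_Icc.1 h2).2 hH, h2⟩⟩

end VBid

theorem V_big_id (p H : ℕ) (hH : H < p) (f : ℤ → ℝ) (x : ℤ) :
    V p H f x = (∑ h ∈ Icc 1 H, f (x + (h : ℤ)) ^ 2) / p - Ub p H f x ^ 2 := by
  have hp : 0 < p := lt_of_le_of_lt (Nat.zero_le H) hH
  have hpr : (p : ℝ) ≠ 0 := by
    have : (0 : ℝ) < p := by exact_mod_cast hp
    exact this.ne'
  have h1 : ∑ b ∈ range p, (U p H f b x - Ub p H f x) ^ 2 =
      ∑ h ∈ Icc 1 H, f (x + (h : ℤ)) ^ 2 - p * Ub p H f x ^ 2 := by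
    have h2 : ∀ b ∈ range p, (U p H f b x - Ub p H f x) ^ 2 =
        U p H f b x ^ 2 - 2 * Ub p H f x * U p H f b x + Ub p H f x ^ 2 := fun b _ => by ring
    rw [sum_congr rfl h2, sum_add_distrib, sum_sub_distrib, ← mul_sum, U_sum p H hp,
      VBid.sumU p H hH, sum_const, card_range, nsmul_eq_mul]
    ring
  unfold V
  rw [h1]
  field_simp

end Pool.Agent.MP_a12917_nt_GT
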