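import Mathlib
import Pool.Agent.Lib.MP_a12917_nt_GT.Defs
import Pool.Agent.Lib.MP_a12917_nt_GT.Basic
import Pool.Agent.Lib.MP_a12917_nt_GT.VBid
import Pool.Agent.Lib.MP_a12917_nt_GT.Maj
import Pool.Agent.Lib.MP_a12917_nt_GT.DvVar
import Pool.Agent.Lib.MP_a12917_nt_GT.GtTP
import Pool.Agent.Lib.MP_a12917_nt_GT.SdF
import Pool.Agent.Lib.MP_a12917_nt_GT.KezB
import Pool.Agent.Lib.MP_a12917_nt_GT.DMomS
import Pool.Agent.Lib.MP_a12917_nt_GT.SEq
import Pool.Agent.Lib.MP_a12917_nt_GT.RamC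
import Pool.Agent.Lib.MP_a12917_nt_GT.Wt

/-!
# MP_a12917_nt, project GT, module VBg: standard deviation of V for one prime p > H

(`ℓ = hs z`.)
`V = (1/p) ∑_h g(x+h)² - Ub(g)²` (`V_big_id`).

First term: `sd (∑_h g(x+h)²) ≤ √(H mean cnt⁴) ≤ √H ℓ^{7.5} ≤ √H ℓ^8` (`maj_var` with
`T = ⋃_{1 ≤ q ≤ z} Fr q`, `f = g` with the coefficients `wt (z/p) ρ.den` if `ρ.den ∈ Qp y z p` and `0`
otherwise (`g_tp`), `F = cnt (Icc 1 z)` with the coefficients `wt z ρ.den` (`cnt_eq`, `ram_ee`), `wt_mono`;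
then `dv_var`, `cnt_mom_z` with `m = 4`).

Second term: `Ub(g) = c H/p + Y`, `c = hs(z/p) ≤ ℓ`, `Y = Ub p H (gt y z p)` (`g_split`), so
`Ub(g)² = const + 2c(H/p) Y + Y²`, `sd ≤ 2ℓ(H/p) √(mean Y²) + √(mean Y⁴)`. `Ub_mom`:
`√(mean Y²) ≤ √(4Hℓ⁶/p²) = 2√H ℓ³/p`, `√(mean Y⁴) ≤ √(16H²ℓ^{20}/p⁴) = 4Hℓ^{10}/p²`. As `H < p`:
`sd ≤ 4 √H ℓ⁴/p + 4ℓ^{10}/p ≤ 8√H ℓ^{10}/p`. Total `≤ 9√H ℓ^{10}/p`.
-/

set_option autoImplicit false

noncomputable section

namespace Pool.Agent.MP_a12917_nt_GT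

open Finset

namespace VBg

theorem sd_c (L : ℕ) (hL : 0 < L) (c : ℝ) (f : ℤ → ℝ) :
    sd L f ≤ Real.sqrt (mean L (fun x => (f x - c) ^ 2)) := by
  have h1 := sd_const_add L hL (-c) f
  have h2 := sd_le L hL (fun x => -c + f x)
  rw [h1] at h2
  refine h2.trans (le_of_eq ?_)
  congr 1
  refine mean_congr _ _ _ fun x => ?_
  ring

/-- the first term -/
theorem first (y z H p : ℕ) (hp : p.Prime) (hpz : p ≤ z) :
    sd (Lm z) (fun x => ∑ h ∈ Icc 1 H, g y z p (x + (h : ℤ)) ^ 2) ≤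
      Real.sqrt H * hs z ^ 8 := by
  classical
  have hz : 1 ≤ z := hp.one_lt.le.trans hpz
  have hl1 : 1 ≤ hs z := one_le_hs z hz
  have hmem : ∀ ρ ∈ (Icc 1 z).biUnion Fr, 1 ≤ ρ.den ∧ ρ.den ≤ z ∧ 0 ≤ ρ ∧ ρ < 1 := by
    intro ρ hρ
    obtain ⟨q, hq, hρq⟩ := mem_biUnion.1 hρ
    have hq' := mem_Icc.1 hq
    obtain ⟨h1, h2, h3⟩ := (mem_Fr q (by omega) ρ).1 hρq
    exact ⟨by omega, by omega, h1, h2⟩
  have h1 := maj_var ((Icc 1 z).biUnion Fr) (fun ρ hρ => (hmem ρ hρ).2.2) (Lm z) (Lm_pos z)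
    (fun ρ hρ => dvd_Lm z ρ.den (hmem ρ hρ).1 (hmem ρ hρ).2.1)
    (fun ρ => if ρ.den ∈ Qp y z p then wt (z / p) ρ.den else 0) (fun ρ => wt z ρ.den)
    (fun ρ _ => by
      by_cases h : ρ.den ∈ Qp y z p
      · simp only [if_pos h]
        exact ⟨wt_nonneg _ _, wt_mono _ _ _ (Nat.div_le_self z p)⟩
      · simp only [if_neg h]
        exact ⟨le_rfl, wt_nonneg _ _⟩)
    (g y z p) (fun n => (cnt (Icc 1 z) n : ℝ)) (fun n => by
      have e : Tp0 y z p = ((Icc 1 z).biUnion Fr).filter fun ρ => ρ.den ∈ Qp y z p := by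
        ext ρ
        unfold Tp0
        rw [mem_filter, mem_biUnion, mem_biUnion]
        constructor
        · rintro ⟨q, hq, hρ⟩
          have hq' := mem_Icc.1 (mem_filter.1 hq).1
          have h2 := (mem_Fr q (by omega) ρ).1 hρ
          refine ⟨⟨q, mem_Icc.2 ⟨hq'.1, hq'.2.trans (Nat.div_le_self z p)⟩, hρ⟩, ?_⟩
          rw [h2.2.2]
          exact hq
        · rintro ⟨⟨q, hq, hρ⟩, h3⟩
          have hq' := mem_Icc.1 hq
          have h2 := (mem_Fr q (by omega) ρ).1 hρ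
          rw [h2.2.2] at h3
          exact ⟨q, h3, hρ⟩
      rw [g_tp, e, sum_filter]
      refine sum_congr rfl fun ρ _ => ?_
      by_cases h : ρ.den ∈ Qp y z p
      · simp only [if_pos h]
      · simp only [if_neg h, Complex.ofReal_zero, zero_mul])
    (fun n => by
      rw [cnt_eq]
      exact GtTP.gen z (Icc 1 z) (fun q hq => (mem_Icc.1 hq).1) n) H
  have h2 := dv_var z H (Lm z) (Lm_pos z)
    fun q hq => dvd_Lm z q (mem_Icc.1 hq).1 (mem_Icc.1 hq).2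
  have h3 := cnt_mom_z z hz 4
  have h4 : (H : ℝ) * mean (Lm z) (fun x => (cnt (Icc 1 z) x : ℝ) ^ 4) ≤
      H * (hs z ^ 8) ^ 2 := by
    refine mul_le_mul_of_nonneg_left (h3.trans ?_) (Nat.cast_nonneg _)
    rw [← pow_mul]
    exact pow_le_pow_right₀ hl1 (by norm_num)
  refine (sd_c (Lm z) (Lm_pos z) (H * mean (Lm z) (fun x => g y z p x ^ 2)) _).trans ?_
  refine (Real.sqrt_le_sqrt (h1.trans (h2.trans h4))).trans (le_of_eq ?_)
  rw [Real.sqrt_mul (Nat.cast_nonneg _), Real.sqrt_sq (pow_nonneg (hs_nonneg z) 8)]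

/-- the second term -/
theorem second (y z H p : ℕ) (hH : 1 ≤ H) (hp : p.Prime) (hpz : p ≤ z) (hHp : H < p) :
    sd (Lm z) (fun x => Ub p H (g y z p) x ^ 2) ≤ 8 * Real.sqrt H * hs z ^ 10 / p := by
  have hz : 1 ≤ z := hp.one_lt.le.trans hpz
  have hl1 : 1 ≤ hs z := one_le_hs z hz
  have hl0 : 0 ≤ hs z := hs_nonneg z
  have hpR : (0 : ℝ) < p := by exact_mod_cast hp.pos
  have hHR : (1 : ℝ) ≤ H := by exact_mod_cast hH
  have hH0 : (0 : ℝ) ≤ H := Nat.cast_nonneg H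
  have hHp' : (H : ℝ) / p ≤ 1 := by
    rw [div_le_one hpR]
    exact_mod_cast hHp.le
  have hq0 : 0 ≤ (H : ℝ) / p := by positivity
  have hs1 : 1 ≤ Real.sqrt H := by
    rw [Real.one_le_sqrt]
    exact hHR
  have hs2 : Real.sqrt H * Real.sqrt H = H := Real.mul_self_sqrt hH0
  obtain ⟨Y, hY⟩ : ∃ Y, Y = Ub p H (gt y z p) := ⟨_, rfl⟩
  obtain ⟨c, hc⟩ : ∃ c, c = hs (z / p) := ⟨_, rfl⟩
  have hc0 : 0 ≤ c := hc ▸ hs_nonneg _
  have hcl : c ≤ hs z := hc ▸ hs_mono _ _ (Nat.div_le_self z p)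
  have hUb : ∀ x, Ub p H (g y z p) x = c * ((H : ℝ) / p) + Y x := by
    intro x
    rw [hY, hc]
    unfold Ub
    rw [sum_congr rfl fun (h : ℕ) _ => g_split y z p hp.one_lt.le hpz (x + (h : ℤ)),
      sum_add_distrib, sum_const, nsmul_eq_mul, Nat.card_Icc, Nat.add_sub_cancel]
    ring
  have e1 : (fun x => Ub p H (g y z p) x ^ 2) = fun x => (c * ((H : ℝ) / p)) ^ 2 +
      (fun x => (fun x => 2 * c * ((H : ℝ) / p) * Y x) x + (fun x => Y x ^ 2) x) x := by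
    funext x
    rw [hUb]
    ring
  have hm1 : Real.sqrt (mean (Lm z) (fun x => Y x ^ 2)) ≤ 2 * Real.sqrt H * hs z ^ 3 / p := by
    have h1 := Ub_mom 1 y z p H hz hH
    rw [← hY] at h1
    rw [Real.sqrt_le_left (by positivity)]
    refine le_trans (le_of_eq ?_) (h1.trans (le_of_eq ?_))
    · rfl
    · have h2 : (2 * Real.sqrt H * hs z ^ 3 / p) ^ 2 =
          4 * (Real.sqrt H * Real.sqrt H) * hs z ^ 6 / (p : ℝ) ^ 2 := by
        ring
      rw [h2, hs2]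
      norm_num
  have hm2 : Real.sqrt (mean (Lm z) (fun x => (Y x ^ 2) ^ 2)) ≤
      4 * H * hs z ^ 10 / (p : ℝ) ^ 2 := by
    have h1 := Ub_mom 2 y z p H hz hH
    rw [← hY] at h1
    rw [Real.sqrt_le_left (by positivity)]
    refine le_trans (le_of_eq ?_) (h1.trans (le_of_eq ?_))
    · refine mean_congr _ _ _ fun x => ?_
      ring
    · norm_num
      ring
  rw [e1, sd_const_add (Lm z) (Lm_pos z)]
  refine (sd_add _ _ _).trans ?_
  rw [sd_const_mul]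
  have h3 : |2 * c * ((H : ℝ) / p)| * sd (Lm z) Y ≤ 4 * Real.sqrt H * hs z ^ 10 / p := by
    rw [abs_of_nonneg (by positivity)]
    have h4 : sd (Lm z) Y ≤ 2 * Real.sqrt H * hs z ^ 3 / p :=
      (sd_le (Lm z) (Lm_pos z) Y).trans hm1
    have h5 : 2 * c * ((H : ℝ) / p) ≤ 2 * hs z := by
      calc 2 * c * ((H : ℝ) / p) ≤ 2 * c * 1 := mul_le_mul_of_nonneg_left hHp' (by positivity)
        _ = 2 * c := mul_one _
        _ ≤ 2 * hs z := by linarith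
    calc 2 * c * ((H : ℝ) / p) * sd (Lm z) Y
        ≤ 2 * hs z * (2 * Real.sqrt H * hs z ^ 3 / p) :=
          mul_le_mul h5 h4 (sd_nonneg _ _) (by positivity)
      _ = 4 * Real.sqrt H * hs z ^ 4 / p := by ring
      _ ≤ 4 * Real.sqrt H * hs z ^ 10 / p := by
          refine div_le_div_of_nonneg_right ?_ hpR.le
          exact mul_le_mul_of_nonneg_left (pow_le_pow_right₀ hl1 (by norm_num)) (by positivity)
  have h6 : sd (Lm z) (fun x => Y x ^ 2) ≤ 4 * Real.sqrt H * hs z ^ 10 / p := by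
    refine (sd_le (Lm z) (Lm_pos z) _).trans (hm2.trans ?_)
    calc 4 * (H : ℝ) * hs z ^ 10 / (p : ℝ) ^ 2 = 4 * ((H : ℝ) / p) * hs z ^ 10 / p := by
          field_simp
      _ ≤ 4 * 1 * hs z ^ 10 / p := by gcongr
      _ ≤ 4 * Real.sqrt H * hs z ^ 10 / p := by gcongr
  calc _ ≤ 4 * Real.sqrt H * hs z ^ 10 / p + 4 * Real.sqrt H * hs z ^ 10 / p :=
        add_le_add h3 h6
    _ = 8 * Real.sqrt H * hs z ^ 10 / p := by ring

end VBg

theorem V_big (y z H p : ℕ) (hH : 1 ≤ H) (hp : p.Prime) (hpz : p ≤ z) (hHp : H < p) :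
    sdV y z H p ≤ 9 * Real.sqrt H * hs z ^ 10 / p := by
  have hz : 1 ≤ z := hp.one_lt.le.trans hpz
  have hl1 : 1 ≤ hs z := one_le_hs z hz
  have hl0 : 0 ≤ hs z := hs_nonneg z
  have hpR : (0 : ℝ) < p := by exact_mod_cast hp.pos
  have e : V p H (g y z p) = fun x =>
      (fun x => 1 / (p : ℝ) * (fun x => ∑ h ∈ Icc 1 H, g y z p (x + (h : ℤ)) ^ 2) x) x +
      (fun x => (-1 : ℝ) * (fun x => Ub p H (g y z p) x ^ 2) x) x := by
    funext x
    rw [V_big_id p H hHp]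
    ring
  unfold sdV
  rw [e]
  refine (sd_add _ _ _).trans ?_
  rw [sd_const_mul, sd_const_mul, abs_neg, abs_one, one_mul, abs_of_nonneg (by positivity)]
  have h1 := VBg.first y z H p hp hpz
  have h2 := VBg.second y z H p hH hp hpz hHp
  have h3 : 1 / (p : ℝ) * sd (Lm z) (fun x => ∑ h ∈ Icc 1 H, g y z p (x + (h : ℤ)) ^ 2) ≤
      Real.sqrt H * hs z ^ 10 / p := by
    calc _ ≤ 1 / (p : ℝ) * (Real.sqrt H * hs z ^ 8) :=
          mul_le_mul_of_nonneg_left h1 (by positivity)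
      _ = Real.sqrt H * hs z ^ 8 / p := by ring
      _ ≤ Real.sqrt H * hs z ^ 10 / p := by
          refine div_le_div_of_nonneg_right ?_ hpR.le
          exact mul_le_mul_of_nonneg_left (pow_le_pow_right₀ hl1 (by norm_num)) (Real.sqrt_nonneg _)
  calc _ ≤ Real.sqrt H * hs z ^ 10 / p + 8 * Real.sqrt H * hs z ^ 10 / p := add_le_add h3 h2
    _ = 9 * Real.sqrt H * hs z ^ 10 / p := by ring

end Pool.Agent.MP_a12917_nt_GT
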