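import Mathlib
import Pool.Agent.Lib.MP_a12917_nt_GT.Defs
import Pool.Agent.Lib.MP_a12917_nt_GT.Basic
import Pool.Agent.Lib.MP_a12917_nt_GT.VBg
import Pool.Agent.Lib.MP_a12917_nt_GT.DMomB
import Pool.Agent.Lib.MP_a12917_nt_GT.KezB
import Pool.Agent.Lib.MP_a12917_nt_GT.Per
import Pool.Agent.Lib.MP_a12917_nt_GT.ErS

/-!
# MP_a12917_nt, project GT, module ErB: sum of the errors over the primes p > H

(`ℓ = hs z`.)
For `p ∈ Pr y z`, `p > H`: (a) as in ErS, `√(mean M_p^{2(m-2)}) ≤ 2^m (√H)^{m-2} ℓ^{m+4^m}`, and `V_big`: the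
first term of `E1` is `≤ 4^m (√H)^{m-2} ℓ^{m+4^m} · 9√H ℓ^{10}/p`. (b) for `3 ≤ i ≤ m`, `dmom_big` with
`N = Nm z p`, `L = Lm z` (`Nm_dvd`, `Nm_co`, `g_per`, `M_per`), `j = m-i`, `f = g y z p`, `M' = M y z H p`:
`mean(|M|^{m-i}|D|^i) ≤ (2^i/p) H √(mean M^{2(m-i)}) √(mean g^{2i}) ≤ (2^i/p) H (2√H)^{m-i}
ℓ^{(m-i)+4^{m-i}/2} 2^i ℓ^{i+4^i/2} ≤ (1/p) 4^m (√H)^{m-1} ℓ^{m+4^m}` (`M_mom`, `g_mom`; `2^i 2^{m-i} 2^i ≤ 4^m`;
`H (√H)^{m-i} ≤ (√H)^{m-1}` as `i ≥ 3`, `H ≥ 1`). Sum over `i`: factor `2^m`. Sum over `p`: `∑ 1/p ≤ ℓ`.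
Total `≤ (9·4^m + 8^m)(√H)^{m-1} ℓ^{m+4^m+11} ≤ 10·8^m …`.
-/

set_option autoImplicit false

noncomputable section

namespace Pool.Agent.MP_a12917_nt_GT

open Finset

namespace ErB

theorem sc (s l : ℝ) (hs1 : 1 ≤ s) (hl : 1 ≤ l) (m i : ℕ) (him : i ≤ m) :
    ((4 * s ^ 2) ^ (m - i) * l ^ (2 * (m - i) + 4 ^ (m - i))) *
      (4 ^ i * l ^ (2 * i + 4 ^ i)) ≤ (2 ^ m * s ^ (m - i) * l ^ (m + 4 ^ m)) ^ 2 := by
  obtain ⟨k, rfl⟩ : ∃ k, m = k + i := ⟨m - i, by omega⟩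
  rw [Nat.add_sub_cancel]
  have hs0 : (0 : ℝ) ≤ s := by linarith
  have hl0 : (0 : ℝ) ≤ l := by linarith
  have h1 : ((4 * s ^ 2) ^ k * l ^ (2 * k + 4 ^ k)) * (4 ^ i * l ^ (2 * i + 4 ^ i)) =
      4 ^ (k + i) * (s ^ k) ^ 2 * l ^ (2 * k + 4 ^ k + (2 * i + 4 ^ i)) := by
    rw [pow_add l (2 * k + 4 ^ k), mul_pow, ← pow_mul s 2 k, Nat.mul_comm 2 k, pow_mul,
      pow_add 4 k i]
    ring
  have h2 : (2 ^ (k + i) * s ^ k * l ^ (k + i + 4 ^ (k + i))) ^ 2 =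
      4 ^ (k + i) * (s ^ k) ^ 2 * (l ^ (k + i + 4 ^ (k + i))) ^ 2 := by
    have h3 : ((2 : ℝ) ^ (k + i)) ^ 2 = 4 ^ (k + i) := by
      rw [← pow_mul, Nat.mul_comm, pow_mul]
      norm_num
    rw [mul_pow, mul_pow, h3]
  rw [h1, h2]
  have h4 : l ^ (2 * k + 4 ^ k + (2 * i + 4 ^ i)) ≤ (l ^ (k + i + 4 ^ (k + i))) ^ 2 := by
    rw [← pow_mul]
    refine pow_le_pow_right₀ hl ?_
    have h5 : 4 ^ k ≤ 4 ^ (k + i) := Nat.pow_le_pow_right (by norm_num) (by omega)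
    have h6 : 4 ^ i ≤ 4 ^ (k + i) := Nat.pow_le_pow_right (by norm_num) (by omega)
    omega
  exact mul_le_mul_of_nonneg_left h4 (by positivity)

theorem second (m y z H p i : ℕ) (hi : 3 ≤ i) (him : i ≤ m) (hz : 1 ≤ z) (hH : 1 ≤ H)
    (hp : p.Prime) (hpz : p ≤ z) (hHp : H < p) :
    mean (Lm z) (fun x => |M y z H p x| ^ (m - i) * |D p H (g y z p) x| ^ i) ≤
      4 ^ m * Real.sqrt H ^ (m - 1) * hs z ^ (m + 4 ^ m) * (p : ℝ)⁻¹ := by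
  have hH' : (1 : ℝ) ≤ H := by exact_mod_cast hH
  have hp' : (1 : ℝ) ≤ p := by exact_mod_cast hp.one_le
  have hs1 : 1 ≤ Real.sqrt H := Real.one_le_sqrt.2 hH'
  have hl := one_le_hs z hz
  have hl0 := hs_nonneg z
  have h1 := dmom_big (Nm z p) p (Lm z) H (Lm_pos z) (Nm_dvd z p hp.one_le hpz) (Nm_co z p hp)
    hHp (g y z p) (g_per y z p) (M y z H p) (M_per y z H p) i (m - i) (by omega)
  have h2 := M_mom (m - i) y z H p hz hH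
  have h3 := g_mom i y z p hz
  have h4 : ∀ (L : ℕ) (f : ℤ → ℝ) (n : ℕ), 0 ≤ mean L (fun x => f x ^ (2 * n)) := by
    intro L f n
    refine mean_nonneg _ _ fun x => ?_
    rw [pow_mul]
    positivity
  have h5 : Real.sqrt (mean (Lm z) (fun x => M y z H p x ^ (2 * (m - i)))) *
      Real.sqrt (mean (Lm z) (fun x => g y z p x ^ (2 * i))) ≤
      2 ^ m * Real.sqrt H ^ (m - i) * hs z ^ (m + 4 ^ m) := by
    rw [← Real.sqrt_mul (h4 _ _ _)]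
    refine Real.sqrt_le_iff.2 ⟨by positivity, ?_⟩
    refine (mul_le_mul h2 h3 (h4 _ _ _) (by positivity)).trans ?_
    have h6 := sc (Real.sqrt H) (hs z) hs1 hl m i him
    rw [Real.sq_sqrt (Nat.cast_nonneg _)] at h6
    exact h6
  refine h1.trans ?_
  rw [mul_assoc]
  have h7 : (0 : ℝ) ≤ 2 ^ i / p * H := by positivity
  refine (mul_le_mul_of_nonneg_left h5 h7).trans ?_
  obtain ⟨s, hse⟩ : ∃ s, s = Real.sqrt H := ⟨_, rfl⟩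
  have hs2 : s ^ 2 = (H : ℝ) := by rw [hse]; exact Real.sq_sqrt (Nat.cast_nonneg _)
  rw [← hse] at hs1 ⊢
  rw [← hs2]
  have hs0 : 0 ≤ s := by linarith
  have h8 : s ^ 2 * s ^ (m - i) ≤ s ^ (m - 1) := by
    rw [← pow_add]
    exact pow_le_pow_right₀ hs1 (by omega)
  have h9 : (2 : ℝ) ^ i ≤ 2 ^ m := pow_le_pow_right₀ (by norm_num) him
  have h10 : (4 : ℝ) ^ m = 2 ^ m * 2 ^ m := by
    rw [← mul_pow]
    norm_num
  calc 2 ^ i / (p : ℝ) * s ^ 2 * (2 ^ m * s ^ (m - i) * hs z ^ (m + 4 ^ m)) =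
      (2 ^ i * 2 ^ m) * (s ^ 2 * s ^ (m - i)) * hs z ^ (m + 4 ^ m) * (p : ℝ)⁻¹ := by
        rw [div_eq_mul_inv]
        ring
    _ ≤ (2 ^ m * 2 ^ m) * s ^ (m - 1) * hs z ^ (m + 4 ^ m) * (p : ℝ)⁻¹ := by gcongr
    _ = 4 ^ m * s ^ (m - 1) * hs z ^ (m + 4 ^ m) * (p : ℝ)⁻¹ := by rw [h10]

theorem E1_le (m y z H p : ℕ) (hm : 2 ≤ m) (hz : 1 ≤ z) (hH : 1 ≤ H)
    (hp : p.Prime) (hpz : p ≤ z) (hHp : H < p) :
    E1 m y z H p ≤ 10 * 8 ^ m * Real.sqrt H ^ (m - 1) * hs z ^ (m + 4 ^ m + 10) *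
      (1 / (p : ℝ)) := by
  have hH' : (1 : ℝ) ≤ H := by exact_mod_cast hH
  have hs1 : 1 ≤ Real.sqrt H := Real.one_le_sqrt.2 hH'
  have hl0 := hs_nonneg z
  have hl := one_le_hs z hz
  have hp0 : (0 : ℝ) < p := by exact_mod_cast hp.pos
  unfold E1
  have hch : (m.choose 2 : ℝ) ≤ 2 ^ m := by
    have := Nat.choose_le_two_pow m 2
    exact_mod_cast this
  have hV := V_big y z H p hH hp hpz hHp
  obtain ⟨s, hse⟩ : ∃ s, s = Real.sqrt H := ⟨_, rfl⟩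
  have h2 : (4 : ℝ) ^ m = 2 ^ m * 2 ^ m := by
    rw [← mul_pow]
    norm_num
  have hA : (m.choose 2 : ℝ) *
      Real.sqrt (mean (Lm z) (fun x => M y z H p x ^ (2 * (m - 2)))) * sdV y z H p ≤
      9 * 4 ^ m * s ^ (m - 1) * hs z ^ (m + 4 ^ m + 10) * (p : ℝ)⁻¹ := by
    have h1 := mul_le_mul hch (ErS.first m y z H p hm hz hH) (Real.sqrt_nonneg _)
      (by positivity)
    refine (mul_le_mul h1 hV (sd_nonneg _ _) (by positivity)).trans (le_of_eq ?_)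
    rw [← hse, h2, pow_add (hs z) (m + 4 ^ m) 10, show m - 1 = (m - 2) + 1 by omega, pow_succ s,
      div_eq_mul_inv]
    ring
  have hB : ∑ i ∈ Icc 3 m, (m.choose i : ℝ) *
      mean (Lm z) (fun x => |M y z H p x| ^ (m - i) * |D p H (g y z p) x| ^ i) ≤
      8 ^ m * s ^ (m - 1) * hs z ^ (m + 4 ^ m + 10) * (p : ℝ)⁻¹ := by
    have h1 : ∀ i ∈ Icc 3 m, (m.choose i : ℝ) *
        mean (Lm z) (fun x => |M y z H p x| ^ (m - i) * |D p H (g y z p) x| ^ i) ≤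
        (m.choose i : ℝ) * (4 ^ m * s ^ (m - 1) * hs z ^ (m + 4 ^ m) * (p : ℝ)⁻¹) := by
      intro i hi
      obtain ⟨h2, h3⟩ := mem_Icc.1 hi
      rw [hse]
      exact mul_le_mul_of_nonneg_left (second m y z H p i h2 h3 hz hH hp hpz hHp)
        (Nat.cast_nonneg _)
    refine (sum_le_sum h1).trans ?_
    rw [← sum_mul]
    have hs0 : 0 ≤ s := by rw [hse]; exact Real.sqrt_nonneg _
    have h3 : (8 : ℝ) ^ m = 2 ^ m * 4 ^ m := by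
      rw [← mul_pow]
      norm_num
    have h4 : hs z ^ (m + 4 ^ m) ≤ hs z ^ (m + 4 ^ m + 10) :=
      pow_le_pow_right₀ hl (by omega)
    calc (∑ i ∈ Icc 3 m, (m.choose i : ℝ)) *
        (4 ^ m * s ^ (m - 1) * hs z ^ (m + 4 ^ m) * (p : ℝ)⁻¹) ≤
        2 ^ m * (4 ^ m * s ^ (m - 1) * hs z ^ (m + 4 ^ m) * (p : ℝ)⁻¹) :=
          mul_le_mul_of_nonneg_right (ErS.choose_sum m) (by positivity)
      _ = (2 ^ m * 4 ^ m) * s ^ (m - 1) * hs z ^ (m + 4 ^ m) * (p : ℝ)⁻¹ := by ring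
      _ ≤ (2 ^ m * 4 ^ m) * s ^ (m - 1) * hs z ^ (m + 4 ^ m + 10) * (p : ℝ)⁻¹ := by gcongr
      _ = _ := by rw [h3]
  refine (add_le_add hA hB).trans ?_
  rw [← hse, one_div]
  have hs0 : 0 ≤ s := by rw [hse]; exact Real.sqrt_nonneg _
  obtain ⟨A, hAe⟩ : ∃ A, A = s ^ (m - 1) * hs z ^ (m + 4 ^ m + 10) * (p : ℝ)⁻¹ := ⟨_, rfl⟩
  have hA0 : 0 ≤ A := by rw [hAe]; positivity
  have h4 : (4 : ℝ) ^ m ≤ 8 ^ m := pow_le_pow_left₀ (by norm_num) (by norm_num) m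
  have h5 : (4 : ℝ) ^ m * A ≤ 8 ^ m * A := mul_le_mul_of_nonneg_right h4 hA0
  have e1 : 9 * 4 ^ m * s ^ (m - 1) * hs z ^ (m + 4 ^ m + 10) * (p : ℝ)⁻¹ = 9 * (4 ^ m * A) := by
    rw [hAe]
    ring
  have e2 : 8 ^ m * s ^ (m - 1) * hs z ^ (m + 4 ^ m + 10) * (p : ℝ)⁻¹ = 8 ^ m * A := by
    rw [hAe]
    ring
  have e3 : 10 * 8 ^ m * s ^ (m - 1) * hs z ^ (m + 4 ^ m + 10) * (p : ℝ)⁻¹ =
      10 * (8 ^ m * A) := by
    rw [hAe]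
    ring
  rw [e1, e2, e3]
  linarith

end ErB

theorem err_big (m y z H : ℕ) (hm : 2 ≤ m) (hz : 1 ≤ z) (hH : 1 ≤ H) :
    ∑ p ∈ (Pr y z).filter (fun p => H < p), E1 m y z H p ≤
      10 * 8 ^ m * Real.sqrt H ^ (m - 1) * hs z ^ (m + 4 ^ m + 11) := by
  have hl0 := hs_nonneg z
  have h1 : ∀ p ∈ (Pr y z).filter (fun p => H < p), E1 m y z H p ≤
      10 * 8 ^ m * Real.sqrt H ^ (m - 1) * hs z ^ (m + 4 ^ m + 10) * (1 / (p : ℝ)) := by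
    intro p hp
    obtain ⟨h2, h3⟩ := mem_filter.1 hp
    obtain ⟨h4, h5⟩ := mem_filter.1 h2
    exact ErB.E1_le m y z H p hm hz hH h5 (mem_Ioc.1 h4).2 h3
  refine (sum_le_sum h1).trans ?_
  rw [← mul_sum]
  have h2 : ∑ p ∈ (Pr y z).filter (fun p => H < p), 1 / (p : ℝ) ≤ hs z := by
    refine sum_le_sum_of_subset_of_nonneg ?_ fun i _ _ => by positivity
    intro p hp
    obtain ⟨h4, h5⟩ := mem_filter.1 (mem_filter.1 hp).1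
    exact mem_Icc.2 ⟨h5.one_le, (mem_Ioc.1 h4).2⟩
  refine (mul_le_mul_of_nonneg_left h2 (by positivity)).trans (le_of_eq ?_)
  rw [show m + 4 ^ m + 11 = (m + 4 ^ m + 10) + 1 by ring, pow_succ (hs z)]
  ring

end Pool.Agent.MP_a12917_nt_GT
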