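import Mathlib
import Pool.Agent.Lib.MP_a12917_nt_GT.Defs
import Pool.Agent.Lib.MP_a12917_nt_GT.Basic
import Pool.Agent.Lib.MP_a12917_nt_GT.NdFacts
import Pool.Agent.Lib.MP_a12917_nt_GT.Dil
import Pool.Agent.Lib.MP_a12917_nt_GT.SEq
import Pool.Agent.Lib.MP_a12917_nt_GT.RamC
import Pool.Agent.Lib.MP_a12917_nt_GT.Per

/-!
# MP_a12917_nt, project GT, module Fk: powers of S as trigonometric polynomials with small
denominators

(`ℓ = hs z`.)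
`Fk z k` (defined here): the fractions in `[0,1)` whose denominator divides `Lm z` and is `≤ z^k`.
`Fk_mem`: `mem_Fr`. `Fk_sp`: if `ρ, σ` have denominators `≤ z^k`, `≤ z^l` and `ρ ± σ` is not an
integer, then
`nd (ρ ± σ) ≥ 1/(den ρ · den σ)` (a nonzero fraction with denominator dividing `den ρ · den σ`);
for `ρ ≠ τ` in
`[0,1)` the difference is not an integer.
`S_pow`: induction on `k`; `k = 0`: `S^0 = 1 = ee 0 x`, `0 ∈ Fk z 0`. Step: by `S_eq`, `ram_ee`,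
`S z H x = ∑_{2 ≤ q ≤ z} ∑_{ρ ∈ Fr q} wt z q F(ρ) ee ρ x`, `F(ρ) = ∑_{h ≤ H} ee ρ h`; multiply with
`∑_{τ ∈ Fk z k} c_τ ee τ x` and collect the terms with the same `fract(τ+ρ)` (`ee_fract`): its
denominator
divides the lcm of `τ.den`, `ρ.den` (so it divides `Lm z`, `dvd_Lm`) and is `≤ z^k · z`. (`z ≥ 1`.)
-/

set_option autoImplicit false

noncomputable section

namespace Pool.Agent.MP_a12917_nt_GT

open Finset

def Fk (z k : ℕ) : Finset ℚ := ((Icc 1 (z ^ k)).filter (fun q => q ∣ Lm z)).biUnion Fr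

theorem Fk_mem (z k : ℕ) (ρ : ℚ) :
    ρ ∈ Fk z k ↔ 0 ≤ ρ ∧ ρ < 1 ∧ ρ.den ∣ Lm z ∧ ρ.den ≤ z ^ k := by
  unfold Fk
  rw [mem_biUnion]
  constructor
  · rintro ⟨q, hq, hρ⟩
    rw [mem_filter, mem_Icc] at hq
    obtain ⟨h1, h2, h3⟩ := (mem_Fr q (by omega) ρ).1 hρ
    rw [h3]
    exact ⟨h1, h2, hq.2, hq.1.2⟩
  · rintro ⟨h1, h2, h3, h4⟩
    have h5 : 1 ≤ ρ.den := ρ.den_pos
    exact ⟨ρ.den, mem_filter.2 ⟨mem_Icc.2 ⟨h5, h4⟩, h3⟩, (mem_Fr _ h5 ρ).2 ⟨h1, h2, rfl⟩⟩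

theorem Fk.low (t : ℚ) (h : nd t ≠ 0) : 1 / (t.den : ℝ) ≤ nd t := by
  obtain ⟨r, hr⟩ : ∃ r : ℚ, r = t - round t := ⟨_, rfl⟩
  have h1 : nd t = |(r : ℝ)| := by
    unfold nd
    rw [hr]
  have h2 : r.den ∣ t.den := by
    have h3 := Rat.add_den_dvd t ((-round t : ℤ) : ℚ)
    rw [Rat.den_intCast, mul_one] at h3
    have h4 : t + ((-round t : ℤ) : ℚ) = r := by
      rw [hr]
      push_cast
      ring
    rwa [h4] at h3
  have h3 : r.den ≤ t.den := Nat.le_of_dvd t.den_pos h2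
  have h4 : r.num ≠ 0 := by
    intro h5
    apply h
    rw [h1, Rat.num_eq_zero.1 h5]
    simp
  have h5 : (1 : ℝ) ≤ |(r.num : ℝ)| := by
    have h6 : (1 : ℤ) ≤ |r.num| := Int.one_le_abs h4
    exact_mod_cast h6
  have h6 : (0 : ℝ) < r.den := by exact_mod_cast r.den_pos
  have h7 : (r.den : ℝ) ≤ t.den := by exact_mod_cast h3
  rw [h1, Rat.cast_def, abs_div, abs_of_pos h6]
  calc 1 / (t.den : ℝ) ≤ 1 / (r.den : ℝ) := one_div_le_one_div_of_le h6 h7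
    _ ≤ |(r.num : ℝ)| / r.den := div_le_div_of_nonneg_right h5 h6.le

theorem Fk.low' (z k l : ℕ) (hz : 1 ≤ z) (t : ℚ) (h : nd t ≠ 0) (a b : ℕ) (ha : a ≤ z ^ k)
    (hb : b ≤ z ^ l) (hd : t.den ∣ a * b) (hab : 0 < a * b) :
    1 / (z : ℝ) ^ (k + l) ≤ nd t := by
  refine le_trans ?_ (Fk.low t h)
  have h1 : t.den ≤ z ^ (k + l) := by
    rw [pow_add]
    exact (Nat.le_of_dvd hab hd).trans (Nat.mul_le_mul ha hb)
  have h2 : (t.den : ℝ) ≤ (z : ℝ) ^ (k + l) := by exact_mod_cast h1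
  have h3 : (0 : ℝ) < t.den := by exact_mod_cast t.den_pos
  have _ := hz
  exact one_div_le_one_div_of_le h3 h2

theorem Fk_sp (z k l : ℕ) (hz : 1 ≤ z) (ρ σ : ℚ) (hρ : ρ ∈ Fk z k) (hσ : σ ∈ Fk z l) :
    (ρ ≠ σ → 1 / (z : ℝ) ^ (k + l) ≤ nd (ρ - σ)) ∧
      (nd (ρ + σ) ≠ 0 → 1 / (z : ℝ) ^ (k + l) ≤ nd (ρ + σ)) := by
  obtain ⟨a1, a2, a3, a4⟩ := (Fk_mem z k ρ).1 hρ
  obtain ⟨b1, b2, b3, b4⟩ := (Fk_mem z l σ).1 hσ
  have hab : 0 < ρ.den * σ.den := Nat.mul_pos ρ.den_pos σ.den_pos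
  constructor
  · intro hne
    refine Fk.low' z k l hz _ ?_ _ _ a4 b4 ?_ hab
    · intro h
      rw [nd_eq_zero] at h
      have h7 := (Rat.den_eq_one_iff (ρ - σ)).1 h
      have h8 : (ρ - σ).num = 0 := by
        have h9 : (((ρ - σ).num : ℤ) : ℚ) < 1 := by rw [h7]; linarith
        have h10 : (-1 : ℚ) < (((ρ - σ).num : ℤ) : ℚ) := by rw [h7]; linarith
        have h11 : (ρ - σ).num < 1 := by exact_mod_cast h9
        have h12 : -1 < (ρ - σ).num := by exact_mod_cast h10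
        omega
      rw [h8, Int.cast_zero] at h7
      exact hne (by linarith)
    · have h7 := Rat.add_den_dvd ρ (-σ)
      rwa [Rat.den_neg_eq_den, ← sub_eq_add_neg] at h7
  · intro h
    exact Fk.low' z k l hz _ h _ _ a4 b4 (Rat.add_den_dvd ρ σ) hab

theorem Fk.S_tp (z H : ℕ) : ∃ d : ℚ → ℂ, ∀ x : ℤ,
    ((S z H x : ℝ) : ℂ) = ∑ ρ ∈ RU z, d ρ * ee ρ x := by
  refine ⟨fun ρ => ((wt z ρ.den : ℝ) : ℂ) * ∑ h ∈ Icc 1 H, ee ρ (h : ℤ), fun x => ?_⟩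
  unfold RU
  rw [S_eq, sum_biUnion]
  · push_cast
    refine sum_congr rfl fun q hq => ?_
    have hq1 : 0 < q := by
      have := (mem_Icc.1 hq).1
      omega
    have h1 : ∑ h ∈ Icc 1 H, ((ram q (x + (h : ℤ)) : ℝ) : ℂ) =
        ∑ ρ ∈ Fr q, (∑ h ∈ Icc 1 H, ee ρ (h : ℤ)) * ee ρ x := by
      rw [sum_congr rfl fun (h : ℕ) _ => ram_ee q hq1 (x + (h : ℤ)), sum_comm]
      refine sum_congr rfl fun ρ _ => ?_
      rw [sum_mul]
      refine sum_congr rfl fun h _ => ?_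
      rw [ee_add_right, mul_comm]
    rw [h1, mul_sum]
    refine sum_congr rfl fun ρ hρ => ?_
    rw [((mem_Fr q hq1 ρ).1 hρ).2.2]
    ring
  · intro q hq q' hq' hne
    change Disjoint (Fr q) (Fr q')
    rw [mem_coe, mem_Icc] at hq hq'
    rw [disjoint_left]
    intro ρ h1 h2
    exact hne (((mem_Fr q (by omega) ρ).1 h1).2.2.symm.trans
      ((mem_Fr q' (by omega) ρ).1 h2).2.2)

theorem Fk.step (z k : ℕ) (τ ρ : ℚ) (hτ : τ ∈ Fk z k) (hρ : ρ ∈ RU z) :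
    Int.fract (τ + ρ) ∈ Fk z (k + 1) := by
  obtain ⟨a1, a2, a3, a4⟩ := (Fk_mem z k τ).1 hτ
  unfold RU at hρ
  rw [mem_biUnion] at hρ
  obtain ⟨q, hq, hρq⟩ := hρ
  rw [mem_Icc] at hq
  obtain ⟨-, -, h3⟩ := (mem_Fr q (by omega) ρ).1 hρq
  rw [Fk_mem]
  refine ⟨Int.fract_nonneg _, Int.fract_lt_one _, ?_, ?_⟩
  · rw [den_fract]
    refine (Rat.add_den_dvd_lcm τ ρ).trans (Nat.lcm_dvd a3 ?_)
    rw [h3]
    exact dvd_Lm z q (by omega) hq.2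
  · rw [den_fract, pow_succ]
    refine (Nat.le_of_dvd (Nat.mul_pos τ.den_pos ρ.den_pos) (Rat.add_den_dvd τ ρ)).trans ?_
    exact Nat.mul_le_mul a4 (by rw [h3]; exact hq.2)

theorem S_pow (z H k : ℕ) (hz : 1 ≤ z) : ∃ c : ℚ → ℂ, ∀ x : ℤ,
    ((S z H x ^ k : ℝ) : ℂ) = ∑ τ ∈ Fk z k, c τ * ee τ x := by
  classical
  have _ := hz
  induction k with
  | zero =>
    refine ⟨fun τ => if τ = 0 then 1 else 0, fun x => ?_⟩
    have h0 : (0 : ℚ) ∈ Fk z 0 := by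
      rw [Fk_mem]
      refine ⟨le_rfl, zero_lt_one, ?_, ?_⟩
      · rw [Rat.den_zero]
        exact one_dvd _
      · rw [Rat.den_zero, pow_zero]
    rw [sum_eq_single 0]
    · beta_reduce
      rw [if_pos rfl, ee_zero_left]
      simp
    · intro τ _ hτ
      beta_reduce
      rw [if_neg hτ, zero_mul]
    · intro h
      exact absurd h0 h
  | succ k ih =>
    obtain ⟨c, hc⟩ := ih
    obtain ⟨d, hd⟩ := Fk.S_tp z H
    refine ⟨fun σ => ∑ u ∈ (Fk z k ×ˢ RU z).filter (fun u => Int.fract (u.1 + u.2) = σ),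
      c u.1 * d u.2, fun x => ?_⟩
    have h1 : ((S z H x ^ (k + 1) : ℝ) : ℂ) =
        ∑ u ∈ Fk z k ×ˢ RU z, c u.1 * d u.2 * ee (Int.fract (u.1 + u.2)) x := by
      have h2 : ((S z H x ^ (k + 1) : ℝ) : ℂ) = ((S z H x ^ k : ℝ) : ℂ) * ((S z H x : ℝ) : ℂ) := by
        push_cast
        ring
      rw [h2, hc x, hd x, sum_mul_sum, ← sum_product']
      refine sum_congr rfl fun u _ => ?_
      rw [ee_fract, ee_add_left]
      ring
    rw [h1, ← sum_fiberwise_of_maps_to (t := Fk z (k + 1))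
      (g := fun u : ℚ × ℚ => Int.fract (u.1 + u.2)) (fun u hu => by
        rw [mem_product] at hu
        exact Fk.step z k u.1 u.2 hu.1 hu.2)]
    refine sum_congr rfl fun σ _ => ?_
    rw [sum_mul]
    refine sum_congr rfl fun u hu => ?_
    rw [(mem_filter.1 hu).2]

end Pool.Agent.MP_a12917_nt_GT
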