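import Mathlib
import Pool.Agent.Lib.MP_a12917_nt_GT.Defs
import Pool.Agent.Lib.MP_a12917_nt_GT.Basic
import Pool.Agent.Lib.MP_a12917_nt_GT.ChL

/-!
# MP_a12917_nt, project GT, module LawA: method of moments for finite distributions

(`ℓ = hs z`.)
Let `μ_n = (1/card) ∑_{x ∈ s n} δ_{X n x}` (a probability measure on the reals). Its characteristic
function
is the quotient in `char_lim`, which tends to that of `gaussianReal 0 1` (`charFun_gaussianReal`).
By Lévy's
theorem (`MeasureTheory.ProbabilityMeasure.tendsto_iff_tendsto_charFun`) `μ_n` converges weakly to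
`gaussianReal 0 1`, which has no atoms, so `μ_n [a,b] → gaussianReal 0 1 [a,b]`
(`MeasureTheory.ProbabilityMeasure.tendsto_measure_of_null_frontier_of_tendsto'`), and
`gaussianReal 0 1 [a,b] = (√(2π))⁻¹ ∫_a^b exp(-t²/2) dt` (`gaussianReal_apply`/density).
-/

set_option autoImplicit false

noncomputable section

namespace Pool.Agent.MP_a12917_nt_GT

open Finset

namespace LawA

open MeasureTheory ProbabilityTheory

/-- the uniform distribution on the values of `X` -/
def mu (s : Finset ℤ) (X : ℤ → ℝ) : Measure ℝ :=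
  (s.card : ENNReal)⁻¹ • ∑ x ∈ s, Measure.dirac (X x)

theorem card_ne (s : Finset ℤ) (hs : s.Nonempty) : (s.card : ENNReal) ≠ 0 := by
  exact_mod_cast hs.card_pos.ne'

theorem mu_prob (s : Finset ℤ) (hs : s.Nonempty) (X : ℤ → ℝ) : IsProbabilityMeasure (mu s X) := by
  constructor
  unfold mu
  rw [Measure.smul_apply, Measure.finsetSum_apply]
  simp only [measure_univ, sum_const, nsmul_eq_mul, mul_one, smul_eq_mul]
  exact ENNReal.inv_mul_cancel (card_ne s hs) (ENNReal.natCast_ne_top _)

theorem mu_Icc (s : Finset ℤ) (hs : s.Nonempty) (X : ℤ → ℝ) (a b : ℝ) :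
    (mu s X (Set.Icc a b)).toReal =
      ((s.filter (fun x => a ≤ X x ∧ X x ≤ b)).card : ℝ) / (s.card : ℝ) := by
  unfold mu
  rw [Measure.smul_apply, Measure.finsetSum_apply]
  have h1 : ∀ x ∈ s, (Measure.dirac (X x)) (Set.Icc a b) =
      if a ≤ X x ∧ X x ≤ b then 1 else 0 := by
    intro x _
    rw [Measure.dirac_apply' _ measurableSet_Icc, Set.indicator_apply]
    rfl
  rw [sum_congr rfl h1, sum_boole, smul_eq_mul, ENNReal.toReal_mul, ENNReal.toReal_inv,
    ENNReal.toReal_natCast, ENNReal.toReal_natCast]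
  rw [div_eq_inv_mul]

theorem charFun_mu (s : Finset ℤ) (X : ℤ → ℝ) (t : ℝ) : charFun (mu s X) t =
    (∑ x ∈ s, Complex.exp ((t * X x : ℝ) * Complex.I)) / (s.card : ℂ) := by
  rw [charFun_apply_real]
  unfold mu
  rw [integral_smul_measure, integral_finsetSum_measure]
  · rw [ENNReal.toReal_inv, ENNReal.toReal_natCast, div_eq_inv_mul]
    rw [Complex.real_smul]
    push_cast
    congr 1
    refine sum_congr rfl fun x _ => ?_
    rw [integral_dirac]
  · intro x _
    exact integrable_dirac (by simp)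

end LawA

theorem moments_law (s : ℕ → Finset ℤ) (hs : ∀ n, (s n).Nonempty) (X : ℕ → ℤ → ℝ)
    (h : ∀ m : ℕ, Filter.Tendsto (fun n => (∑ x ∈ s n, X n x ^ m) / ((s n).card : ℝ))
      Filter.atTop (nhds (gam m))) (a b : ℝ) (hab : a < b) :
    Filter.Tendsto (fun n => (((s n).filter (fun x => a ≤ X n x ∧ X n x ≤ b)).card : ℝ) /
      ((s n).card : ℝ)) Filter.atTop
      (nhds ((Real.sqrt (2 * Real.pi))⁻¹ * ∫ t in a..b, Real.exp (-t ^ 2 / 2))) := by
  let μ : ℕ → MeasureTheory.ProbabilityMeasure ℝ := fun n =>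
    ⟨LawA.mu (s n) (X n), LawA.mu_prob (s n) (hs n) (X n)⟩
  let μ₀ : MeasureTheory.ProbabilityMeasure ℝ :=
    ⟨ProbabilityTheory.gaussianReal 0 1, inferInstance⟩
  have h1 : Filter.Tendsto μ Filter.atTop (nhds μ₀) := by
    rw [MeasureTheory.ProbabilityMeasure.tendsto_iff_tendsto_charFun]
    intro t
    have h2 := char_lim s hs X h t
    have h3 : MeasureTheory.charFun (μ₀ : MeasureTheory.Measure ℝ) t =
        Complex.exp (-(t : ℂ) ^ 2 / 2) := by
      change MeasureTheory.charFun (ProbabilityTheory.gaussianReal 0 1) t = _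
      rw [ProbabilityTheory.charFun_gaussianReal]
      congr 1
      push_cast
      ring
    rw [h3]
    refine h2.congr fun n => ?_
    exact (LawA.charFun_mu (s n) (X n) t).symm
  have h4 : (μ₀ : MeasureTheory.Measure ℝ) (frontier (Set.Icc a b)) = 0 := by
    change (ProbabilityTheory.gaussianReal 0 1) (frontier (Set.Icc a b)) = 0
    have h5 : MeasureTheory.NullSingletonClass (ProbabilityTheory.gaussianReal 0 1) :=
      ProbabilityTheory.nullSingletonClass_gaussianReal one_ne_zero
    rw [frontier_Icc hab.le]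
    exact (Set.toFinite {a, b}).measure_zero _
  have h5 := MeasureTheory.ProbabilityMeasure.tendsto_measure_of_null_frontier_of_tendsto' h1 h4
  have h6 := (ENNReal.tendsto_toReal (MeasureTheory.measure_ne_top
    (μ₀ : MeasureTheory.Measure ℝ) (Set.Icc a b))).comp h5
  have h7 : ((μ₀ : MeasureTheory.Measure ℝ) (Set.Icc a b)).toReal =
      (Real.sqrt (2 * Real.pi))⁻¹ * ∫ t in a..b, Real.exp (-t ^ 2 / 2) := by
    change ((ProbabilityTheory.gaussianReal 0 1) (Set.Icc a b)).toReal = _
    rw [ProbabilityTheory.gaussianReal_apply_eq_integral 0 one_ne_zero,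
      ENNReal.toReal_ofReal (MeasureTheory.integral_nonneg fun x =>
        ProbabilityTheory.gaussianPDFReal_nonneg 0 1 x),
      MeasureTheory.integral_Icc_eq_integral_Ioc, ← intervalIntegral.integral_of_le hab.le,
      ← intervalIntegral.integral_const_mul]
    refine intervalIntegral.integral_congr fun x _ => ?_
    simp [ProbabilityTheory.gaussianPDFReal]
  rw [h7] at h6
  refine h6.congr fun n => ?_
  exact LawA.mu_Icc (s n) (hs n) (X n) a b

end Pool.Agent.MP_a12917_nt_GT
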