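import Mathlib
import Pool.Agent.Lib.MP_a12917_nt_GT.Defs
import Pool.Agent.Lib.MP_a12917_nt_GT.Basic
import Pool.Agent.Lib.MP_a12917_nt_GT.Cov
import Pool.Agent.Lib.MP_a12917_nt_GT.Cop
import Pool.Agent.Lib.MP_a12917_nt_GT.Per

/-!
# MP_a12917_nt, project GT, module LowA: lower bound of the variance, first form

(`ℓ = hs z`.)
`mean S² = ∑_{a,b ≤ z} mean(Ua Ub)` with nonnegative terms (`cov_nonneg`, `dvd_Lm`). Keep the pairs with
`gcd(a,b) = c`, `2H ≤ c ≤ z`: `a = c a'`, `b = c b'`, `a', b' ≤ z/c` coprime, the term is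
`≥ c H/(2ab) = H/(2 c a' b')` (`cov_big`). Sum with `cop_sum`: `≥ ∑_c (H/(2c)) hs(z/c)²/2`.
-/

set_option autoImplicit false

noncomputable section

namespace Pool.Agent.MP_a12917_nt_GT

open Finset

theorem low_a (z H : ℕ) (hH : 1 ≤ H) :
    ∑ c ∈ Icc (2 * H) z, (H : ℝ) / (4 * c) * hs (z / c) ^ 2 ≤
      mean (Lm z) (fun x => S z H x ^ 2) := by
  have hL := Lm_pos z
  have hexp : mean (Lm z) (fun x => S z H x ^ 2) =
      ∑ u ∈ Icc 1 z ×ˢ Icc 1 z, mean (Lm z) (fun x => Ua u.1 H x * Ua u.2 H x) := by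
    rw [← mean_sum]
    refine mean_congr _ _ _ fun x => ?_
    unfold S
    rw [sq, sum_mul_sum, sum_product]
  have hnn : ∀ u ∈ Icc 1 z ×ˢ Icc 1 z,
      0 ≤ mean (Lm z) (fun x => Ua u.1 H x * Ua u.2 H x) := by
    intro u hu
    rw [mem_product, mem_Icc, mem_Icc] at hu
    exact cov_nonneg u.1 u.2 H (Lm z) (dvd_Lm z u.1 hu.1.1 hu.1.2) (dvd_Lm z u.2 hu.2.1 hu.2.2) hL
  have hdec : ∑ c ∈ Icc (2 * H) z, ∑ u ∈ (Icc 1 z ×ˢ Icc 1 z).filter
        (fun u => Nat.gcd u.1 u.2 = c), mean (Lm z) (fun x => Ua u.1 H x * Ua u.2 H x) ≤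
      ∑ u ∈ Icc 1 z ×ˢ Icc 1 z, mean (Lm z) (fun x => Ua u.1 H x * Ua u.2 H x) := by
    rw [← sum_biUnion]
    · apply sum_le_sum_of_subset_of_nonneg
      · intro u hu
        rw [mem_biUnion] at hu
        obtain ⟨c, _, hc⟩ := hu
        exact (mem_filter.1 hc).1
      · intro u hu _
        exact hnn u hu
    · intro c _ d _ hcd
      rw [Function.onFun, disjoint_left]
      intro u hu hv
      exact hcd ((mem_filter.1 hu).2.symm.trans (mem_filter.1 hv).2)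
  rw [hexp]
  refine le_trans (sum_le_sum fun c hc => ?_) hdec
  rw [mem_Icc] at hc
  have hc0 : 0 < c := by omega
  have hcR : (0 : ℝ) < c := by exact_mod_cast hc0
  -- the pairs with gcd c
  have hsub : ∑ u ∈ ((Icc 1 (z / c) ×ˢ Icc 1 (z / c)).filter
        (fun u => u.1.Coprime u.2)).image (fun u => (c * u.1, c * u.2)),
        mean (Lm z) (fun x => Ua u.1 H x * Ua u.2 H x) ≤
      ∑ u ∈ (Icc 1 z ×ˢ Icc 1 z).filter (fun u => Nat.gcd u.1 u.2 = c),
        mean (Lm z) (fun x => Ua u.1 H x * Ua u.2 H x) := by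
    apply sum_le_sum_of_subset_of_nonneg
    · intro w hw
      rw [mem_image] at hw
      obtain ⟨u, hu, rfl⟩ := hw
      rw [mem_filter, mem_product, mem_Icc, mem_Icc] at hu
      obtain ⟨⟨⟨h1, h2⟩, h3, h4⟩, h5⟩ := hu
      rw [Nat.le_div_iff_mul_le hc0] at h2 h4
      rw [mem_filter, mem_product, mem_Icc, mem_Icc]
      rw [mul_comm] at h2 h4
      refine ⟨⟨⟨Nat.mul_pos hc0 h1, h2⟩, Nat.mul_pos hc0 h3, h4⟩, ?_⟩
      simp only
      rw [Nat.gcd_mul_left, Nat.Coprime.gcd_eq_one h5, mul_one]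
    · intro u hu _
      exact hnn u (mem_filter.1 hu).1
  refine le_trans ?_ hsub
  rw [sum_image (by
    intro u _ w _ h
    simp only [Prod.mk.injEq] at h
    exact Prod.ext (Nat.eq_of_mul_eq_mul_left hc0 h.1) (Nat.eq_of_mul_eq_mul_left hc0 h.2))]
  have hterm : ∀ u ∈ (Icc 1 (z / c) ×ˢ Icc 1 (z / c)).filter (fun u => u.1.Coprime u.2),
      (H : ℝ) / (2 * c) * (1 / ((u.1 : ℝ) * u.2)) ≤
        mean (Lm z) (fun x => Ua (c * u.1) H x * Ua (c * u.2) H x) := by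
    intro u hu
    rw [mem_filter, mem_product, mem_Icc, mem_Icc] at hu
    obtain ⟨⟨⟨h1, h2⟩, h3, h4⟩, h5⟩ := hu
    rw [Nat.le_div_iff_mul_le hc0] at h2 h4
    have h6 : Nat.gcd (c * u.1) (c * u.2) = c := by
      rw [Nat.gcd_mul_left, Nat.Coprime.gcd_eq_one h5, mul_one]
    have h7 := cov_big (c * u.1) (c * u.2) H (Lm z)
      (dvd_Lm z _ (Nat.mul_pos hc0 h1) (by rw [mul_comm]; exact h2))
      (dvd_Lm z _ (Nat.mul_pos hc0 h3) (by rw [mul_comm]; exact h4)) hL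
      (by rw [h6]; exact hc.1)
    rw [h6] at h7
    refine le_trans (le_of_eq ?_) h7
    have h8 : (0 : ℝ) < u.1 := by exact_mod_cast h1
    have h9 : (0 : ℝ) < u.2 := by exact_mod_cast h3
    push_cast
    field_simp
  refine le_trans ?_ (sum_le_sum hterm)
  rw [← mul_sum, sum_filter, sum_product]
  have h10 := cop_sum (z / c)
  calc (H : ℝ) / (4 * c) * hs (z / c) ^ 2 = (H : ℝ) / (2 * c) * (hs (z / c) ^ 2 / 2) := by
        field_simp; ring
    _ ≤ _ := mul_le_mul_of_nonneg_left h10 (by positivity)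

end Pool.Agent.MP_a12917_nt_GT
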