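import Mathlib
import Pool.Agent.Lib.MP_a12917_nt_GT.Defs
import Pool.Agent.Lib.MP_a12917_nt_GT.Basic
import Pool.Agent.Lib.MP_a12917_nt_GT.LowA

/-!
# MP_a12917_nt, project GT, module LowB: lower bound of the variance by c H (log z)^3

(`ℓ = hs z`.)
`hs n ≥ log (n+1)` and `hs z ≤ 1 + log z ≤ 2 log z` for `z ≥ 3`. Let `G = ⌊z^{1-ε/2}⌋`. For `2H ≤ c
≤ G`:
`hs (z/c) ≥ log(z/c) ≥ (ε/2) log z` (`⌊z/c⌋ + 1 > z/c`), and `∑_{2H ≤ c ≤ G} 1/c ≥ log((G+1)/(2H)) ≥
log(z^{1-ε/2}/(2 z^{1-ε})) = (ε/2) log z - log 2 ≥ (ε/4) log z` for `z` large. So by `low_a` the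
variance is
`≥ (H/4) (ε/2)² (log z)² (ε/4) log z = (ε³/64) H (log z)³ ≥ (ε³/512) H (hs z)³`.
-/

set_option autoImplicit false

noncomputable section

namespace Pool.Agent.MP_a12917_nt_GT

open Finset

theorem log_le_hs (n : ℕ) : Real.log ((n : ℝ) + 1) ≤ hs n := by
  have h1 := log_add_one_le_harmonic n
  rw [harmonic_eq_sum_Icc] at h1
  push_cast at h1
  unfold hs
  simpa only [one_div] using h1

theorem hs_le_log (n : ℕ) : hs n ≤ 1 + Real.log n := by
  have h1 := harmonic_le_one_add_log n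
  rw [harmonic_eq_sum_Icc] at h1
  push_cast at h1
  unfold hs
  simpa only [one_div] using h1

theorem log_sum (a : ℕ) (ha : 1 ≤ a) (b : ℕ) (hab : a ≤ b + 1) :
    Real.log ((b : ℝ) + 1) - Real.log a ≤ ∑ c ∈ Icc a b, 1 / (c : ℝ) := by
  induction b with
  | zero =>
    have h1 : a = 1 := by omega
    subst h1
    simp
  | succ b ih =>
    rcases Nat.lt_or_ge (b + 1) a with h | h
    · have h1 : a = b + 1 + 1 := by omega
      subst h1
      simp
    · have h2 := ih (by omega)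
      rw [← insert_Icc_right_eq_Icc_add_one h, sum_insert (by simp)]
      have hb : (0 : ℝ) < (b : ℝ) + 1 := by positivity
      have h3 : Real.log (((b : ℝ) + 1 + 1) / ((b : ℝ) + 1)) ≤ 1 / ((b : ℝ) + 1) := by
        have h4 := Real.log_le_sub_one_of_pos (x := ((b : ℝ) + 1 + 1) / ((b : ℝ) + 1))
          (by positivity)
        have h5 : ((b : ℝ) + 1 + 1) / ((b : ℝ) + 1) - 1 = 1 / ((b : ℝ) + 1) := by
          field_simp
          ring
        linarith
      rw [Real.log_div (by positivity) (by positivity)] at h3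
      push_cast
      linarith

theorem low_b (ε : ℝ) (hε : 0 < ε) (hε1 : ε < 1) : ∃ c : ℝ, 0 < c ∧ ∃ z0 : ℕ, ∀ z : ℕ, z0 ≤ z →
    ∀ H : ℕ, 1 ≤ H → (H : ℝ) ≤ (z : ℝ) ^ (1 - ε) →
      c * H * hs z ^ 3 ≤ mean (Lm z) (fun x => S z H x ^ 2) := by
  refine ⟨ε ^ 3 / 512, by positivity, max 3 ⌈Real.exp (4 * Real.log 2 / ε)⌉₊,
    fun z hz H hH hHz => ?_⟩
  have hz3 : 3 ≤ z := (le_max_left _ _).trans hz
  have hz3' : (3 : ℝ) ≤ z := by exact_mod_cast hz3
  have hz0 : (0 : ℝ) < z := by linarith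
  have hze : Real.exp (4 * Real.log 2 / ε) ≤ z := by
    have h1 := Nat.le_ceil (Real.exp (4 * Real.log 2 / ε))
    have h2 : ((⌈Real.exp (4 * Real.log 2 / ε)⌉₊ : ℕ) : ℝ) ≤ z := by
      exact_mod_cast (le_max_right _ _).trans hz
    linarith
  have hl1 : 1 ≤ Real.log z := by
    rw [Real.le_log_iff_exp_le hz0]
    have := Real.exp_one_lt_d9
    linarith
  have hl2 : Real.log 2 ≤ ε / 4 * Real.log z := by
    have h1 : 4 * Real.log 2 / ε ≤ Real.log z := (Real.le_log_iff_exp_le hz0).2 hze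
    rw [div_le_iff₀ hε] at h1
    linarith
  have hHpos : (0 : ℝ) < H := by exact_mod_cast hH
  set G : ℕ := ⌊(z : ℝ) ^ (1 - ε / 2)⌋₊ with hG
  have hGle : (G : ℝ) ≤ (z : ℝ) ^ (1 - ε / 2) := Nat.floor_le (by positivity)
  have hGlt : (z : ℝ) ^ (1 - ε / 2) < (G : ℝ) + 1 := Nat.lt_floor_add_one _
  have hGz : G ≤ z := by
    have h1 : (z : ℝ) ^ (1 - ε / 2) ≤ (z : ℝ) ^ (1 : ℝ) :=
      Real.rpow_le_rpow_of_exponent_le (by linarith) (by linarith)
    rw [Real.rpow_one] at h1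
    exact_mod_cast hGle.trans h1
  have hlogG : (1 - ε / 2) * Real.log z ≤ Real.log ((G : ℝ) + 1) := by
    rw [← Real.log_rpow hz0]
    exact Real.log_le_log (by positivity) hGlt.le
  have hlogH : Real.log ((2 * H : ℕ) : ℝ) ≤ Real.log 2 + (1 - ε) * Real.log z := by
    push_cast
    rw [Real.log_mul (by norm_num) hHpos.ne', ← Real.log_rpow hz0]
    have := Real.log_le_log hHpos hHz
    linarith
  have h2H : 2 * H ≤ G + 1 := by
    have h1 : Real.log ((2 * H : ℕ) : ℝ) ≤ Real.log ((G : ℝ) + 1) := by nlinarith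
    have h2 := (Real.log_le_log_iff (by push_cast; positivity) (by positivity)).1 h1
    exact_mod_cast h2
  have hsum := log_sum (2 * H) (by omega) G h2H
  have hsum2 : ε / 4 * Real.log z ≤ ∑ c ∈ Icc (2 * H) G, 1 / (c : ℝ) := by
    nlinarith
  have hhs : hs z ≤ 2 * Real.log z := by
    have := hs_le_log z
    linarith
  have hterm : ∀ c ∈ Icc (2 * H) G, ε / 2 * Real.log z ≤ hs (z / c) := by
    intro c hc
    rw [mem_Icc] at hc
    have hc0 : (0 : ℝ) < c := by exact_mod_cast (show 0 < c by omega)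
    have h1 : Real.log ((z : ℝ) / c) ≤ Real.log (((z / c : ℕ) : ℝ) + 1) := by
      apply Real.log_le_log (by positivity)
      rw [div_le_iff₀ hc0]
      have h2 := Nat.lt_div_mul_add (a := z) (b := c) (by omega)
      have h3 : z ≤ (z / c + 1) * c := by
        rw [add_mul, one_mul]; exact h2.le
      exact_mod_cast h3
    have h4 : Real.log c ≤ (1 - ε / 2) * Real.log z := by
      rw [← Real.log_rpow hz0]
      apply Real.log_le_log hc0
      refine le_trans ?_ hGle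
      exact_mod_cast hc.2
    have h5 := log_le_hs (z / c)
    rw [Real.log_div hz0.ne' hc0.ne'] at h1
    linarith
  have hlow : ∑ c ∈ Icc (2 * H) G, (H : ℝ) / (4 * c) * (ε / 2 * Real.log z) ^ 2 ≤
      ∑ c ∈ Icc (2 * H) z, (H : ℝ) / (4 * c) * hs (z / c) ^ 2 := by
    refine le_trans (sum_le_sum fun c hc => ?_) (sum_le_sum_of_subset_of_nonneg
      (Icc_subset_Icc le_rfl hGz) fun c _ _ => by positivity)
    exact mul_le_mul_of_nonneg_left
      (pow_le_pow_left₀ (by positivity) (hterm c hc) 2) (by positivity)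
  have hfac : ∑ c ∈ Icc (2 * H) G, (H : ℝ) / (4 * c) * (ε / 2 * Real.log z) ^ 2 =
      (H : ℝ) / 4 * (ε / 2 * Real.log z) ^ 2 * ∑ c ∈ Icc (2 * H) G, 1 / (c : ℝ) := by
    rw [mul_sum]
    refine sum_congr rfl fun c _ => ?_
    ring
  have hmain : (H : ℝ) / 4 * (ε / 2 * Real.log z) ^ 2 * (ε / 4 * Real.log z) ≤
      (H : ℝ) / 4 * (ε / 2 * Real.log z) ^ 2 * ∑ c ∈ Icc (2 * H) G, 1 / (c : ℝ) :=
    mul_le_mul_of_nonneg_left hsum2 (by positivity)
  have hcube : hs z ^ 3 ≤ (2 * Real.log z) ^ 3 := pow_le_pow_left₀ (hs_nonneg z) hhs 3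
  calc ε ^ 3 / 512 * H * hs z ^ 3 ≤ ε ^ 3 / 512 * H * (2 * Real.log z) ^ 3 :=
        mul_le_mul_of_nonneg_left hcube (by positivity)
    _ = (H : ℝ) / 4 * (ε / 2 * Real.log z) ^ 2 * (ε / 4 * Real.log z) := by ring
    _ ≤ _ := hmain
    _ = _ := hfac.symm
    _ ≤ _ := hlow
    _ ≤ _ := low_a z H hH

end Pool.Agent.MP_a12917_nt_GT
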