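import Mathlib
import Pool.Agent.Lib.MP_a12917_nt_GT.Defs
import Pool.Agent.Lib.MP_a12917_nt_GT.Basic
import Pool.Agent.Lib.MP_a12917_nt_GT.Kew
import Pool.Agent.Lib.MP_a12917_nt_GT.CBad
import Pool.Agent.Lib.MP_a12917_nt_GT.Wt
import Pool.Agent.Lib.MP_a12917_nt_GT.Per

/-!
# MP_a12917_nt, project GT, module RMom: moments of the dropped part

(`ℓ = hs z`.)
`kew` with `Q = Bad y z` (elements between `2` and `z`, `dvd_Lm`), `K = H`, `w = wt z`, `W = hs z` (`wt_le`):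
`mean R^{2k} ≤ (4H)^k ℓ^{2k} mean cnt(Bad)^{2k}`, and `cnt_bad` with `m = 2k`, `2^{2k} = 4^k`, `3^{2k} = 9^k`;
the exponents `4^k - 1` may be replaced by `4^k` since both bases are `≥ 1` (`1 ∈ Sm y z`).
-/

set_option autoImplicit false

noncomputable section

namespace Pool.Agent.MP_a12917_nt_GT

open Finset

theorem R_mom (k y z H : ℕ) (hy : 1 ≤ y) (hz : 1 ≤ z) (hH : 1 ≤ H) :
    mean (Lm z) (fun x => R y z H x ^ (2 * k)) ≤
      (16 * (H : ℝ)) ^ k * hs z ^ (2 * k) *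
        ((∑ q ∈ Sm y z, 1 / (q : ℝ)) ^ (4 ^ k) + 9 ^ k / y * hs z ^ (4 ^ k)) := by
  have hB : ∀ q ∈ Bad y z, 2 ≤ q ∧ q ≤ z := fun q hq => mem_Icc.1 (mem_filter.1 hq).1
  have hh0 := hs_nonneg z
  have hh1 := one_le_hs z hz
  have h1 := kew k (Bad y z) (fun q hq => by have := hB q hq; omega) H hH
    (Or.inr fun q hq => (hB q hq).1) (wt z) (hs z) hh0 (fun q hq => by
      rw [abs_of_nonneg (wt_nonneg z q)]
      exact wt_le z q (by have := hB q hq; omega)) (Lm z) (Lm_pos z)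
    (fun q hq => dvd_Lm z q (by have := hB q hq; omega) (hB q hq).2)
  have h2 := cnt_bad (2 * k) y z hy hz
  have hS : 1 ≤ ∑ q ∈ Sm y z, 1 / (q : ℝ) := by
    have h3 : (1 : ℕ) ∈ Sm y z := by
      unfold Sm
      rw [mem_filter, mem_Icc]
      refine ⟨⟨le_rfl, hz⟩, fun r hr => ?_⟩
      simp at hr
    have h4 := single_le_sum (f := fun q : ℕ => 1 / (q : ℝ)) (fun i _ => by positivity) h3
    simpa using h4
  have e1 : (2 : ℕ) ^ (2 * k) = 4 ^ k := by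
    rw [pow_mul]
    norm_num
  have e2 : (2 : ℝ) ^ (2 * k) = 4 ^ k := by
    rw [pow_mul]
    norm_num
  have e3 : (3 : ℝ) ^ (2 * k) = 9 ^ k := by
    rw [pow_mul]
    norm_num
  rw [e1, e2, e3] at h2
  have h3 : (∑ q ∈ Sm y z, 1 / (q : ℝ)) ^ (4 ^ k - 1) ≤
      (∑ q ∈ Sm y z, 1 / (q : ℝ)) ^ (4 ^ k) := pow_le_pow_right₀ hS (Nat.sub_le _ _)
  have h4 : hs z ^ (4 ^ k - 1) ≤ hs z ^ (4 ^ k) := pow_le_pow_right₀ hh1 (Nat.sub_le _ _)
  have h5 : (9 : ℝ) ^ k / y * hs z ^ (4 ^ k - 1) ≤ 9 ^ k / y * hs z ^ (4 ^ k) :=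
    mul_le_mul_of_nonneg_left h4 (by positivity)
  have h6 : mean (Lm z) (fun x => (cnt (Bad y z) x : ℝ) ^ (2 * k)) ≤
      4 ^ k * ((∑ q ∈ Sm y z, 1 / (q : ℝ)) ^ (4 ^ k) + 9 ^ k / y * hs z ^ (4 ^ k)) :=
    h2.trans (mul_le_mul_of_nonneg_left (add_le_add h3 h5) (by positivity))
  calc mean (Lm z) (fun x => R y z H x ^ (2 * k))
      ≤ (4 * (H : ℝ)) ^ k * hs z ^ (2 * k) *
          mean (Lm z) (fun x => (cnt (Bad y z) x : ℝ) ^ (2 * k)) := h1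
    _ ≤ (4 * (H : ℝ)) ^ k * hs z ^ (2 * k) * (4 ^ k *
          ((∑ q ∈ Sm y z, 1 / (q : ℝ)) ^ (4 ^ k) + 9 ^ k / y * hs z ^ (4 ^ k))) :=
        mul_le_mul_of_nonneg_left h6 (by positivity)
    _ = _ := by
        have e4 : (16 * (H : ℝ)) ^ k = (4 * (H : ℝ)) ^ k * 4 ^ k := by
          rw [← mul_pow]
          congr 1
          ring
        rw [e4]
        ring

end Pool.Agent.MP_a12917_nt_GT
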