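import Mathlib
import Pool.Agent.Lib.MP_a12917_nt_GT.Defs
import Pool.Agent.Lib.MP_a12917_nt_GT.Basic
import Pool.Agent.Lib.MP_6396c4_an.Mertens

/-!
# MP_a12917_nt, project GT, module Smo: reciprocal sum of the smooth numbers

(`ℓ = hs z`.)
`∑_{q ∈ Sm y z} 1/q ≤ ∏_{p ≤ y} (1 - 1/p)^{-1}` (Euler product; Mathlib:
`EulerProduct.summable_and_hasSum_smoothNumbers_prod_primesBelow_geometric` or
`Nat.smoothNumbers`; or by induction on the primes) `≤ exp(∑_{p ≤ y} (1/p + 1/(p(p-1)))) ≤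
e · exp(∑_{p≤y} 1/p)` and Mertens' second theorem `∑_{p ≤ y} 1/p ≤ log(1 + log y) + C`:
`Pool.Agent.MP6396c4.mertens` in `Pool/Agent/Lib/MP_6396c4_an/Mertens.lean` (proved; import this
file).
-/

set_option autoImplicit false

noncomputable section

namespace Pool.Agent.MP_a12917_nt_GT

open Finset

/-- the reciprocal as a multiplicative map -/
def recip : ℕ →* ℝ where
  toFun n := (n : ℝ)⁻¹
  map_one' := by simp
  map_mul' a b := by push_cast; rw [mul_inv]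

theorem tel_sum (N : ℕ) (hN : 1 ≤ N) :
    ∑ n ∈ Icc 2 N, 1 / ((n : ℝ) * ((n : ℝ) - 1)) = 1 - 1 / (N : ℝ) := by
  induction N, hN using Nat.le_induction with
  | base => simp
  | succ n hn ih =>
    rw [← insert_Icc_right_eq_Icc_add_one (show 2 ≤ n + 1 by omega), sum_insert (by simp), ih]
    have h1 : (0 : ℝ) < n := by exact_mod_cast hn
    push_cast
    rw [show (n : ℝ) + 1 - 1 = n by ring]
    field_simp
    ring

theorem one_factor (p : ℕ) (hp : 2 ≤ p) :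
    (1 - recip p)⁻¹ ≤ Real.exp ((p : ℝ)⁻¹ + 1 / ((p : ℝ) * ((p : ℝ) - 1))) := by
  have h2 : (2 : ℝ) ≤ p := by exact_mod_cast hp
  have h3 : (p : ℝ)⁻¹ + 1 / ((p : ℝ) * ((p : ℝ) - 1)) = 1 / ((p : ℝ) - 1) := by
    have : (p : ℝ) - 1 ≠ 0 := by linarith
    field_simp
    ring
  have h4 : (1 - recip p)⁻¹ = 1 / ((p : ℝ) - 1) + 1 := by
    change (1 - (p : ℝ)⁻¹)⁻¹ = _
    have : (p : ℝ) - 1 ≠ 0 := by linarith
    have h5 : (1 : ℝ) - (p : ℝ)⁻¹ = ((p : ℝ) - 1) / p := by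
      field_simp
    rw [h5]
    field_simp
    ring
  rw [h3, h4]
  exact Real.add_one_le_exp _

theorem smooth_sum : ∃ C : ℝ, 0 < C ∧ ∀ y z : ℕ, 1 ≤ y →
    ∑ q ∈ Sm y z, 1 / (q : ℝ) ≤ C * (1 + Real.log y) := by
  obtain ⟨C, hC, hM⟩ := Pool.Agent.MP6396c4.mertens
  refine ⟨Real.exp (C + 1), Real.exp_pos _, fun y z hy => ?_⟩
  have hlog : 0 ≤ Real.log y := Real.log_natCast_nonneg y
  have hlt : ∀ {p : ℕ}, p.Prime → ‖recip p‖ < 1 := by
    intro p hp
    have h2 : (2 : ℝ) ≤ p := by exact_mod_cast hp.two_le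
    change ‖(p : ℝ)⁻¹‖ < 1
    rw [norm_inv, Real.norm_natCast]
    exact inv_lt_one_of_one_lt₀ (by linarith)
  have key := (EulerProduct.summable_and_hasSum_smoothNumbers_prod_primesBelow_geometric
    (f := recip) hlt (y + 1)).2
  have hmem : ∀ q ∈ Sm y z, q ∈ (y + 1).smoothNumbers := by
    intro q hq
    unfold Sm at hq
    rw [mem_filter, mem_Icc] at hq
    rw [Nat.mem_smoothNumbers]
    refine ⟨by omega, fun r hr => ?_⟩
    have := hq.2 r (List.mem_toFinset.2 hr)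
    omega
  have h1 : ∑ q ∈ Sm y z, 1 / (q : ℝ) ≤ ∏ p ∈ (y + 1).primesBelow, (1 - recip p)⁻¹ := by
    have h2 := sum_le_hasSum ((Sm y z).subtype (· ∈ (y + 1).smoothNumbers)) (fun i _ => by
      change (0 : ℝ) ≤ ((i : ℕ) : ℝ)⁻¹
      positivity) key
    refine le_trans (le_of_eq ?_) h2
    rw [sum_subtype_of_mem (f := fun q : ℕ => recip q) hmem]
    refine sum_congr rfl fun q _ => ?_
    change 1 / (q : ℝ) = (q : ℝ)⁻¹
    rw [one_div]
  have h3 : ∏ p ∈ (y + 1).primesBelow, (1 - recip p)⁻¹ ≤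
      ∏ p ∈ (y + 1).primesBelow, Real.exp ((p : ℝ)⁻¹ + 1 / ((p : ℝ) * ((p : ℝ) - 1))) := by
    refine prod_le_prod (fun p hp => ?_) fun p hp => ?_
    · have hp := (Nat.mem_primesBelow.1 hp).2
      have := hlt hp
      rw [Real.norm_eq_abs, abs_lt] at this
      exact inv_nonneg.2 (by linarith)
    · exact one_factor p (Nat.mem_primesBelow.1 hp).2.two_le
  have hpr : (y + 1).primesBelow = Pool.Agent.MP6396c4.pr y := by
    ext p
    rw [Nat.mem_primesBelow, Pool.Agent.MP6396c4.mem_pr]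
    constructor
    · rintro ⟨h, h'⟩
      exact ⟨h', by omega⟩
    · rintro ⟨h, h'⟩
      exact ⟨by omega, h⟩
  rw [← Real.exp_sum, sum_add_distrib, hpr] at h3
  rw [hpr] at h1
  have h4 : ∑ p ∈ Pool.Agent.MP6396c4.pr y, 1 / ((p : ℝ) * ((p : ℝ) - 1)) ≤ 1 := by
    have h5 : ∑ p ∈ Pool.Agent.MP6396c4.pr y, 1 / ((p : ℝ) * ((p : ℝ) - 1)) ≤
        ∑ n ∈ Icc 2 y, 1 / ((n : ℝ) * ((n : ℝ) - 1)) := by
      refine sum_le_sum_of_subset_of_nonneg (fun p hp => ?_) fun n hn _ => ?_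
      · rw [Pool.Agent.MP6396c4.mem_pr] at hp
        exact mem_Icc.2 ⟨hp.1.two_le, hp.2⟩
      · have h6 : (2 : ℝ) ≤ n := by exact_mod_cast (mem_Icc.1 hn).1
        exact div_nonneg zero_le_one (mul_nonneg (by linarith) (by linarith))
    rw [tel_sum y hy] at h5
    have h7 : (0 : ℝ) ≤ 1 / (y : ℝ) := by positivity
    linarith
  have h8 := (hM y hy).1
  have h9 : (0 : ℝ) < 1 + Real.log y := by linarith
  calc ∑ q ∈ Sm y z, 1 / (q : ℝ) ≤ _ := h1
    _ ≤ _ := h3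
    _ ≤ Real.exp (C + 1 + Real.log (1 + Real.log y)) := by
        apply Real.exp_le_exp.2
        linarith
    _ = Real.exp (C + 1) * (1 + Real.log y) := by
        rw [Real.exp_add, Real.exp_log h9]

end Pool.Agent.MP_a12917_nt_GT
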