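import Mathlib
import Pool.Agent.Lib.MP_a12917_nt_GT.Defs
import Pool.Agent.Lib.MP_a12917_nt_GT.Basic
import Pool.Agent.Lib.MP_a12917_nt_GT.RMom
import Pool.Agent.Lib.MP_a12917_nt_GT.Smo
import Pool.Agent.Lib.MP_a12917_nt_GT.LowB

/-!
# MP_a12917_nt, project GT, module RSm: the dropped part is negligible

(`ℓ = hs z`.)
`y = ⌈ℓ^B⌉ ≥ ℓ^{4^k}`, so in `R_mom` the second summand in the bracket is `≤ 9^k`, and by `smooth_sum` the
first is `≤ (C(1 + log y))^{4^k}`, `log y ≤ log(ℓ^B + 1) ≤ log 2 + B log ℓ`. By `low_b`,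
`(mean S²)^k ≥ (c H ℓ³)^k`. The quotient is `≤ (16/c)^k ℓ^{-k} (9^k + (C(1 + log 2 + B log ℓ))^{4^k})`, which
tends to `0` as `ℓ = hs z → ∞` (`k ≥ 1`; `hs z ≥ log(z+1)`).
-/

set_option autoImplicit false

noncomputable section

namespace Pool.Agent.MP_a12917_nt_GT

open Finset

theorem hs_tendsto : Filter.Tendsto hs Filter.atTop Filter.atTop := by
  have h1 : ∀ z : ℕ, Real.log ((z : ℝ) + 1) ≤ hs z := by
    intro z
    have h2 := log_add_one_le_harmonic z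
    rw [harmonic_eq_sum_Icc] at h2
    push_cast at h2
    simpa only [hs, one_div] using h2
  refine Filter.tendsto_atTop_mono h1 ?_
  refine Real.tendsto_log_atTop.comp ?_
  exact Filter.tendsto_atTop_add_const_right _ _ tendsto_natCast_atTop_atTop

namespace RSm

/-- powers of logarithms are small -/
theorem key (k n : ℕ) (hk : 1 ≤ k) (C B c θ : ℝ) (hC : 0 < C) (hB : 0 ≤ B) (hc : 0 < c)
    (hθ : 0 < θ) : ∀ᶠ x : ℝ in Filter.atTop,
      16 ^ k * ((C * (2 + B * Real.log x)) ^ n + 9 ^ k) ≤ θ * c ^ k * x ^ k := by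
  have hlit := (Real.isLittleO_pow_log_id_atTop (n := n)).def
    (c := θ * c ^ k / (2 * (16 ^ k * (C * (2 + B)) ^ n))) (by positivity)
  filter_upwards [hlit, Filter.eventually_ge_atTop (Real.exp 1),
    Filter.eventually_ge_atTop (2 * (16 ^ k * 9 ^ k) / (θ * c ^ k)),
    Filter.eventually_ge_atTop 1] with x h1 h2 h3 h4
  have hlog : 1 ≤ Real.log x := by
    rw [Real.le_log_iff_exp_le (by linarith)]
    exact h2
  rw [id, Real.norm_eq_abs, Real.norm_eq_abs, abs_of_nonneg (by positivity),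
    abs_of_nonneg (by linarith)] at h1
  have h5 : C * (2 + B * Real.log x) ≤ C * (2 + B) * Real.log x := by
    rw [mul_assoc]
    refine mul_le_mul_of_nonneg_left ?_ hC.le
    nlinarith
  have h6 : (C * (2 + B * Real.log x)) ^ n ≤ (C * (2 + B)) ^ n * Real.log x ^ n := by
    rw [← mul_pow]
    exact pow_le_pow_left₀ (by positivity) h5 n
  have h7 : 16 ^ k * ((C * (2 + B)) ^ n * Real.log x ^ n) ≤ θ * c ^ k / 2 * x := by
    calc 16 ^ k * ((C * (2 + B)) ^ n * Real.log x ^ n)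
        ≤ 16 ^ k * ((C * (2 + B)) ^ n * (θ * c ^ k / (2 * (16 ^ k * (C * (2 + B)) ^ n)) * x)) := by
          gcongr
      _ = θ * c ^ k / 2 * x := by
          have : (C * (2 + B)) ^ n ≠ 0 := by positivity
          field_simp
  have h8 : 16 ^ k * 9 ^ k ≤ θ * c ^ k / 2 * x := by
    rw [div_le_iff₀ (by positivity)] at h3
    linarith
  have h9 : x ≤ x ^ k := le_self_pow₀ h4 (by omega)
  calc 16 ^ k * ((C * (2 + B * Real.log x)) ^ n + 9 ^ k)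
      ≤ 16 ^ k * ((C * (2 + B)) ^ n * Real.log x ^ n + 9 ^ k) := by
        gcongr
    _ = 16 ^ k * ((C * (2 + B)) ^ n * Real.log x ^ n) + 16 ^ k * 9 ^ k := by ring
    _ ≤ θ * c ^ k / 2 * x + θ * c ^ k / 2 * x := add_le_add h7 h8
    _ = θ * c ^ k * x := by ring
    _ ≤ θ * c ^ k * x ^ k := by gcongr

end RSm

theorem R_small (k B : ℕ) (hk : 1 ≤ k) (hB : 4 ^ k ≤ B) (ε θ : ℝ) (hε : 0 < ε) (hε1 : ε < 1)
    (hθ : 0 < θ) : ∃ z0 : ℕ, ∀ z : ℕ, z0 ≤ z → ∀ H : ℕ, 1 ≤ H → (H : ℝ) ≤ (z : ℝ) ^ (1 - ε) →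
    mean (Lm z) (fun x => R ⌈hs z ^ B⌉₊ z H x ^ (2 * k)) ≤
      θ * mean (Lm z) (fun x => S z H x ^ 2) ^ k := by
  obtain ⟨C, hC, hsm⟩ := smooth_sum
  obtain ⟨c, hc, z1, hlow⟩ := low_b ε hε hε1
  obtain ⟨z2, hz2⟩ := Filter.eventually_atTop.1 (hs_tendsto.eventually
    (RSm.key k (4 ^ k) hk C B c θ hC (Nat.cast_nonneg B) hc hθ))
  refine ⟨z1 + z2 + 1, fun z hz H hH hH2 => ?_⟩
  have hl : 1 ≤ hs z := one_le_hs z (by omega)
  have hkey := hz2 z (by omega)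
  have hS := hlow z (by omega) H hH hH2
  have hH' : (0 : ℝ) < H := by exact_mod_cast hH
  have hlB : 1 ≤ hs z ^ B := one_le_pow₀ hl
  have hy : 1 ≤ ⌈hs z ^ B⌉₊ := Nat.one_le_ceil_iff.2 (by linarith)
  have hR := R_mom k ⌈hs z ^ B⌉₊ z H hy (by omega) hH
  have hyl : hs z ^ B ≤ (⌈hs z ^ B⌉₊ : ℝ) := Nat.le_ceil _
  have hyu : (⌈hs z ^ B⌉₊ : ℝ) < hs z ^ B + 1 := Nat.ceil_lt_add_one (by linarith)
  have hy0 : (0 : ℝ) < (⌈hs z ^ B⌉₊ : ℝ) := by linarith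
  have hlogy : Real.log (⌈hs z ^ B⌉₊ : ℝ) ≤ 1 + B * Real.log (hs z) := by
    calc Real.log (⌈hs z ^ B⌉₊ : ℝ) ≤ Real.log (2 * hs z ^ B) :=
          Real.log_le_log hy0 (by linarith)
      _ = Real.log 2 + B * Real.log (hs z) := by
          rw [Real.log_mul two_ne_zero (by positivity), Real.log_pow]
      _ ≤ 1 + B * Real.log (hs z) := by
          have := Real.log_two_lt_d9
          linarith
  have hsm' : ∑ q ∈ Sm ⌈hs z ^ B⌉₊ z, 1 / (q : ℝ) ≤ C * (2 + B * Real.log (hs z)) := by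
    refine (hsm _ z hy).trans ?_
    refine mul_le_mul_of_nonneg_left ?_ hC.le
    linarith
  have hsm0 : 0 ≤ ∑ q ∈ Sm ⌈hs z ^ B⌉₊ z, 1 / (q : ℝ) := sum_nonneg fun q _ => by positivity
  have h9 : 9 ^ k / (⌈hs z ^ B⌉₊ : ℝ) * hs z ^ (4 ^ k) ≤ 9 ^ k := by
    rw [div_mul_eq_mul_div, div_le_iff₀ hy0]
    refine mul_le_mul_of_nonneg_left ?_ (by positivity)
    exact (pow_le_pow_right₀ hl hB).trans hyl
  have hbr : (∑ q ∈ Sm ⌈hs z ^ B⌉₊ z, 1 / (q : ℝ)) ^ (4 ^ k) +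
      9 ^ k / (⌈hs z ^ B⌉₊ : ℝ) * hs z ^ (4 ^ k) ≤
      (C * (2 + B * Real.log (hs z))) ^ (4 ^ k) + 9 ^ k :=
    add_le_add (pow_le_pow_left₀ hsm0 hsm' _) h9
  calc mean (Lm z) (fun x => R ⌈hs z ^ B⌉₊ z H x ^ (2 * k))
      ≤ (16 * (H : ℝ)) ^ k * hs z ^ (2 * k) *
        ((C * (2 + B * Real.log (hs z))) ^ (4 ^ k) + 9 ^ k) :=
        hR.trans (mul_le_mul_of_nonneg_left hbr (by positivity))
    _ = ((H : ℝ) ^ k * hs z ^ (2 * k)) *
        (16 ^ k * ((C * (2 + B * Real.log (hs z))) ^ (4 ^ k) + 9 ^ k)) := by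
        rw [mul_pow]
        ring
    _ ≤ ((H : ℝ) ^ k * hs z ^ (2 * k)) * (θ * c ^ k * hs z ^ k) :=
        mul_le_mul_of_nonneg_left hkey (by positivity)
    _ = θ * (c * H * hs z ^ 3) ^ k := by
        rw [mul_pow, mul_pow, ← pow_mul]
        ring
    _ ≤ θ * mean (Lm z) (fun x => S z H x ^ 2) ^ k :=
        mul_le_mul_of_nonneg_left (pow_le_pow_left₀ (by positivity) hS k) hθ.le

end Pool.Agent.MP_a12917_nt_GT
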