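import Mathlib
import Pool.Agent.Lib.MP_a12917_nt_GT.Defs
import Pool.Agent.Lib.MP_a12917_nt_GT.Basic
import Pool.Agent.Lib.MP_a12917_nt_GT.DU

/-!
# MP_a12917_nt, project GT, module Rec: one step of the moment recursion

(`ℓ = hs z`.)
Binomial theorem: `(M' + D)^m = M'^m + m M'^{m-1} D + C(m,2) M'^{m-2} D² +
∑_{3 ≤ i ≤ m} C(m,i) M'^{m-i} D^i`.
Take means: the linear term is `0` (`mean_D_zero` for the periodic function `M'^{m-1}`), the quadratic
term is `C(m,2) mean(M'^{m-2} V)` (`mean_V`), `mean V = mean D²` (`mean_V` with `M' = 1`), so with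
`v = mean D² = mean V` the difference in question is
`C(m,2) mean(M'^{m-2} (V - v)) + ∑_{i≥3} C(m,i) mean(M'^{m-i} D^i)`; use `mean_abs_cs` for the first
(`(M'^{m-2})² = M'^{2(m-2)}`) and the triangle inequality for the second.
-/

set_option autoImplicit false

noncomputable section

namespace Pool.Agent.MP_a12917_nt_GT

open Finset

namespace Rec

/-- the binomial theorem with the first three terms split off -/
theorem binom (a d : ℝ) (m : ℕ) (hm : 2 ≤ m) :
    (a + d) ^ m = a ^ m + (m : ℝ) * (a ^ (m - 1) * d) + (m.choose 2 : ℝ) * (a ^ (m - 2) * d ^ 2) +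
      ∑ i ∈ Icc 3 m, (m.choose i : ℝ) * (a ^ (m - i) * d ^ i) := by
  have h1 : Ico 3 (m + 1) = Icc 3 m := by
    ext i
    simp only [mem_Ico, mem_Icc]
    omega
  rw [add_comm, add_pow, range_eq_Ico, sum_eq_sum_Ico_succ_bot (by omega),
    sum_eq_sum_Ico_succ_bot (by omega), sum_eq_sum_Ico_succ_bot (by omega)]
  simp only [zero_add, Nat.reduceAdd]
  rw [h1, pow_zero, pow_one, Nat.choose_zero_right, Nat.choose_one_right, Nat.sub_zero]
  have h2 : ∑ i ∈ Icc 3 m, d ^ i * a ^ (m - i) * (m.choose i : ℝ) =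
      ∑ i ∈ Icc 3 m, (m.choose i : ℝ) * (a ^ (m - i) * d ^ i) :=
    sum_congr rfl fun i _ => by ring
  rw [h2]
  push_cast
  ring

end Rec

theorem rec_step (N p L H : ℕ) (hL0 : 0 < L) (hL : N * p ∣ L) (hco : N.Coprime p)
    (f : ℤ → ℝ) (hf : ∀ x, f (x + (N : ℤ)) = f x)
    (M' : ℤ → ℝ) (hM : ∀ x, M' (x + (N : ℤ)) = M' x) (m : ℕ) (hm : 2 ≤ m) :
    |mean L (fun x => (M' x + D p H f x) ^ m) - mean L (fun x => M' x ^ m) -
        (m.choose 2 : ℝ) * mean L (fun x => D p H f x ^ 2) * mean L (fun x => M' x ^ (m - 2))| ≤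
      (m.choose 2 : ℝ) * Real.sqrt (mean L (fun x => M' x ^ (2 * (m - 2)))) *
          Real.sqrt (mean L (fun x => (V p H f x - mean L (V p H f)) ^ 2)) +
        ∑ i ∈ Icc 3 m, (m.choose i : ℝ) *
          mean L (fun x => |M' x| ^ (m - i) * |D p H f x| ^ i) := by
  set v : ℝ := mean L (V p H f) with hv
  have hbin : mean L (fun x => (M' x + D p H f x) ^ m) = mean L (fun x => M' x ^ m) +
      (m : ℝ) * mean L (fun x => M' x ^ (m - 1) * D p H f x) +
      (m.choose 2 : ℝ) * mean L (fun x => M' x ^ (m - 2) * D p H f x ^ 2) +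
      ∑ i ∈ Icc 3 m, (m.choose i : ℝ) * mean L (fun x => M' x ^ (m - i) * D p H f x ^ i) := by
    rw [mean_congr L _ _ fun x => Rec.binom (M' x) (D p H f x) m hm, mean_add, mean_add,
      mean_add, mean_const_mul, mean_const_mul, mean_sum]
    congr 1
    exact sum_congr rfl fun i _ => mean_const_mul _ _ _
  have h1 : mean L (fun x => M' x ^ (m - 1) * D p H f x) = 0 :=
    mean_D_zero N p L H hL0 hL hco f hf (fun x => M' x ^ (m - 1)) fun x => by
      simp only [hM]
  have h2 : mean L (fun x => M' x ^ (m - 2) * D p H f x ^ 2) =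
      mean L (fun x => M' x ^ (m - 2) * V p H f x) :=
    mean_V N p L H hL0 hL hco f hf (fun x => M' x ^ (m - 2)) fun x => by
      simp only [hM]
  have h3 : mean L (fun x => D p H f x ^ 2) = v := by
    have h := mean_V N p L H hL0 hL hco f hf (fun _ => 1) fun x => rfl
    simpa only [one_mul] using h
  have h4 : mean L (fun x => M' x ^ (m - 2) * V p H f x) - v * mean L (fun x => M' x ^ (m - 2)) =
      mean L (fun x => M' x ^ (m - 2) * (V p H f x - v)) := by
    rw [← mean_const_mul, ← mean_sub]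
    exact mean_congr L _ _ fun x => by ring
  have h5 : |mean L (fun x => M' x ^ (m - 2) * (V p H f x - v))| ≤
      Real.sqrt (mean L (fun x => M' x ^ (2 * (m - 2)))) *
        Real.sqrt (mean L (fun x => (V p H f x - v) ^ 2)) := by
    refine (abs_mean_le _ _).trans ?_
    have h := mean_abs_cs L (fun x => M' x ^ (m - 2)) (fun x => V p H f x - v)
    simp only [abs_mul]
    refine h.trans (le_of_eq ?_)
    congr 2
    exact mean_congr L _ _ fun x => by rw [← pow_mul, mul_comm (m - 2) 2]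
  have h6 : |∑ i ∈ Icc 3 m, (m.choose i : ℝ) * mean L (fun x => M' x ^ (m - i) * D p H f x ^ i)| ≤
      ∑ i ∈ Icc 3 m, (m.choose i : ℝ) * mean L (fun x => |M' x| ^ (m - i) * |D p H f x| ^ i) := by
    refine (abs_sum_le_sum_abs _ _).trans (sum_le_sum fun i _ => ?_)
    rw [abs_mul, Nat.abs_cast]
    refine mul_le_mul_of_nonneg_left ((abs_mean_le _ _).trans (le_of_eq ?_)) (Nat.cast_nonneg _)
    exact mean_congr L _ _ fun x => by rw [abs_mul, abs_pow, abs_pow]
  have h7 : mean L (fun x => (M' x + D p H f x) ^ m) - mean L (fun x => M' x ^ m) -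
      (m.choose 2 : ℝ) * mean L (fun x => D p H f x ^ 2) * mean L (fun x => M' x ^ (m - 2)) =
      (m.choose 2 : ℝ) * mean L (fun x => M' x ^ (m - 2) * (V p H f x - v)) +
        ∑ i ∈ Icc 3 m, (m.choose i : ℝ) * mean L (fun x => M' x ^ (m - i) * D p H f x ^ i) := by
    rw [hbin, h1, h2, h3, ← h4]
    ring
  rw [h7]
  refine (abs_add_le _ _).trans (add_le_add ?_ h6)
  rw [abs_mul, Nat.abs_cast, mul_assoc]
  exact mul_le_mul_of_nonneg_left h5 (Nat.cast_nonneg _)

end Pool.Agent.MP_a12917_nt_GT
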