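import Mathlib
import Pool.Agent.Lib.MP_a12917_nt_GT.Defs
import Pool.Agent.Lib.MP_a12917_nt_GT.Basic
import Pool.Agent.Lib.MP_a12917_nt_GT.DMomS
import Pool.Agent.Lib.MP_a12917_nt_GT.DMomB
import Pool.Agent.Lib.MP_a12917_nt_GT.KezB
import Pool.Agent.Lib.MP_a12917_nt_GT.Per

/-!
# MP_a12917_nt, project GT, module Vmx: the variances of the differences are small

(`ℓ = hs z`.)
`p ≤ H`: `dmom_small` with `k = 1`: `mean D² ≤ 288 (H/p) ℓ⁶`. `p > H`: `dmom_big` with `i = 2`,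
`j = 0`, `M' = 1`, `f = g`: `mean D² ≤ (4/p) H √(mean g⁴) ≤ (4H/p) √(16 ℓ^{20}) = 16 (H/p) ℓ^{10}`
(`g_mom`, `k = 2`). And `1/p ≤ 1/y`.
-/

set_option autoImplicit false

noncomputable section

namespace Pool.Agent.MP_a12917_nt_GT

open Finset

theorem v_max (y z H p : ℕ) (hy : 1 ≤ y) (hH : 1 ≤ H) (hp : p ∈ Pr y z) :
    mean (Lm z) (fun x => D p H (g y z p) x ^ 2) ≤ 288 * H * hs z ^ 10 / y := by
  unfold Pr at hp
  rw [mem_filter, mem_Ioc] at hp
  obtain ⟨⟨hyp, hpz⟩, hpp⟩ := hp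
  have hz : 1 ≤ z := hpp.one_lt.le.trans hpz
  have hl1 : 1 ≤ hs z := one_le_hs z hz
  have hl0 : 0 ≤ hs z := hs_nonneg z
  have hyR : (0 : ℝ) < y := by exact_mod_cast hy
  have hpR : (0 : ℝ) < p := by exact_mod_cast hpp.pos
  have hypR : (y : ℝ) ≤ p := by exact_mod_cast hyp.le
  have hHR : (0 : ℝ) ≤ H := Nat.cast_nonneg H
  have h10 : (0 : ℝ) ≤ 288 * H * hs z ^ 10 := by positivity
  have hfin : 288 * (H : ℝ) * hs z ^ 10 / p ≤ 288 * H * hs z ^ 10 / y :=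
    div_le_div_of_nonneg_left h10 hyR hypR
  refine le_trans ?_ hfin
  rcases le_or_gt p H with hpH | hpH
  · have h1 := dmom_small 1 y z p H hpp hpz hpH
    rw [mul_one, pow_one, pow_one, pow_one] at h1
    have h2 : hs z ^ (2 + 4) ≤ hs z ^ 10 := pow_le_pow_right₀ hl1 (by norm_num)
    refine h1.trans ?_
    have h3 : 4 * 72 * ((H : ℝ) / p) * hs z ^ (2 + 4) = 288 * H * hs z ^ (2 + 4) / p := by ring
    rw [h3]
    refine div_le_div_of_nonneg_right ?_ hpR.le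
    exact mul_le_mul_of_nonneg_left h2 (by positivity)
  · have h1 := dmom_big (Nm z p) p (Lm z) H (Lm_pos z) (Nm_dvd z p hpp.one_lt.le hpz)
      (Nm_co z p hpp) hpH (g y z p) (g_per y z p) (fun _ => 1) (fun _ => rfl) 2 0 (by norm_num)
    simp only [pow_zero, one_mul, mul_zero, sq_abs] at h1
    rw [mean_const (Lm z) (Lm_pos z), Real.sqrt_one, mul_one] at h1
    have h2 := g_mom 2 y z p hz
    have h3 : Real.sqrt (mean (Lm z) (fun x => g y z p x ^ (2 * 2))) ≤ 4 * hs z ^ 10 := by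
      refine (Real.sqrt_le_sqrt h2).trans (le_of_eq ?_)
      have h4 : (4 : ℝ) ^ 2 * hs z ^ (2 * 2 + 4 ^ 2) = (4 * hs z ^ 10) ^ 2 := by ring
      rw [h4, Real.sqrt_sq (by positivity)]
    refine h1.trans ?_
    have h5 : (0 : ℝ) ≤ 2 ^ 2 / p * H := by positivity
    refine (mul_le_mul_of_nonneg_left h3 h5).trans ?_
    have h6 : (2 : ℝ) ^ 2 / p * H * (4 * hs z ^ 10) = 16 * H * hs z ^ 10 / p := by ring
    rw [h6]
    refine div_le_div_of_nonneg_right ?_ hpR.le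
    have h7 : (0 : ℝ) ≤ H * hs z ^ 10 := by positivity
    nlinarith

end Pool.Agent.MP_a12917_nt_GT
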