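import Mathlib
import Pool.Agent.Lib.MP_a12917_nt_GT.Defs
import Pool.Agent.Lib.MP_a12917_nt_GT.Basic
import Pool.Agent.Lib.MP_a12917_nt_GT.AbsR
import Pool.Agent.Lib.MP_a12917_nt_GT.Rec
import Pool.Agent.Lib.MP_a12917_nt_GT.ErS
import Pool.Agent.Lib.MP_a12917_nt_GT.ErB
import Pool.Agent.Lib.MP_a12917_nt_GT.Vmx
import Pool.Agent.Lib.MP_a12917_nt_GT.KezB
import Pool.Agent.Lib.MP_a12917_nt_GT.Per
import Pool.Agent.Lib.MP_a12917_nt_GT.DU
import Pool.Agent.Lib.MP_a12917_nt_GT.SdF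

/-!
# MP_a12917_nt, project GT, module RecAll: moments of the martingale are Gaussian up to an explicit error

(`ℓ = hs z`.)
Apply `abs_rec` (for `m`; its constant `C0`) with `T = z + 1`, `A j t = mean (Lm z) (M y z H t ^ j)`,
`v t = mean (D t ²)` and `e j t = E1 j y z H t` if `t ∈ Pr y z`, and `v t = e j t = 0` otherwise;
`b = 2√H ℓ³`, `δ = 2000·36^m ℓ^{4^m+m+11} (1/y^{1/4} + 1/√H)`.
Checks: `M y z H 0 = 0`; `M y z H (t+1) = M y z H t + D t` if `t ∈ Pr y z` and `= M y z H t` otherwise;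
`A 1 t = 0`: `mean D = 0` (`mean_D_zero` with `M' = 1`); the recursion at `t ∈ Pr y z` is `rec_step` with
`N = Nm z t`, `L = Lm z` (`Nm_dvd`, `Nm_co`, `g_per`, `M_per`; `E1` is the right side, `sdV` unfolds to
the square root in `rec_step`). `∑_{t<z+1} v t = mean (M y z H (z+1))²` (the case `m = 2` of the recursion is
exact: `mean (M + D)² = mean M² + mean D²` by `mean_D_zero`) `≤ 4Hℓ⁶ = b²` (`M_mom`, `k = 1`); this also
identifies `∑_{i < z+1} v i`. `v t ≤ 288 H ℓ^{10}/y ≤ δ b²` (`v_max`; `1/y ≤ 1/y^{1/4}`). For `2 ≤ j ≤ m`: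
`∑_t e j t = err_small + err_big ≤ 1500·36^j (√H)^j ℓ^{j+4^j+11}/y^{1/4} + 10·8^j (√H)^{j-1} ℓ^{j+4^j+11}
≤ δ (√H)^j ≤ δ b^j`. The conclusion at `t = z+1` has the error
`C0 δ b^m = C0·2000·36^m·2^m (√H)^m ℓ^{3m + 4^m+m+11} (…)`.
-/

set_option autoImplicit false

noncomputable section

namespace Pool.Agent.MP_a12917_nt_GT

open Finset

namespace RecAll

theorem M_zero (y z H : ℕ) (x : ℤ) : M y z H 0 x = 0 := by
  unfold M
  rw [filter_false_of_mem (fun p _ => Nat.not_lt_zero p), sum_empty]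

theorem M_succ (y z H t : ℕ) (ht : t ∈ Pr y z) (x : ℤ) :
    M y z H (t + 1) x = M y z H t x + D t H (g y z t) x := by
  unfold M
  have h1 : (Pr y z).filter (fun p => p < t + 1) = insert t ((Pr y z).filter fun p => p < t) := by
    ext p
    simp only [mem_filter, mem_insert]
    constructor
    · rintro ⟨h2, h3⟩
      rcases Nat.lt_succ_iff_lt_or_eq.1 h3 with h4 | h4
      · exact Or.inr ⟨h2, h4⟩
      · exact Or.inl h4
    · rintro (h2 | ⟨h2, h3⟩)
      · exact ⟨h2 ▸ ht, by omega⟩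
      · exact ⟨h2, by omega⟩
  rw [h1, sum_insert (by simp), add_comm]

theorem M_succ' (y z H t : ℕ) (ht : t ∉ Pr y z) (x : ℤ) :
    M y z H (t + 1) x = M y z H t x := by
  unfold M
  have h1 : (Pr y z).filter (fun p => p < t + 1) = (Pr y z).filter fun p => p < t := by
    ext p
    simp only [mem_filter]
    constructor
    · rintro ⟨h2, h3⟩
      refine ⟨h2, ?_⟩
      rcases Nat.lt_succ_iff_lt_or_eq.1 h3 with h4 | h4
      · exact h4
      · exact absurd (h4 ▸ h2) ht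
    · rintro ⟨h2, h3⟩
      exact ⟨h2, by omega⟩
  rw [h1]

theorem pr_facts {y z p : ℕ} (hp : p ∈ Pr y z) : p.Prime ∧ 1 ≤ p ∧ p ≤ z ∧ y < p := by
  unfold Pr at hp
  obtain ⟨h1, h2⟩ := mem_filter.1 hp
  obtain ⟨h3, h4⟩ := mem_Ioc.1 h1
  exact ⟨h2, h2.one_le, h4, h3⟩

theorem A_one (y z H t : ℕ) : mean (Lm z) (fun x => M y z H t x ^ 1) = 0 := by
  simp only [pow_one]
  unfold M
  rw [mean_sum]
  refine sum_eq_zero fun p hp => ?_
  obtain ⟨h1, h2, h3, h4⟩ := pr_facts (mem_filter.1 hp).1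
  have h5 := mean_D_zero (Nm z p) p (Lm z) H (Lm_pos z) (Nm_dvd z p h2 h3) (Nm_co z p h1)
    (g y z p) (g_per y z p) (fun _ => 1) fun x => rfl
  simpa only [one_mul] using h5

theorem step (m y z H p : ℕ) (hp : p ∈ Pr y z) (hm : 2 ≤ m) :
    |mean (Lm z) (fun x => M y z H (p + 1) x ^ m) - mean (Lm z) (fun x => M y z H p x ^ m) -
        (m.choose 2 : ℝ) * mean (Lm z) (fun x => D p H (g y z p) x ^ 2) *
          mean (Lm z) (fun x => M y z H p x ^ (m - 2))| ≤ E1 m y z H p := by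
  obtain ⟨h1, h2, h3, h4⟩ := pr_facts hp
  have h5 := rec_step (Nm z p) p (Lm z) H (Lm_pos z) (Nm_dvd z p h2 h3) (Nm_co z p h1)
    (g y z p) (g_per y z p) (M y z H p) (M_per y z H p) m hm
  have h6 : mean (Lm z) (fun x => M y z H (p + 1) x ^ m) =
      mean (Lm z) (fun x => (M y z H p x + D p H (g y z p) x) ^ m) :=
    mean_congr _ _ _ fun x => by rw [M_succ y z H p hp x]
  rw [h6]
  exact h5

theorem sq_step (y z H p : ℕ) (hp : p ∈ Pr y z) :
    mean (Lm z) (fun x => M y z H (p + 1) x ^ 2) = mean (Lm z) (fun x => M y z H p x ^ 2) +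
      mean (Lm z) (fun x => D p H (g y z p) x ^ 2) := by
  obtain ⟨h1, h2, h3, h4⟩ := pr_facts hp
  have h5 := mean_D_zero (Nm z p) p (Lm z) H (Lm_pos z) (Nm_dvd z p h2 h3) (Nm_co z p h1)
    (g y z p) (g_per y z p) (M y z H p) (M_per y z H p)
  have h6 : mean (Lm z) (fun x => M y z H (p + 1) x ^ 2) =
      mean (Lm z) (fun x => (M y z H p x ^ 2 + D p H (g y z p) x ^ 2) +
        2 * (M y z H p x * D p H (g y z p) x)) :=
    mean_congr _ _ _ fun x => by
      rw [M_succ y z H p hp x]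
      ring
  rw [h6, mean_add, mean_add, mean_const_mul, h5]
  ring

/-- the variance at `t` -/
def vv (y z H t : ℕ) : ℝ :=
  if t ∈ Pr y z then mean (Lm z) (fun x => D t H (g y z t) x ^ 2) else 0

/-- the error at `t` -/
def ev (y z H j t : ℕ) : ℝ := if t ∈ Pr y z then E1 j y z H t else 0

theorem vv_nonneg (y z H t : ℕ) : 0 ≤ vv y z H t := by
  unfold vv
  split_ifs
  · exact mean_nonneg _ _ fun x => sq_nonneg _
  · exact le_rfl

theorem sum_vv (y z H T : ℕ) :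
    ∑ t ∈ range T, vv y z H t = mean (Lm z) (fun x => M y z H T x ^ 2) := by
  induction T with
  | zero =>
    have h1 : ∀ x, M y z H 0 x ^ 2 = 0 := fun x => by
      rw [M_zero]
      ring
    rw [range_zero, sum_empty, mean_congr _ _ _ h1, mean_const _ (Lm_pos z)]
  | succ t ih =>
    rw [sum_range_succ, ih]
    unfold vv
    split_ifs with h
    · rw [sq_step y z H t h]
    · rw [add_zero]
      exact mean_congr _ _ _ fun x => by rw [M_succ' y z H t h x]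

theorem sum_ev (y z H j : ℕ) :
    ∑ t ∈ range (z + 1), ev y z H j t =
      ∑ p ∈ (Pr y z).filter (fun p => p ≤ H), E1 j y z H p +
        ∑ p ∈ (Pr y z).filter (fun p => H < p), E1 j y z H p := by
  have h1 : ∑ t ∈ range (z + 1), ev y z H j t = ∑ p ∈ Pr y z, E1 j y z H p := by
    unfold ev
    rw [← sum_filter]
    congr 1
    ext p
    simp only [mem_filter, mem_range]
    constructor
    · exact fun h => h.2
    · intro h
      have := (pr_facts h).2.2.1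
      exact ⟨by omega, h⟩
  rw [h1, ← sum_filter_add_sum_filter_not (Pr y z) (fun p => p ≤ H)]
  congr 2
  ext p
  simp only [mem_filter, not_le]

theorem quarter (y : ℕ) (hy : 1 ≤ y) : 1 / (y : ℝ) ≤ 1 / Real.sqrt (Real.sqrt y) := by
  have hy' : (1 : ℝ) ≤ y := by exact_mod_cast hy
  have h1 : 1 ≤ Real.sqrt y := Real.one_le_sqrt.2 hy'
  have h2 : 1 ≤ Real.sqrt (Real.sqrt y) := Real.one_le_sqrt.2 h1
  have h3 : Real.sqrt (Real.sqrt y) ≤ Real.sqrt y := by
    have h4 := Real.sq_sqrt (Real.sqrt_nonneg (y : ℝ))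
    nlinarith
  have h5 : Real.sqrt y ≤ y := by
    have h4 := Real.sq_sqrt (Nat.cast_nonneg (α := ℝ) y)
    nlinarith
  exact one_div_le_one_div_of_le (by linarith) (h3.trans h5)

/-- the sum of the errors -/
theorem sum_ev_le (m j y z H : ℕ) (hj : 2 ≤ j) (hjm : j ≤ m) (hy : 1 ≤ y) (hz : 1 ≤ z)
    (hH : 1 ≤ H) (hHz : H ≤ z) :
    ∑ t ∈ range (z + 1), ev y z H j t ≤
      (2000 * 36 ^ m * hs z ^ (4 ^ m + m + 11) *
        (1 / Real.sqrt (Real.sqrt y) + 1 / Real.sqrt H)) * (2 * Real.sqrt H * hs z ^ 3) ^ j := by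
  have hH' : (1 : ℝ) ≤ H := by exact_mod_cast hH
  have hs1 : 1 ≤ Real.sqrt H := Real.one_le_sqrt.2 hH'
  have hl := one_le_hs z hz
  have hy' : (1 : ℝ) ≤ y := by exact_mod_cast hy
  have hq1 : 1 ≤ Real.sqrt (Real.sqrt y) := Real.one_le_sqrt.2 (Real.one_le_sqrt.2 hy')
  have h1 := err_small j y z H hj hy hz hH hHz
  have h2 := err_big j y z H hj hz hH
  rw [sum_ev]
  refine (add_le_add h1 h2).trans ?_
  obtain ⟨s, hse⟩ : ∃ s, s = Real.sqrt H := ⟨_, rfl⟩
  obtain ⟨q, hq⟩ : ∃ q, q = Real.sqrt (Real.sqrt y) := ⟨_, rfl⟩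
  obtain ⟨l, hle⟩ : ∃ l, l = hs z := ⟨_, rfl⟩
  rw [← hse, ← hq, ← hle]
  rw [← hse] at hs1
  rw [← hq] at hq1
  rw [← hle] at hl
  have hs0 : 0 < s := by linarith
  have hq0 : 0 < q := by linarith
  have hl0 : 0 < l := by linarith
  have hlp : l ^ (j + 4 ^ j + 11) ≤ l ^ (4 ^ m + m + 11) := by
    refine pow_le_pow_right₀ hl ?_
    have h3 : 4 ^ j ≤ 4 ^ m := Nat.pow_le_pow_right (by norm_num) hjm
    omega
  have h36 : (36 : ℝ) ^ j ≤ 36 ^ m := pow_le_pow_right₀ (by norm_num) hjm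
  have h8 : (8 : ℝ) ^ j ≤ 36 ^ m := by
    refine le_trans ?_ h36
    exact pow_le_pow_left₀ (by norm_num) (by norm_num) j
  have hsj : s ^ (j - 1) = s ^ j * (1 / s) := by
    obtain ⟨i, rfl⟩ : ∃ i, j = i + 1 := ⟨j - 1, by omega⟩
    rw [Nat.add_sub_cancel, pow_succ]
    field_simp
  have hb : s ^ j ≤ (2 * s * l ^ 3) ^ j := by
    refine pow_le_pow_left₀ hs0.le ?_ j
    have h3 : (1 : ℝ) ≤ l ^ 3 := one_le_pow₀ hl
    nlinarith
  have e1 : 1500 * 36 ^ j * s ^ j * l ^ (j + 4 ^ j + 11) / q ≤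
      2000 * 36 ^ m * l ^ (4 ^ m + m + 11) * (1 / q) * s ^ j := by
    have h3 : 1500 * 36 ^ j * s ^ j * l ^ (j + 4 ^ j + 11) / q =
        (1500 * 36 ^ j) * l ^ (j + 4 ^ j + 11) * (1 / q) * s ^ j := by ring
    rw [h3]
    have h4 : 1500 * (36 : ℝ) ^ j ≤ 2000 * 36 ^ m := by
      have : (0 : ℝ) < 36 ^ m := by positivity
      linarith
    have h5 : (0 : ℝ) ≤ 1 / q := by positivity
    gcongr
  have e2 : 10 * 8 ^ j * s ^ (j - 1) * l ^ (j + 4 ^ j + 11) ≤
      2000 * 36 ^ m * l ^ (4 ^ m + m + 11) * (1 / s) * s ^ j := by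
    rw [hsj]
    have h3 : 10 * 8 ^ j * (s ^ j * (1 / s)) * l ^ (j + 4 ^ j + 11) =
        (10 * 8 ^ j) * l ^ (j + 4 ^ j + 11) * (1 / s) * s ^ j := by ring
    rw [h3]
    have h4 : 10 * (8 : ℝ) ^ j ≤ 2000 * 36 ^ m := by
      have : (0 : ℝ) < 36 ^ m := by positivity
      linarith
    have h5 : (0 : ℝ) ≤ 1 / s := by positivity
    gcongr
  have e3 : 2000 * 36 ^ m * l ^ (4 ^ m + m + 11) * (1 / q) * s ^ j +
      2000 * 36 ^ m * l ^ (4 ^ m + m + 11) * (1 / s) * s ^ j =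
      2000 * 36 ^ m * l ^ (4 ^ m + m + 11) * (1 / q + 1 / s) * s ^ j := by ring
  refine (add_le_add e1 e2).trans ?_
  rw [e3]
  exact mul_le_mul_of_nonneg_left hb (by positivity)

theorem vv_le (m y z H t : ℕ) (hy : 1 ≤ y) (hz : 1 ≤ z) (hH : 1 ≤ H) :
    vv y z H t ≤
      (2000 * 36 ^ m * hs z ^ (4 ^ m + m + 11) *
        (1 / Real.sqrt (Real.sqrt y) + 1 / Real.sqrt H)) * (2 * Real.sqrt H * hs z ^ 3) ^ 2 := by
  have hH' : (1 : ℝ) ≤ H := by exact_mod_cast hH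
  have hs1 : 1 ≤ Real.sqrt H := Real.one_le_sqrt.2 hH'
  have hl := one_le_hs z hz
  have hy' : (1 : ℝ) ≤ y := by exact_mod_cast hy
  have hq1 : 1 ≤ Real.sqrt (Real.sqrt y) := Real.one_le_sqrt.2 (Real.one_le_sqrt.2 hy')
  unfold vv
  split_ifs with ht
  swap
  · positivity
  refine (v_max y z H t hy hH ht).trans ?_
  have h1 := quarter y hy
  have h2 : Real.sqrt H ^ 2 = H := Real.sq_sqrt (Nat.cast_nonneg _)
  have h3 : (2 * Real.sqrt H * hs z ^ 3) ^ 2 = 4 * H * hs z ^ 6 := by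
    rw [mul_pow, mul_pow, h2]
    ring
  rw [h3]
  have h4 : (1 : ℝ) ≤ 36 ^ m := one_le_pow₀ (by norm_num)
  have h5 : hs z ^ 10 ≤ hs z ^ (4 ^ m + m + 11) * hs z ^ 6 := by
    rw [← pow_add]
    exact pow_le_pow_right₀ hl (by generalize 4 ^ m = u; omega)
  have h6 : (0 : ℝ) ≤ 1 / Real.sqrt H := by positivity
  have h7 : 1 / (y : ℝ) ≤ 1 / Real.sqrt (Real.sqrt y) + 1 / Real.sqrt H := by linarith
  have h8 : (288 : ℝ) ≤ 2000 * 36 ^ m * 4 := by linarith
  have hl0 : 0 < hs z := by linarith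
  have h9 : (0 : ℝ) ≤ 1 / (y : ℝ) := by positivity
  calc 288 * (H : ℝ) * hs z ^ 10 / y = 288 * (hs z ^ 10) * (1 / (y : ℝ)) * H := by ring
    _ ≤ (2000 * 36 ^ m * 4) * (hs z ^ (4 ^ m + m + 11) * hs z ^ 6) *
        (1 / Real.sqrt (Real.sqrt y) + 1 / Real.sqrt H) * H := by gcongr
    _ = _ := by ring

end RecAll

theorem rec_all (m : ℕ) : ∃ C : ℝ, 0 < C ∧ ∀ y z H : ℕ, 1 ≤ y → 1 ≤ z → 1 ≤ H → H ≤ z →
    |mean (Lm z) (fun x => M y z H (z + 1) x ^ m) -
        PP m (mean (Lm z) (fun x => M y z H (z + 1) x ^ 2))| ≤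
      C * Real.sqrt H ^ m * hs z ^ (4 ^ m + 4 * m + 11) *
        (1 / Real.sqrt (Real.sqrt y) + 1 / Real.sqrt H) := by
  obtain ⟨C0, hC0, hrec⟩ := abs_rec m
  refine ⟨C0 * (2000 * 36 ^ m) * 2 ^ m, by positivity, ?_⟩
  intro y z H hy hz hH hHz
  have hH' : (1 : ℝ) ≤ H := by exact_mod_cast hH
  have hs1 : 1 ≤ Real.sqrt H := Real.one_le_sqrt.2 hH'
  have hl := one_le_hs z hz
  have hy' : (1 : ℝ) ≤ y := by exact_mod_cast hy
  have hq1 : 1 ≤ Real.sqrt (Real.sqrt y) := Real.one_le_sqrt.2 (Real.one_le_sqrt.2 hy')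
  have hl0 : 0 < hs z := by linarith
  have hs0 : 0 < Real.sqrt H := by linarith
  have h2 : Real.sqrt H ^ 2 = H := Real.sq_sqrt (Nat.cast_nonneg _)
  have h3 : (2 * Real.sqrt H * hs z ^ 3) ^ 2 = 4 * H * hs z ^ 6 := by
    rw [mul_pow, mul_pow, h2]
    ring
  have key := hrec (z + 1) (fun j t => mean (Lm z) (fun x => M y z H t x ^ j))
    (RecAll.vv y z H) (RecAll.ev y z H) (2 * Real.sqrt H * hs z ^ 3)
    (2000 * 36 ^ m * hs z ^ (4 ^ m + m + 11) *
        (1 / Real.sqrt (Real.sqrt y) + 1 / Real.sqrt H)) (by positivity) (by positivity)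
    (fun t => by
      simp only [pow_zero]
      exact mean_const _ (Lm_pos z) 1)
    (fun t => RecAll.A_one y z H t)
    (fun j hj => by
      have h4 : ∀ x, M y z H 0 x ^ j = 0 := fun x => by
        rw [RecAll.M_zero, zero_pow (by omega)]
      show mean (Lm z) (fun x => M y z H 0 x ^ j) = 0
      rw [mean_congr _ _ _ h4, mean_const _ (Lm_pos z)])
    (fun t => ⟨RecAll.vv_nonneg y z H t, RecAll.vv_le m y z H t hy hz hH⟩)
    (by
      rw [RecAll.sum_vv, h3]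
      have h4 := M_mom 1 y z H (z + 1) hz hH
      norm_num at h4
      exact h4)
    (fun j hj hjm t ht => by
      show |mean (Lm z) (fun x => M y z H (t + 1) x ^ j) - mean (Lm z) (fun x => M y z H t x ^ j) -
        (j.choose 2 : ℝ) * RecAll.vv y z H t * mean (Lm z) (fun x => M y z H t x ^ (j - 2))| ≤
        RecAll.ev y z H j t
      unfold RecAll.vv RecAll.ev
      split_ifs with h
      · exact RecAll.step j y z H t h hj
      · have h4 : mean (Lm z) (fun x => M y z H (t + 1) x ^ j) =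
            mean (Lm z) (fun x => M y z H t x ^ j) :=
          mean_congr _ _ _ fun x => by rw [RecAll.M_succ' y z H t h x]
        rw [h4]
        simp)
    (fun j hj hjm => RecAll.sum_ev_le m j y z H hj hjm hy hz hH hHz)
    (z + 1) le_rfl
  rw [RecAll.sum_vv] at key
  refine key.trans (le_of_eq ?_)
  have e : 4 ^ m + 4 * m + 11 = (4 ^ m + m + 11) + 3 * m := by ring
  rw [e, pow_add (hs z) (4 ^ m + m + 11) (3 * m), mul_pow, mul_pow, ← pow_mul (hs z) 3 m]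
  ring

end Pool.Agent.MP_a12917_nt_GT
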