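import Mathlib
import Pool.Agent.Lib.MP_a12917_nt_GT.Defs
import Pool.Agent.Lib.MP_a12917_nt_GT.Basic
import Pool.Agent.Lib.MP_a12917_nt_GT.RecAll
import Pool.Agent.Lib.MP_a12917_nt_GT.LowB
import Pool.Agent.Lib.MP_a12917_nt_GT.RSm

/-!
# MP_a12917_nt, project GT, module MomM: moments of the martingale relative to the variance

(`ℓ = hs z`.)
`rec_all` with constant `C`, `E = 4^m + 4m + 11`, `y = ⌈ℓ^B⌉`, `B ≥ B0 = 4(E+1)`: `y^{1/4} ≥
ℓ^{B/4} ≥ ℓ^{E+1}`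
so `C ℓ^E/y^{1/4} ≤ C/ℓ → 0` (`hs_tendsto`), and `C ℓ^E/√H ≤ C ℓ^E z^{-ε/2} → 0` as `ℓ ≤ 1 + log
z`. So the
error is `≤ θ' (√H)^m` for `z ≥ z0(θ')`, and `mean S² ≥ c H ℓ³ ≥ c H` (`low_b`), so
`(√H)^m ≤ c^{-m/2} (√(mean S²))^m`; take `θ' = θ (√c)^m`. (`H ≥ z^ε ≥ 1`, `H ≤ z^{1-ε} ≤ z`.)
-/

set_option autoImplicit false

noncomputable section

namespace Pool.Agent.MP_a12917_nt_GT

open Finset

namespace MomM

theorem hs_le_log (z : ℕ) : hs z ≤ 1 + Real.log z := by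
  have h2 := harmonic_le_one_add_log z
  have h3 : ((harmonic z : ℚ) : ℝ) = hs z := by
    rw [harmonic_eq_sum_Icc, hs]
    push_cast
    exact sum_congr rfl fun i _ => by rw [one_div]
  rwa [h3] at h2

theorem tend (E : ℕ) (hE : 0 < E) (r : ℝ) (hr : 0 < r) :
    Filter.Tendsto (fun z : ℕ => hs z ^ E / (z : ℝ) ^ r) Filter.atTop (nhds 0) := by
  have hE' : (0 : ℝ) < E := by exact_mod_cast hE
  have hrE : 0 < r / E := by positivity
  have h1 : (fun x : ℝ => 1 + Real.log x) =o[Filter.atTop] (fun x : ℝ => x ^ (r / E)) := by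
    apply Asymptotics.IsLittleO.add
    · exact Asymptotics.isLittleO_const_left.2
        (Or.inr (tendsto_norm_atTop_atTop.comp (tendsto_rpow_atTop hrE)))
    · exact isLittleO_log_rpow_atTop hrE
  have h2 := (h1.pow hE).tendsto_div_nhds_zero
  have h3 := h2.comp tendsto_natCast_atTop_atTop
  refine squeeze_zero' (Filter.Eventually.of_forall fun z => ?_) ?_ h3
  · exact div_nonneg (pow_nonneg (hs_nonneg z) _) (Real.rpow_nonneg (Nat.cast_nonneg z) _)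
  · filter_upwards [Filter.eventually_ge_atTop 1] with z hz
    have hz0 : (0 : ℝ) < z := by exact_mod_cast hz
    simp only [Function.comp]
    rw [← Real.rpow_natCast ((z : ℝ) ^ (r / E)) E, ← Real.rpow_mul hz0.le,
      div_mul_cancel₀ _ hE'.ne']
    exact div_le_div_of_nonneg_right (pow_le_pow_left₀ (hs_nonneg z) (hs_le_log z) E)
      (Real.rpow_nonneg hz0.le _)

end MomM

open MomM

theorem mom_M (m : ℕ) (ε : ℝ) (hε : 0 < ε) (hε1 : ε < 1) : ∃ B0 : ℕ, ∀ B : ℕ, B0 ≤ B →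
    ∀ θ : ℝ, 0 < θ → ∃ z0 : ℕ, ∀ z : ℕ, z0 ≤ z → ∀ H : ℕ, (z : ℝ) ^ ε ≤ H →
      (H : ℝ) ≤ (z : ℝ) ^ (1 - ε) →
      |mean (Lm z) (fun x => M ⌈hs z ^ B⌉₊ z H (z + 1) x ^ m) -
          PP m (mean (Lm z) (fun x => M ⌈hs z ^ B⌉₊ z H (z + 1) x ^ 2))| ≤
        θ * Real.sqrt (mean (Lm z) (fun x => S z H x ^ 2)) ^ m := by
  obtain ⟨C, hC, hrec⟩ := rec_all m
  obtain ⟨c, hc, z1, hlow⟩ := low_b ε hε hε1
  set E : ℕ := 4 ^ m + 4 * m + 11 with hE
  have hE0 : 0 < E := by rw [hE]; positivity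
  clear_value E
  refine ⟨4 * (E + 1), fun B hB θ hθ => ?_⟩
  have hθ' : 0 < θ * Real.sqrt c ^ m := by positivity
  set θ' := θ * Real.sqrt c ^ m with hθ'd
  -- first error term
  have e1 : ∀ᶠ z : ℕ in Filter.atTop, 2 * C / θ' ≤ hs z :=
    hs_tendsto.eventually_ge_atTop _
  have e2 : ∀ᶠ z : ℕ in Filter.atTop, hs z ^ E / (z : ℝ) ^ (ε / 2) < θ' / (2 * C) := by
    have := tend E hE0 (ε / 2) (by positivity)
    exact this.eventually (gt_mem_nhds (by positivity))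
  obtain ⟨z2, h2⟩ := Filter.eventually_atTop.1 (e1.and e2)
  refine ⟨max (max z1 z2) 1, fun z hz H hH1 hH2 => ?_⟩
  have hz1 : z1 ≤ z := (le_max_left _ _).trans ((le_max_left _ _).trans hz)
  have hz2 : z2 ≤ z := (le_max_right _ _).trans ((le_max_left _ _).trans hz)
  have hz : 1 ≤ z := (le_max_right _ _).trans hz
  have hz0 : (0 : ℝ) < z := by exact_mod_cast hz
  have hzr : (1 : ℝ) ≤ z := by exact_mod_cast hz
  have hH0 : (1 : ℝ) ≤ H := (Real.one_le_rpow hzr hε.le).trans hH1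
  have hHn : 1 ≤ H := by exact_mod_cast hH0
  have hHz : H ≤ z := by
    have h3 : (z : ℝ) ^ (1 - ε) ≤ (z : ℝ) ^ (1 : ℝ) :=
      Real.rpow_le_rpow_of_exponent_le hzr (by linarith)
    rw [Real.rpow_one] at h3
    exact_mod_cast hH2.trans h3
  obtain ⟨f1, f2⟩ := h2 z hz2
  have hs1 := one_le_hs z hz
  have hs0 : 0 < hs z := by linarith
  set y : ℕ := ⌈hs z ^ B⌉₊ with hy
  have hyB : hs z ^ B ≤ y := Nat.le_ceil _
  have hy1 : (1 : ℝ) ≤ y := (one_le_pow₀ hs1).trans hyB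
  have hyn : 1 ≤ y := by exact_mod_cast hy1
  have hsq : hs z ^ (E + 1) ≤ Real.sqrt (Real.sqrt y) := by
    apply Real.le_sqrt_of_sq_le
    apply Real.le_sqrt_of_sq_le
    calc ((hs z ^ (E + 1)) ^ 2) ^ 2 = hs z ^ (4 * (E + 1)) := by
          rw [← pow_mul, ← pow_mul]; congr 1; ring
      _ ≤ hs z ^ B := pow_le_pow_right₀ hs1 hB
      _ ≤ y := hyB
  have g1 : hs z ^ E * (1 / Real.sqrt (Real.sqrt y)) ≤ θ' / (2 * C) := by
    have h3 : 1 / Real.sqrt (Real.sqrt y) ≤ 1 / hs z ^ (E + 1) :=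
      one_div_le_one_div_of_le (by positivity) hsq
    calc _ ≤ hs z ^ E * (1 / hs z ^ (E + 1)) := by gcongr
      _ = 1 / hs z := by rw [pow_succ]; field_simp
      _ ≤ θ' / (2 * C) := by
          rw [div_le_iff₀ hθ'] at f1
          rw [div_le_div_iff₀ hs0 (by positivity)]
          linarith
  have g2 : hs z ^ E * (1 / Real.sqrt H) ≤ θ' / (2 * C) := by
    have h3 : (z : ℝ) ^ (ε / 2) ≤ Real.sqrt H := by
      rw [Real.sqrt_eq_rpow]
      calc (z : ℝ) ^ (ε / 2) = ((z : ℝ) ^ ε) ^ (1 / 2 : ℝ) := by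
            rw [← Real.rpow_mul hz0.le]; congr 1; ring
        _ ≤ _ := Real.rpow_le_rpow (by positivity) hH1 (by norm_num)
    have h4 : 0 < (z : ℝ) ^ (ε / 2) := by positivity
    calc _ ≤ hs z ^ E * (1 / (z : ℝ) ^ (ε / 2)) := by
          gcongr
      _ = hs z ^ E / (z : ℝ) ^ (ε / 2) := by ring
      _ ≤ _ := f2.le
  have h5 := hrec y z H hyn hz hHn hHz
  have h6 := hlow z hz1 H hHn hH2
  have h7 : Real.sqrt c * Real.sqrt H ≤ Real.sqrt (mean (Lm z) (fun x => S z H x ^ 2)) := by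
    rw [← Real.sqrt_mul hc.le]
    apply Real.sqrt_le_sqrt
    refine le_trans ?_ h6
    have h8 : (1 : ℝ) ≤ hs z ^ 3 := one_le_pow₀ hs1
    have h9 : 0 ≤ c * H := by positivity
    nlinarith
  refine h5.trans ?_
  have h10 : C * Real.sqrt H ^ m * hs z ^ E * (1 / Real.sqrt (Real.sqrt y) + 1 / Real.sqrt H) ≤
      Real.sqrt H ^ m * θ' := by
    have h11 : C * (hs z ^ E * (1 / Real.sqrt (Real.sqrt y)) + hs z ^ E * (1 / Real.sqrt H)) ≤
        C * (θ' / (2 * C) + θ' / (2 * C)) := by gcongr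
    have h12 : C * (θ' / (2 * C) + θ' / (2 * C)) = θ' := by field_simp; ring
    rw [h12] at h11
    calc _ = Real.sqrt H ^ m * (C * (hs z ^ E * (1 / Real.sqrt (Real.sqrt y)) +
          hs z ^ E * (1 / Real.sqrt H))) := by ring
      _ ≤ _ := by gcongr
  refine h10.trans ?_
  rw [hθ'd]
  calc Real.sqrt H ^ m * (θ * Real.sqrt c ^ m) = θ * (Real.sqrt c * Real.sqrt H) ^ m := by
        rw [mul_pow]; ring
    _ ≤ _ := by gcongr

end Pool.Agent.MP_a12917_nt_GT
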