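import Mathlib
import Pool.Agent.Lib.MP_a12917_nt_GT.Defs
import Pool.Agent.Lib.MP_a12917_nt_GT.Basic
import Pool.Agent.Lib.MP_a12917_nt_GT.GamF

/-!
# MP_a12917_nt, project GT, module Pert: perturbation of moments

(`ℓ = hs z`.)
Let `σ = √(mean (f+r)²) > 0`, `‖·‖` the quadratic mean. `|‖f‖ - σ| ≤ ‖r‖ ≤ √θ σ` (Minkowski, `mean_cs`), so
`‖f‖ ≤ 2σ` if `θ ≤ 1`, `mean f^{2m} ≤ (gam(2m) 4^m + 1) σ^{2m}`. For `0 < t ≤ 1`, `i ≥ 1`:
`|f|^{m-i} |r|^i ≤ t |f|^m + t^{-m} |r|^m` (cases `|r| ≤ t|f|` and `|f| < |r|/t`). So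
`|mean (f+r)^m - mean f^m| ≤ 2^m (t mean |f|^m + t^{-m} mean |r|^m) ≤
2^m (t √(gam(2m)4^m+1) + t^{-m} √θ) σ^m` (`mean |u|^m ≤ √(mean u^{2m})`). `PP m (mean f²) = gam m ‖f‖^m`
(for odd `m` both are `0`, `gam_odd`), and `|‖f‖^m - σ^m| ≤ m √θ σ (2σ)^{m-1}`. Choose `t` small, then `θ`
small. (`m = 0` trivial.)
-/

set_option autoImplicit false

noncomputable section

namespace Pool.Agent.MP_a12917_nt_GT

open Finset

theorem pert_mink (L : ℕ) (u v : ℤ → ℝ) :
    Real.sqrt (mean L (fun x => (u x + v x) ^ 2)) ≤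
      Real.sqrt (mean L (fun x => u x ^ 2)) + Real.sqrt (mean L (fun x => v x ^ 2)) := by
  have h0 : 0 ≤ mean L (fun x => u x ^ 2) := mean_nonneg L _ fun x => sq_nonneg _
  have h1 : 0 ≤ mean L (fun x => v x ^ 2) := mean_nonneg L _ fun x => sq_nonneg _
  apply Real.sqrt_le_iff.2
  refine ⟨by positivity, ?_⟩
  have h2 : mean L (fun x => (u x + v x) ^ 2) =
      mean L (fun x => u x ^ 2) + 2 * mean L (fun x => u x * v x) +
        mean L (fun x => v x ^ 2) := by
    rw [← mean_const_mul, ← mean_add, ← mean_add]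
    exact mean_congr L _ _ fun x => by ring
  rw [h2, add_sq, Real.sq_sqrt h0, Real.sq_sqrt h1]
  have := mean_cs L u v
  linarith

theorem pow_diff (m : ℕ) (a b : ℝ) : |(a + b) ^ m - a ^ m| ≤ (|a| + |b|) ^ m - |a| ^ m := by
  induction m with
  | zero => simp
  | succ m ih =>
    have h1 : (a + b) ^ (m + 1) - a ^ (m + 1) = (a + b) * ((a + b) ^ m - a ^ m) + b * a ^ m := by
      ring
    rw [h1]
    have h2 : |(a + b) * ((a + b) ^ m - a ^ m)| ≤
        (|a| + |b|) * ((|a| + |b|) ^ m - |a| ^ m) := by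
      rw [abs_mul]
      exact mul_le_mul (abs_add_le a b) ih (abs_nonneg _) (by positivity)
    have h3 : |b * a ^ m| = |b| * |a| ^ m := by rw [abs_mul, abs_pow]
    calc _ ≤ |(a + b) * ((a + b) ^ m - a ^ m)| + |b * a ^ m| := abs_add_le _ _
      _ ≤ (|a| + |b|) * ((|a| + |b|) ^ m - |a| ^ m) + |b| * |a| ^ m := by
        rw [h3]; exact add_le_add_left h2 _
      _ = _ := by ring

theorem pow_diff' (m : ℕ) (t : ℝ) (ht : 0 < t) (a b : ℝ) :
    |(a + b) ^ m - a ^ m| ≤ ((1 + t) ^ m - 1) * |a| ^ m + (1 + 1 / t) ^ m * |b| ^ m := by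
  refine (pow_diff m a b).trans ?_
  have h1 : 1 ≤ (1 + t) ^ m := one_le_pow₀ (by linarith)
  rcases le_total |b| (t * |a|) with h | h
  · have h2 : (|a| + |b|) ^ m ≤ ((1 + t) * |a|) ^ m :=
      pow_le_pow_left₀ (by positivity) (by linarith) m
    have h3 : 0 ≤ (1 + 1 / t) ^ m * |b| ^ m := by positivity
    rw [mul_pow] at h2
    linarith
  · have h2 : |a| ≤ 1 / t * |b| := by
      rw [div_mul_eq_mul_div, one_mul, le_div_iff₀ ht]
      linarith
    have h3 : (|a| + |b|) ^ m ≤ ((1 + 1 / t) * |b|) ^ m :=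
      pow_le_pow_left₀ (by positivity) (by linarith) m
    rw [mul_pow] at h3
    have h4 : 0 ≤ ((1 + t) ^ m - 1) * |a| ^ m := mul_nonneg (by linarith) (by positivity)
    have h5 : 0 ≤ |a| ^ m := by positivity
    linarith

theorem mean_pow_le_sqrt (L : ℕ) (m : ℕ) (u : ℤ → ℝ) :
    mean L (fun x => |u x| ^ m) ≤ Real.sqrt (mean L (fun x => u x ^ (2 * m))) := by
  apply Real.le_sqrt_of_sq_le
  refine (sq_mean_le L _).trans (le_of_eq ?_)
  refine mean_congr L _ _ fun x => ?_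
  rw [← pow_mul, mul_comm m 2, pow_mul, sq_abs, ← pow_mul]

theorem small_choice (f : ℝ → ℝ) (hf : Continuous f) (h0 : f 0 = 0) (η : ℝ) (hη : 0 < η) :
    ∃ t : ℝ, 0 < t ∧ t ≤ 1 ∧ f t ≤ η := by
  have h1 : ∀ᶠ s in nhds (0 : ℝ), f s < η := by
    have h2 : Filter.Tendsto f (nhds 0) (nhds 0) := by
      have := hf.tendsto 0
      rwa [h0] at this
    exact h2.eventually (gt_mem_nhds hη)
  obtain ⟨ε, hε, h3⟩ := Metric.eventually_nhds_iff.1 h1
  refine ⟨min 1 (ε / 2), by positivity, min_le_left _ _, (h3 ?_).le⟩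
  rw [Real.dist_eq, sub_zero, abs_of_nonneg (by positivity)]
  exact (min_le_right _ _).trans_lt (by linarith)

theorem pert (m : ℕ) (η : ℝ) (hη : 0 < η) : ∃ θ : ℝ, 0 < θ ∧ ∀ (L : ℕ) (f r : ℤ → ℝ), 0 < L →
    0 < mean L (fun x => (f x + r x) ^ 2) →
    mean L (fun x => r x ^ 2) ≤ θ * mean L (fun x => (f x + r x) ^ 2) →
    mean L (fun x => r x ^ (2 * m)) ≤ θ * mean L (fun x => (f x + r x) ^ 2) ^ m →
    |mean L (fun x => f x ^ (2 * m)) - PP (2 * m) (mean L (fun x => f x ^ 2))| ≤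
      θ * Real.sqrt (mean L (fun x => (f x + r x) ^ 2)) ^ (2 * m) →
    |mean L (fun x => f x ^ m) - PP m (mean L (fun x => f x ^ 2))| ≤
      θ * Real.sqrt (mean L (fun x => (f x + r x) ^ 2)) ^ m →
    |mean L (fun x => (f x + r x) ^ m) -
        gam m * Real.sqrt (mean L (fun x => (f x + r x) ^ 2)) ^ m| ≤
      η * Real.sqrt (mean L (fun x => (f x + r x) ^ 2)) ^ m := by
  set A : ℝ := Real.sqrt (gam (2 * m) * 4 ^ m + 1) with hA
  obtain ⟨t, ht, ht1, hT⟩ := small_choice (fun t => ((1 + t) ^ m - 1) * A) (by fun_prop)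
    (by simp) (η / 2) (by positivity)
  obtain ⟨s, hs, hs1, hS⟩ := small_choice
    (fun s => (1 + 1 / t) ^ m * s + s ^ 2 + gam m * ((1 + s) ^ m - 1)) (by fun_prop)
    (by simp) (η / 2) (by positivity)
  refine ⟨s ^ 2, by positivity, fun L f r hL hW h2 h3 h4 h5 => ?_⟩
  set W : ℝ := mean L (fun x => (f x + r x) ^ 2) with hW0
  set F : ℝ := mean L (fun x => f x ^ 2) with hF
  set ρ : ℝ := mean L (fun x => r x ^ 2) with hρ
  set σ : ℝ := Real.sqrt W with hσ
  have hF0 : 0 ≤ F := mean_nonneg L _ fun x => sq_nonneg _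
  have hρ0 : 0 ≤ ρ := mean_nonneg L _ fun x => sq_nonneg _
  have hσ0 : 0 < σ := Real.sqrt_pos.2 hW
  have hσ2 : σ ^ 2 = W := Real.sq_sqrt hW.le
  have hρs : Real.sqrt ρ ≤ s * σ := by
    apply Real.sqrt_le_iff.2
    refine ⟨by positivity, ?_⟩
    rw [mul_pow, hσ2]; exact h2
  have hFu : Real.sqrt F ≤ σ + s * σ := by
    have h6 := pert_mink L (fun x => f x + r x) (fun x => - r x)
    simp only [add_neg_cancel_right, neg_sq] at h6
    exact h6.trans (add_le_add_right hρs _)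
  have hFl : σ ≤ Real.sqrt F + s * σ := (pert_mink L f r).trans (add_le_add_right hρs _)
  have hFd : |Real.sqrt F - σ| ≤ s * σ := abs_le.2 ⟨by linarith, by linarith⟩
  have hg := gam_nonneg m
  have hg2 := gam_nonneg (2 * m)
  have hσm : 0 < σ ^ m := by positivity
  -- the moment of order 2m of f
  have hm2 : mean L (fun x => f x ^ (2 * m)) ≤ (gam (2 * m) * 4 ^ m + 1) * σ ^ (2 * m) := by
    have h6 : PP (2 * m) F = gam (2 * m) * F ^ m := by
      unfold PP
      rw [if_pos (even_two_mul m), Nat.mul_div_cancel_left m (by norm_num)]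
    have h7 : F ≤ 4 * σ ^ 2 := by
      have h8 : Real.sqrt F ≤ 2 * σ := hFu.trans (by nlinarith)
      calc F = Real.sqrt F ^ 2 := (Real.sq_sqrt hF0).symm
        _ ≤ (2 * σ) ^ 2 := pow_le_pow_left₀ (Real.sqrt_nonneg _) h8 2
        _ = 4 * σ ^ 2 := by ring
    have h8 : F ^ m ≤ 4 ^ m * σ ^ (2 * m) := by
      calc F ^ m ≤ (4 * σ ^ 2) ^ m := pow_le_pow_left₀ hF0 h7 m
        _ = 4 ^ m * σ ^ (2 * m) := by rw [mul_pow, ← pow_mul]
    have h9 := (abs_le.1 h4).2
    rw [h6] at h9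
    have h10 : s ^ 2 * σ ^ (2 * m) ≤ 1 * σ ^ (2 * m) :=
      mul_le_mul_of_nonneg_right (by nlinarith) (by positivity)
    have h11 : gam (2 * m) * F ^ m ≤ gam (2 * m) * (4 ^ m * σ ^ (2 * m)) :=
      mul_le_mul_of_nonneg_left h8 hg2
    linarith
  have hfm : mean L (fun x => |f x| ^ m) ≤ A * σ ^ m := by
    refine (mean_pow_le_sqrt L m f).trans ?_
    have h6 : A * σ ^ m = Real.sqrt ((gam (2 * m) * 4 ^ m + 1) * σ ^ (2 * m)) := by
      rw [Real.sqrt_mul (by positivity), show σ ^ (2 * m) = (σ ^ m) ^ 2 by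
        rw [← pow_mul, mul_comm m 2], Real.sqrt_sq (by positivity)]
    rw [h6]
    exact Real.sqrt_le_sqrt hm2
  have hrm : mean L (fun x => |r x| ^ m) ≤ s * σ ^ m := by
    refine (mean_pow_le_sqrt L m r).trans ?_
    have h6 : s * σ ^ m = Real.sqrt (s ^ 2 * W ^ m) := by
      rw [Real.sqrt_mul (by positivity), Real.sqrt_sq hs.le, ← hσ2, ← pow_mul, mul_comm 2 m,
        pow_mul, Real.sqrt_sq (by positivity)]
    rw [h6]
    exact Real.sqrt_le_sqrt h3
  have hdiff : |mean L (fun x => (f x + r x) ^ m) - mean L (fun x => f x ^ m)| ≤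
      ((1 + t) ^ m - 1) * (A * σ ^ m) + (1 + 1 / t) ^ m * (s * σ ^ m) := by
    rw [← mean_sub]
    refine (abs_mean_le L _).trans ?_
    refine (mean_mono L _ _ fun x => pow_diff' m t ht (f x) (r x)).trans ?_
    rw [mean_add, mean_const_mul, mean_const_mul]
    have h6 : 0 ≤ (1 + t) ^ m - 1 := by
      have : 1 ≤ (1 + t) ^ m := one_le_pow₀ (by linarith)
      linarith
    exact add_le_add (mul_le_mul_of_nonneg_left hfm h6)
      (mul_le_mul_of_nonneg_left hrm (by positivity))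
  have hPP : |PP m F - gam m * σ ^ m| ≤ gam m * ((1 + s) ^ m - 1) * σ ^ m := by
    by_cases he : Even m
    · have h6 : PP m F = gam m * Real.sqrt F ^ m := by
        unfold PP
        rw [if_pos he]
        obtain ⟨k, hk⟩ := he
        rw [show m / 2 = k by omega, show m = 2 * k by omega, pow_mul, Real.sq_sqrt hF0]
      rw [h6, ← mul_sub, abs_mul, abs_of_nonneg hg, mul_assoc]
      apply mul_le_mul_of_nonneg_left _ hg
      have h7 := pow_diff m σ (Real.sqrt F - σ)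
      rw [add_sub_cancel, abs_of_pos hσ0] at h7
      refine h7.trans ?_
      have h8 : (σ + |Real.sqrt F - σ|) ^ m ≤ ((1 + s) * σ) ^ m :=
        pow_le_pow_left₀ (by positivity) (by linarith) m
      rw [mul_pow] at h8
      linarith
    · unfold PP
      rw [if_neg he, gam_odd m he]
      simp
  have hfin : mean L (fun x => (f x + r x) ^ m) - gam m * σ ^ m =
      (mean L (fun x => (f x + r x) ^ m) - mean L (fun x => f x ^ m)) +
      (mean L (fun x => f x ^ m) - PP m F) + (PP m F - gam m * σ ^ m) := by ring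
  rw [hfin]
  refine (abs_add_three _ _ _).trans ?_
  have hT' : ((1 + t) ^ m - 1) * A * σ ^ m ≤ η / 2 * σ ^ m :=
    mul_le_mul_of_nonneg_right hT hσm.le
  have hS' := mul_le_mul_of_nonneg_right hS hσm.le
  linarith

end Pool.Agent.MP_a12917_nt_GT
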