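import Mathlib
import Pool.Agent.Lib.MP_a12917_nt_GT.Defs
import Pool.Agent.Lib.MP_a12917_nt_GT.Basic
import Pool.Agent.Lib.MP_a12917_nt_GT.MomM
import Pool.Agent.Lib.MP_a12917_nt_GT.RSm
import Pool.Agent.Lib.MP_a12917_nt_GT.Pert
import Pool.Agent.Lib.MP_a12917_nt_GT.Split
import Pool.Agent.Lib.MP_a12917_nt_GT.LowB

/-!
# MP_a12917_nt, project GT, module MomS: the moments of S over a full period are asymptotically Gaussian

(`ℓ = hs z`.)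
Take `θ` from `pert m η`; `B` = max of the `B0` of `mom_M` for `m` and `2m`, and of `4^1`, `4^m`;
`f = M ⌈ℓ^B⌉ z H (z+1)`, `r = R ⌈ℓ^B⌉ z H`, `f + r = S z H` (`S_split`). The hypotheses of `pert`: positivity
from `low_b`; `R_small` with `k = 1` and with `k = m` (for `m = 0` the statement is trivial: both sides `1`, do
it separately); `mom_M` for `2m` and `m`. If `ε ≥ 1` or `ε > 1/2`: for `ε ≥ 1` there is no `H ≥ 1` with
`z^ε ≤ H ≤ z^{1-ε}` once `z ≥ 2` (`z^{1-ε} ≤ 1 < z^ε`).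
-/

set_option autoImplicit false

noncomputable section

namespace Pool.Agent.MP_a12917_nt_GT

open Finset

theorem mom_S (m : ℕ) (ε η : ℝ) (hε : 0 < ε) (hη : 0 < η) : ∃ z0 : ℕ, ∀ z : ℕ, z0 ≤ z →
    ∀ H : ℕ, (z : ℝ) ^ ε ≤ H → (H : ℝ) ≤ (z : ℝ) ^ (1 - ε) →
      |mean (Lm z) (fun x => S z H x ^ m) -
          gam m * Real.sqrt (mean (Lm z) (fun x => S z H x ^ 2)) ^ m| ≤
        η * Real.sqrt (mean (Lm z) (fun x => S z H x ^ 2)) ^ m := by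
  rcases le_or_gt 1 ε with h1 | h1
  · refine ⟨2, fun z hz H hH1 hH2 => ?_⟩
    exfalso
    have hz1 : (1 : ℝ) < z := by
      have h2 : 1 < z := by omega
      exact_mod_cast h2
    have h3 : 1 < (z : ℝ) ^ ε := Real.one_lt_rpow hz1 hε
    have h4 : (z : ℝ) ^ (1 - ε) ≤ 1 := Real.rpow_le_one_of_one_le_of_nonpos hz1.le (by linarith)
    linarith
  rcases Nat.eq_zero_or_pos m with rfl | hm
  · refine ⟨0, fun z _ H _ _ => ?_⟩
    simp only [pow_zero, mean_const (Lm z) (Lm_pos z) 1, gam, mul_one, sub_self, abs_zero]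
    exact hη.le
  obtain ⟨θ, hθ, hp⟩ := pert m η hη
  obtain ⟨B1, hB1⟩ := mom_M m ε hε h1
  obtain ⟨B2, hB2⟩ := mom_M (2 * m) ε hε h1
  obtain ⟨B, hB⟩ : ∃ B : ℕ, B = B1 + B2 + 4 ^ m + 4 := ⟨_, rfl⟩
  have hB4 : 0 < 4 ^ m := Nat.pow_pos (by norm_num)
  obtain ⟨z1, hz1⟩ := hB1 B (by omega) θ hθ
  obtain ⟨z2, hz2⟩ := hB2 B (by omega) θ hθ
  obtain ⟨z3, hz3⟩ := R_small 1 B le_rfl (by omega) ε θ hε h1 hθ
  obtain ⟨z4, hz4⟩ := R_small m B hm (by omega) ε θ hε h1 hθ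
  obtain ⟨c, hc, z5, hz5⟩ := low_b ε hε h1
  refine ⟨z1 + z2 + z3 + z4 + z5 + 1, fun z hz H hH1 hH2 => ?_⟩
  have hzpos : (0 : ℝ) < z := by
    have h2 : 0 < z := by omega
    exact_mod_cast h2
  have hH : 1 ≤ H := by
    have h2 : (0 : ℝ) < H := lt_of_lt_of_le (Real.rpow_pos_of_pos hzpos ε) hH1
    exact_mod_cast h2
  have a1 := hz1 z (by omega) H hH1 hH2
  have a2 := hz2 z (by omega) H hH1 hH2
  have a3 := hz3 z (by omega) H hH hH2
  have a4 := hz4 z (by omega) H hH hH2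
  have a5 := hz5 z (by omega) H hH hH2
  have hpos : 0 < mean (Lm z) (fun x => S z H x ^ 2) := by
    refine lt_of_lt_of_le ?_ a5
    have h2 : (0 : ℝ) < H := by exact_mod_cast hH
    have h3 : (0 : ℝ) < hs z := lt_of_lt_of_le one_pos (one_le_hs z (by omega))
    positivity
  have e2 : mean (Lm z) (fun x => S z H x ^ 2) = mean (Lm z) (fun x =>
      (M ⌈hs z ^ B⌉₊ z H (z + 1) x + R ⌈hs z ^ B⌉₊ z H x) ^ 2) :=
    mean_congr _ _ _ fun x => by rw [S_split ⌈hs z ^ B⌉₊ z H x]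
  have em : mean (Lm z) (fun x => S z H x ^ m) = mean (Lm z) (fun x =>
      (M ⌈hs z ^ B⌉₊ z H (z + 1) x + R ⌈hs z ^ B⌉₊ z H x) ^ m) :=
    mean_congr _ _ _ fun x => by rw [S_split ⌈hs z ^ B⌉₊ z H x]
  rw [mul_one, pow_one] at a3
  rw [e2] at hpos a1 a2 a3 a4 ⊢
  rw [em]
  exact hp (Lm z) (M ⌈hs z ^ B⌉₊ z H (z + 1)) (R ⌈hs z ^ B⌉₊ z H) (Lm_pos z) hpos a3 a4 a2 a1

end Pool.Agent.MP_a12917_nt_GT
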