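import Mathlib
import Pool.Agent.Lib.MP_a12917_nt_GT.Defs
import Pool.Agent.Lib.MP_a12917_nt_GT.Basic
import Pool.Agent.Lib.MP_a12917_nt_GT.Per

/-!
# MP_a12917_nt, project GT, module Trans: transfer from a full period to an interval

(`ℓ = hs z`.)
`Ua a H` is periodic mod `a` and `|Ua a H x| ≤ 1` (the number of multiples of `a` in `(x, x+H]` is
`⌊(x+H)/a⌋ - ⌊x/a⌋`). `S^m = ∑_{(a_1,…,a_m) ∈ [1,z]^m} ∏ Ua a_i H`
(`Finset.sum_pow'`/`prod_univ_sum` over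
`Fin m → ℕ`), each product `F` is periodic mod `Q = ∏ a_i ≤ z^m`, `Q ∣ (Lm z)^m`-type multiples; the
mean over
`Lm z` equals the mean over any other multiple of the lcm of the `a_i` (`lcm ∣ z! ∣ Lm z`), and
`F` is periodic mod `Q' = lcm(a_i) ≤ z^m`. For such `F`, `|F| ≤ 1`:
`|∑_{x ∈ [Y,2Y)} F(x) - Y mean F| ≤ 2Q'` (`Y = k Q' + r`: full periods, `mean_shift`; the remaining
`r < Q'`
terms). So the difference is `≤ z^m · 2 z^m/Y`.
-/

set_option autoImplicit false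

noncomputable section

namespace Pool.Agent.MP_a12917_nt_GT

open Finset

theorem div_succ (a : ℕ) (ha : 0 < a) (y : ℤ) :
    (y + 1) / (a : ℤ) = y / (a : ℤ) + if (a : ℤ) ∣ y + 1 then 1 else 0 := by
  have ha' : (0 : ℤ) < a := by exact_mod_cast ha
  have h0 := Int.emod_add_mul_ediv y a
  have h1 := Int.emod_nonneg y ha'.ne'
  have h2 := Int.emod_lt_of_pos y ha'
  set q := y / (a : ℤ) with hq
  set r := y % (a : ℤ) with hr
  by_cases h : r + 1 = a
  · have h3 : y + 1 = (a : ℤ) * (q + 1) := by rw [← h0]; linarith [mul_add (a : ℤ) q 1]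
    rw [if_pos (h3 ▸ dvd_mul_right _ _), h3, Int.mul_ediv_cancel_left _ ha'.ne']
  · have h3 : y + 1 = (r + 1) + (a : ℤ) * q := by rw [← h0]; ring
    have h4 : ¬ (a : ℤ) ∣ y + 1 := by
      intro h5
      rw [h3] at h5
      have h6 := (Int.dvd_add_left (dvd_mul_right (a : ℤ) q)).1 h5
      have h7 := Int.le_of_dvd (by omega) h6
      omega
    rw [if_neg h4, add_zero, h3, Int.add_mul_ediv_left _ _ ha'.ne',
      Int.ediv_eq_zero_of_lt (by omega) (by omega), zero_add]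

theorem trans_cnt_eq (a H : ℕ) (ha : 0 < a) (x : ℤ) :
    (∑ h ∈ Icc 1 H, if (a : ℤ) ∣ x + (h : ℤ) then (1 : ℝ) else 0) =
      (((x + (H : ℤ)) / (a : ℤ) - x / (a : ℤ) : ℤ) : ℝ) := by
  induction H with
  | zero => simp
  | succ H ih =>
    rw [← insert_Icc_right_eq_Icc_add_one (show 1 ≤ H + 1 by omega), sum_insert (by simp), ih]
    have h1 := div_succ a ha (x + (H : ℤ))
    have h2 : x + ((H + 1 : ℕ) : ℤ) = x + (H : ℤ) + 1 := by push_cast; ring
    rw [h2, h1]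
    by_cases h3 : (a : ℤ) ∣ x + (H : ℤ) + 1
    · rw [if_pos h3, if_pos h3]; push_cast; ring
    · rw [if_neg h3, if_neg h3]; push_cast; ring

theorem abs_Ua_le (a H : ℕ) (ha : 0 < a) (x : ℤ) : |Ua a H x| ≤ 1 := by
  have ha' : (0 : ℤ) < a := by exact_mod_cast ha
  have ha2 : (0 : ℝ) < a := by exact_mod_cast ha
  unfold Ua
  rw [trans_cnt_eq a H ha x]
  have h0 := Int.emod_add_mul_ediv x a
  have h1 := Int.emod_nonneg x ha'.ne'
  have h2 := Int.emod_lt_of_pos x ha'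
  have h3 := Int.emod_add_mul_ediv (x + (H : ℤ)) a
  have h4 := Int.emod_nonneg (x + (H : ℤ)) ha'.ne'
  have h5 := Int.emod_lt_of_pos (x + (H : ℤ)) ha'
  set q0 := x / (a : ℤ) with hq0
  set r0 := x % (a : ℤ) with hr0
  set q1 := (x + (H : ℤ)) / (a : ℤ) with hq1
  set r1 := (x + (H : ℤ)) % (a : ℤ) with hr1
  have h6 : (H : ℤ) = a * (q1 - q0) + (r1 - r0) := by linarith [mul_sub (a : ℤ) q1 q0]
  have h7 : (H : ℝ) = a * ((q1 - q0 : ℤ) : ℝ) + (r1 - r0) := by exact_mod_cast h6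
  have h8 : ((q1 - q0 : ℤ) : ℝ) - (H : ℝ) / a = (r0 - r1) / a := by
    rw [h7]
    field_simp
    ring
  rw [h8, abs_div, abs_of_pos ha2, div_le_one ha2]
  have h9 : |r0 - r1| ≤ (a : ℤ) := by
    rw [abs_le]
    constructor <;> linarith
  exact_mod_cast h9

theorem Ua_per (a H N : ℕ) (h : a ∣ N) (x : ℤ) : Ua a H (x + (N : ℤ)) = Ua a H x := by
  unfold Ua
  congr 1
  refine sum_congr rfl fun h' _ => ?_
  have e : x + (N : ℤ) + (h' : ℤ) = x + (h' : ℤ) + (N : ℤ) := by ring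
  have h1 : (a : ℤ) ∣ (N : ℤ) := Int.natCast_dvd_natCast.2 h
  have h2 : ((a : ℤ) ∣ x + (N : ℤ) + (h' : ℤ)) ↔ (a : ℤ) ∣ x + (h' : ℤ) := by
    rw [e]
    exact dvd_add_left h1
  by_cases h3 : (a : ℤ) ∣ x + (h' : ℤ)
  · rw [if_pos h3, if_pos (h2.2 h3)]
  · rw [if_neg h3, if_neg fun h4 => h3 (h2.1 h4)]

theorem abs_mean_le_one (Q : ℕ) (f : ℤ → ℝ) (hf1 : ∀ x, |f x| ≤ 1) : |mean Q f| ≤ 1 := by
  rcases Nat.eq_zero_or_pos Q with h | h
  · subst h
    simp [mean]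
  refine (abs_mean_le Q f).trans ?_
  have h1 := mean_mono Q (fun x => |f x|) (fun _ => 1) hf1
  rwa [mean_const Q h] at h1

theorem sum_sub_mean (Q : ℕ) (hQ : 0 < Q) (f : ℤ → ℝ) (hf : ∀ x, f (x + (Q : ℤ)) = f x)
    (hf1 : ∀ x, |f x| ≤ 1) (n Y : ℕ) :
    |∑ j ∈ range n, f ((j : ℤ) + (Y : ℤ)) - n * mean Q f| ≤ 2 * Q := by
  set F : ℤ → ℝ := fun x => f (x + (Y : ℤ)) with hF
  have hFp : ∀ x, F (x + (Q : ℤ)) = F x := by
    intro x
    simp only [hF]
    rw [← hf (x + (Y : ℤ))]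
    congr 1
    ring
  have hm : mean Q F = mean Q f := mean_shift Q f hf Y
  have hn := Nat.div_add_mod n Q
  set k := n / Q with hk
  set r := n % Q with hr
  have hrQ : r < Q := Nat.mod_lt _ hQ
  have h1 : ∑ j ∈ range n, f ((j : ℤ) + (Y : ℤ)) =
      ∑ j ∈ range (Q * k), F j + ∑ j ∈ range r, F ((Q * k + j : ℕ) : ℤ) := by
    rw [← hn, sum_range_add]
  have h2 : ∑ j ∈ range (Q * k), F j = ((Q * k : ℕ) : ℝ) * mean Q f := by
    rcases Nat.eq_zero_or_pos k with h0 | h0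
    · rw [h0]; simp
    · have hpos : 0 < Q * k := Nat.mul_pos hQ h0
      have h3 := mean_of_dvd Q (Q * k) (dvd_mul_right Q k) hpos F hFp
      rw [hm] at h3
      unfold mean at h3 ⊢
      have hne : ((Q * k : ℕ) : ℝ) ≠ 0 := by
        have : (0 : ℝ) < ((Q * k : ℕ) : ℝ) := by exact_mod_cast hpos
        exact this.ne'
      rw [← h3]
      field_simp
  have h3 : |∑ j ∈ range r, F ((Q * k + j : ℕ) : ℤ)| ≤ r := by
    refine (abs_sum_le_sum_abs _ _).trans ?_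
    have := sum_le_sum (s := range r) (f := fun j => |F ((Q * k + j : ℕ) : ℤ)|)
      (g := fun _ => (1 : ℝ)) fun j _ => hf1 _
    simpa using this
  have h4 := abs_mean_le_one Q f hf1
  have h5 : (n : ℝ) = ((Q * k : ℕ) : ℝ) + r := by
    rw [← hn]
    push_cast
    ring
  rw [h1, h2, h5]
  have h6 : ((Q * k : ℕ) : ℝ) * mean Q f + ∑ j ∈ range r, F ((Q * k + j : ℕ) : ℤ) -
      (((Q * k : ℕ) : ℝ) + r) * mean Q f =
      ∑ j ∈ range r, F ((Q * k + j : ℕ) : ℤ) - r * mean Q f := by ring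
  rw [h6]
  have h7 : |(r : ℝ) * mean Q f| ≤ r := by
    rw [abs_mul, Nat.abs_cast]
    nlinarith [Nat.cast_nonneg (α := ℝ) r]
  have h8 : (r : ℝ) ≤ Q := by exact_mod_cast hrQ.le
  have h9 := abs_sub (∑ j ∈ range r, F ((Q * k + j : ℕ) : ℤ)) ((r : ℝ) * mean Q f)
  linarith

theorem EY_sub_mean (Q : ℕ) (hQ : 0 < Q) (f : ℤ → ℝ) (hf : ∀ x, f (x + (Q : ℤ)) = f x)
    (hf1 : ∀ x, |f x| ≤ 1) (Y : ℕ) (hY : 1 ≤ Y) : |EY Y f - mean Q f| ≤ 2 * Q / Y := by
  have hY' : (0 : ℝ) < Y := by exact_mod_cast hY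
  have h1 := sum_sub_mean Q hQ f hf hf1 Y Y
  have h2 : ∑ x ∈ Ico Y (2 * Y), f (x : ℤ) = ∑ j ∈ range Y, f ((j : ℤ) + (Y : ℤ)) := by
    rw [sum_Ico_eq_sum_range, show 2 * Y - Y = Y by omega]
    refine sum_congr rfl fun j _ => ?_
    congr 1
    push_cast
    ring
  have h3 : EY Y f - mean Q f =
      (∑ j ∈ range Y, f ((j : ℤ) + (Y : ℤ)) - Y * mean Q f) / Y := by
    unfold EY
    rw [h2]
    field_simp
  rw [h3, abs_div, abs_of_pos hY']
  exact div_le_div_of_nonneg_right h1 hY'.le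

theorem EY_sum {ι : Type} (Y : ℕ) (s : Finset ι) (f : ι → ℤ → ℝ) :
    EY Y (fun x => ∑ i ∈ s, f i x) = ∑ i ∈ s, EY Y (f i) := by
  simp only [EY]
  rw [sum_comm, ← sum_div]

theorem transfer (m z H Y : ℕ) (hz : 1 ≤ z) (hY : 1 ≤ Y) :
    |EY Y (fun x => S z H x ^ m) - mean (Lm z) (fun x => S z H x ^ m)| ≤
      2 * (z : ℝ) ^ (2 * m) / Y := by
  have hexp : ∀ x : ℤ, S z H x ^ m =
      ∑ p ∈ Fintype.piFinset (fun _ : Fin m => Icc 1 z), ∏ i, Ua (p i) H x := by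
    intro x
    unfold S
    rw [Finset.sum_pow']
  have hfun : (fun x : ℤ => S z H x ^ m) = fun x : ℤ =>
      ∑ p ∈ Fintype.piFinset (fun _ : Fin m => Icc 1 z), ∏ i, Ua (p i) H x := funext hexp
  rw [hfun, EY_sum, mean_sum, ← sum_sub_distrib]
  refine (abs_sum_le_sum_abs _ _).trans ?_
  have hY' : (0 : ℝ) < Y := by exact_mod_cast hY
  have hterm : ∀ p ∈ Fintype.piFinset (fun _ : Fin m => Icc 1 z),
      |EY Y (fun x => ∏ i, Ua (p i) H x) - mean (Lm z) (fun x => ∏ i, Ua (p i) H x)| ≤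
        2 * (z : ℝ) ^ m / Y := by
    intro p hp
    rw [Fintype.mem_piFinset] at hp
    have hp1 : ∀ i, 1 ≤ p i ∧ p i ≤ z := fun i => mem_Icc.1 (hp i)
    set Q : ℕ := (univ : Finset (Fin m)).lcm p with hQd
    have hdQ : ∀ i, p i ∣ Q := fun i => Finset.dvd_lcm (mem_univ i)
    have hQz : Q ∣ z.factorial :=
      Finset.lcm_dvd fun i _ => Nat.dvd_factorial (hp1 i).1 (hp1 i).2
    have hQpos : 0 < Q := Nat.pos_of_dvd_of_pos hQz (Nat.factorial_pos z)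
    have hQL : Q ∣ Lm z := by
      unfold Lm
      exact hQz.trans (dvd_pow_self _ (by omega))
    have hQprod : Q ∣ ∏ i, p i := Finset.lcm_dvd fun i _ => Finset.dvd_prod_of_mem p (mem_univ i)
    have hprodpos : 0 < ∏ i, p i := Finset.prod_pos fun i _ => (hp1 i).1
    have hQle : Q ≤ z ^ m := by
      refine (Nat.le_of_dvd hprodpos hQprod).trans ?_
      have := Finset.prod_le_prod' (s := (univ : Finset (Fin m))) (f := p) (g := fun _ => z)
        fun i _ => (hp1 i).2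
      simpa using this
    have hper : ∀ x : ℤ, (∏ i, Ua (p i) H (x + (Q : ℤ))) = ∏ i, Ua (p i) H x := fun x =>
      prod_congr rfl fun i _ => Ua_per (p i) H Q (hdQ i) x
    have hone : ∀ x : ℤ, |∏ i, Ua (p i) H x| ≤ 1 := by
      intro x
      rw [Finset.abs_prod]
      exact Finset.prod_le_one (fun i _ => abs_nonneg _)
        fun i _ => abs_Ua_le (p i) H (hp1 i).1 x
    rw [mean_of_dvd Q (Lm z) hQL (Lm_pos z) (fun x => ∏ i, Ua (p i) H x) hper]
    refine (EY_sub_mean Q hQpos (fun x => ∏ i, Ua (p i) H x) hper hone Y hY).trans ?_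
    apply div_le_div_of_nonneg_right _ hY'.le
    have : (Q : ℝ) ≤ (z : ℝ) ^ m := by exact_mod_cast hQle
    linarith
  refine (sum_le_sum hterm).trans ?_
  rw [sum_const, Fintype.card_piFinset_const, nsmul_eq_mul]
  rw [Nat.card_Icc, Nat.add_sub_cancel]
  push_cast
  apply le_of_eq
  rw [two_mul m, pow_add]
  ring

end Pool.Agent.MP_a12917_nt_GT
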