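import Mathlib
import Pool.Agent.Lib.MP_a12917_nt_GT.Defs
import Pool.Agent.Lib.MP_a12917_nt_GT.Basic
import Pool.Agent.Lib.MP_a12917_nt_GT.MomS
import Pool.Agent.Lib.MP_a12917_nt_GT.Trans
import Pool.Agent.Lib.MP_a12917_nt_GT.LowB
import Pool.Agent.Lib.MP_a12917_nt_GT.GamF
import Pool.Agent.Lib.MP_a12917_nt_GT.RSm

/-!
# MP_a12917_nt, project GT, module MomY: the moments of S over [Y, 2Y)

(`ℓ = hs z`.)
Let `σ² = mean (Lm z) S²`, `τ² = EY Y S²`. `σ² ≥ c H ℓ³ ≥ c ℓ³ → ∞` uniformly in `H` (`low_b`, `hs_tendsto`; for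
`ε ≥ 1` no `H`). `transfer`: `|τ² - σ²| ≤ 2 z⁴/Y ≤ 2` (as `Y ≥ z^{2m+4} ≥ z^4`), so `τ²/σ² → 1`;
`|EY S^m - mean S^m| ≤ 2 z^{2m}/Y ≤ 2`, so with `mom_S`
`|EY S^m - gam m σ^m| ≤ η' σ^m + 2` and `|σ^m - τ^m| ≤ η' σ^m`; divide by `τ^m`
(`σ ≥ 1`, `τ ≥ σ/2` for `z` large). Then `EY (S/τ)^m = EY S^m/τ^m`.
-/

set_option autoImplicit false

noncomputable section

namespace Pool.Agent.MP_a12917_nt_GT

open Finset

namespace MomY

theorem div_pow (Y m : ℕ) (f : ℤ → ℝ) (t : ℝ) :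
    EY Y (fun x => (f x / t) ^ m) = EY Y (fun x => f x ^ m) / t ^ m := by
  unfold EY
  simp only [_root_.div_pow]
  rw [← Finset.sum_div]
  ring

theorem final (m : ℕ) (hm : 1 ≤ m) (g η s2 t2 A B : ℝ) (hg : 0 ≤ g) (hη : 0 < η) (δ : ℝ)
    (hδ : 0 < δ)
    (hc : ∀ x : ℝ, |x - 1| < δ → |x ^ m - 1| < min 1 (η / (4 * (g + 1))))
    (hs2 : 0 ≤ s2) (hst : |t2 - s2| ≤ 2)
    (hbig : 3 + (8 / η) ^ 2 + 2 / δ ≤ s2)
    (hA : |A - g * Real.sqrt s2 ^ m| ≤ η / 8 * Real.sqrt s2 ^ m) (hB : |B - A| ≤ 2) :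
    0 < t2 ∧ |B / Real.sqrt t2 ^ m - g| ≤ η := by
  have h1 : 0 < 2 / δ := by positivity
  have h2 : 0 < (8 / η) ^ 2 := by positivity
  obtain ⟨h3, h4⟩ := abs_le.1 hst
  have ht2 : 1 + (8 / η) ^ 2 + 2 / δ ≤ t2 := by linarith
  have htp : 0 < t2 := by linarith
  refine ⟨htp, ?_⟩
  set τ := Real.sqrt t2 with hτ
  set σ := Real.sqrt s2 with hσ
  have hτp : 0 < τ := Real.sqrt_pos.2 htp
  have hσ0 : 0 ≤ σ := Real.sqrt_nonneg _
  have hτ2 : τ ^ 2 = t2 := Real.sq_sqrt htp.le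
  have hσ2 : σ ^ 2 = s2 := Real.sq_sqrt hs2
  have hτ1 : 1 ≤ τ := by
    by_contra h
    push Not at h
    nlinarith
  have hτ8 : 8 / η ≤ τ := by
    by_contra h
    push Not at h
    have h5 : τ ^ 2 < (8 / η) ^ 2 := by
      have : 0 < 8 / η := by positivity
      nlinarith
    linarith
  have hr : |σ / τ - 1| < δ := by
    have h5 : |σ / τ - 1| * τ ≤ |σ - τ| := by
      rw [← abs_of_pos hτp, ← abs_mul, abs_of_pos hτp]
      apply le_of_eq
      congr 1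
      field_simp
    have h6 : |σ - τ| * (σ + τ) ≤ 2 := by
      have h7 : |σ - τ| * (σ + τ) = |s2 - t2| := by
        have h13 : s2 - t2 = (σ - τ) * (σ + τ) := by
          rw [← hσ2, ← hτ2]
          ring
        rw [h13, abs_mul, abs_of_nonneg (add_nonneg hσ0 hτp.le)]
      rw [h7, abs_sub_comm]
      exact hst
    have h8 : |σ / τ - 1| * τ ^ 2 ≤ 2 := by
      calc |σ / τ - 1| * τ ^ 2 = (|σ / τ - 1| * τ) * τ := by ring
        _ ≤ |σ - τ| * τ := mul_le_mul_of_nonneg_right h5 hτp.le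
        _ ≤ |σ - τ| * (σ + τ) := mul_le_mul_of_nonneg_left (by linarith) (abs_nonneg _)
        _ ≤ 2 := h6
    by_contra h
    push Not at h
    have h9 : δ * τ ^ 2 ≤ |σ / τ - 1| * τ ^ 2 := mul_le_mul_of_nonneg_right h (sq_nonneg _)
    rw [hτ2] at h8 h9
    have h10 : δ * (1 + (8 / η) ^ 2 + 2 / δ) ≤ δ * t2 := mul_le_mul_of_nonneg_left ht2 hδ.le
    have h11 : δ * (2 / δ) = 2 := by field_simp
    have h12 : 0 < δ * (1 + (8 / η) ^ 2) := by positivity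
    nlinarith
  have hcr := hc _ hr
  have hc1 : |(σ / τ) ^ m - 1| < 1 := lt_of_lt_of_le hcr (min_le_left _ _)
  have hc2 : |(σ / τ) ^ m - 1| < η / (4 * (g + 1)) := lt_of_lt_of_le hcr (min_le_right _ _)
  have hτm : 0 < τ ^ m := pow_pos hτp m
  have hrat : σ ^ m / τ ^ m = (σ / τ) ^ m := (_root_.div_pow σ τ m).symm
  have hc3 : (σ / τ) ^ m ≤ 2 := by
    have := (abs_lt.1 hc1).2
    linarith
  have e1 : B / τ ^ m - g = (B - A) / τ ^ m + (A - g * σ ^ m) / τ ^ m +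
      g * ((σ / τ) ^ m - 1) := by
    rw [← hrat]
    field_simp
    ring
  have e2 : |(B - A) / τ ^ m| ≤ η / 4 := by
    rw [abs_div, abs_of_pos hτm, div_le_iff₀ hτm]
    have h5 : τ ≤ τ ^ m := le_self_pow₀ hτ1 (by omega)
    have h6 : η / 4 * (8 / η) = 2 := by
      field_simp
      norm_num
    have h7 : η / 4 * (8 / η) ≤ η / 4 * τ ^ m :=
      mul_le_mul_of_nonneg_left (hτ8.trans h5) (by positivity)
    linarith
  have e3 : |(A - g * σ ^ m) / τ ^ m| ≤ η / 4 := by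
    rw [abs_div, abs_of_pos hτm, div_le_iff₀ hτm]
    have h5 : σ ^ m ≤ 2 * τ ^ m := by
      rw [← div_le_iff₀ hτm, hrat]
      exact hc3
    have h6 : η / 8 * σ ^ m ≤ η / 8 * (2 * τ ^ m) :=
      mul_le_mul_of_nonneg_left h5 (by positivity)
    linarith
  have e4 : |g * ((σ / τ) ^ m - 1)| ≤ η / 4 := by
    rw [abs_mul, abs_of_nonneg hg]
    have h5 : g * |(σ / τ) ^ m - 1| ≤ (g + 1) * (η / (4 * (g + 1))) :=
      mul_le_mul (by linarith) hc2.le (abs_nonneg _) (by linarith)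
    have h6 : (g + 1) * (η / (4 * (g + 1))) = η / 4 := by
      have : g + 1 ≠ 0 := by linarith
      field_simp
    linarith
  rw [e1]
  have e5 := abs_add_le ((B - A) / τ ^ m + (A - g * σ ^ m) / τ ^ m) (g * ((σ / τ) ^ m - 1))
  have e6 := abs_add_le ((B - A) / τ ^ m) ((A - g * σ ^ m) / τ ^ m)
  linarith

end MomY

theorem mom_Y (m : ℕ) (ε η : ℝ) (hε : 0 < ε) (hη : 0 < η) : ∃ z0 : ℕ, ∀ z : ℕ, z0 ≤ z →
    ∀ H : ℕ, (z : ℝ) ^ ε ≤ H → (H : ℝ) ≤ (z : ℝ) ^ (1 - ε) → ∀ Y : ℕ, z ^ (2 * m + 4) ≤ Y →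
      0 < EY Y (fun x => S z H x ^ 2) ∧
      |EY Y (fun x => (S z H x / Real.sqrt (EY Y (fun x => S z H x ^ 2))) ^ m) - gam m| ≤ η := by
  rcases le_or_gt 1 ε with h1 | h1
  · refine ⟨2, fun z hz H hH1 hH2 => ?_⟩
    exfalso
    have hz1 : (1 : ℝ) < z := by
      have h2 : 1 < z := by omega
      exact_mod_cast h2
    have h3 : 1 < (z : ℝ) ^ ε := Real.one_lt_rpow hz1 hε
    have h4 : (z : ℝ) ^ (1 - ε) ≤ 1 := Real.rpow_le_one_of_one_le_of_nonpos hz1.le (by linarith)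
    linarith
  have hg := gam_nonneg m
  have hcont : ∃ δ : ℝ, 0 < δ ∧ ∀ x : ℝ, |x - 1| < δ →
      |x ^ m - 1| < min 1 (η / (4 * (gam m + 1))) := by
    have h2 : ContinuousAt (fun x : ℝ => x ^ m) 1 := (continuous_pow m).continuousAt
    rw [Metric.continuousAt_iff] at h2
    obtain ⟨δ, hδ, h3⟩ := h2 (min 1 (η / (4 * (gam m + 1)))) (lt_min one_pos (by positivity))
    refine ⟨δ, hδ, fun x hx => ?_⟩
    have h4 := h3 (x := x) (by rwa [Real.dist_eq])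
    rwa [Real.dist_eq, one_pow] at h4
  obtain ⟨δ, hδ, hc⟩ := hcont
  obtain ⟨c, hc0, z1, hlow⟩ := low_b ε hε h1
  obtain ⟨z2, hmom⟩ := mom_S m ε (η / 8) hε (by positivity)
  obtain ⟨z3, hz3⟩ := Filter.eventually_atTop.1 (hs_tendsto.eventually_ge_atTop
    ((3 + (8 / η) ^ 2 + 2 / δ) / c))
  refine ⟨z1 + z2 + z3 + 1, fun z hz H hH1 hH2 Y hY => ?_⟩
  have hz1 : 1 ≤ z := by omega
  have hz1' : (1 : ℝ) ≤ z := by exact_mod_cast hz1
  have hH : 1 ≤ H := by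
    have h2 : (1 : ℝ) ≤ (z : ℝ) ^ ε := Real.one_le_rpow hz1' hε.le
    have h3 : (1 : ℝ) ≤ H := h2.trans hH1
    exact_mod_cast h3
  have hY1 : 1 ≤ Y := (Nat.one_le_pow _ _ hz1).trans hY
  have hY' : (0 : ℝ) < Y := by exact_mod_cast hY1
  have hYz : (z : ℝ) ^ (2 * m + 4) ≤ Y := by exact_mod_cast hY
  have hlowz := hlow z (by omega) H hH hH2
  have hmomz := hmom z (by omega) H hH1 hH2
  have hl1 : 1 ≤ hs z := one_le_hs z hz1
  have hl2 := hz3 z (by omega)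
  have htr2 := transfer 2 z H Y hz1 hY1
  have htrm := transfer m z H Y hz1 hY1
  set s2 := mean (Lm z) (fun x => S z H x ^ 2) with hs2
  have hbig : 3 + (8 / η) ^ 2 + 2 / δ ≤ s2 := by
    refine le_trans ?_ hlowz
    rw [div_le_iff₀ hc0] at hl2
    have hH' : (1 : ℝ) ≤ H := by exact_mod_cast hH
    have h2 : hs z ≤ hs z ^ 3 := le_self_pow₀ hl1 (by norm_num)
    have h3 : hs z ^ 3 * c ≤ c * H * hs z ^ 3 := by
      have h4 : 0 ≤ hs z ^ 3 * c := by positivity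
      nlinarith
    have h5 : hs z * c ≤ hs z ^ 3 * c := mul_le_mul_of_nonneg_right h2 hc0.le
    linarith
  have hs20 : 0 ≤ s2 := mean_nonneg _ _ fun x => sq_nonneg _
  have ht : |EY Y (fun x => S z H x ^ 2) - s2| ≤ 2 := by
    refine htr2.trans ?_
    rw [div_le_iff₀ hY']
    have h2 : (z : ℝ) ^ (2 * 2) ≤ (z : ℝ) ^ (2 * m + 4) := pow_le_pow_right₀ hz1' (by omega)
    linarith
  have hB : |EY Y (fun x => S z H x ^ m) - mean (Lm z) (fun x => S z H x ^ m)| ≤ 2 := by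
    refine htrm.trans ?_
    rw [div_le_iff₀ hY']
    have h2 : (z : ℝ) ^ (2 * m) ≤ (z : ℝ) ^ (2 * m + 4) := pow_le_pow_right₀ hz1' (by omega)
    linarith
  rcases Nat.eq_zero_or_pos m with rfl | hm
  · constructor
    · have h2 : 0 < (8 / η) ^ 2 := by positivity
      have h3 : 0 < 2 / δ := by positivity
      have := (abs_le.1 ht).1
      linarith
    · have h2 : EY Y (fun x => (S z H x /
          Real.sqrt (EY Y (fun x => S z H x ^ 2))) ^ 0) = 1 := by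
        unfold EY
        simp only [pow_zero, Finset.sum_const, Nat.card_Ico, nsmul_eq_mul, mul_one]
        rw [show 2 * Y - Y = Y by omega]
        exact div_self hY'.ne'
      rw [h2]
      simp only [gam, sub_self, abs_zero]
      exact hη.le
  · have hfin := MomY.final m hm (gam m) η s2 (EY Y (fun x => S z H x ^ 2))
      (mean (Lm z) (fun x => S z H x ^ m)) (EY Y (fun x => S z H x ^ m)) hg hη δ hδ hc hs20 ht
      hbig hmomz hB
    rw [MomY.div_pow]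
    exact hfin

end Pool.Agent.MP_a12917_nt_GT
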