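import Mathlib
import Pool.Agent.Lib.MP_a12917_nt_GT.Defs
import Pool.Agent.Lib.MP_a12917_nt_GT.Basic
import Pool.Agent.Lib.MP_a12917_nt_GT.LawA
import Pool.Agent.Lib.MP_a12917_nt_GT.MomY

/-!
# MP_a12917_nt, project GT, module Law: the Gaussian law for S

(`ℓ = hs z`.)
By contradiction: suppose for some `ε, a < b, η` the statement fails for all pairs `(z0, A)`. For every `n`
choose with `z0 = A = n + 1` numbers `z_n ≥ n+1`, `H_n`, `Y_n ≥ z_n^{n+1}` in the range for which the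
difference is `> η`. Let `s_n = (Ico Y_n (2Y_n)).image (Nat.cast)` (integers; card `Y_n`, nonempty as
`Y_n ≥ 1`), `X_n = S z_n H_n/√(EY Y_n S²)`. For every `m`, by `mom_Y` (for all `η' > 0`;
`z_n^{2m+4} ≤ z_n^{n+1} ≤ Y_n` as soon as `n ≥ 2m+3`) the `m`-th moment of `X_n` over `s_n` tends to `gam m`.
So `moments_law` contradicts the choice.
-/

set_option autoImplicit false

noncomputable section

namespace Pool.Agent.MP_a12917_nt_GT

open Finset

theorem law (ε : ℝ) (hε : 0 < ε) (a b : ℝ) (hab : a < b) (η : ℝ) (hη : 0 < η) :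
    ∃ z0 A : ℕ, ∀ z : ℕ, z0 ≤ z → ∀ H : ℕ, (z : ℝ) ^ ε ≤ H → (H : ℝ) ≤ (z : ℝ) ^ (1 - ε) →
      ∀ Y : ℕ, z ^ A ≤ Y →
      |(((Ico Y (2 * Y)).filter (fun x : ℕ =>
            a ≤ S z H (x : ℤ) / Real.sqrt (EY Y (fun x => S z H x ^ 2)) ∧
            S z H (x : ℤ) / Real.sqrt (EY Y (fun x => S z H x ^ 2)) ≤ b)).card : ℝ) / Y -
          (Real.sqrt (2 * Real.pi))⁻¹ * ∫ t in a..b, Real.exp (-t ^ 2 / 2)| ≤ η := by
  by_contra hcon
  push Not at hcon
  have h : ∀ n : ℕ, ∃ z H Y : ℕ, n + 1 ≤ z ∧ (z : ℝ) ^ ε ≤ H ∧ (H : ℝ) ≤ (z : ℝ) ^ (1 - ε) ∧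
      z ^ (n + 1) ≤ Y ∧
      η < |(((Ico Y (2 * Y)).filter (fun x : ℕ =>
            a ≤ S z H (x : ℤ) / Real.sqrt (EY Y (fun x => S z H x ^ 2)) ∧
            S z H (x : ℤ) / Real.sqrt (EY Y (fun x => S z H x ^ 2)) ≤ b)).card : ℝ) / Y -
          (Real.sqrt (2 * Real.pi))⁻¹ * ∫ t in a..b, Real.exp (-t ^ 2 / 2)| := by
    intro n
    obtain ⟨z, h1, H, h2, h3, Y, h4, h5⟩ := hcon (n + 1) (n + 1)
    exact ⟨z, H, Y, h1, h2, h3, h4, h5⟩
  choose z H Y hz hH1 hH2 hY hc using h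
  have hinj : Function.Injective (fun x : ℕ => (x : ℤ)) := Nat.cast_injective
  have hYpos : ∀ n, 0 < Y n := fun n =>
    lt_of_lt_of_le (Nat.pow_pos (by have := hz n; omega)) (hY n)
  have hcard : ∀ n, ((Ico (Y n) (2 * Y n)).image (fun x : ℕ => (x : ℤ))).card = Y n := by
    intro n
    rw [card_image_of_injective _ hinj, Nat.card_Ico]
    omega
  have hT := moments_law (fun n => (Ico (Y n) (2 * Y n)).image (fun x : ℕ => (x : ℤ)))
    (fun n => by
      rw [← card_pos, hcard n]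
      exact hYpos n)
    (fun n x => S (z n) (H n) x / Real.sqrt (EY (Y n) (fun x => S (z n) (H n) x ^ 2)))
    (fun m => by
      rw [Metric.tendsto_atTop]
      intro η' hη'
      obtain ⟨z0, hz0⟩ := mom_Y m ε (η' / 2) hε (half_pos hη')
      refine ⟨max z0 (2 * m + 3), fun n hn => ?_⟩
      have hn1 : z0 ≤ n := (le_max_left _ _).trans hn
      have hn2 : 2 * m + 3 ≤ n := (le_max_right _ _).trans hn
      have h1 : z n ^ (2 * m + 4) ≤ Y n :=
        (Nat.pow_le_pow_right (by have := hz n; omega) (by omega)).trans (hY n)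
      have h2 := (hz0 (z n) (by have := hz n; omega) (H n) (hH1 n) (hH2 n) (Y n) h1).2
      rw [Real.dist_eq, hcard n, sum_image (fun x _ y _ hxy => hinj hxy)]
      have h3 : |EY (Y n) (fun x => (S (z n) (H n) x /
          Real.sqrt (EY (Y n) (fun x => S (z n) (H n) x ^ 2))) ^ m) - gam m| < η' := by
        linarith
      exact h3) a b hab
  have hev := (Metric.tendsto_atTop.1 hT) η hη
  obtain ⟨N, hN⟩ := hev
  have h1 := hN N le_rfl
  rw [Real.dist_eq, hcard N, filter_image, card_image_of_injective _ hinj] at h1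
  exact absurd h1 (not_lt.2 (hc N).le)

end Pool.Agent.MP_a12917_nt_GT
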