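import Mathlib

/-!
# MP_a12917_nt, project GT: the two definitions used in the final statements
-/

set_option autoImplicit false

noncomputable section

namespace Pool.Agent.MP_a12917_nt_GT

open Finset

/-- `∑_{x < n ≤ x+H} #{a ≤ z : a ∣ n} - H ∑_{a ≤ z} 1/a`: the remainder term for the sum over the
short interval `(x, x+H]` of the truncated divisor function (the number of divisors `a ≤ z`). -/
def truncRem (z H x : ℕ) : ℝ :=
  (∑ n ∈ Ioc x (x + H), (((Icc 1 z).filter (fun a => a ∣ n)).card : ℝ)) -
    H * ∑ a ∈ Icc 1 z, 1 / (a : ℝ)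

/-- mean square of the remainder over the integers `x ∈ [Y, 2Y)` -/
def msq (z H Y : ℕ) : ℝ := (∑ x ∈ Ico Y (2 * Y), truncRem z H x ^ 2) / Y

end Pool.Agent.MP_a12917_nt_GT
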