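import Mathlib
import Pool.Agent.Lib.MP_a12917_nt_GT.Stmt
import Pool.Agent.Lib.MP_a12917_nt_GT.Law
import Pool.Agent.Lib.MP_a12917_nt_GT.Conn

/-!
# MP_a12917_nt, project GT: the Gaussian law for the truncated remainder
-/

set_option autoImplicit false

noncomputable section

namespace Pool.Agent.MP_a12917_nt_GT

open Finset

theorem msq_eq (z H Y : ℕ) : msq z H Y = EY Y (fun x => S z H x ^ 2) := by
  simp only [msq, EY, truncRem, S_nat]

theorem main_law (ε : ℝ) (hε : 0 < ε) (a b : ℝ) (hab : a < b) (η : ℝ) (hη : 0 < η) :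
    ∃ z₀ A : ℕ, ∀ z : ℕ, z₀ ≤ z →
      ∀ H : ℕ, (z : ℝ) ^ ε ≤ H → (H : ℝ) ≤ (z : ℝ) ^ (1 - ε) → ∀ Y : ℕ, z ^ A ≤ Y →
        |(((Ico Y (2 * Y)).filter (fun x : ℕ =>
              a ≤ truncRem z H x / Real.sqrt (msq z H Y) ∧
              truncRem z H x / Real.sqrt (msq z H Y) ≤ b)).card : ℝ) / Y -
            (Real.sqrt (2 * Real.pi))⁻¹ * ∫ t in a..b, Real.exp (-t ^ 2 / 2)| ≤ η := by
  obtain ⟨z0, A, h⟩ := law ε hε a b hab η hη
  refine ⟨z0, A, fun z hz H h1 h2 Y hY => ?_⟩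
  have := h z hz H h1 h2 Y hY
  simpa only [msq_eq, truncRem, S_nat] using this

end Pool.Agent.MP_a12917_nt_GT
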