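import Mathlib
import Pool.Agent.Lib.MP_a12917_nt_GT.Defs
import Pool.Agent.Lib.MP_a12917_nt_GT.Basic
import Pool.Agent.Lib.MP_a12917_nt_GT.Bil
import Pool.Agent.Lib.MP_a12917_nt_GT.Fk

/-!
# MP_a12917_nt, project GT, module TrB: sharp transfer of the moments of S to an interval

(`ℓ = hs z`.)
`bil` with `T = Fk z k`, `T' = Fk z l`, `f = S^k`, `h = S^l` (`S_pow`), `L = Lm z`, `δ = 1/z^N`, `N ≥ 2k, 2l`
(so `k + l ≤ N`; `1/z^{k+l} ≥ 1/z^N` etc. since `z ≥ 1`), `log(1/δ) = N log z`; `(S^k)² = S^{2k}`.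
-/

set_option autoImplicit false

noncomputable section

namespace Pool.Agent.MP_a12917_nt_GT

open Finset

theorem transfer2 (k l N z H Y : ℕ) (hz : 1 ≤ z) (hY : 1 ≤ Y) (hk : 2 * k ≤ N) (hl : 2 * l ≤ N) :
    |EY Y (fun x => S z H x ^ (k + l)) - mean (Lm z) (fun x => S z H x ^ (k + l))| ≤
      5 * (z : ℝ) ^ N / (2 * Y) * (1 + N * Real.log z) *
        (Real.sqrt (mean (Lm z) (fun x => S z H x ^ (2 * k))) *
          Real.sqrt (mean (Lm z) (fun x => S z H x ^ (2 * l)))) := by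
  obtain ⟨a, ha⟩ := S_pow z H k hz
  obtain ⟨b, hb⟩ := S_pow z H l hz
  have hz1 : (1 : ℝ) ≤ (z : ℝ) := by exact_mod_cast hz
  have hz0 : (0 : ℝ) < (z : ℝ) := by linarith
  have hle : ∀ n : ℕ, n ≤ N → 1 / (z : ℝ) ^ N ≤ 1 / (z : ℝ) ^ n := fun n hn =>
    one_div_le_one_div_of_le (by positivity) (pow_le_pow_right₀ hz1 hn)
  have hL0 : 0 < Lm z := pow_pos (Nat.factorial_pos z) z
  have h := bil (Fk z k) (Fk z l)
    (fun τ hτ => ⟨((Fk_mem z k τ).1 hτ).1, ((Fk_mem z k τ).1 hτ).2.1⟩)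
    (fun τ hτ => ⟨((Fk_mem z l τ).1 hτ).1, ((Fk_mem z l τ).1 hτ).2.1⟩)
    (Lm z) hL0 (fun τ hτ => ((Fk_mem z k τ).1 hτ).2.2.1)
    (fun τ hτ => ((Fk_mem z l τ).1 hτ).2.2.1) a b (fun x => S z H x ^ k) (fun x => S z H x ^ l)
    ha hb (1 / (z : ℝ) ^ N) (by positivity)
    (by
      rw [div_le_one (by positivity)]
      exact one_le_pow₀ hz1)
    (fun τ hτ τ' hτ' hne => (hle _ (by omega)).trans ((Fk_sp z k k hz τ τ' hτ hτ').1 hne))
    (fun τ hτ τ' hτ' hne => (hle _ (by omega)).trans ((Fk_sp z l l hz τ τ' hτ hτ').1 hne))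
    (fun τ hτ σ hσ hne => (hle _ (by omega)).trans ((Fk_sp z k l hz τ σ hτ hσ).2 hne)) Y hY
  have e1 : (fun x : ℤ => S z H x ^ k * S z H x ^ l) = fun x => S z H x ^ (k + l) := by
    funext x
    rw [pow_add]
  have e2 : ∀ n : ℕ, (fun x : ℤ => (S z H x ^ n) ^ 2) = fun x => S z H x ^ (2 * n) := by
    intro n
    funext x
    rw [← pow_mul, mul_comm]
  have e3 : 5 / (2 * (1 / (z : ℝ) ^ N) * Y) = 5 * (z : ℝ) ^ N / (2 * Y) := by
    have hY0 : (Y : ℝ) ≠ 0 := by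
      have : (1 : ℝ) ≤ (Y : ℝ) := by exact_mod_cast hY
      linarith
    field_simp
  have e4 : Real.log (1 / (1 / (z : ℝ) ^ N)) = N * Real.log z := by
    rw [one_div_one_div, Real.log_pow]
  rw [e1, e2, e2, e3, e4] at h
  exact h

end Pool.Agent.MP_a12917_nt_GT
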