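import Mathlib
import Pool.Agent.Lib.MP_a12917_nt_GT.Defs
import Pool.Agent.Lib.MP_a12917_nt_GT.Basic
import Pool.Agent.Lib.MP_a12917_nt_GT.MomS
import Pool.Agent.Lib.MP_a12917_nt_GT.TrB
import Pool.Agent.Lib.MP_a12917_nt_GT.LowB
import Pool.Agent.Lib.MP_a12917_nt_GT.GamF
import Pool.Agent.Lib.MP_a12917_nt_GT.RSm

/-!
# MP_a12917_nt, project GT, module MomZ: the m-th moment of S over [Y, 2Y) for Y ≥ z^(2⌈m/2⌉ + ε)

(`ℓ = hs z`.)
Let `m ≥ 1`, `k = m/2` (floor), `l = m - k`, `N = 2l = 2⌈m/2⌉ = 2((m+1)/2) ≥ 2`, `σ² = mean (Lm z) S²`,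
`τ² = EY Y S²`. For `Y ≥ z^{N+ε'}` the factor `5 z^N (1 + N log z)/(2Y) ≤ 5 z^{-ε'} (1 + N log z)/2 → 0`. By
`mom_S` for `2k` and `2l`: `mean S^{2k} ≤ (gam(2k)+1) σ^{2k}`, the same for `l`, so `transfer2` gives
`|EY S^m - mean S^m| ≤ η' σ^m`; with `k = l = 1`, `N ≥ 2`: `|τ² - σ²| ≤ η' σ²`. With `mom_S` for `m`:
`|EY S^m - gam m σ^m| ≤ 2η' σ^m`, and `|σ^m - τ^m| ≤ η'' σ^m`; divide by `τ^m`. `σ > 0`: `low_b` (for `ε ≥ 1`
there is no `H` for `z ≥ 2`).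
-/

set_option autoImplicit false

noncomputable section

namespace Pool.Agent.MP_a12917_nt_GT

open Finset

namespace MomZ

theorem cont (g : ℝ) (m : ℕ) (η : ℝ) (hη : 0 < η) : ∃ θ : ℝ, 0 < θ ∧ ∀ a v : ℝ,
    |a - g| ≤ θ → |v - 1| ≤ θ → 0 < v ∧ |a / Real.sqrt v ^ m - g| ≤ η := by
  have h1 : ContinuousAt (fun q : ℝ × ℝ => q.1 / Real.sqrt q.2 ^ m) (g, 1) := by
    refine ContinuousAt.div continuousAt_fst ?_ (by simp)
    exact ((Real.continuous_sqrt.comp continuous_snd).pow m).continuousAt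
  obtain ⟨δ, hδ, h2⟩ := Metric.continuousAt_iff.1 h1 η hη
  refine ⟨min (δ / 2) (1 / 2), by positivity, fun a v ha hv => ?_⟩
  have ha' := ha.trans (min_le_left _ _)
  have hv' := hv.trans (min_le_left _ _)
  have hv2 := (abs_le.1 (hv.trans (min_le_right _ _))).1
  have h3 := h2 (x := (a, v)) (by
    rw [Prod.dist_eq, max_lt_iff]
    constructor
    · rw [Real.dist_eq]
      linarith
    · rw [Real.dist_eq]
      linarith)
  rw [Real.dist_eq] at h3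
  simp only [Real.sqrt_one, one_pow, div_one] at h3
  exact ⟨by linarith, h3.le⟩

theorem decay (N : ℕ) (ε' θ : ℝ) (hε' : 0 < ε') (hθ : 0 < θ) : ∃ z0 : ℕ, ∀ z : ℕ, z0 ≤ z →
    ∀ Y : ℕ, (z : ℝ) ^ ((N : ℝ) + ε') ≤ Y →
      5 * (z : ℝ) ^ N / (2 * Y) * (1 + N * Real.log z) ≤ θ := by
  have h1 := (isLittleO_log_rpow_atTop hε').def (c := θ / (5 * ((N : ℝ) + 1))) (by positivity)
  have h2 : ∀ᶠ x : ℝ in Filter.atTop, 5 / θ ≤ x ^ ε' :=
    (tendsto_rpow_atTop hε').eventually (Filter.eventually_ge_atTop _)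
  have h3 := (h1.and (h2.and (Filter.eventually_ge_atTop (1 : ℝ))))
  obtain ⟨z0, hz0⟩ := Filter.eventually_atTop.1
    (tendsto_natCast_atTop_atTop.eventually h3 : ∀ᶠ z : ℕ in Filter.atTop, _)
  refine ⟨z0, fun z hz Y hY => ?_⟩
  obtain ⟨h4, h5, h6⟩ := hz0 z hz
  have hz0' : (0 : ℝ) < z := by linarith
  have hlog : 0 ≤ Real.log z := Real.log_nonneg h6
  have hp : 0 < (z : ℝ) ^ ε' := Real.rpow_pos_of_pos hz0' ε'
  rw [Real.norm_eq_abs, Real.norm_eq_abs, abs_of_nonneg hlog, abs_of_nonneg hp.le] at h4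
  rw [Real.rpow_add hz0', Real.rpow_natCast] at hY
  have hzN : 0 < (z : ℝ) ^ N := by positivity
  have hY0 : (0 : ℝ) < Y := lt_of_lt_of_le (by positivity) hY
  have h7 : 5 * (z : ℝ) ^ N / (2 * Y) ≤ 5 / (2 * (z : ℝ) ^ ε') := by
    rw [div_le_div_iff₀ (by positivity) (by positivity)]
    have : 10 * ((z : ℝ) ^ N * (z : ℝ) ^ ε') ≤ 10 * Y := by linarith
    nlinarith
  have hL0 : 0 ≤ 1 + (N : ℝ) * Real.log z := by positivity
  refine (mul_le_mul_of_nonneg_right h7 hL0).trans ?_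
  rw [div_mul_eq_mul_div, div_le_iff₀ (by positivity)]
  rw [div_le_iff₀ hθ] at h5
  have h8 : (N : ℝ) * Real.log z ≤ θ / 5 * (z : ℝ) ^ ε' := by
    have h9 : (N : ℝ) * Real.log z ≤ ((N : ℝ) + 1) * (θ / (5 * ((N : ℝ) + 1)) * (z : ℝ) ^ ε') := by
      have h10 : (N : ℝ) * Real.log z ≤ ((N : ℝ) + 1) * Real.log z := by linarith
      exact h10.trans (mul_le_mul_of_nonneg_left h4 (by positivity))
    refine h9.trans (le_of_eq ?_)
    field_simp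
  nlinarith

theorem EY_div (Y m : ℕ) (f : ℤ → ℝ) (t : ℝ) :
    EY Y (fun x => (f x / t) ^ m) = EY Y (fun x => f x ^ m) / t ^ m := by
  have h : ∑ x ∈ Ico Y (2 * Y), (f (x : ℤ) / t) ^ m =
      (∑ x ∈ Ico Y (2 * Y), f (x : ℤ) ^ m) / t ^ m := by
    rw [sum_div]
    exact sum_congr rfl fun x _ => div_pow (f (x : ℤ)) t m
  unfold EY
  rw [h, div_right_comm]

theorem sqrt_mean (k z H : ℕ)
    (h : |mean (Lm z) (fun x => S z H x ^ (2 * k)) -
          gam (2 * k) * Real.sqrt (mean (Lm z) (fun x => S z H x ^ 2)) ^ (2 * k)| ≤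
        1 * Real.sqrt (mean (Lm z) (fun x => S z H x ^ 2)) ^ (2 * k)) :
    Real.sqrt (mean (Lm z) (fun x => S z H x ^ (2 * k))) ≤
      Real.sqrt (gam (2 * k) + 1) * Real.sqrt (mean (Lm z) (fun x => S z H x ^ 2)) ^ k := by
  have h1 := (abs_le.1 h).2
  have h2 : mean (Lm z) (fun x => S z H x ^ (2 * k)) ≤
      (gam (2 * k) + 1) * (Real.sqrt (mean (Lm z) (fun x => S z H x ^ 2)) ^ k) ^ 2 := by
    rw [← pow_mul, mul_comm k 2]
    linarith
  refine (Real.sqrt_le_sqrt h2).trans (le_of_eq ?_)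
  rw [Real.sqrt_mul (by have := gam_nonneg (2 * k); linarith), Real.sqrt_sq (by positivity)]

end MomZ

theorem mom_Z (m : ℕ) (hm : 1 ≤ m) (ε ε' η : ℝ) (hε : 0 < ε) (hε' : 0 < ε') (hη : 0 < η) :
    ∃ z0 : ℕ, ∀ z : ℕ, z0 ≤ z → ∀ H : ℕ, (z : ℝ) ^ ε ≤ H → (H : ℝ) ≤ (z : ℝ) ^ (1 - ε) →
      ∀ Y : ℕ, (z : ℝ) ^ (2 * (((m + 1) / 2 : ℕ) : ℝ) + ε') ≤ Y →
      0 < EY Y (fun x => S z H x ^ 2) ∧
      |EY Y (fun x => (S z H x / Real.sqrt (EY Y (fun x => S z H x ^ 2))) ^ m) - gam m| ≤ η := by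
  rcases le_or_gt 1 ε with h1 | h1
  · refine ⟨2, fun z hz H hH1 hH2 => ?_⟩
    exfalso
    have hz1 : (1 : ℝ) < z := by
      have h2 : 1 < z := by omega
      exact_mod_cast h2
    have h3 : 1 < (z : ℝ) ^ ε := Real.one_lt_rpow hz1 hε
    have h4 : (z : ℝ) ^ (1 - ε) ≤ 1 := Real.rpow_le_one_of_one_le_of_nonpos hz1.le (by linarith)
    linarith
  obtain ⟨θ, hθ, hcont⟩ := MomZ.cont (gam m) m η hη
  obtain ⟨k, hk⟩ : ∃ k, k = m / 2 := ⟨_, rfl⟩
  obtain ⟨l, hl⟩ : ∃ l, l = (m + 1) / 2 := ⟨_, rfl⟩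
  have hkl : k + l = m := by omega
  obtain ⟨K, hK⟩ : ∃ K : ℝ, K = Real.sqrt (gam (2 * k) + 1) * Real.sqrt (gam (2 * l) + 1) :=
    ⟨_, rfl⟩
  have hK0 : 0 ≤ K := by rw [hK]; positivity
  obtain ⟨z1, hz1⟩ := MomZ.decay (2 * l) ε' (θ / (2 * (K + 1))) hε' (by positivity)
  obtain ⟨z2, hz2⟩ := mom_S m ε (θ / 2) hε (by positivity)
  obtain ⟨z3, hz3⟩ := mom_S (2 * k) ε 1 hε one_pos
  obtain ⟨z4, hz4⟩ := mom_S (2 * l) ε 1 hε one_pos
  obtain ⟨c, hc, z5, hz5⟩ := low_b ε hε h1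
  refine ⟨z1 + z2 + z3 + z4 + z5 + 1, fun z hz H hH1 hH2 Y hY => ?_⟩
  have hzpos : (0 : ℝ) < z := by
    have h2 : 0 < z := by omega
    exact_mod_cast h2
  have hH : 1 ≤ H := by
    have h2 : (0 : ℝ) < H := lt_of_lt_of_le (Real.rpow_pos_of_pos hzpos ε) hH1
    exact_mod_cast h2
  have hY1 : 1 ≤ Y := by
    have h2 : (0 : ℝ) < Y := lt_of_lt_of_le (Real.rpow_pos_of_pos hzpos _) hY
    exact_mod_cast h2
  have hY' : (z : ℝ) ^ (((2 * l : ℕ) : ℝ) + ε') ≤ Y := by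
    rw [← hl] at hY
    push_cast
    exact hY
  have a1 := hz1 z (by omega) Y hY'
  have a2 := hz2 z (by omega) H hH1 hH2
  have a3 := MomZ.sqrt_mean k z H (hz3 z (by omega) H hH1 hH2)
  have a4 := MomZ.sqrt_mean l z H (hz4 z (by omega) H hH1 hH2)
  have a5 := hz5 z (by omega) H hH hH2
  have hpos : 0 < mean (Lm z) (fun x => S z H x ^ 2) := by
    refine lt_of_lt_of_le ?_ a5
    have h2 : (0 : ℝ) < H := by exact_mod_cast hH
    have h3 : (0 : ℝ) < hs z := lt_of_lt_of_le one_pos (one_le_hs z (by omega))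
    positivity
  have b1 := transfer2 k l (2 * l) z H Y (by omega) hY1 (by omega) le_rfl
  have b2 := transfer2 1 1 (2 * l) z H Y (by omega) hY1 (by omega) (by omega)
  rw [hkl] at b1
  set δ := 5 * (z : ℝ) ^ (2 * l) / (2 * Y) * (1 + (2 * l : ℕ) * Real.log z) with hδ
  have hδ0 : 0 ≤ δ := by
    have h2 : 0 ≤ Real.log z := Real.log_nonneg (by
      have h3 : 1 ≤ z := by omega
      exact_mod_cast h3)
    rw [hδ]
    positivity
  have e2 : 1 + 1 = 2 := rfl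
  rw [mul_one, e2, Real.mul_self_sqrt hpos.le] at b2
  set σ := Real.sqrt (mean (Lm z) (fun x => S z H x ^ 2)) with hσ
  have hσ0 : 0 < σ := Real.sqrt_pos.2 hpos
  have hσ2 : mean (Lm z) (fun x => S z H x ^ 2) = σ ^ 2 := (Real.sq_sqrt hpos.le).symm
  rw [hσ2] at b2
  have hσm : 0 < σ ^ m := by positivity
  have b3 : |EY Y (fun x => S z H x ^ m) - mean (Lm z) (fun x => S z H x ^ m)| ≤
      δ * K * σ ^ m := by
    refine b1.trans ?_
    rw [mul_assoc δ K]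
    refine mul_le_mul_of_nonneg_left ?_ hδ0
    refine (mul_le_mul a3 a4 (Real.sqrt_nonneg _) (by positivity)).trans (le_of_eq ?_)
    rw [hK, ← hkl, pow_add]
    ring
  have hδK : δ * (K + 1) ≤ θ / 2 := by
    have h2 : δ * (K + 1) ≤ θ / (2 * (K + 1)) * (K + 1) :=
      mul_le_mul_of_nonneg_right a1 (by linarith)
    refine h2.trans (le_of_eq ?_)
    field_simp
  have b4 : |EY Y (fun x => S z H x ^ m) / σ ^ m - gam m| ≤ θ := by
    have h2 : EY Y (fun x => S z H x ^ m) / σ ^ m - gam m =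
        ((EY Y (fun x => S z H x ^ m) - mean (Lm z) (fun x => S z H x ^ m)) +
          (mean (Lm z) (fun x => S z H x ^ m) - gam m * σ ^ m)) / σ ^ m := by
      field_simp
      ring
    rw [h2, abs_div, abs_of_pos hσm, div_le_iff₀ hσm]
    refine (abs_add_le _ _).trans ?_
    have h3 : δ * K * σ ^ m ≤ θ / 2 * σ ^ m :=
      mul_le_mul_of_nonneg_right (by nlinarith) hσm.le
    linarith
  have b5 : |EY Y (fun x => S z H x ^ 2) / σ ^ 2 - 1| ≤ θ := by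
    have h2 : EY Y (fun x => S z H x ^ 2) / σ ^ 2 - 1 =
        (EY Y (fun x => S z H x ^ 2) - σ ^ 2) / σ ^ 2 := by
      field_simp
    rw [h2, abs_div, abs_of_pos (by positivity : 0 < σ ^ 2), div_le_iff₀ (by positivity)]
    refine b2.trans ?_
    exact mul_le_mul_of_nonneg_right (by nlinarith) (by positivity)
  obtain ⟨c1, c2⟩ := hcont _ _ b4 b5
  have hτ : 0 < EY Y (fun x => S z H x ^ 2) := by
    have h2 : EY Y (fun x => S z H x ^ 2) = EY Y (fun x => S z H x ^ 2) / σ ^ 2 * σ ^ 2 := by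
      field_simp
    rw [h2]
    positivity
  refine ⟨hτ, ?_⟩
  rw [MomZ.EY_div]
  have h3 : Real.sqrt (EY Y (fun x => S z H x ^ 2) / σ ^ 2) =
      Real.sqrt (EY Y (fun x => S z H x ^ 2)) / σ := by
    rw [Real.sqrt_div hτ.le, Real.sqrt_sq hσ0.le]
  rw [h3, div_pow, div_div_div_cancel_right₀ hσm.ne'] at c2
  exact c2

end Pool.Agent.MP_a12917_nt_GT
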