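import Mathlib
import Pool.Agent.Lib.MP_a12917_nt_GT.Stmt
import Pool.Agent.Lib.MP_a12917_nt_GT.MomZ
import Pool.Agent.Lib.MP_a12917_nt_GT.Conn

/-!
# MP_a12917_nt, project GT: the moments of the truncated remainder
-/

set_option autoImplicit false

noncomputable section

namespace Pool.Agent.MP_a12917_nt_GT

open Finset

theorem main_moments (m : ℕ) (hm : 1 ≤ m) (ε ε' η : ℝ) (hε : 0 < ε) (hε' : 0 < ε')
    (hη : 0 < η) : ∃ z₀ : ℕ, ∀ z : ℕ, z₀ ≤ z →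
      ∀ H : ℕ, (z : ℝ) ^ ε ≤ H → (H : ℝ) ≤ (z : ℝ) ^ (1 - ε) →
      ∀ Y : ℕ, (z : ℝ) ^ (2 * (((m + 1) / 2 : ℕ) : ℝ) + ε') ≤ Y →
        0 < msq z H Y ∧
        |(∑ x ∈ Ico Y (2 * Y), (truncRem z H x / Real.sqrt (msq z H Y)) ^ m) / Y -
          (if Even m then (m.factorial : ℝ) / (2 ^ (m / 2) * (m / 2).factorial) else 0)| ≤ η := by
  obtain ⟨z0, h⟩ := mom_Z m hm ε ε' η hε hε' hη
  refine ⟨z0, fun z hz H h1 h2 Y hY => ?_⟩
  obtain ⟨h3, h4⟩ := h z hz H h1 h2 Y hY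
  have hms : ∀ Y : ℕ, msq z H Y = EY Y (fun x => S z H x ^ 2) := by
    intro Y
    simp only [msq, EY, truncRem, S_nat]
  refine ⟨by rw [hms]; exact h3, ?_⟩
  rw [gam_eq] at h4
  simpa only [EY, hms, truncRem, S_nat] using h4

end Pool.Agent.MP_a12917_nt_GT
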